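import Pool.Agent.TBirN.Def
import Pool.Agent.TBirK.Wjk
import Pool.Agent.TBirK.Adk

/-!
# The inner number of an analytic multiple value

`Nj.iq`: the symbol in `Iq` is almost everywhere `exp (h (e y))`: `isUnit_expJ` (as in `wj_ix`, `exists_iq` of TBirK/Wjk.lean). `Nj.reg`: the product vanishes at `z`. `Nj.pstar`: on the circle `conj z - conj t = - (z - t) / (z t)`, `pstar phi z = conj (phi z)`; the constant is absorbed in `h` (as `Onq.pstar` in TBirP/AdjP.lean, `wj_pstar_iff`); `AdjQ.ana`, `pstar_loc` for the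
derivative.
-/

set_option autoImplicit false

open MeasureTheory Complex Set Filter Topology Metric AddCircle
open scoped ComplexConjugate InnerProductSpace ENNReal

namespace Pool.Agent.TBirN

open Pool.Agent.TBir Pool.Agent.TBirG Pool.Agent.TBirC Pool.Agent.TBirJ Pool.Agent.TBirK
open Pool.Agent.TBirP (E qT)

variable {phi : ℂ → ℂ} {F : Finset ℂ} {u v : ℂ → ℂ} {q : ℂ} {k : ℕ} {x : ℤ}

open Pool.Agent.TBirJ.WjA

/-- points of the circle are not zero -/
private theorem mi_ne {z : ℂ} (hz : z ∈ sphere (0 : ℂ) 1) : z ≠ 0 := by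
  rintro rfl
  rw [mem_sphere_zero_iff_norm, norm_zero] at hz
  exact zero_ne_one hz

/-- conjugation on the circle -/
private theorem mi_conj {z : ℂ} (hz : z ∈ sphere (0 : ℂ) 1) : conj z = z⁻¹ := by
  rw [Complex.inv_def, Complex.normSq_eq_norm_sq, mem_sphere_zero_iff_norm.1 hz]
  simp

theorem Nj.reg (h : Nj phi F q k x) {z : ℂ} (hz : z ∈ sphere (0 : ℂ) 1) (hzF : z ∉ F)
    (hq : phi z = q) : AnalyticAt ℂ phi z ∧ deriv phi z ≠ 0 := by
  obtain ⟨t, -, ht, g, -, -, hg⟩ := h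
  have h1 := hg z hz hzF
  rw [hq, sub_self] at h1
  have h2 : ∏ j, (z - t j) = 0 := by
    rcases mul_eq_zero.1 h1.symm with h3 | h3
    · rcases mul_eq_zero.1 h3 with h4 | h4
      · exact absurd h4 (zpow_ne_zero _ (mi_ne hz))
      · exact h4
    · exact absurd h3 (Complex.exp_ne_zero _)
  obtain ⟨j, -, hj⟩ := Finset.prod_eq_zero_iff.1 h2
  rw [sub_eq_zero.1 hj]
  exact ⟨(ht j).2.2.1, (ht j).2.2.2.2⟩

theorem Nj.iq (hc : Cv phi F u v) (h : Nj phi F q k x) : Iq phi q x := by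
  classical
  obtain ⟨t, hinj, ht, H, hH, hlim, hphi⟩ := h
  refine ⟨k, t, hinj, fun j => ⟨(ht j).1, (ht j).2.2.1, (ht j).2.2.2.1, (ht j).2.2.2.2⟩, ?_⟩
  choose! a b ha hb hab using hlim
  obtain ⟨r, hr⟩ := exists_rad hc.circ
  obtain ⟨kap, hkap⟩ : ∃ kap : ℂ → ℂ, kap = fun t => b t - a t := ⟨_, rfl⟩
  obtain ⟨g, hg, hgG, -⟩ := ext_cont hc.circ
    (G := fun z => H z - ∑ t ∈ F, kap t * (ch r t z : ℂ)) (hH.sub (sum_cont hc.circ hr kap)) (by
      intro t ht
      obtain ⟨c, hc1, hc2⟩ := sum_lim hc.circ hr kap ht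
      refine ⟨(a t + b t) / 2 - c, ?_, ?_⟩
      · have h1 := (ha t ht).sub hc1
        have h2 : a t - (c - kap t / 2) = (a t + b t) / 2 - c := by
          rw [hkap]
          ring
        rw [h2] at h1
        exact h1
      · have h1 := (hb t ht).sub hc2
        have h2 : b t - (c + kap t / 2) = (a t + b t) / 2 - c := by
          rw [hkap]
          ring
        rw [h2] at h1
        exact h1)
  have h1 := isUnit_expJ hc.circ hr hg (kap := kap) fun t ht => by
    rw [hkap]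
    exact hab t ht
  rw [mf_congr (b := fun x => exp (g (e x) + ∑ t ∈ F, kap t * (ch r t (e x) : ℂ))) ?_]
  · exact h1
  · filter_upwards [ae_notin F, ae_notin (Finset.univ.image t)] with y hy hy2
    have h3 : ∏ j, (e y - t j) ≠ 0 := Finset.prod_ne_zero_iff.2 fun j _ h4 => hy2 (by
      rw [sub_eq_zero.1 h4]
      exact Finset.mem_image_of_mem t (Finset.mem_univ j))
    rw [hphi (e y) (he y) hy, hgG (e y) (he y) hy, sub_add_cancel, mul_right_comm,
      mul_div_cancel_right₀ _ h3, ← mul_assoc, ← zpow_add₀ (PsiAux.e_ne y), neg_add_cancel,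
      zpow_zero, one_mul]

theorem Nj.pstar (h : Nj phi F q k x) : Nj (pstar phi) F (conj q) k (-(x + k)) := by
  obtain ⟨t, hinj, ht, g, hg, hlim, hg'⟩ := h
  have hts : ∀ j, t j ∈ sphere (0 : ℂ) 1 := fun j => mem_sphere_zero_iff_norm.2 (ht j).1
  have ht0 : ∀ j, t j ≠ 0 := fun j => mi_ne (hts j)
  have hc0 : (∏ j, (-(t j)⁻¹)) ≠ 0 :=
    Finset.prod_ne_zero_iff.2 fun j _ => neg_ne_zero.2 (inv_ne_zero (ht0 j))
  refine ⟨t, hinj, fun j => ?_, fun z => conj (g z) + Complex.log (∏ j, (-(t j)⁻¹)),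
    (Complex.continuous_conj.comp_continuousOn hg).add continuousOn_const, fun s hs => ?_,
    fun z hz hzF => ?_⟩
  · obtain ⟨h1, hF, h2, h3, h4⟩ := ht j
    obtain ⟨h5, h6⟩ := TBirP.pstar_loc h1 h2
    refine ⟨h1, hF, TBirP.AdjQ.ana h1 h2, ?_, fun h0 => ?_⟩
    · rw [TBirP.AdjQ.on h1, h3]
    · rw [h0, mul_zero] at h6
      have h7 : conj (t j * deriv phi (t j)) = 0 := neg_eq_zero.1 h6.symm
      rw [map_eq_zero] at h7
      exact mul_ne_zero (ht0 j) h4 h7
  · obtain ⟨a, b, ha, hb, hab⟩ := hlim s hs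
    refine ⟨conj a + Complex.log (∏ j, (-(t j)⁻¹)), conj b + Complex.log (∏ j, (-(t j)⁻¹)),
      ((Complex.continuous_conj.tendsto a).comp ha).add_const _,
      ((Complex.continuous_conj.tendsto b).comp hb).add_const _, ?_⟩
    rw [add_sub_add_right_eq_sub, ← map_sub, Complex.conj_im, abs_neg]
    exact hab
  · have hz0 : z ≠ 0 := mi_ne hz
    have h1 : ∀ j, conj (z - t j) = -(t j)⁻¹ * (z⁻¹ * (z - t j)) := by
      intro j
      have h2 := ht0 j
      rw [map_sub, mi_conj hz, mi_conj (hts j)]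
      field_simp
      ring
    have h2 : conj (∏ j, (z - t j)) = (∏ j, (-(t j)⁻¹)) * ((z⁻¹) ^ k * ∏ j, (z - t j)) := by
      rw [map_prod, Finset.prod_congr rfl fun j _ => h1 j, Finset.prod_mul_distrib,
        Finset.prod_mul_distrib, Finset.prod_const, Finset.card_univ, Fintype.card_fin]
    have h3 : (z⁻¹) ^ x * (z⁻¹) ^ k = z ^ (-(x + k)) := by
      rw [← zpow_natCast (z⁻¹) k, ← zpow_add₀ (inv_ne_zero hz0), inv_zpow, zpow_neg]
    rw [TBirP.AdjQ.on (mem_sphere_zero_iff_norm.1 hz), ← map_sub, hg' z hz hzF, map_mul, map_mul,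
      map_zpow₀, mi_conj hz, ← Complex.exp_conj, h2, Complex.exp_add, Complex.exp_log hc0, ← h3]
    ring

end Pool.Agent.TBirN
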