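import Pool.Agent.TBirN.Def
import Pool.Agent.TBirN.Mi
import Pool.Agent.TBirK.Adk

/-!
# The adjoint

As `CCross.pstar` in TBirK/Adk.lean; `pstar phi (z * E y) = conj (phi (z * E y))` on the circle, so `tg (pstar phi) z = conj (tg phi z)`, and `C^2` is preserved.
-/

set_option autoImplicit false

open MeasureTheory Complex Set Filter Topology Metric AddCircle
open scoped ComplexConjugate InnerProductSpace ENNReal

namespace Pool.Agent.TBirN

open Pool.Agent.TBir Pool.Agent.TBirG Pool.Agent.TBirC Pool.Agent.TBirJ Pool.Agent.TBirK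
open Pool.Agent.TBirP (E qT)
open Pool.Agent.TBirS (DR)

variable {phi : ℂ → ℂ} {F : Finset ℂ} {u v : ℂ → ℂ}

private theorem ad_seg {a b w : ℂ} (h : w ∈ segment ℝ (conj a) (conj b)) :
    conj w ∈ segment ℝ a b := by
  obtain ⟨r, s, hr, hs, hrs, rfl⟩ := h
  refine ⟨r, s, hr, hs, hrs, ?_⟩
  simp

private theorem ad_inj {z z' : ℂ} (hz : ‖z‖ = 1) (hz' : ‖z'‖ = 1)
    (h : pstar phi z = pstar phi z') : phi z = phi z' := by
  rw [TBirP.AdjQ.on hz, TBirP.AdjQ.on hz'] at h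
  exact (starRingEnd ℂ).injective h

private theorem ad_fun {t : ℂ} (ht : ‖t‖ = 1) :
    (fun y : ℝ => pstar phi (t * E y)) = fun y : ℝ => conj (phi (t * E y)) := by
  funext y
  have h5 : ‖t * E y‖ = 1 := by
    rw [norm_mul, ht, one_mul, E]
    exact Complex.norm_exp_ofReal_mul_I _
  exact TBirP.AdjQ.on h5

private theorem ad_tg {t : ℂ} (ht : ‖t‖ = 1) : tg (pstar phi) t = conj (tg phi t) := by
  unfold tg
  rw [ad_fun ht]
  have h : deriv (fun y : ℝ => star (phi (t * E y))) 0 = star (deriv (fun y : ℝ => phi (t * E y)) 0) :=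
    deriv.star
  exact h

private theorem ad_smooth {t : ℂ} (ht : ‖t‖ = 1)
    (h : ContDiffAt ℝ 2 (fun y : ℝ => phi (t * E y)) 0) :
    ContDiffAt ℝ 2 (fun y : ℝ => pstar phi (t * E y)) 0 := by
  rw [ad_fun ht]
  exact Complex.conjCLE.contDiff.contDiffAt.comp (0 : ℝ) h

theorem Dt.pstar {t1 t2 : ℂ} (h : Dt phi F t1 t2) : Dt (pstar phi) F t1 t2 := by
  refine ⟨h.n1, h.n2, h.f1, h.f2, h.ne, ?_, fun z hz hzF hq => h.only z hz hzF (ad_inj hz h.n1 hq),
    fun hc => h.trans ?_⟩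
  · rw [TBirP.AdjQ.on h.n1, TBirP.AdjQ.on h.n2, h.val]
  · rw [ad_tg h.n1, ad_tg h.n2, ← map_mul, Complex.conj_im, neg_eq_zero] at hc
    exact hc

theorem Dp.pstar {t1 t2 : ℂ} (h : Dp phi F t1 t2) : Dp (pstar phi) F t1 t2 :=
  ⟨h.toDt.pstar, ad_smooth h.n1 h.smooth1, ad_smooth h.n2 h.smooth2⟩

/-- transfer of winding numbers near `q` -/
private theorem ad_freq {q : ℂ} {p r : ℤ → Prop} (hpr : ∀ n, p n → r (-n))
    (h : ∃ᶠ l in 𝓝 (conj q), ∃ n, p n ∧ Wj (pstar phi) F l n) :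
    ∃ᶠ l in 𝓝 q, ∃ n, r n ∧ Wj phi F l n := by
  have h1 : Tendsto (fun z : ℂ => conj z) (𝓝 (conj q)) (𝓝 q) := by
    have h2 := Complex.continuous_conj.tendsto (conj q)
    rwa [Complex.conj_conj] at h2
  refine h1.frequently (h.mono ?_)
  rintro l ⟨n, hn, hw⟩
  refine ⟨-n, hpr n hn, ?_⟩
  rw [← wj_pstar_iff, Complex.conj_conj]
  exact hw

private theorem ad_ev {q : ℂ} {p r : ℤ → Prop} (hpr : ∀ n, p (-n) → r n)
    (h : ∀ᶠ l in 𝓝 (conj q), ∀ n, Wj (pstar phi) F l n → p n) :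
    ∀ᶠ l in 𝓝 q, ∀ n, Wj phi F l n → r n := by
  have h1 : Tendsto (fun z : ℂ => conj z) (𝓝 q) (𝓝 (conj q)) :=
    Complex.continuous_conj.tendsto q
  filter_upwards [h1.eventually h] with l hl n hn
  refine hpr n (hl (-n) ?_)
  rw [wj_pstar_iff, neg_neg]
  exact hn

theorem NCross.pstar (h : NCross phi F u v) :
    NCross (pstar phi) F (fun t => conj (u t)) (fun t => conj (v t)) := by
  refine ⟨⟨h.toPwC.pstar, fun t ht z hz hzF hcon => ?_, fun t ht t' ht' hne => ?_,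
    ?_⟩, fun z1 hz1 hF1 z2 hz2 hF2 hne heq => ?_⟩
  · have h1 := ad_seg hcon
    rw [TBirP.AdjQ.on (mem_sphere_zero_iff_norm.1 hz), Complex.conj_conj] at h1
    exact h.sep t ht z hz hzF h1
  · rw [Set.disjoint_left]
    intro w hw hw'
    exact Set.disjoint_left.1 (h.seg t ht t' ht' hne) (ad_seg hw) (ad_seg hw')
  · obtain ⟨D, hD, hinj⟩ := h.inj
    refine ⟨D, hD, fun z hz z' hz' h1 => hinj hz hz' ?_⟩
    exact ad_inj (mem_sphere_zero_iff_norm.1 hz.1) (mem_sphere_zero_iff_norm.1 hz'.1) h1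
  · have n1 : ‖z1‖ = 1 := mem_sphere_zero_iff_norm.1 hz1
    have n2 : ‖z2‖ = 1 := mem_sphere_zero_iff_norm.1 hz2
    rcases h.mult z1 hz1 hF1 z2 hz2 hF2 hne (ad_inj n1 n2 heq) with ⟨hd, hdp⟩ | ⟨w, hw⟩ |
      ⟨k, x, hk, hx1, hx2⟩
    · refine Or.inl ⟨hd.pstar, fun h1 h2 => (hdp ?_ ?_).pstar⟩
      · rw [TBirP.AdjQ.on n1] at h2
        exact ad_freq (p := fun n => 0 < n) (r := fun n => n < 0) (fun n hn => by
          show -n < 0
          have : 0 < n := hn
          omega) h2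
      · rw [TBirP.AdjQ.on n1] at h1
        exact ad_freq (p := fun n => n < 0) (r := fun n => 0 < n) (fun n hn => by
          show 0 < -n
          have : n < 0 := hn
          omega) h1
    · refine Or.inr (Or.inl ⟨conj w, fun z hz hzF hzq => ?_⟩)
      have n3 : ‖z‖ = 1 := mem_sphere_zero_iff_norm.1 hz
      obtain ⟨h0, h1⟩ := hw z hz hzF (ad_inj n3 n1 hzq)
      refine ⟨TBirP.AdjQ.ana n3 h0, ?_⟩
      have h2 := (TBirP.pstar_loc n3 h0).2
      rw [h2, Complex.conj_conj]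
      have h3 : w * (I * -conj (z * deriv phi z)) = conj (conj w * (I * (z * deriv phi z))) := by
        rw [map_mul (starRingEnd ℂ) (conj w), map_mul (starRingEnd ℂ) I, Complex.conj_conj,
          Complex.conj_I]
        ring
      rw [h3, Complex.conj_re]
      exact h1
    · refine Or.inr (Or.inr ⟨k, -(x + k), ?_, fun h1 => ?_, fun h1 => ?_⟩)
      · rw [TBirP.AdjQ.on n1]
        exact hk.pstar
      · rw [TBirP.AdjQ.on n1] at h1
        have h2 := hx2 (ad_ev (p := fun n => 0 ≤ n) (r := fun n => n ≤ 0) (fun n hn => by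
          show n ≤ 0
          have : 0 ≤ -n := hn
          omega) h1)
        omega
      · rw [TBirP.AdjQ.on n1] at h1
        have h2 := hx1 (ad_ev (p := fun n => n ≤ 0) (r := fun n => 0 ≤ n) (fun n hn => by
          show 0 ≤ n
          have : -n ≤ 0 := hn
          omega) h1)
        omega

end Pool.Agent.TBirN
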