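import Pool.Agent.TBirN.Def
import Pool.Agent.TBirK.Cvk
import Pool.Agent.TBirK.Vlk
import Pool.Agent.TBirK.Sdl

/-!
# The geometry near a double point

`K = Gam phi F u v`, `q = phi t1`, `a j = I / D_j`, `D_j = tg phi (t j)`. Coordinates of `l`: `X = re (a2 (l - q))`, `Y = re (a1 (l - q))` (`trans`), and `P a1 a2 q x y` is the point with the coordinates `x`, `y`; the norm of `l - q` is at most `M max |X| |Y|` (`P_norm`).

Near `q` the set `K` consists of the values of points near `t1` or near `t2` (`near_K`: compactness, `only`, `hs`). On the branch at `t1` the function `X` is injective and `|Y| ≤ ε |X|` near `q` (`branch`, strict derivatives), and with `X`, `Y` exchanged on the branch at `t2`.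
This is the structure `Loc` (`loc_of`). So the segment `X = x`, `|Y| ≤ |x|` (`x ≠ 0` small) meets `K` in at most one point (`Loc.uniq`), and its ends are in cones (`Loc.cone`, `kap M < 1`).

The second and the third part of `Cr`: the two parts of the segment through `phi z` (`Loc.two`, `Loc.pt`). The fourth part: `l ∉ K`, `|Y| ≤ |X|`; one of the two parts of the segment through `l` does not meet `K` (`Loc.four`, `Loc.all`). The first part: on `K` near `q` one of `|X|`, `|Y|` is at most `kap |l - q|`. The last part: `near_K`.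
-/

set_option autoImplicit false

open MeasureTheory Complex Set Filter Topology Metric AddCircle
open scoped ComplexConjugate InnerProductSpace ENNReal

namespace Pool.Agent.TBirN

open Pool.Agent.TBir Pool.Agent.TBirG Pool.Agent.TBirC Pool.Agent.TBirJ Pool.Agent.TBirK
open Pool.Agent.TBirP (E qT)
open Pool.Agent.TBirS (DR)

variable {phi : ℂ → ℂ} {F : Finset ℂ} {u v : ℂ → ℂ} {t1 t2 : ℂ}

namespace Cg

open Pool.Agent.TBirP (nb_E_mem nb_E_zero nb_E_cont nb_ne nb_arg nb_arg_eq)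

/-- The point with the coordinates `x = re (a2 (l - q))`, `y = re (a1 (l - q))`. -/
noncomputable def P (a1 a2 q : ℂ) (x y : ℝ) : ℂ :=
  q + (((x / (a1 * conj a2).im : ℝ) : ℂ) * (I * conj a1) -
    ((y / (a1 * conj a2).im : ℝ) : ℂ) * (I * conj a2))

theorem det_eq (a1 a2 : ℂ) : (a1 * conj a2).im = a1.im * a2.re - a1.re * a2.im := by
  simp only [Complex.mul_im, Complex.conj_re, Complex.conj_im]
  ring

theorem P_X {a1 a2 q : ℂ} (h : (a1 * conj a2).im ≠ 0) (x y : ℝ) :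
    (a2 * (P a1 a2 q x y - q)).re = x := by
  unfold P
  rw [add_sub_cancel_left]
  have hD := det_eq a1 a2
  obtain ⟨Δ, hΔ⟩ : ∃ Δ, Δ = (a1 * conj a2).im := ⟨_, rfl⟩
  rw [← hΔ] at h hD ⊢
  simp only [Complex.mul_re, Complex.mul_im, Complex.sub_re, Complex.sub_im, Complex.ofReal_re,
    Complex.ofReal_im, Complex.I_re, Complex.I_im, Complex.conj_re, Complex.conj_im]
  field_simp
  rw [hD]
  ring

theorem P_Y {a1 a2 q : ℂ} (h : (a1 * conj a2).im ≠ 0) (x y : ℝ) :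
    (a1 * (P a1 a2 q x y - q)).re = y := by
  unfold P
  rw [add_sub_cancel_left]
  have hD := det_eq a1 a2
  obtain ⟨Δ, hΔ⟩ : ∃ Δ, Δ = (a1 * conj a2).im := ⟨_, rfl⟩
  rw [← hΔ] at h hD ⊢
  simp only [Complex.mul_re, Complex.mul_im, Complex.sub_re, Complex.sub_im, Complex.ofReal_re,
    Complex.ofReal_im, Complex.I_re, Complex.I_im, Complex.conj_re, Complex.conj_im]
  field_simp
  rw [hD]
  ring

theorem P_eta {a1 a2 q : ℂ} (h : (a1 * conj a2).im ≠ 0) (l : ℂ) :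
    P a1 a2 q (a2 * (l - q)).re (a1 * (l - q)).re = l := by
  obtain ⟨w, hw⟩ : ∃ w, w = l - q := ⟨_, rfl⟩
  have hl : l = q + w := by rw [hw]; ring
  rw [← hw]
  unfold P
  rw [hl]
  congr 1
  have hD := det_eq a1 a2
  obtain ⟨Δ, hΔ⟩ : ∃ Δ, Δ = (a1 * conj a2).im := ⟨_, rfl⟩
  rw [← hΔ] at h hD ⊢
  apply Complex.ext
  · simp only [Complex.mul_re, Complex.mul_im, Complex.sub_re, Complex.ofReal_re,
      Complex.ofReal_im, Complex.I_re, Complex.I_im, Complex.conj_re, Complex.conj_im]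
    field_simp
    rw [hD]
    ring
  · simp only [Complex.mul_re, Complex.mul_im, Complex.sub_im, Complex.ofReal_re,
      Complex.ofReal_im, Complex.I_re, Complex.I_im, Complex.conj_re, Complex.conj_im]
    field_simp
    rw [hD]
    ring

theorem P_norm (a1 a2 q : ℂ) (x y : ℝ) : ‖P a1 a2 q x y - q‖ ≤
    (‖a1‖ + ‖a2‖) / |(a1 * conj a2).im| * max |x| |y| := by
  unfold P
  rw [add_sub_cancel_left]
  refine (norm_sub_le _ _).trans ?_
  rw [norm_mul, norm_mul, norm_mul, norm_mul, Complex.norm_conj, Complex.norm_conj, Complex.norm_I,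
    one_mul, one_mul, Complex.norm_real, Complex.norm_real, Real.norm_eq_abs, Real.norm_eq_abs,
    abs_div, abs_div]
  have h1 : |x| ≤ max |x| |y| := le_max_left _ _
  have h2 : |y| ≤ max |x| |y| := le_max_right _ _
  have h3 : |x| / |(a1 * conj a2).im| ≤ max |x| |y| / |(a1 * conj a2).im| := by gcongr
  have h4 : |y| / |(a1 * conj a2).im| ≤ max |x| |y| / |(a1 * conj a2).im| := by gcongr
  calc |x| / |(a1 * conj a2).im| * ‖a1‖ + |y| / |(a1 * conj a2).im| * ‖a2‖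
      ≤ max |x| |y| / |(a1 * conj a2).im| * ‖a1‖ + max |x| |y| / |(a1 * conj a2).im| * ‖a2‖ := by
        gcongr
    _ = (‖a1‖ + ‖a2‖) / |(a1 * conj a2).im| * max |x| |y| := by ring

theorem P_cont (a1 a2 q : ℂ) (x : ℝ) : Continuous fun y : ℝ => P a1 a2 q x y := by
  unfold P
  have h1 : Continuous fun y : ℝ => ((y / (a1 * conj a2).im : ℝ) : ℂ) :=
    Complex.continuous_ofReal.comp (continuous_id.div_const _)
  exact continuous_const.add (continuous_const.sub (h1.mul continuous_const))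

theorem P_swap (a1 a2 q : ℂ) (x y : ℝ) : P a2 a1 q y x = P a1 a2 q x y := by
  have h : (a2 * conj a1).im = -(a1 * conj a2).im := by
    simp only [Complex.mul_im, Complex.conj_re, Complex.conj_im]
    ring
  unfold P
  rw [h, div_neg, div_neg]
  push_cast
  ring

theorem Sx_swap (a1 a2 q : ℂ) (kap r s1 s2 : ℝ) : Sx a1 a2 q kap r s1 s2 = Sx a2 a1 q kap r s2 s1 := by
  ext l
  unfold Sx
  constructor
  · rintro ⟨h1, h2, h3⟩
    exact ⟨h1, h3, h2⟩
  · rintro ⟨h1, h2, h3⟩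
    exact ⟨h1, h3, h2⟩

theorem sgn_ex {x : ℝ} (hx : x ≠ 0) : ∃ s : ℝ, (s = 1 ∨ s = -1) ∧ s * x = |x| := by
  rcases lt_or_gt_of_ne hx with h | h
  · exact ⟨-1, Or.inr rfl, by rw [abs_of_neg h]; ring⟩
  · exact ⟨1, Or.inl rfl, by rw [abs_of_pos h]; ring⟩

/-- Local description of the set `K` near `q`, seen from the branch `K1`. -/
structure Loc (a1 a2 q : ℂ) (K K1 K2 : Set ℂ) (M kap r : ℝ) : Prop where
  tr : (a1 * conj a2).im ≠ 0
  nP : ∀ x y : ℝ, ‖P a1 a2 q x y - q‖ ≤ M * max |x| |y|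
  k0 : 0 < kap
  kM : kap * M < 1
  cov : ∀ l ∈ K, ‖l - q‖ < r → l ∈ K1 ∨ l ∈ K2
  inj : ∀ l ∈ K1, ∀ l' ∈ K1, (a2 * (l - q)).re = (a2 * (l' - q)).re → l = l'
  sm2 : ∀ l ∈ K2, ‖l - q‖ < r → |(a2 * (l - q)).re| ≤ 1 / 2 * |(a1 * (l - q)).re|

variable {a1 a2 q : ℂ} {K K1 K2 : Set ℂ} {M kap r : ℝ}

theorem Loc.lt (h : Loc a1 a2 q K K1 K2 M kap r) {x y : ℝ} (hxr : M * |x| < r) (hy : |y| ≤ |x|) :
    ‖P a1 a2 q x y - q‖ < r := by
  refine (h.nP x y).trans_lt ?_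
  rwa [max_eq_left hy]

theorem Loc.one (h : Loc a1 a2 q K K1 K2 M kap r) {x y : ℝ} (hx : x ≠ 0) (hxr : M * |x| < r)
    (hy : |y| ≤ |x|) (hp : P a1 a2 q x y ∈ K) : P a1 a2 q x y ∈ K1 := by
  have h1 := h.lt hxr hy
  rcases h.cov _ hp h1 with h2 | h2
  · exact h2
  · exfalso
    have h3 := h.sm2 _ h2 h1
    rw [P_X h.tr, P_Y h.tr] at h3
    have h4 := abs_pos.2 hx
    linarith

theorem Loc.uniq (h : Loc a1 a2 q K K1 K2 M kap r) {x y y' : ℝ} (hx : x ≠ 0) (hxr : M * |x| < r)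
    (hy : |y| ≤ |x|) (hy' : |y'| ≤ |x|) (hp : P a1 a2 q x y ∈ K) (hp' : P a1 a2 q x y' ∈ K) :
    y = y' := by
  have h1 := h.inj _ (h.one hx hxr hy hp) _ (h.one hx hxr hy' hp') (by rw [P_X h.tr, P_X h.tr])
  rw [← P_Y (q := q) h.tr x y, h1, P_Y h.tr]

theorem Loc.cone (h : Loc a1 a2 q K K1 K2 M kap r) {x s1 s2 : ℝ} (hx : x ≠ 0)
    (hxr : M * |x| < r) (h1 : s1 = 1 ∨ s1 = -1) (h2 : s2 * x = |x|) :
    P a1 a2 q x (s1 * |x|) ∈ Sx a1 a2 q kap r s1 s2 := by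
  have h4 : |(s1 * |x|)| ≤ |x| := by
    rcases h1 with rfl | rfl
    · rw [one_mul, abs_abs]
    · rw [neg_one_mul, abs_neg, abs_abs]
  have h5 : kap * ‖P a1 a2 q x (s1 * |x|) - q‖ < |x| := by
    have h6 := h.nP x (s1 * |x|)
    rw [max_eq_left h4] at h6
    have h7 : kap * ‖P a1 a2 q x (s1 * |x|) - q‖ ≤ kap * (M * |x|) :=
      mul_le_mul_of_nonneg_left h6 h.k0.le
    have h8 : kap * (M * |x|) = kap * M * |x| := by ring
    have h9 : kap * M * |x| < 1 * |x| := mul_lt_mul_of_pos_right h.kM (abs_pos.2 hx)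
    linarith
  have h6 : s1 * (s1 * |x|) = |x| := by
    rcases h1 with rfl | rfl
    · rw [one_mul, one_mul]
    · ring
  refine ⟨?_, ?_, ?_⟩
  · rw [mem_ball, dist_eq_norm]
    exact h.lt hxr h4
  · rw [P_Y h.tr, h6]
    exact h5
  · rw [P_X h.tr, h2]
    exact h5

theorem Loc.two (h : Loc a1 a2 q K K1 K2 M kap r) {l : ℂ} (hl : l ∈ K)
    (hX : (a2 * (l - q)).re ≠ 0) (hY : |(a1 * (l - q)).re| < |(a2 * (l - q)).re|)
    (hr : M * |(a2 * (l - q)).re| < r) :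
    ∃ (A B : Set ℂ) (s : ℝ), (s = 1 ∨ s = -1) ∧ IsPreconnected A ∧
      IsPreconnected B ∧ A ⊆ Kᶜ ∧ B ⊆ Kᶜ ∧ l ∈ closure A ∧ l ∈ closure B ∧
      (A ∩ Sx a1 a2 q kap r (-1) s).Nonempty ∧ (B ∩ Sx a1 a2 q kap r 1 s).Nonempty ∧
      A ⊆ ball q r ∧ B ⊆ ball q r := by
  have hPl := P_eta (q := q) h.tr l
  obtain ⟨x, hx⟩ : ∃ x, x = (a2 * (l - q)).re := ⟨_, rfl⟩
  obtain ⟨y, hy⟩ : ∃ y, y = (a1 * (l - q)).re := ⟨_, rfl⟩
  rw [← hx, ← hy] at hPl hY
  rw [← hx] at hX hr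
  obtain ⟨s, hs, hsx⟩ := sgn_ex hX
  have hy1 := abs_lt.1 hY
  have hpK : P a1 a2 q x y ∈ K := by rw [hPl]; exact hl
  refine ⟨(fun y' => P a1 a2 q x y') '' Ico (-|x|) y, (fun y' => P a1 a2 q x y') '' Ioc y |x|, s,
    hs, isPreconnected_Ico.image _ (P_cont _ _ _ _).continuousOn,
    isPreconnected_Ioc.image _ (P_cont _ _ _ _).continuousOn, ?_, ?_, ?_, ?_, ?_, ?_, ?_, ?_⟩
  · rintro _ ⟨y', hy', rfl⟩ hcon
    have h1 : |y'| ≤ |x| := abs_le.2 ⟨hy'.1, by linarith [hy'.2]⟩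
    have h2 := h.uniq hX hr hY.le h1 hpK hcon
    linarith [hy'.2]
  · rintro _ ⟨y', hy', rfl⟩ hcon
    have h1 : |y'| ≤ |x| := abs_le.2 ⟨by linarith [hy'.1], hy'.2⟩
    have h2 := h.uniq hX hr hY.le h1 hpK hcon
    linarith [hy'.1]
  · have h1 : Tendsto (fun y' => P a1 a2 q x y') (𝓝[<] y) (𝓝 l) := by
      have h2 := ((P_cont a1 a2 q x).tendsto y)
      rw [hPl] at h2
      exact h2.mono_left nhdsWithin_le_nhds
    refine mem_closure_of_tendsto h1 ?_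
    filter_upwards [Ico_mem_nhdsLT hy1.1] with y' hy'
    exact mem_image_of_mem _ hy'
  · have h1 : Tendsto (fun y' => P a1 a2 q x y') (𝓝[>] y) (𝓝 l) := by
      have h2 := ((P_cont a1 a2 q x).tendsto y)
      rw [hPl] at h2
      exact h2.mono_left nhdsWithin_le_nhds
    refine mem_closure_of_tendsto h1 ?_
    filter_upwards [Ioc_mem_nhdsGT hy1.2] with y' hy'
    exact mem_image_of_mem _ hy'
  · refine ⟨P a1 a2 q x (-1 * |x|), ⟨-1 * |x|, ⟨by linarith, by linarith⟩, rfl⟩, ?_⟩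
    exact h.cone hX hr (Or.inr rfl) hsx
  · refine ⟨P a1 a2 q x (1 * |x|), ⟨1 * |x|, ⟨by linarith, by linarith⟩, rfl⟩, ?_⟩
    exact h.cone hX hr (Or.inl rfl) hsx
  · rintro _ ⟨y', hy', rfl⟩
    have h1 : |y'| ≤ |x| := abs_le.2 ⟨hy'.1, by linarith [hy'.2]⟩
    rw [mem_ball, dist_eq_norm]
    exact h.lt hr h1
  · rintro _ ⟨y', hy', rfl⟩
    have h1 : |y'| ≤ |x| := abs_le.2 ⟨by linarith [hy'.1], hy'.2⟩
    rw [mem_ball, dist_eq_norm]
    exact h.lt hr h1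

theorem Loc.four (h : Loc a1 a2 q K K1 K2 M kap r) {l : ℂ} (hl : l ∉ K)
    (hX : (a2 * (l - q)).re ≠ 0) (hY : |(a1 * (l - q)).re| ≤ |(a2 * (l - q)).re|)
    (hr : M * |(a2 * (l - q)).re| < r) :
    ∃ (C : Set ℂ) (s1 s2 : ℝ), (s1 = 1 ∨ s1 = -1) ∧ (s2 = 1 ∨ s2 = -1) ∧ IsPreconnected C ∧
      l ∈ C ∧ C ⊆ Kᶜ ∧ (C ∩ Sx a1 a2 q kap r s1 s2).Nonempty ∧ C ⊆ ball q r := by
  have hPl := P_eta (q := q) h.tr l
  obtain ⟨x, hx⟩ : ∃ x, x = (a2 * (l - q)).re := ⟨_, rfl⟩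
  obtain ⟨y, hy⟩ : ∃ y, y = (a1 * (l - q)).re := ⟨_, rfl⟩
  rw [← hx, ← hy] at hPl hY
  rw [← hx] at hX hr
  obtain ⟨s, hs, hsx⟩ := sgn_ex hX
  have hy1 := abs_le.1 hY
  by_cases hup : ∀ y' ∈ Icc y |x|, P a1 a2 q x y' ∉ K
  · refine ⟨(fun y' => P a1 a2 q x y') '' Icc y |x|, 1, s, Or.inl rfl, hs,
      isPreconnected_Icc.image _ (P_cont _ _ _ _).continuousOn, ⟨y, ⟨le_rfl, hy1.2⟩, hPl⟩, ?_, ?_,
      ?_⟩
    · rintro _ ⟨y', hy', rfl⟩
      exact hup y' hy'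
    · exact ⟨P a1 a2 q x (1 * |x|), ⟨1 * |x|, ⟨by linarith, by linarith⟩, rfl⟩,
        h.cone hX hr (Or.inl rfl) hsx⟩
    · rintro _ ⟨y', hy', rfl⟩
      have h1 : |y'| ≤ |x| := abs_le.2 ⟨by linarith [hy'.1], hy'.2⟩
      rw [mem_ball, dist_eq_norm]
      exact h.lt hr h1
  · push Not at hup
    obtain ⟨y0, hy0, hp0⟩ := hup
    have hne : y < y0 := by
      refine lt_of_le_of_ne hy0.1 ?_
      rintro rfl
      rw [hPl] at hp0
      exact hl hp0
    have h0 : |y0| ≤ |x| := abs_le.2 ⟨by linarith [hy0.1], hy0.2⟩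
    refine ⟨(fun y' => P a1 a2 q x y') '' Icc (-|x|) y, -1, s, Or.inr rfl, hs,
      isPreconnected_Icc.image _ (P_cont _ _ _ _).continuousOn, ⟨y, ⟨hy1.1, le_rfl⟩, hPl⟩, ?_, ?_,
      ?_⟩
    · rintro _ ⟨y', hy', rfl⟩ hcon
      have h1 : |y'| ≤ |x| := abs_le.2 ⟨hy'.1, by linarith [hy'.2]⟩
      have h2 := h.uniq hX hr h0 h1 hp0 hcon
      linarith [hy'.2]
    · exact ⟨P a1 a2 q x (-1 * |x|), ⟨-1 * |x|, ⟨by linarith, by linarith⟩, rfl⟩,
        h.cone hX hr (Or.inr rfl) hsx⟩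
    · rintro _ ⟨y', hy', rfl⟩
      have h1 : |y'| ≤ |x| := abs_le.2 ⟨hy'.1, by linarith [hy'.2]⟩
      rw [mem_ball, dist_eq_norm]
      exact h.lt hr h1

/-- Estimates for one branch. -/
theorem branch {γ : ℝ → ℂ} {D a b : ℂ} (hγ : HasStrictDerivAt γ D 0)
    (ha : (a * D).re = 0) (hb : (b * D).re ≠ 0) :
    ∃ η > 0, (∀ x y : ℝ, |x| < η → |y| < η → (b * (γ x - γ 0)).re = (b * (γ y - γ 0)).re → x = y) ∧
      ∀ ε > 0, ∃ ρ > 0, ∀ x : ℝ, |x| < η → ‖γ x - γ 0‖ < ρ →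
        |(a * (γ x - γ 0)).re| ≤ ε * |(b * (γ x - γ 0)).re| := by
  have key : ∀ c > 0, ∃ δ > 0, ∀ x y : ℝ, |x| < δ → |y| < δ →
      ‖γ x - γ y - ((x - y : ℝ) : ℂ) * D‖ ≤ c * |x - y| := by
    intro c hc
    have h1 := hγ.isLittleO.def hc
    rw [Metric.eventually_nhds_iff] at h1
    obtain ⟨δ, hδ, h2⟩ := h1
    refine ⟨δ, hδ, fun x y hx hy => ?_⟩
    have h3 := h2 (y := (x, y)) (by
      rw [Prod.dist_eq]
      simp only [Real.dist_eq, sub_zero]
      exact max_lt hx hy)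
    simpa [Real.norm_eq_abs, smul_eq_mul, Complex.real_smul] using h3
  obtain ⟨β, hβ⟩ : ∃ β, β = (b * D).re := ⟨_, rfl⟩
  rw [← hβ] at hb
  have hβ0 : 0 < |β| := abs_pos.2 hb
  have hb0 : 0 ≤ ‖b‖ := norm_nonneg b
  have ha0 : 0 ≤ ‖a‖ := norm_nonneg a
  obtain ⟨η, hη, h1⟩ := key (|β| / (2 * (‖b‖ + 1))) (by positivity)
  have hlow : ∀ x y : ℝ, |x| < η → |y| < η → |β| / 2 * |x - y| ≤ |(b * (γ x - γ y)).re| := by
    intro x y hx hy
    have h2 := h1 x y hx hy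
    have h3 : b * (γ x - γ y) = ((x - y : ℝ) : ℂ) * (b * D) +
        b * (γ x - γ y - ((x - y : ℝ) : ℂ) * D) := by ring
    have h4 : (b * (γ x - γ y)).re = (x - y) * β +
        (b * (γ x - γ y - ((x - y : ℝ) : ℂ) * D)).re := by
      rw [h3, Complex.add_re, Complex.re_ofReal_mul, hβ]
    have h5 : |(b * (γ x - γ y - ((x - y : ℝ) : ℂ) * D)).re| ≤ |β| / 2 * |x - y| := by
      refine (Complex.abs_re_le_norm _).trans ?_
      rw [norm_mul]
      calc ‖b‖ * ‖γ x - γ y - ((x - y : ℝ) : ℂ) * D‖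
          ≤ (‖b‖ + 1) * (|β| / (2 * (‖b‖ + 1)) * |x - y|) :=
            mul_le_mul (by linarith) h2 (norm_nonneg _) (by positivity)
        _ = |β| / 2 * |x - y| := by field_simp
    rw [h4]
    have h6 : |(x - y) * β| = |x - y| * |β| := abs_mul _ _
    have h7 := abs_add_le ((x - y) * β + (b * (γ x - γ y - ((x - y : ℝ) : ℂ) * D)).re)
      (-(b * (γ x - γ y - ((x - y : ℝ) : ℂ) * D)).re)
    rw [add_neg_cancel_right, abs_neg, h6] at h7
    linarith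
  refine ⟨η, hη, ?_, ?_⟩
  · intro x y hx hy hxy
    have h2 := hlow x y hx hy
    have h3 : (b * (γ x - γ y)).re = 0 := by
      have h4 : b * (γ x - γ y) = b * (γ x - γ 0) - b * (γ y - γ 0) := by ring
      rw [h4, Complex.sub_re, hxy, sub_self]
    rw [h3, abs_zero] at h2
    have h5 : |x - y| ≤ 0 := by
      by_contra hcon
      push Not at hcon
      have := mul_pos (half_pos hβ0) hcon
      linarith
    exact sub_eq_zero.1 (abs_nonpos_iff.1 h5)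
  · intro ε hε
    obtain ⟨δ, hδ, h2⟩ := key (ε * |β| / (2 * (‖a‖ + 1))) (by positivity)
    refine ⟨δ * |β| / (2 * (‖b‖ + 1)), by positivity, ?_⟩
    intro x hx hρ
    have h3 := hlow x 0 hx (by rw [abs_zero]; exact hη)
    rw [sub_zero] at h3
    have h4 : |(b * (γ x - γ 0)).re| ≤ ‖b‖ * ‖γ x - γ 0‖ := by
      refine (Complex.abs_re_le_norm _).trans ?_
      rw [norm_mul]
    have h5 : |x| < δ := by
      have h6 : ‖b‖ * ‖γ x - γ 0‖ ≤ (‖b‖ + 1) * ‖γ x - γ 0‖ := by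
        have := norm_nonneg (γ x - γ 0)
        nlinarith
      have h7 : (‖b‖ + 1) * ‖γ x - γ 0‖ < (‖b‖ + 1) * (δ * |β| / (2 * (‖b‖ + 1))) :=
        mul_lt_mul_of_pos_left hρ (by positivity)
      have h8 : (‖b‖ + 1) * (δ * |β| / (2 * (‖b‖ + 1))) = |β| / 2 * δ := by field_simp
      have h9 : |β| / 2 * |x| < |β| / 2 * δ := by linarith
      exact lt_of_mul_lt_mul_left h9 (by positivity)
    have h6 := h2 x 0 h5 (by rw [abs_zero]; exact hδ)
    rw [sub_zero] at h6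
    have h7 : a * (γ x - γ 0) = (x : ℂ) * (a * D) + a * (γ x - γ 0 - (x : ℂ) * D) := by ring
    have h8 : (a * (γ x - γ 0)).re = (a * (γ x - γ 0 - (x : ℂ) * D)).re := by
      rw [h7, Complex.add_re, Complex.re_ofReal_mul, ha, mul_zero, zero_add]
    rw [h8]
    calc |(a * (γ x - γ 0 - (x : ℂ) * D)).re| ≤ ‖a * (γ x - γ 0 - (x : ℂ) * D)‖ :=
          Complex.abs_re_le_norm _
      _ = ‖a‖ * ‖γ x - γ 0 - (x : ℂ) * D‖ := norm_mul _ _
      _ ≤ (‖a‖ + 1) * (ε * |β| / (2 * (‖a‖ + 1)) * |x|) :=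
          mul_le_mul (by linarith) h6 (norm_nonneg _) (by positivity)
      _ = ε * (|β| / 2 * |x|) := by field_simp
      _ ≤ ε * |(b * (γ x - γ 0)).re| := mul_le_mul_of_nonneg_left h3 hε.le

/-- Near the double point the curve consists of the two branches. -/
theorem near_K (h : PwC phi F u v) (hd : Dt phi F t1 t2)
    (hs : ∀ t ∈ F, phi t1 ∉ segment ℝ (u t) (v t)) {η : ℝ} (hη : 0 < η) :
    ∀ᶠ l in 𝓝 (phi t1), l ∈ Gam phi F u v →
      ∃ x : ℝ, |x| < η ∧ (phi (t1 * E x) = l ∨ phi (t2 * E x) = l) := by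
  classical
  obtain ⟨S, hS⟩ : ∃ S : Set ℂ, S = {l | ∃ x : ℝ, |x| < η ∧
      (phi (t1 * E x) = l ∨ phi (t2 * E x) = l)} := ⟨_, rfl⟩
  have g1 : ∀ᶠ l in 𝓝 (phi t1), ∀ z ∈ sphere (0 : ℂ) 1, ‖z‖ = 1 → z ∉ F → phi z = l → l ∈ S := by
    refine (isCompact_sphere (0 : ℂ) 1).eventually_forall_of_forall_eventually
      (P := fun l z => ‖z‖ = 1 → z ∉ F → phi z = l → l ∈ S) fun z0 hz0 => ?_
    have hz0' : ‖z0‖ = 1 := mem_sphere_zero_iff_norm.1 hz0
    by_cases hF : z0 ∈ F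
    · have h2 : phi t1 ≠ u z0 := fun h0 => hs z0 hF (by rw [h0]; exact left_mem_segment ℝ _ _)
      have h3 : phi t1 ≠ v z0 := fun h0 => hs z0 hF (by rw [h0]; exact right_mem_segment ℝ _ _)
      obtain ⟨ρ, hρ, h4⟩ := SdlAux.near_FK h.cv hF h2 h3
      exact SdcAux.far hρ h4
    · by_cases hq : phi z0 = phi t1
      · have hz : z0 = t1 ∨ z0 = t2 := hd.only z0 hz0' hF hq
        have g2 : ∀ᶠ z in 𝓝 z0, |arg (z / z0)| < η := by
          have := (nb_arg hz0').abs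
          rw [abs_zero] at this
          exact this.eventually_lt_const hη
        rw [nhds_prod_eq]
        filter_upwards [g2.prod_inr (𝓝 (phi t1))] with p hp h1 _ h3
        have h4 := nb_arg_eq hz0' (mem_sphere_zero_iff_norm.2 h1)
        rw [hS]
        refine ⟨arg (p.2 / z0), hp, ?_⟩
        rcases hz with hz | hz
        · left
          rw [← hz, h4, h3]
        · right
          rw [← hz, h4, h3]
      · obtain ⟨ρ, hρ, h4⟩ := SdlAux.near_regK h.cv hz0' hF hq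
        exact SdcAux.far hρ h4
  have g2 : ∀ᶠ l in 𝓝 (phi t1), ∀ t' ∈ F, l ∉ segment ℝ (u t') (v t') := by
    rw [Finset.eventually_all]
    intro t' ht'
    have h2 : IsClosed (segment ℝ (u t') (v t')) := by
      rw [← convexHull_pair]
      exact ((Set.toFinite {u t', v t'}).isCompact_convexHull ℝ).isClosed
    exact h2.isOpen_compl.mem_nhds (hs t' ht')
  filter_upwards [g1, g2] with l hl1 hl2 hl
  rcases hl with ⟨z, ⟨hz, hzF⟩, hzl⟩ | hl
  · have h1 := hl1 z hz (mem_sphere_zero_iff_norm.1 hz) (fun h0 => hzF (Finset.mem_coe.2 h0)) hzl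
    rw [hS] at h1
    exact h1
  · obtain ⟨t', ht', hl'⟩ := mem_iUnion₂.1 hl
    exact absurd hl' (hl2 t' ht')

theorem re_le (a w : ℂ) : |(a * w).re| ≤ ‖a‖ * ‖w‖ :=
  (Complex.abs_re_le_norm _).trans_eq (norm_mul _ _)

theorem alg {D1 D2 : ℂ} (h : (conj D1 * D2).im ≠ 0) : (I / D1 * D1).re = 0 ∧
    (I / D2 * D1).re ≠ 0 ∧ (I / D1 * conj (I / D2)).im ≠ 0 := by
  have h1 : D1 ≠ 0 := by
    rintro rfl
    simp at h
  have h2 : D2 ≠ 0 := by
    rintro rfl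
    simp at h
  have n1 : Complex.normSq D1 ≠ 0 := fun h0 => h1 (Complex.normSq_eq_zero.1 h0)
  have n2 : Complex.normSq D2 ≠ 0 := fun h0 => h2 (Complex.normSq_eq_zero.1 h0)
  refine ⟨?_, ?_, ?_⟩
  · rw [div_mul_cancel₀ _ h1, Complex.I_re]
  · have h3 : (I / D2 * D1).re = (conj D1 * D2).im / Complex.normSq D2 := by
      rw [div_mul_eq_mul_div, Complex.div_re]
      simp only [Complex.mul_re, Complex.mul_im, Complex.I_re, Complex.I_im, Complex.conj_re,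
        Complex.conj_im]
      ring
    rw [h3]
    exact div_ne_zero h n2
  · have h3 : (I / D1 * conj (I / D2)).im =
        (conj D1 * D2).im / (Complex.normSq D1 * Complex.normSq D2) := by
      have h4 : I / D1 * conj (I / D2) =
          ((1 / (Complex.normSq D1 * Complex.normSq D2) : ℝ) : ℂ) * (conj D1 * D2) := by
        have e1 : ((Complex.normSq D1 : ℝ) : ℂ) = D1 * conj D1 := (Complex.mul_conj D1).symm
        have e2 : ((Complex.normSq D2 : ℝ) : ℂ) = D2 * conj D2 := (Complex.mul_conj D2).symm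
        have c1 : conj D1 ≠ 0 := (map_ne_zero _).2 h1
        have c2 : conj D2 ≠ 0 := (map_ne_zero _).2 h2
        push_cast
        rw [e1, e2, map_div₀, Complex.conj_I]
        field_simp
        rw [Complex.I_sq]
        ring
      rw [h4, Complex.im_ofReal_mul]
      ring
    rw [h3]
    exact div_ne_zero h (mul_ne_zero n1 n2)

/-- The values of `phi` near `t`. -/
def Kb (phi : ℂ → ℂ) (t : ℂ) (η : ℝ) : Set ℂ := {l | ∃ x : ℝ, |x| < η ∧ phi (t * E x) = l}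

/-- The estimates for the branch at `t`. -/
structure Br (phi : ℂ → ℂ) (t a b q : ℂ) (η : ℝ) : Prop where
  n : ‖t‖ = 1
  val : phi t = q
  cont : ContinuousAt (fun x : ℝ => phi (t * E x)) 0
  inj : ∀ x y : ℝ, |x| < η → |y| < η →
    (b * (phi (t * E x) - q)).re = (b * (phi (t * E y) - q)).re → x = y
  sm : ∀ ε > 0, ∃ ρ > 0, ∀ x : ℝ, |x| < η → ‖phi (t * E x) - q‖ < ρ →
    |(a * (phi (t * E x) - q)).re| ≤ ε * |(b * (phi (t * E x) - q)).re|

theorem Br.mono {t a b q : ℂ} {η η' : ℝ} (h : Br phi t a b q η) (hle : η' ≤ η) :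
    Br phi t a b q η' := by
  refine ⟨h.n, h.val, h.cont, fun x y hx hy => h.inj x y (hx.trans_le hle) (hy.trans_le hle), ?_⟩
  intro ε hε
  obtain ⟨ρ, hρ, h1⟩ := h.sm ε hε
  exact ⟨ρ, hρ, fun x hx => h1 x (hx.trans_le hle)⟩

/-- The strict derivative along the circle. -/
theorem pwc_strict (h : PwC phi F u v) {t : ℂ} (ht : ‖t‖ = 1) (htF : t ∉ F) :
    HasStrictDerivAt (fun y : ℝ => phi (t * E y)) (tg phi t) 0 := by
  have e0 : E (arg t) = t := by
    have h5 := Complex.norm_mul_exp_arg_mul_I t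
    rw [ht, ofReal_one, one_mul] at h5
    exact h5
  have hE : ∀ y : ℝ, t * E y = E (arg t + y) := by
    intro y
    conv_lhs => rw [← e0]
    unfold E
    rw [← Complex.exp_add]
    push_cast
    ring_nf
  have hEc : Continuous E := by
    unfold E
    fun_prop
  have h1 : ∀ᶠ y in 𝓝 (arg t), HasDerivAt (fun y : ℝ => phi (E y)) (deriv (fun y : ℝ => phi (E y)) y) y := by
    have h2 : ∀ᶠ z in 𝓝 (E (arg t)), z ∉ (F : Set ℂ) := by
      rw [e0]
      exact F.finite_toSet.isClosed.isOpen_compl.mem_nhds (fun h0 => htF (Finset.mem_coe.1 h0))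
    filter_upwards [hEc.continuousAt.eventually h2] with y hy
    exact (h.reg y fun h0 => hy (Finset.mem_coe.2 h0)).1.hasDerivAt
  have h3 : HasStrictDerivAt (fun y : ℝ => phi (E y)) (deriv (fun y : ℝ => phi (E y)) (arg t)) (arg t) :=
    hasStrictDerivAt_of_hasDerivAt_of_continuousAt h1
      (h.reg (arg t) (by rw [e0]; exact htF)).2.2
  have h4 : HasStrictDerivAt (fun y : ℝ => arg t + y) 1 0 := (hasStrictDerivAt_id 0).const_add _
  have h5 : HasStrictDerivAt (fun y : ℝ => phi (t * E y))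
      (deriv (fun y : ℝ => phi (E y)) (arg t)) 0 := by
    have h6 : (fun y : ℝ => phi (t * E y)) = (fun y : ℝ => phi (E y)) ∘ fun y : ℝ => arg t + y := by
      funext y
      rw [Function.comp_apply, hE]
    rw [h6]
    have h7 := HasStrictDerivAt.scomp (0 : ℝ) (by rw [add_zero]; exact h3) h4
    rwa [one_smul] at h7
  have h8 : tg phi t = deriv (fun y : ℝ => phi (E y)) (arg t) := h5.hasDerivAt.deriv
  rw [h8]
  exact h5

theorem br_of {t a b q : ℂ} (ht : ‖t‖ = 1)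
    (hγ : HasStrictDerivAt (fun y : ℝ => phi (t * E y)) (tg phi t) 0)
    (ha : (a * tg phi t).re = 0) (hb : (b * tg phi t).re ≠ 0) (hv : phi t = q) :
    ∃ η > 0, Br phi t a b q η := by
  obtain ⟨η, hη, h1, h2⟩ := branch hγ ha hb
  have h0 : phi (t * E 0) = q := by rw [nb_E_zero, mul_one, hv]
  simp only [h0] at h1 h2
  exact ⟨η, hη, ht, hv, hγ.hasDerivAt.continuousAt, h1, h2⟩

theorem loc_of {η : ℝ} (htr : (a1 * conj a2).im ≠ 0)
    (h1 : Br phi t1 a1 a2 q η) (h2 : Br phi t2 a2 a1 q η)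
    (hK : ∀ᶠ l in 𝓝 q, l ∈ K → ∃ x : ℝ, |x| < η ∧ (phi (t1 * E x) = l ∨ phi (t2 * E x) = l))
    (hM : ∀ x y : ℝ, ‖P a1 a2 q x y - q‖ ≤ M * max |x| |y|) (hk : 0 < kap) (hkM : kap * M < 1) :
    ∃ r0 > 0, ∀ r : ℝ, 0 < r → r ≤ r0 → Loc a1 a2 q K (Kb phi t1 η) (Kb phi t2 η) M kap r ∧
      Loc a2 a1 q K (Kb phi t2 η) (Kb phi t1 η) M kap r ∧ ∀ l ∈ K, ‖l - q‖ < r →
        |(a1 * (l - q)).re| ≤ kap * ‖l - q‖ ∨ |(a2 * (l - q)).re| ≤ kap * ‖l - q‖ := by
  obtain ⟨ε, hε⟩ : ∃ ε, ε = min (kap / (‖a1‖ + ‖a2‖ + 1)) (1 / 2) := ⟨_, rfl⟩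
  have n1 := norm_nonneg a1
  have n2 := norm_nonneg a2
  have hε0 : 0 < ε := by
    rw [hε]
    exact lt_min (by positivity) (by norm_num)
  have e1 : ε ≤ 1 / 2 := by
    rw [hε]
    exact min_le_right _ _
  have e2 : ε * (‖a1‖ + ‖a2‖ + 1) ≤ kap := by
    have h3 : ε ≤ kap / (‖a1‖ + ‖a2‖ + 1) := by
      rw [hε]
      exact min_le_left _ _
    exact (le_div_iff₀ (by positivity)).1 h3
  obtain ⟨ρ1, hρ1, s1⟩ := h1.sm ε hε0
  obtain ⟨ρ2, hρ2, s2⟩ := h2.sm ε hε0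
  rw [Metric.eventually_nhds_iff] at hK
  obtain ⟨ρ3, hρ3, hK⟩ := hK
  refine ⟨min ρ1 (min ρ2 ρ3), lt_min hρ1 (lt_min hρ2 hρ3), fun r hr hrr => ?_⟩
  have r1 : r ≤ ρ1 := hrr.trans (min_le_left _ _)
  have r2 : r ≤ ρ2 := hrr.trans ((min_le_right _ _).trans (min_le_left _ _))
  have r3 : r ≤ ρ3 := hrr.trans ((min_le_right _ _).trans (min_le_right _ _))
  have cov : ∀ l ∈ K, ‖l - q‖ < r → l ∈ Kb phi t1 η ∨ l ∈ Kb phi t2 η := by
    intro l hl hlr
    obtain ⟨x, hx, h | h⟩ := hK (by rw [dist_eq_norm]; exact hlr.trans_le r3) hl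
    · exact Or.inl ⟨x, hx, h⟩
    · exact Or.inr ⟨x, hx, h⟩
  refine ⟨⟨htr, hM, hk, hkM, cov, ?_, ?_⟩, ⟨?_, ?_, hk, hkM, fun l hl hlr => (cov l hl hlr).symm,
    ?_, ?_⟩, ?_⟩
  · rintro _ ⟨x, hx, rfl⟩ _ ⟨y, hy, rfl⟩ h
    rw [h1.inj x y hx hy h]
  · rintro _ ⟨x, hx, rfl⟩ h
    refine (s2 x hx (h.trans_le r2)).trans ?_
    exact mul_le_mul_of_nonneg_right e1 (abs_nonneg _)
  · have h : (a2 * conj a1).im = -(a1 * conj a2).im := by
      simp only [Complex.mul_im, Complex.conj_re, Complex.conj_im]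
      ring
    rw [h]
    exact neg_ne_zero.2 htr
  · intro x y
    rw [P_swap a1 a2 q y x, max_comm]
    exact hM y x
  · rintro _ ⟨x, hx, rfl⟩ _ ⟨y, hy, rfl⟩ h
    rw [h2.inj x y hx hy h]
  · rintro _ ⟨x, hx, rfl⟩ h
    refine (s1 x hx (h.trans_le r1)).trans ?_
    exact mul_le_mul_of_nonneg_right e1 (abs_nonneg _)
  · intro l hl hlr
    have w := norm_nonneg (l - q)
    rcases cov l hl hlr with ⟨x, hx, rfl⟩ | ⟨x, hx, rfl⟩
    · left
      have h3 := s1 x hx (hlr.trans_le r1)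
      have h4 := re_le a2 (phi (t1 * E x) - q)
      have h5 := mul_le_mul_of_nonneg_left h4 hε0.le
      have h6 := mul_le_mul_of_nonneg_right e2 w
      have h7 : 0 ≤ ε * (‖a1‖ + 1) * ‖phi (t1 * E x) - q‖ := by positivity
      nlinarith
    · right
      have h3 := s2 x hx (hlr.trans_le r2)
      have h4 := re_le a1 (phi (t2 * E x) - q)
      have h5 := mul_le_mul_of_nonneg_left h4 hε0.le
      have h6 := mul_le_mul_of_nonneg_right e2 w
      have h7 : 0 ≤ ε * (‖a2‖ + 1) * ‖phi (t2 * E x) - q‖ := by positivity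
      nlinarith

theorem Loc.pt {t : ℂ} {η : ℝ} (h : Loc a1 a2 q K K1 K2 M kap r) (hb : Br phi t a1 a2 q η)
    (hη : 0 < η) (hr : 0 < r) (hK : ∀ᶠ z in 𝓝 t, ‖z‖ = 1 → phi z ∈ K) :
    ∀ᶠ z in 𝓝[≠] t, ‖z‖ = 1 → ∃ (A B : Set ℂ) (s : ℝ), (s = 1 ∨ s = -1) ∧ IsPreconnected A ∧
      IsPreconnected B ∧ A ⊆ Kᶜ ∧ B ⊆ Kᶜ ∧ phi z ∈ closure A ∧ phi z ∈ closure B ∧
      (A ∩ Sx a1 a2 q kap r (-1) s).Nonempty ∧ (B ∩ Sx a1 a2 q kap r 1 s).Nonempty ∧
      A ⊆ ball q r ∧ B ⊆ ball q r := by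
  obtain ⟨ρ, hρ, h1⟩ := hb.sm (1 / 2) (by norm_num)
  have g0 : Tendsto (fun z : ℂ => phi (t * E (arg (z / t)))) (𝓝 t) (𝓝 q) := by
    have h2 := hb.cont.tendsto.comp (nb_arg hb.n)
    simp only [nb_E_zero, mul_one, hb.val] at h2
    exact h2
  have g1 : ∀ᶠ z in 𝓝 t, |arg (z / t)| < η := by
    have h2 := (nb_arg hb.n).abs
    rw [abs_zero] at h2
    exact h2.eventually_lt_const hη
  have g2 : ∀ᶠ z in 𝓝 t, ‖phi (t * E (arg (z / t))) - q‖ < ρ := by
    have h2 := (g0.sub_const q).norm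
    rw [sub_self, norm_zero] at h2
    exact h2.eventually_lt_const hρ
  have g3 : ∀ᶠ z in 𝓝 t, M * |(a2 * (phi (t * E (arg (z / t))) - q)).re| < r := by
    have h2 : Tendsto (fun z : ℂ => M * |(a2 * (phi (t * E (arg (z / t))) - q)).re|) (𝓝 t)
        (𝓝 (M * |(a2 * (q - q)).re|)) :=
      (((Complex.continuous_re.tendsto _).comp ((g0.sub_const q).const_mul a2)).abs).const_mul M
    rw [sub_self, mul_zero, Complex.zero_re, abs_zero, mul_zero] at h2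
    exact h2.eventually_lt_const hr
  filter_upwards [nhdsWithin_le_nhds g1, nhdsWithin_le_nhds g2, nhdsWithin_le_nhds g3,
    nhdsWithin_le_nhds hK, self_mem_nhdsWithin] with z z1 z2 z3 z4 z5 hz
  have h4 := nb_arg_eq hb.n (mem_sphere_zero_iff_norm.2 hz)
  have h5 := h1 _ z1 z2
  have hX : (a2 * (phi z - q)).re ≠ 0 := by
    intro h0
    have h6 := hb.inj (arg (z / t)) 0 z1 (by rw [abs_zero]; exact hη) (by
      rw [h4, nb_E_zero, mul_one, hb.val, sub_self, mul_zero, Complex.zero_re]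
      exact h0)
    rw [h6, nb_E_zero, mul_one] at h4
    exact z5 h4.symm
  rw [h4] at z3 h5
  refine h.two (z4 hz) hX ?_ z3
  have := abs_pos.2 hX
  linarith

theorem Loc.ne (h : Loc a1 a2 q K K1 K2 M kap r) {l : ℂ} (hl : l ≠ q) :
    (a1 * (l - q)).re ≠ 0 ∨ (a2 * (l - q)).re ≠ 0 := by
  by_contra hcon
  push Not at hcon
  have h1 := h.nP (a2 * (l - q)).re (a1 * (l - q)).re
  rw [P_eta h.tr, hcon.1, hcon.2, abs_zero, max_self, mul_zero] at h1
  exact hl (sub_eq_zero.1 (norm_le_zero_iff.1 h1))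

theorem Loc.all (h : Loc a1 a2 q K K1 K2 M kap r) (h' : Loc a2 a1 q K K2 K1 M kap r)
    (hr : 0 < r) (hq : q ∈ K) : ∀ᶠ l in 𝓝 q, l ∉ K → ∃ (C : Set ℂ) (s1 s2 : ℝ),
      (s1 = 1 ∨ s1 = -1) ∧ (s2 = 1 ∨ s2 = -1) ∧ IsPreconnected C ∧ l ∈ C ∧ C ⊆ Kᶜ ∧
      (C ∩ Sx a1 a2 q kap r s1 s2).Nonempty ∧ C ⊆ ball q r := by
  have g : ∀ a : ℂ, ∀ᶠ l in 𝓝 q, M * |(a * (l - q)).re| < r := by
    intro a
    have h2 : Tendsto (fun l : ℂ => M * |(a * (l - q)).re|) (𝓝 q) (𝓝 (M * |(a * (q - q)).re|)) :=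
      (((Complex.continuous_re.tendsto _).comp
        ((tendsto_id.sub_const q).const_mul a)).abs).const_mul M
    rw [sub_self, mul_zero, Complex.zero_re, abs_zero, mul_zero] at h2
    exact h2.eventually_lt_const hr
  filter_upwards [g a1, g a2] with l l1 l2 hl
  have hne := h.ne (l := l) (by
    rintro rfl
    exact hl hq)
  rcases le_total |(a1 * (l - q)).re| |(a2 * (l - q)).re| with hle | hle
  · refine h.four hl ?_ hle l2
    intro h0
    rw [h0, abs_zero] at hle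
    rcases hne with h3 | h3
    · exact h3 (abs_nonpos_iff.1 hle)
    · exact h3 h0
  · obtain ⟨C, s1, s2, k1, k2, k3, k4, k5, k6, k7⟩ := h'.four hl (by
      intro h0
      rw [h0, abs_zero] at hle
      rcases hne with h3 | h3
      · exact h3 h0
      · exact h3 (abs_nonpos_iff.1 hle)) hle l1
    refine ⟨C, s2, s1, k2, k1, k3, k4, k5, ?_, k7⟩
    rw [Sx_swap]
    exact k6

end Cg

open Cg
open Pool.Agent.TBirP (nb_E_mem nb_E_zero nb_E_cont nb_ne nb_arg nb_arg_eq)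

theorem cr_of (h : PwC phi F u v) (hd : Dt phi F t1 t2)
    (hs : ∀ t ∈ F, phi t1 ∉ segment ℝ (u t) (v t)) :
    Cr phi (Gam phi F u v) t1 t2 (I / tg phi t1) (I / tg phi t2) := by
  obtain ⟨x11, x21, tr⟩ := alg hd.trans
  have tr' : (conj (tg phi t2) * tg phi t1).im ≠ 0 := by
    have h1 : (conj (tg phi t2) * tg phi t1).im = -(conj (tg phi t1) * tg phi t2).im := by
      simp only [Complex.mul_im, Complex.conj_re, Complex.conj_im]
      ring
    rw [h1]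
    exact neg_ne_zero.2 hd.trans
  obtain ⟨x22, x12, -⟩ := alg tr'
  obtain ⟨a1, ha1⟩ : ∃ a, a = I / tg phi t1 := ⟨_, rfl⟩
  obtain ⟨a2, ha2⟩ : ∃ a, a = I / tg phi t2 := ⟨_, rfl⟩
  rw [← ha1] at x11 x12 tr ⊢
  rw [← ha2] at x21 x22 tr ⊢
  obtain ⟨η1, hη1, b1⟩ := br_of hd.n1 (pwc_strict h hd.n1 hd.f1) x11 x21 rfl
  obtain ⟨η2, hη2, b2⟩ := br_of hd.n2 (pwc_strict h hd.n2 hd.f2) x22 x12 hd.val
  obtain ⟨η, hη⟩ : ∃ η, η = min η1 η2 := ⟨_, rfl⟩
  have hη0 : 0 < η := by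
    rw [hη]
    exact lt_min hη1 hη2
  have b1' := b1.mono (hη ▸ min_le_left η1 η2 : η ≤ η1)
  have b2' := b2.mono (hη ▸ min_le_right η1 η2 : η ≤ η2)
  obtain ⟨M, hMd⟩ : ∃ M, M = (‖a1‖ + ‖a2‖) / |(a1 * conj a2).im| := ⟨_, rfl⟩
  have hM0 : 0 ≤ M := by
    rw [hMd]
    positivity
  have hM : ∀ x y : ℝ, ‖P a1 a2 (phi t1) x y - phi t1‖ ≤ M * max |x| |y| := by
    intro x y
    rw [hMd]
    exact P_norm _ _ _ _ _
  have hqK : phi t1 ∈ Gam phi F u v :=
    Or.inl ⟨t1, ⟨mem_sphere_zero_iff_norm.2 hd.n1, fun h0 => hd.f1 (Finset.mem_coe.1 h0)⟩, rfl⟩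
  have hKt : ∀ t : ℂ, t ∉ F → ∀ᶠ z in 𝓝 t, ‖z‖ = 1 → phi z ∈ Gam phi F u v := by
    intro t ht
    have h1 : IsClosed (F : Set ℂ) := F.finite_toSet.isClosed
    filter_upwards [h1.isOpen_compl.mem_nhds (fun h0 => ht (Finset.mem_coe.1 h0))] with z hz hz1
    exact Or.inl ⟨z, ⟨mem_sphere_zero_iff_norm.2 hz1, hz⟩, rfl⟩
  refine ⟨1 / (2 * (M + 1)), by positivity, fun kap hk hkk => ?_⟩
  have hkM : kap * M < 1 := by
    have h1 : kap * M ≤ 1 / (2 * (M + 1)) * M := mul_le_mul_of_nonneg_right hkk hM0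
    have h2 : 1 / (2 * (M + 1)) * M < 1 := by
      rw [div_mul_eq_mul_div, one_mul, div_lt_one (by positivity)]
      linarith
    linarith
  obtain ⟨r0, hr0, hL⟩ := loc_of tr b1' b2' (near_K h hd hs hη0) hM hk hkM
  refine ⟨r0, hr0, fun r hr hrr => ?_⟩
  obtain ⟨L1, L2, hcon⟩ := hL r hr hrr
  refine ⟨?_, L1.pt b1' hη0 hr (hKt t1 hd.f1), ?_, L1.all L2 hr hqK, ?_⟩
  · intro s1 s2 hs1 hs2
    constructor
    · rintro l ⟨l1, l2, l3⟩ hlK
      rw [mem_ball, dist_eq_norm] at l1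
      have key : ∀ s x : ℝ, (s = 1 ∨ s = -1) → s * x ≤ |x| := by
        rintro s x (rfl | rfl)
        · rw [one_mul]
          exact le_abs_self x
        · rw [neg_one_mul]
          exact neg_le_abs x
      rcases hcon l hlK l1 with h1 | h1
      · have := key s1 _ hs1 |>.trans h1
        linarith
      · have := key s2 _ hs2 |>.trans h1
        linarith
    · obtain ⟨t, ht⟩ : ∃ t, t = r / (2 * (M + 1)) := ⟨_, rfl⟩
      have ht0 : 0 < t := by
        rw [ht]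
        positivity
      have h3 : M * t < r := by
        rw [ht, mul_div_assoc', div_lt_iff₀ (by positivity)]
        nlinarith
      have hne : s2 * t ≠ 0 := by
        rcases hs2 with rfl | rfl
        · linarith
        · linarith
      have habs : |s2 * t| = t := by
        rcases hs2 with rfl | rfl
        · rw [one_mul, abs_of_pos ht0]
        · rw [neg_one_mul, abs_neg, abs_of_pos ht0]
      refine ⟨_, L1.cone hne (by rw [habs]; exact h3) hs1 (s2 := s2) ?_⟩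
      rw [habs]
      rcases hs2 with rfl | rfl
      · ring
      · ring
  · have h1 := L2.pt b2' hη0 hr (hKt t2 hd.f2)
    filter_upwards [h1] with z hz hz1
    obtain ⟨A, B, s, k1, k2, k3, k4, k5, k6, k7, k8, k9, k10⟩ := hz hz1
    refine ⟨A, B, s, k1, k2, k3, k4, k5, k6, k7, ?_, ?_, k10⟩
    · rw [Sx_swap]
      exact k8
    · rw [Sx_swap]
      exact k9
  · intro eps heps
    have hE : ∀ t : ℂ, ∀ᶠ x : ℝ in 𝓝 0, t * E x ∈ ball t eps := by
      intro t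
      have h1 : Tendsto (fun x : ℝ => t * E x) (𝓝 0) (𝓝 (t * E 0)) :=
        ((continuous_const.mul nb_E_cont).tendsto 0)
      rw [nb_E_zero, mul_one] at h1
      exact h1.eventually (ball_mem_nhds t heps)
    obtain ⟨δ, hδ, h1⟩ := Metric.eventually_nhds_iff.1 ((hE t1).and (hE t2))
    filter_upwards [near_K h hd hs hδ] with l hl hlK hlq
    obtain ⟨x, hx, h2 | h2⟩ := hl hlK
    · refine ⟨t1 * E x, mem_sphere_zero_iff_norm.1 (nb_E_mem hd.n1 x), h2, Or.inl ⟨?_, ?_⟩⟩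
      · intro h3
        rw [h3] at h2
        exact hlq h2.symm
      · exact (h1 (y := x) (by rw [Real.dist_eq, sub_zero]; exact hx)).1
    · refine ⟨t2 * E x, mem_sphere_zero_iff_norm.1 (nb_E_mem hd.n2 x), h2, Or.inr ⟨?_, ?_⟩⟩
      · intro h3
        rw [h3, hd.val] at h2
        exact hlq h2.symm
      · exact (h1 (y := x) (by rw [Real.dist_eq, sub_zero]; exact hx)).2

end Pool.Agent.TBirN
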