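import Pool.Agent.TBirN.Def
import Pool.Agent.TBirC.Emb

/-!
# Cutoff functions of the angle

`exists_cut`: `f l = S (- re (b (l - q)) / |l - q|)` with `S` smooth, `S = 0` on `(-∞, -δ/2]`, `S = 1` on `[δ/2, ∞)` (`Real.smoothTransition`); homogeneous of degree `0`, so the derivative is at most `C / |l - q|`. `int_cut`: polar coordinates, or `∫ |l - q|^(-1)` over the ball. `emb_cut`: `‖evr g h‖ ≤ FF h (1 - c' |l - q|)` if `c |l - q| ≤ |1 - ‖g‖|` (`norm_ev_le_FF`, `FF_mono`, see `evr_le` in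
TBirC/Emb.lean), and `∫ |l - q|^(-1) FF h (1 - c' |l - q|)^2` over the ball is at most a constant times `∫_0^R FF h (1 - c' r)^2 dr ≤ K ‖h‖^2` (`FF_sq` in TBir/Schur.lean).
-/

set_option autoImplicit false

open MeasureTheory Complex Set Filter Topology Metric AddCircle
open scoped ComplexConjugate InnerProductSpace ENNReal

namespace Pool.Agent.TBirN

open Pool.Agent.TBir Pool.Agent.TBirG Pool.Agent.TBirC Pool.Agent.TBirJ Pool.Agent.TBirK
open Pool.Agent.TBirP (E qT)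
open Pool.Agent.TBirS (DR)

open Pool.Agent.TBirE (evr)
open Pool.Lib (dbar)

private theorem dbar_le_fderiv (f : ℂ → ℂ) (l : ℂ) : ‖dbar f l‖ ≤ ‖fderiv ℝ f l‖ := by
  unfold dbar
  rw [norm_div, Complex.norm_ofNat, div_le_iff₀ (by norm_num)]
  have h1 : ‖fderiv ℝ f l 1‖ ≤ ‖fderiv ℝ f l‖ := by
    have := (fderiv ℝ f l).le_opNorm (1 : ℂ)
    rwa [norm_one, mul_one] at this
  have h2 : ‖I * fderiv ℝ f l I‖ ≤ ‖fderiv ℝ f l‖ := by
    have := (fderiv ℝ f l).le_opNorm I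
    rw [Complex.norm_I, mul_one] at this
    rwa [norm_mul, Complex.norm_I, one_mul]
  have h3 := norm_add_le (fderiv ℝ f l 1) (I * fderiv ℝ f l I)
  linarith

theorem exists_cut (b q : ℂ) {δ : ℝ} (hδ : 0 < δ) : ∃ (f : ℂ → ℂ) (C : ℝ),
    ContDiffOn ℝ 1 f {q}ᶜ ∧ (∀ l, ∃ t : ℝ, 0 ≤ t ∧ t ≤ 1 ∧ f l = t) ∧
    (∀ l, l ≠ q → (b * (l - q)).re < -(δ * ‖l - q‖) → ∀ᶠ l' in 𝓝 l, f l' = 1) ∧
    (∀ l, l ≠ q → δ * ‖l - q‖ < (b * (l - q)).re → ∀ᶠ l' in 𝓝 l, f l' = 0) ∧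
    ∀ l, l ≠ q → ‖dbar f l‖ ≤ C * ‖l - q‖⁻¹ := by
  obtain ⟨w, hw⟩ : ∃ w : ℂ → ℝ, ∀ l, w l = 1 / 2 - (b * (l - q)).re / (2 * δ * ‖l - q‖) :=
    ⟨_, fun _ => rfl⟩
  have hwe : w = fun l => 1 / 2 - (b * (l - q)).re / (2 * δ * ‖l - q‖) := funext hw
  have hwa : ∀ l, l ≠ q → ContDiffAt ℝ 1 w l := by
    intro l hl
    have hl' : l - q ≠ 0 := sub_ne_zero.2 hl
    have h1 : ContDiffAt ℝ 1 (fun l : ℂ => ‖l - q‖) l :=
      (contDiffAt_id.sub contDiffAt_const).norm ℝ hl'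
    have h2 : ContDiffAt ℝ 1 (fun l : ℂ => (b * (l - q)).re) l :=
      Complex.reCLM.contDiff.contDiffAt.comp l
        (contDiffAt_const.mul (contDiffAt_id.sub contDiffAt_const))
    rw [hwe]
    refine contDiffAt_const.sub (h2.div (contDiffAt_const.mul h1) ?_)
    have := norm_pos_iff.2 hl'
    positivity
  obtain ⟨f, hfd⟩ : ∃ f : ℂ → ℂ, f = fun l => ((Real.smoothTransition (w l) : ℝ) : ℂ) :=
    ⟨_, rfl⟩
  have hfe : ∀ l, f l = ((Real.smoothTransition (w l) : ℝ) : ℂ) := fun l => by rw [hfd]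
  have hfa : ∀ l, l ≠ q → ContDiffAt ℝ 1 f l := by
    intro l hl
    rw [hfd]
    exact Complex.ofRealCLM.contDiff.contDiffAt.comp l
      ((Real.smoothTransition.contDiff (n := 1)).contDiffAt.comp l (hwa l hl))
  have hf : ContDiffOn ℝ 1 f {q}ᶜ := fun l hl => (hfa l hl).contDiffWithinAt
  have hhom : ∀ c : ℝ, 0 < c → ∀ l, f (q + c • (l - q)) = f l := by
    intro c hc l
    rw [hfe, hfe, hw, hw]
    congr 3
    have e1 : (b * (q + c • (l - q) - q)).re = c * (b * (l - q)).re := by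
      rw [add_sub_cancel_left, Complex.real_smul, mul_left_comm, Complex.re_ofReal_mul]
    have e2 : ‖q + c • (l - q) - q‖ = c * ‖l - q‖ := by
      rw [add_sub_cancel_left, norm_smul, Real.norm_of_nonneg hc.le]
    rw [e1, e2, show 2 * δ * (c * ‖l - q‖) = c * (2 * δ * ‖l - q‖) by ring,
      mul_div_mul_left _ _ hc.ne']
  have hcont : ContinuousOn (fderiv ℝ f) {q}ᶜ :=
    hf.continuousOn_fderiv_of_isOpen isOpen_compl_singleton le_rfl
  obtain ⟨C, hC⟩ := (isCompact_sphere q 1).exists_bound_of_continuousOn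
    (hcont.mono (by
      intro l hl
      rw [mem_compl_iff, mem_singleton_iff]
      rintro rfl
      rw [mem_sphere, dist_self] at hl
      exact zero_ne_one hl))
  refine ⟨f, C, hf, ?_, ?_, ?_, ?_⟩
  · intro l
    exact ⟨Real.smoothTransition (w l), Real.smoothTransition.nonneg _,
      Real.smoothTransition.le_one _, hfe l⟩
  · intro l hl h
    have hn : 0 < ‖l - q‖ := norm_pos_iff.2 (sub_ne_zero.2 hl)
    have h1 : 1 < w l := by
      rw [hw]
      have h2 : (b * (l - q)).re / (2 * δ * ‖l - q‖) < -(1 / 2) := by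
        rw [div_lt_iff₀ (by positivity)]
        linarith
      linarith
    have h3 := (hwa l hl).continuousAt.eventually (lt_mem_nhds h1)
    filter_upwards [h3] with l' hl'
    rw [hfe, Real.smoothTransition.one_of_one_le (le_of_lt hl'), Complex.ofReal_one]
  · intro l hl h
    have hn : 0 < ‖l - q‖ := norm_pos_iff.2 (sub_ne_zero.2 hl)
    have h1 : w l < 0 := by
      rw [hw]
      have h2 : 1 / 2 < (b * (l - q)).re / (2 * δ * ‖l - q‖) := by
        rw [lt_div_iff₀ (by positivity)]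
        linarith
      linarith
    have h3 := (hwa l hl).continuousAt.eventually (gt_mem_nhds h1)
    filter_upwards [h3] with l' hl'
    rw [hfe, Real.smoothTransition.zero_of_nonpos (le_of_lt hl'), Complex.ofReal_zero]
  · intro l hl
    have hn : 0 < ‖l - q‖ := norm_pos_iff.2 (sub_ne_zero.2 hl)
    obtain ⟨c, hc⟩ : ∃ c : ℝ, c = ‖l - q‖⁻¹ := ⟨_, rfl⟩
    have hc0 : 0 < c := by rw [hc]; positivity
    obtain ⟨p, hp⟩ : ∃ p : ℂ, p = q + c • (l - q) := ⟨_, rfl⟩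
    have hps : p ∈ sphere q 1 := by
      rw [mem_sphere, dist_eq_norm, hp, add_sub_cancel_left, norm_smul, Real.norm_of_nonneg hc0.le,
        hc, inv_mul_cancel₀ hn.ne']
    have hpq : p ≠ q := by
      rintro h
      rw [h, mem_sphere, dist_self] at hps
      exact zero_ne_one hps
    have h1 : HasFDerivAt (fun x : ℂ => q + c • (x - q)) (c • ContinuousLinearMap.id ℝ ℂ) l :=
      (((hasFDerivAt_id (𝕜 := ℝ) l).sub_const q).const_smul c).const_add q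
    have h2 : HasFDerivAt f (fderiv ℝ f p) (q + c • (l - q)) := by
      rw [← hp]
      exact ((hfa p hpq).differentiableAt one_ne_zero).hasFDerivAt
    have h3 := h2.comp l h1
    have h4 : f ∘ (fun x : ℂ => q + c • (x - q)) = f := by
      funext x
      exact hhom c hc0 x
    rw [h4] at h3
    refine (dbar_le_fderiv f l).trans ?_
    rw [h3.fderiv]
    refine (ContinuousLinearMap.opNorm_comp_le _ _).trans ?_
    have h5 : ‖c • ContinuousLinearMap.id ℝ ℂ‖ ≤ ‖l - q‖⁻¹ := by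
      rw [norm_smul, Real.norm_of_nonneg hc0.le, ← hc]
      have := ContinuousLinearMap.norm_id_le (𝕜 := ℝ) (E := ℂ)
      nlinarith
    exact mul_le_mul (hC p hps) h5 (norm_nonneg _) ((norm_nonneg _).trans (hC p hps))

/-- Radial integrals. -/
private theorem ct_radial (q : ℂ) (K : ℝ → ℝ≥0∞) (hK : Measurable K) :
    ∫⁻ l : ℂ, ENNReal.ofReal (1 / ‖l - q‖) * K ‖l - q‖ ≤
      ENNReal.ofReal (2 * Real.pi) * ∫⁻ t in Ioi (0 : ℝ), K t := by
  have h1 : ∫⁻ l : ℂ, ENNReal.ofReal (1 / ‖l - q‖) * K ‖l - q‖ =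
      ∫⁻ l : ℂ, ENNReal.ofReal (1 / ‖l‖) * K ‖l‖ :=
    lintegral_sub_right_eq_self (fun l : ℂ => ENNReal.ofReal (1 / ‖l‖) * K ‖l‖) q
  rw [h1, ← Complex.lintegral_comp_polarCoord_symm]
  have h2 : (volume : Measure (ℝ × ℝ)).restrict polarCoord.target =
      (volume.restrict (Ioi (0 : ℝ))).prod (volume.restrict (Ioo (-Real.pi) Real.pi)) := by
    rw [Measure.prod_restrict]
    rfl
  have h3 : ∫⁻ p in polarCoord.target, ENNReal.ofReal p.1 •
      (ENNReal.ofReal (1 / ‖Complex.polarCoord.symm p‖) * K ‖Complex.polarCoord.symm p‖) =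
      ∫⁻ p in polarCoord.target, K p.1 * 1 := by
    refine setLIntegral_congr_fun polarCoord.open_target.measurableSet fun p hp => ?_
    have hp1 : 0 < p.1 := hp.1
    simp only [Complex.norm_polarCoord_symm, abs_of_pos hp1, smul_eq_mul, mul_one]
    rw [← mul_assoc, ← ENNReal.ofReal_mul hp1.le, mul_one_div_cancel hp1.ne']
    simp
  rw [h3, h2, lintegral_prod_mul hK.aemeasurable aemeasurable_const, mul_comm]
  refine mul_le_mul' (le_of_eq ?_) le_rfl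
  simp only [lintegral_const, Measure.restrict_apply MeasurableSet.univ, univ_inter, one_mul,
    Real.volume_Ioo]
  congr 1
  ring

private theorem ct_nonneg {q : ℂ} {f : ℂ → ℂ} {C : ℝ}
    (hf : ∀ l, l ≠ q → ‖dbar f l‖ ≤ C * ‖l - q‖⁻¹) : 0 ≤ C := by
  have h1 := hf (q + 1) (by simp)
  rw [add_sub_cancel_left, norm_one, inv_one, mul_one] at h1
  exact (norm_nonneg _).trans h1

private theorem ct_enorm {q : ℂ} {f : ℂ → ℂ} {C : ℝ} (hf : ∀ l, l ≠ q → ‖dbar f l‖ ≤ C * ‖l - q‖⁻¹)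
    {l : ℂ} (hl : l ≠ q) : ‖dbar f l‖ₑ ≤ ENNReal.ofReal C * ENNReal.ofReal (‖l - q‖⁻¹) := by
  rw [← ofReal_norm_eq_enorm, ← ENNReal.ofReal_mul (ct_nonneg hf)]
  exact ENNReal.ofReal_le_ofReal (hf l hl)

private theorem ct_ae (q : ℂ) (R : ℝ) :
    ∀ᵐ l ∂((volume : Measure ℂ).restrict (ball q R)), l ≠ q ∧ l ∈ ball q R := by
  have h1 : ∀ᵐ l ∂(volume : Measure ℂ), l ≠ q :=
    measure_eq_zero_iff_ae_notMem.1 (measure_singleton q)
  filter_upwards [ae_restrict_of_ae h1, ae_restrict_mem measurableSet_ball] with l h2 h3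
  exact ⟨h2, h3⟩

theorem int_cut {q : ℂ} {f : ℂ → ℂ} {C : ℝ} (hf : ∀ l, l ≠ q → ‖dbar f l‖ ≤ C * ‖l - q‖⁻¹) {R : ℝ}
    (hR : 0 < R) : ∫⁻ l in ball q R, ‖dbar f l‖ₑ < ⊤ := by
  have hK : Measurable ((Ioo (0 : ℝ) R).indicator (fun _ => (1 : ℝ≥0∞))) :=
    measurable_const.indicator measurableSet_Ioo
  calc ∫⁻ l in ball q R, ‖dbar f l‖ₑ
      ≤ ∫⁻ l in ball q R, ENNReal.ofReal C * (ENNReal.ofReal (1 / ‖l - q‖) *
          (Ioo (0 : ℝ) R).indicator (fun _ => (1 : ℝ≥0∞)) ‖l - q‖) := by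
        refine lintegral_mono_ae ?_
        filter_upwards [ct_ae q R] with l hl
        have h1 : 0 < ‖l - q‖ := norm_pos_iff.2 (sub_ne_zero.2 hl.1)
        have h2 : ‖l - q‖ < R := by
          rw [← dist_eq_norm]
          exact mem_ball.1 hl.2
        rw [indicator_of_mem (show ‖l - q‖ ∈ Ioo (0 : ℝ) R from ⟨h1, h2⟩), mul_one, one_div]
        exact ct_enorm hf hl.1
    _ = ENNReal.ofReal C * ∫⁻ l in ball q R, ENNReal.ofReal (1 / ‖l - q‖) *
          (Ioo (0 : ℝ) R).indicator (fun _ => (1 : ℝ≥0∞)) ‖l - q‖ :=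
        lintegral_const_mul' _ _ ENNReal.ofReal_ne_top
    _ ≤ ENNReal.ofReal C * ∫⁻ l : ℂ, ENNReal.ofReal (1 / ‖l - q‖) *
          (Ioo (0 : ℝ) R).indicator (fun _ => (1 : ℝ≥0∞)) ‖l - q‖ :=
        mul_le_mul' le_rfl (setLIntegral_le_lintegral _ _)
    _ ≤ ENNReal.ofReal C * (ENNReal.ofReal (2 * Real.pi) *
          ∫⁻ t in Ioi (0 : ℝ), (Ioo (0 : ℝ) R).indicator (fun _ => (1 : ℝ≥0∞)) t) :=
        mul_le_mul' le_rfl (ct_radial q _ hK)
    _ ≤ ENNReal.ofReal C * (ENNReal.ofReal (2 * Real.pi) *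
          ∫⁻ t : ℝ, (Ioo (0 : ℝ) R).indicator (fun _ => (1 : ℝ≥0∞)) t) :=
        mul_le_mul' le_rfl (mul_le_mul' le_rfl (setLIntegral_le_lintegral _ _))
    _ < ⊤ := by
        rw [lintegral_indicator measurableSet_Ioo, setLIntegral_const, one_mul, Real.volume_Ioo]
        exact ENNReal.mul_lt_top ENNReal.ofReal_lt_top
          (ENNReal.mul_lt_top ENNReal.ofReal_lt_top ENNReal.ofReal_lt_top)

private theorem ct_evr {z : ℂ} {d : ℝ} (h0 : 0 < d) (h1 : d ≤ 1) (hz : z ≠ 0)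
    (h2 : d ≤ |1 - ‖z‖|) (h : Hardy) : ‖evr z h‖ ≤ FF h (1 - d / 2) := by
  have hz0 : 0 < ‖z‖ := norm_pos_iff.2 hz
  have h3 : ∃ w : ℂ, evr z h = ev w h ∧ ‖w‖ ≤ 1 - d / 2 := by
    unfold evr
    split_ifs with h4
    · refine ⟨z, rfl, ?_⟩
      rw [abs_of_pos (by linarith)] at h2
      linarith
    · refine ⟨(conj z)⁻¹, rfl, ?_⟩
      rw [not_lt] at h4
      rw [abs_of_nonpos (by linarith)] at h2
      rw [norm_inv, RCLike.norm_conj, inv_le_comm₀ hz0 (by linarith)]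
      have h5 : (1 - d / 2)⁻¹ ≤ 1 + d := by
        rw [inv_le_comm₀ (by linarith) (by linarith), ← one_div, div_le_iff₀ (by linarith)]
        nlinarith
      linarith
  obtain ⟨w, hw1, hw2⟩ := h3
  have h6 : ‖w‖ < 1 := by linarith
  rw [hw1]
  exact (norm_ev_le_FF h6 h).trans (FF_mono h (norm_nonneg _) hw2 (by linarith))

theorem emb_cut {q : ℂ} {f : ℂ → ℂ} {C c : ℝ} (hc : 0 < c)
    (hf : ∀ l, l ≠ q → ‖dbar f l‖ ≤ C * ‖l - q‖⁻¹) {g : ℂ → ℂ} :
    ∃ R0 > 0, ∃ K : ℝ, ∀ R : ℝ, 0 < R → R ≤ R0 →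
      (∀ l ∈ ball q R, l ≠ q → dbar f l ≠ 0 → c * ‖l - q‖ ≤ |1 - ‖g l‖| ∧ g l ≠ 0) → ∀ h : Hardy,
        ∫⁻ l in ball q R, ‖dbar f l‖ₑ * ‖evr (g l) h‖ₑ ^ 2 ≤ ENNReal.ofReal (K * ‖h‖ ^ 2) := by
  obtain ⟨K, hK, hw⟩ := Pool.Agent.TBirE.nt_wide (c := c / 2) (by positivity)
  refine ⟨1 / c, by positivity, C * K, ?_⟩
  intro R hR hR0 hg h
  have hcR : c * R ≤ 1 := by
    rw [le_div_iff₀ hc] at hR0
    linarith
  have hC := ct_nonneg hf
  calc ∫⁻ l in ball q R, ‖dbar f l‖ₑ * ‖evr (g l) h‖ₑ ^ 2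
      ≤ ∫⁻ l in ball q R, ENNReal.ofReal C * (ENNReal.ofReal (‖l - q‖⁻¹) *
          ENNReal.ofReal (FF h (1 - c / 2 * ‖l - q‖) ^ 2)) := by
        refine lintegral_mono_ae ?_
        filter_upwards [ct_ae q R] with l hl
        by_cases h0 : dbar f l = 0
        · rw [h0, enorm_zero, zero_mul]
          exact bot_le
        obtain ⟨h1, h2⟩ := hg l hl.2 hl.1 h0
        have h3 : 0 < ‖l - q‖ := norm_pos_iff.2 (sub_ne_zero.2 hl.1)
        have h4 : ‖l - q‖ < R := by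
          rw [← dist_eq_norm]
          exact mem_ball.1 hl.2
        have h5 : c * ‖l - q‖ ≤ 1 := by nlinarith
        have h6 := ct_evr (mul_pos hc h3) h5 h2 h1 h
        have h7 : 1 - c * ‖l - q‖ / 2 = 1 - c / 2 * ‖l - q‖ := by ring
        rw [h7] at h6
        rw [← mul_assoc]
        refine mul_le_mul' (ct_enorm hf hl.1) ?_
        rw [← ofReal_norm_eq_enorm, ← ENNReal.ofReal_pow (norm_nonneg _)]
        exact ENNReal.ofReal_le_ofReal (pow_le_pow_left₀ (norm_nonneg _) h6 2)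
    _ = ENNReal.ofReal C * ∫⁻ l in ball q R, ENNReal.ofReal (‖l - q‖⁻¹) *
          ENNReal.ofReal (FF h (1 - c / 2 * ‖l - q‖) ^ 2) :=
        lintegral_const_mul' _ _ ENNReal.ofReal_ne_top
    _ ≤ ENNReal.ofReal C * ENNReal.ofReal (K * ‖h‖ ^ 2) :=
        mul_le_mul' le_rfl (hw q R hR (by nlinarith) h)
    _ = ENNReal.ofReal (C * K * ‖h‖ ^ 2) := by
        rw [← ENNReal.ofReal_mul hC, mul_assoc]

end Pool.Agent.TBirN
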