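import Pool.Agent.TBirK.Def
import Pool.Agent.TBirC.Fin

/-!
# Piecewise `C^1` symbols whose curve is normal: definitions

`tg`: tangent vectors. `Dp`: transversal double points of class `C^2`. `NCross`: the class of the theorem.

`Sx`: the cones at `q` between the branches. `Db`: approximate factors near a double point with the functions `g1`, `g2` (`g j l` is near `t j (1 + a j (l - q))`, inside the disc on one side of the branch `j`). `Cr`: the geometry of the curve near a double point (crossing sets). `Lc`: the jumps are constant near the point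
`t` of the circle. `Cn`: the hypotheses of the abstract theorem. `Fq`: exact factor data at one point `l`. `Lq`: local splitting property at `q`.
-/

set_option autoImplicit false

open MeasureTheory Complex Set Filter Topology Metric AddCircle
open scoped ComplexConjugate InnerProductSpace ENNReal

namespace Pool.Agent.TBirN

open Pool.Agent.TBir Pool.Agent.TBirG Pool.Agent.TBirC Pool.Agent.TBirJ Pool.Agent.TBirK
open Pool.Agent.TBirP (E qT)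
open Pool.Agent.TBirS (DR)

/-- The tangent vector of the curve at the point `z` of the circle. -/
noncomputable def tg (phi : ℂ → ℂ) (z : ℂ) : ℂ := deriv (fun y : ℝ => phi (z * E y)) 0

/-- `t1`, `t2` are the two points of a transversal double point. -/
structure Dt (phi : ℂ → ℂ) (F : Finset ℂ) (t1 t2 : ℂ) : Prop where
  n1 : ‖t1‖ = 1
  n2 : ‖t2‖ = 1
  f1 : t1 ∉ F
  f2 : t2 ∉ F
  ne : t1 ≠ t2
  val : phi t2 = phi t1
  only : ∀ z : ℂ, ‖z‖ = 1 → z ∉ F → phi z = phi t1 → z = t1 ∨ z = t2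
  trans : (conj (tg phi t1) * tg phi t2).im ≠ 0

/-- Transversal double points of class `C^2`. -/
structure Dp (phi : ℂ → ℂ) (F : Finset ℂ) (t1 t2 : ℂ) : Prop extends Dt phi F t1 t2 where
  smooth1 : ContDiffAt ℝ 2 (fun y : ℝ => phi (t1 * E y)) 0
  smooth2 : ContDiffAt ℝ 2 (fun y : ℝ => phi (t2 * E y)) 0

/-- Piecewise `C^1` symbols with jumps: no value on a segment of a jump (`sep`), the segments are disjoint (`seg`), `phi` is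
injective off a finite set (`inj`). -/
structure BCross (phi : ℂ → ℂ) (F : Finset ℂ) (u v : ℂ → ℂ) : Prop extends PwC phi F u v where
  sep : ∀ t ∈ F, ∀ z ∈ sphere (0 : ℂ) 1, z ∉ F → phi z ∉ segment ℝ (u t) (v t)
  seg : ∀ t ∈ F, ∀ t' ∈ F, t ≠ t' → Disjoint (segment ℝ (u t) (v t)) (segment ℝ (u t') (v t'))
  inj : ∃ D : Set ℂ, D.Finite ∧ InjOn phi (sphere 0 1 \ (F ∪ D))

/-- The `k` points `t j` of the circle (not in `F`) sent to `q` are regular and `x` is the inner winding number at `q`,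
`x + k` the outer winding number (`h` as in `Wj`). -/
def Nj (phi : ℂ → ℂ) (F : Finset ℂ) (q : ℂ) (k : ℕ) (x : ℤ) : Prop :=
  ∃ t : Fin k → ℂ, Function.Injective t ∧
    (∀ j, ‖t j‖ = 1 ∧ t j ∉ F ∧ AnalyticAt ℂ phi (t j) ∧ phi (t j) = q ∧ deriv phi (t j) ≠ 0) ∧
    ∃ h : ℂ → ℂ, ContinuousOn h (sphere 0 1 \ F) ∧
      (∀ s ∈ F, ∃ a b : ℂ, Tendsto (fun y : ℝ => h (s * E (-y))) (𝓝[>] 0) (𝓝 a) ∧
        Tendsto (fun y : ℝ => h (s * E y)) (𝓝[>] 0) (𝓝 b) ∧ |(b - a).im| < Real.pi) ∧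
      ∀ z ∈ sphere (0 : ℂ) 1, z ∉ F → phi z - q = z ^ x * (∏ j, (z - t j)) * exp (h z)

/-- The class of the theorem: a multiple value `q` is a transversal double point, of class `C^2` if winding numbers of both
signs occur near `q`; or `phi` is analytic at the points over it and the tangent vectors are in an open half plane; or `phi`
is analytic with nonzero derivative at the points over it, the inner winding number is `≥ 0` if no winding number near `q` is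
negative, and the outer winding number is `≤ 0` if none is positive. -/
structure NCross (phi : ℂ → ℂ) (F : Finset ℂ) (u v : ℂ → ℂ) : Prop extends BCross phi F u v where
  mult : ∀ z1 ∈ sphere (0 : ℂ) 1, z1 ∉ F → ∀ z2 ∈ sphere (0 : ℂ) 1, z2 ∉ F → z1 ≠ z2 →
    phi z1 = phi z2 → (Dt phi F z1 z2 ∧ ((∃ᶠ l in 𝓝 (phi z1), ∃ n, n < 0 ∧ Wj phi F l n) →
      (∃ᶠ l in 𝓝 (phi z1), ∃ n, 0 < n ∧ Wj phi F l n) → Dp phi F z1 z2)) ∨
    (∃ w : ℂ, ∀ z ∈ sphere (0 : ℂ) 1, z ∉ F → phi z = phi z1 →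
      AnalyticAt ℂ phi z ∧ 0 < (conj w * (I * (z * deriv phi z))).re) ∨
    ∃ (k : ℕ) (x : ℤ), Nj phi F (phi z1) k x ∧
      ((∀ᶠ l in 𝓝 (phi z1), ∀ n, Wj phi F l n → 0 ≤ n) → 0 ≤ x) ∧
      ((∀ᶠ l in 𝓝 (phi z1), ∀ n, Wj phi F l n → n ≤ 0) → x + k ≤ 0)

/-- A cone at `q`, cut off by the ball of radius `r`; `s1`, `s2` are `1` (outside) or `-1` (inside). -/
def Sx (a1 a2 q : ℂ) (kap r s1 s2 : ℝ) : Set ℂ :=
  {l | l ∈ ball q r ∧ kap * ‖l - q‖ < s1 * (a1 * (l - q)).re ∧ kap * ‖l - q‖ < s2 * (a2 * (l - q)).re}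

/-- `1` if `s` is negative, else `0`. -/
noncomputable def ii (s : ℝ) : ℤ := if s < 0 then 1 else 0

/-- Approximate factors near a double point. -/
structure Db (phi : ℂ → ℂ) (K : Set ℂ) (t1 t2 a1 a2 : ℂ) (x : ℤ) (g1 g2 : ℂ → ℂ) : Prop where
  n1 : ‖t1‖ = 1
  n2 : ‖t2‖ = 1
  ne : t1 ≠ t2
  val : phi t2 = phi t1
  tr : (a1 * conj a2).im ≠ 0
  unit : IsUnit (TM (mf fun y => e y ^ (-x) *
    ((phi (e y) - phi t1) / ((e y - t1) * (e y - t2)))))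
  off : ∀ᶠ l in 𝓝 (phi t1), l ∉ K → ‖g1 l‖ ≠ 1 ∧ ‖g2 l‖ ≠ 1
  lim1 : ∀ eps > 0, ∀ᶠ l in 𝓝 (phi t1), l ∉ K →
    ‖g1 l - t1 * (1 + a1 * (l - phi t1))‖ ≤ eps * ‖l - phi t1‖
  lim2 : ∀ eps > 0, ∀ᶠ l in 𝓝 (phi t1), l ∉ K →
    ‖g2 l - t2 * (1 + a2 * (l - phi t1))‖ ≤ eps * ‖l - phi t1‖
  fac : ∀ eps > 0, ∀ᶠ l in 𝓝 (phi t1), l ∉ K → ∀ᵐ y ∂mu0,
    ‖(phi (e y) - l) / ((e y - g1 l) * (e y - g2 l)) -
      (phi (e y) - phi t1) / ((e y - t1) * (e y - t2))‖ ≤ eps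

/-- The geometry of the curve `K` near a double point. -/
def Cr (phi : ℂ → ℂ) (K : Set ℂ) (t1 t2 a1 a2 : ℂ) : Prop :=
  ∃ kap0 > 0, ∀ kap : ℝ, 0 < kap → kap ≤ kap0 → ∃ r0 > 0, ∀ r : ℝ, 0 < r → r ≤ r0 →
    (∀ s1 s2 : ℝ, (s1 = 1 ∨ s1 = -1) → (s2 = 1 ∨ s2 = -1) →
      Sx a1 a2 (phi t1) kap r s1 s2 ⊆ Kᶜ ∧ (Sx a1 a2 (phi t1) kap r s1 s2).Nonempty) ∧
    (∀ᶠ z in 𝓝[≠] t1, ‖z‖ = 1 → ∃ (A B : Set ℂ) (s : ℝ), (s = 1 ∨ s = -1) ∧ IsPreconnected A ∧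
      IsPreconnected B ∧ A ⊆ Kᶜ ∧ B ⊆ Kᶜ ∧ phi z ∈ closure A ∧ phi z ∈ closure B ∧
      (A ∩ Sx a1 a2 (phi t1) kap r (-1) s).Nonempty ∧ (B ∩ Sx a1 a2 (phi t1) kap r 1 s).Nonempty ∧
      A ⊆ ball (phi t1) r ∧ B ⊆ ball (phi t1) r) ∧
    (∀ᶠ z in 𝓝[≠] t2, ‖z‖ = 1 → ∃ (A B : Set ℂ) (s : ℝ), (s = 1 ∨ s = -1) ∧ IsPreconnected A ∧
      IsPreconnected B ∧ A ⊆ Kᶜ ∧ B ⊆ Kᶜ ∧ phi z ∈ closure A ∧ phi z ∈ closure B ∧
      (A ∩ Sx a1 a2 (phi t1) kap r s (-1)).Nonempty ∧ (B ∩ Sx a1 a2 (phi t1) kap r s 1).Nonempty ∧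
      A ⊆ ball (phi t1) r ∧ B ⊆ ball (phi t1) r) ∧
    (∀ᶠ l in 𝓝 (phi t1), l ∉ K → ∃ (C : Set ℂ) (s1 s2 : ℝ), (s1 = 1 ∨ s1 = -1) ∧
      (s2 = 1 ∨ s2 = -1) ∧ IsPreconnected C ∧ l ∈ C ∧ C ⊆ Kᶜ ∧
      (C ∩ Sx a1 a2 (phi t1) kap r s1 s2).Nonempty ∧ C ⊆ ball (phi t1) r) ∧
    ∀ eps > 0, ∀ᶠ l in 𝓝 (phi t1), l ∈ K → l ≠ phi t1 → ∃ z, ‖z‖ = 1 ∧ phi z = l ∧
      ((z ≠ t1 ∧ z ∈ ball t1 eps) ∨ (z ≠ t2 ∧ z ∈ ball t2 eps))

/-- The jumps of idempotents which commute with `T_phi` are constant near the point `t` of the circle. -/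
def Lc (phi : ℂ → ℂ) (K : Set ℂ) (t : ℂ) : Prop :=
  ∀ P : Op, P * P = P → P * Tp phi = Tp phi * P → ∃ k : ℂ, ∀ᶠ z in 𝓝[≠] t, ‖z‖ = 1 →
    ∀ c', Jmp phi K P (phi z) c' → c' = k

/-- The hypotheses of the abstract theorem. -/
structure Cn (phi : ℂ → ℂ) (K : Set ℂ) : Prop extends Dk phi K where
  sim : {z : ℂ | ‖z‖ = 1 ∧ ¬ LinkOn phi K z {phi z} (phi z) (phi z)}.Finite
  lc : ∀ t : ℂ, ‖t‖ = 1 → Lc phi K t
  sides : {q : ℂ | q ∈ K ∧ ∀ t, ‖t‖ = 1 → ∀ S a b, LinkOn phi K t S a b → q ∉ S}.Finite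

/-- Exact factor data at the point `l` (as `FacL` in TBirC/Def.lean, with two factors). -/
def Fq (M : Op2) (l g1 g2 : ℂ) (x : ℤ) (C : ℝ) : Prop :=
  ∃ (Th K1 K2 : Op2) (b1 b2 : ℕ → ℂ),
    Cm Th ∧ Cm K1 ∧ Cm K2 ∧ ‖Th‖ ≤ C ∧ ‖K1‖ ≤ C ∧ ‖K2‖ ≤ C ∧
    (∀ i, ‖b1 i‖ ≤ C ∧ ‖b2 i‖ ≤ C) ∧ IsUnit Th ∧ ‖Ring.inverse Th‖ ≤ C ∧
    IsUnit (TM Th) ∧ ‖Ring.inverse (TM Th)‖ ≤ C ∧
    M - algebraMap ℂ Op2 l = Th * mul (fourier x *
      ((fourier 1 - algebraMap ℂ CT g1) * (fourier 1 - algebraMap ℂ CT g2))) ∧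
    Th * mul (pl 2 b1) - 1 =
      K1 * mul ((fourier 1 - algebraMap ℂ CT g1) * (fourier 1 - algebraMap ℂ CT g2)) ∧
    Th * mul (mi 2 b2) - 1 =
      K2 * mul ((fourier 1 - algebraMap ℂ CT g1) * (fourier 1 - algebraMap ℂ CT g2))

/-- Local splitting property at `q`. -/
def Lq (phi : ℂ → ℂ) (q : ℂ) : Prop :=
  (q ∈ closure (spectrum ℂ (Tp phi))ᶜ → DR (Tp phi - q • (1 : Hardy →L[ℂ] Hardy))) ∧
    ∀ U1 U2 : Set ℂ, IsOpen U1 → IsOpen U2 → Disjoint U1 U2 →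
      (∀ᶠ l in 𝓝 q, l ∈ spectrum ℂ (Tp phi) → l ≠ q → l ∈ U1 ∨ l ∈ U2) →
      LocA (Tp phi) (fun l => TM (resolvent (mf fun x => phi (e x)) l)) U1 U2 q

end Pool.Agent.TBirN
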