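import Pool.Agent.TBirN.Def
import Pool.Agent.TBirK.Sck
import Pool.Agent.TBirJ.Exj

/-!
# Numbers and ranges near a double point

`U0 = TM (mf (e ^ (-x) * b0))`, `b0` the quotient at `q = phi t1`, `U l = TM (mf (e ^ (-x) * (phi - l) / ((e - g1 l) * (e - g2 l))))`: near `U0` by `h.fac` (`l ∉ K` near `q`, `h.off`), so a unit. `db_ix`: multiply by the factors, as `sc_ix` in TBirK/Sck.lean: `T (e - g)` is a unit for `1 < ‖g‖`, `T (1 - g conj e)` for `‖g‖ < 1`. `db_fac`: for `0 ≤ x`: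
`Tp phi - l = U l * T (fourier x * (fourier 1 - g1 l) * (fourier 1 - g2 l))` (`TM_plus`), and the range of `T (..)` is given by the coefficients of index `< x` and the values at the inner points (`range_xT`, `range_all` in TBirJ/Exj.lean; `g1 l ≠ g2 l` near `q`, `g ≠ 0`). `db_sx`: `‖g j l‖ < 1` iff `s j = -1` for `l` in the cone near `q` (`lim1`, `lim2`: `‖t (1 + w)‖^2 = 1 + 2 re w + |w|^2`).
`db_lim`: `g1 l`, `g2 l` tend to `t1`, `t2`.
-/

set_option autoImplicit false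

open MeasureTheory Complex Set Filter Topology Metric AddCircle
open scoped ComplexConjugate InnerProductSpace ENNReal

namespace Pool.Agent.TBirN

open Pool.Agent.TBir Pool.Agent.TBirG Pool.Agent.TBirC Pool.Agent.TBirJ Pool.Agent.TBirK
open Pool.Agent.TBirP (E qT)
open Pool.Agent.TBirS (DR)

variable {phi : ℂ → ℂ} {K : Set ℂ} {t1 t2 a1 a2 : ℂ} {x : ℤ} {g1 g2 : ℂ → ℂ}

open Pool.Agent.TBirJ.IxAux Pool.Agent.TBirC.PsiAux

/-- The symbol of the operator `U l`. -/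
private noncomputable def sb (phi : ℂ → ℂ) (x : ℤ) (l g h : ℂ) : UnitAddCircle → ℂ :=
  fun y => e y ^ (-x) * ((phi (e y) - l) / ((e y - g) * (e y - h)))

private theorem dx_ne {g : ℂ} (hg : ‖g‖ ≠ 1) (y : UnitAddCircle) : e y - g ≠ 0 := by
  intro h0
  apply hg
  rw [← sub_eq_zero.1 h0]
  exact norm_e y

private theorem sb_mem (hb : MemLp (fun x : UnitAddCircle => phi (e x)) ∞ mu0) {g h : ℂ}
    (hg : ‖g‖ ≠ 1) (hh : ‖h‖ ≠ 1) (l : ℂ) : MemLp (sb phi x l g h) ∞ mu0 := by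
  let c : CT := ⟨fun y => ((e y - g) * (e y - h))⁻¹,
    ((cont_e.sub continuous_const).mul (cont_e.sub continuous_const)).inv₀
      fun y => mul_ne_zero (dx_ne hg y) (dx_ne hh y)⟩
  have h1 := memLp_mul (memLp_sym hb (-x) l) (memLp_ct c)
  refine (memLp_congr_ae (Filter.Eventually.of_forall fun y => ?_)).1 h1
  change e y ^ (-x) * (phi (e y) - l) * ((e y - g) * (e y - h))⁻¹ =
    e y ^ (-x) * ((phi (e y) - l) / ((e y - g) * (e y - h)))
  rw [mul_assoc, div_eq_mul_inv]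

private theorem sb_near (hb : MemLp (fun x : UnitAddCircle => phi (e x)) ∞ mu0)
    (h0 : IsUnit (TM (mf (sb phi x (phi t1) t1 t2)))) {g h : ℂ} (hg : ‖g‖ ≠ 1) (hh : ‖h‖ ≠ 1)
    {l : ℂ} {eps : ℝ} (heps : 0 ≤ eps) (hA : ∀ᵐ y ∂mu0,
      ‖(phi (e y) - l) / ((e y - g) * (e y - h)) -
        (phi (e y) - phi t1) / ((e y - t1) * (e y - t2))‖ ≤ eps) :
    ‖TM (mf (sb phi x l g h)) - TM (mf (sb phi x (phi t1) t1 t2))‖ ≤ eps := by
  have h1 := memLp_of_unit h0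
  rw [← TM_sub, ← mf_sub (sb_mem hb hg hh l) h1]
  refine (norm_TM_le _).trans (norm_mf_le heps ?_)
  filter_upwards [hA] with y hy
  unfold sb
  rw [← mul_sub, norm_mul, norm_zpow, norm_e, one_zpow, one_mul]
  exact hy

private theorem dx_eps (h0 : IsUnit (TM (mf (sb phi x (phi t1) t1 t2)))) :
    ∃ eps : ℝ, 0 < eps ∧ ∀ M : Op, ‖M - TM (mf (sb phi x (phi t1) t1 t2))‖ ≤ eps → IsUnit M := by
  have h1 : {M : Op | IsUnit M} ∈ 𝓝 (TM (mf (sb phi x (phi t1) t1 t2))) :=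
    Units.isOpen.mem_nhds h0
  obtain ⟨eps, h2, h3⟩ := Metric.mem_nhds_iff.1 h1
  refine ⟨eps / 2, by positivity, fun M hM => h3 ?_⟩
  rw [mem_ball, dist_eq_norm]
  linarith

/-- Multiplication by one factor. -/
private noncomputable def st (g : ℂ) (s : UnitAddCircle → ℂ) : UnitAddCircle → ℂ :=
  fun y => e y ^ (-(if ‖g‖ < 1 then 1 else 0 : ℤ)) * (s y * (e y - g))

private theorem st_mem {g : ℂ} {s : UnitAddCircle → ℂ} (hs : MemLp s ∞ mu0) :
    MemLp (st g s) ∞ mu0 := by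
  have h1 := memLp_mul hs (memLp_ct
    (fourier (-(if ‖g‖ < 1 then 1 else 0 : ℤ)) * (fourier 1 - algebraMap ℂ CT g)))
  refine (memLp_congr_ae (Filter.Eventually.of_forall fun y => ?_)).1 h1
  simp only [ContinuousMap.mul_apply, ContinuousMap.sub_apply, four_e, zpow_one, st]
  change s y * (_ * (e y - g)) = _
  ring

private theorem st_unit {g : ℂ} {s : UnitAddCircle → ℂ} (hs : MemLp s ∞ mu0) (hg : ‖g‖ ≠ 1)
    (h : IsUnit (TM (mf s))) : IsUnit (TM (mf (st g s))) := by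
  rcases lt_or_gt_of_ne hg with hg | hg
  · have h1 : mf (st g s) = mul (1 - g • fourier (-1)) * mf s := by
      rw [← mf_ct, ← mf_mul (memLp_ct _) hs]
      refine mf_congr (Filter.Eventually.of_forall fun y => ?_)
      have h2 : (1 - g • fourier (-1) : CT) y = 1 - g * (e y)⁻¹ := by
        rw [ContinuousMap.sub_apply, ContinuousMap.smul_apply, four_e, ContinuousMap.one_apply,
          smul_eq_mul, zpow_neg, zpow_one]
      simp only [h2, st, if_pos hg, zpow_neg_one]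
      have h4 := e_ne y
      field_simp
    have hm : Minus (1 - g • fourier (-1) : CT) := TBirM.minus_one_sub g
    have hT : T (1 - g • fourier (-1) : CT) = 1 - g • T (fourier (-1)) := by
      rw [T_sub, T_one, T_smul]
    rw [h1, TM_minus _ hm, hT]
    refine IsUnit.mul ?_ h
    apply isUnit_one_sub_of_norm_lt_one
    rw [norm_smul]
    have h5 : ‖T (fourier (-1))‖ ≤ 1 := by
      refine (norm_T_le _).trans ?_
      rw [ContinuousMap.norm_le _ zero_le_one]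
      intro y
      rw [four_e, norm_zpow, norm_e, one_zpow]
    calc ‖g‖ * ‖T (fourier (-1))‖ ≤ ‖g‖ * 1 := by gcongr
      _ < 1 := by rwa [mul_one]
  · have h1 : mf (st g s) = mf s * mul (fourier 1 - algebraMap ℂ CT g) := by
      rw [← mf_ct, ← mf_mul hs (memLp_ct _)]
      refine mf_congr (Filter.Eventually.of_forall fun y => ?_)
      have h2 : (fourier 1 - algebraMap ℂ CT g : CT) y = e y - g := by
        rw [ContinuousMap.sub_apply, four_e, zpow_one]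
        rfl
      simp only [h2, st, if_neg (not_lt.2 hg.le), neg_zero, zpow_zero, one_mul]
    rw [h1, TM_plus _ (TBirM.plus_sub g), T_sub, T_algebraMap]
    exact h.mul (isUnit_S_sub hg)

theorem db_ix (hb : MemLp (fun x : UnitAddCircle => phi (e x)) ∞ mu0)
    (h : Db phi K t1 t2 a1 a2 x g1 g2) : ∀ᶠ l in 𝓝 (phi t1), l ∉ K →
      Ix phi l (x + (if ‖g1 l‖ < 1 then 1 else 0) + if ‖g2 l‖ < 1 then 1 else 0) := by
  have h0 : IsUnit (TM (mf (sb phi x (phi t1) t1 t2))) := h.unit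
  obtain ⟨eps, he, hu⟩ := dx_eps h0
  filter_upwards [h.off, h.fac eps he] with l h1 h2 hl
  obtain ⟨h3, h4⟩ := h1 hl
  have h5 := hu _ (sb_near hb h0 h3 h4 he.le (h2 hl))
  have h6 : MemLp (sb phi x l (g1 l) (g2 l)) ∞ mu0 := sb_mem hb h3 h4 l
  have h7 := st_unit (st_mem h6) h4 (st_unit h6 h3 h5)
  unfold Ix
  refine (congrArg (fun F => IsUnit (TM F)) (mf_congr (Filter.Eventually.of_forall fun y => ?_))).mp h7
  simp only [st, sb]
  have h8 := e_ne y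
  have h9 := dx_ne h3 y
  have h10 := dx_ne h4 y
  rw [show -(x + (if ‖g1 l‖ < 1 then 1 else 0) + if ‖g2 l‖ < 1 then 1 else 0 : ℤ) =
    -(if ‖g2 l‖ < 1 then 1 else 0 : ℤ) + (-(if ‖g1 l‖ < 1 then 1 else 0 : ℤ) + -x) by ring,
    zpow_add₀ h8, zpow_add₀ h8]
  field_simp

private theorem dx_side {t a w d g : ℂ} {kap : ℝ} (ht : ‖t‖ = 1) (hk : 0 < kap) (hw : w = a * d)
    (hd : (‖a‖ ^ 2 + 1) * ‖d‖ ≤ kap) (hd1 : kap * ‖d‖ ≤ 1)
    (hg : ‖g - t * (1 + w)‖ ≤ kap / 2 * ‖d‖) {s : ℝ} (hs : s = 1 ∨ s = -1)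
    (hS : kap * ‖d‖ < s * w.re) : ‖g‖ < 1 ↔ s = -1 := by
  have hw2 : ‖w‖ = ‖a‖ * ‖d‖ := by rw [hw, norm_mul]
  have hd0 : 0 < ‖d‖ := by
    rcases (norm_nonneg d).eq_or_lt with h | h
    · exfalso
      have h1 : w = 0 := by rw [← norm_eq_zero, hw2, ← h, mul_zero]
      rw [h1, ← h] at hS
      simp at hS
    · exact h
  have h1 : ‖t * (1 + w)‖ = ‖1 + w‖ := by rw [norm_mul, ht, one_mul]
  rcases hs with rfl | rfl
  · have h2 : 1 + w.re ≤ ‖1 + w‖ := by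
      have := Complex.re_le_norm (1 + w)
      simpa using this
    have h3 : ‖t * (1 + w)‖ ≤ ‖g‖ + kap / 2 * ‖d‖ := by
      have h4 : t * (1 + w) = g - (g - t * (1 + w)) := by ring
      calc ‖t * (1 + w)‖ = ‖g - (g - t * (1 + w))‖ := by rw [← h4]
        _ ≤ ‖g‖ + ‖g - t * (1 + w)‖ := norm_sub_le _ _
        _ ≤ _ := by linarith
    have h5 : 1 < ‖g‖ := by
      rw [h1] at h3
      nlinarith
    constructor
    · intro h6; linarith
    · intro h6; norm_num at h6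
  · have h2 : ‖1 + w‖ ^ 2 = 1 + 2 * w.re + ‖w‖ ^ 2 := by
      rw [Complex.sq_norm, Complex.sq_norm, Complex.normSq_apply, Complex.normSq_apply]
      simp
      ring
    have h3 : ‖g‖ ≤ ‖1 + w‖ + kap / 2 * ‖d‖ := by
      have h4 : g = t * (1 + w) + (g - t * (1 + w)) := by ring
      calc ‖g‖ = ‖t * (1 + w) + (g - t * (1 + w))‖ := by rw [← h4]
        _ ≤ ‖t * (1 + w)‖ + ‖g - t * (1 + w)‖ := norm_add_le _ _
        _ ≤ _ := by rw [h1]; linarith
    have h5 : ‖w‖ ^ 2 ≤ kap * ‖d‖ := by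
      rw [hw2]
      nlinarith [sq_nonneg (‖a‖ * ‖d‖), sq_nonneg ‖d‖, mul_nonneg (sq_nonneg ‖a‖) hd0.le]
    have h6 : ‖1 + w‖ < 1 - kap / 2 * ‖d‖ := by
      have h7 : ‖1 + w‖ ^ 2 < (1 - kap / 2 * ‖d‖) ^ 2 := by
        rw [h2]
        nlinarith [sq_nonneg (kap / 2 * ‖d‖)]
      exact lt_of_pow_lt_pow_left₀ 2 (by nlinarith) h7
    constructor
    · intro _; rfl
    · intro _; linarith

theorem db_sx (h : Db phi K t1 t2 a1 a2 x g1 g2) {kap r : ℝ} (hk : 0 < kap) :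
    ∀ᶠ l in 𝓝 (phi t1), l ∉ K → ∀ s1 s2 : ℝ, (s1 = 1 ∨ s1 = -1) → (s2 = 1 ∨ s2 = -1) →
      l ∈ Sx a1 a2 (phi t1) kap r s1 s2 → (‖g1 l‖ < 1 ↔ s1 = -1) ∧ (‖g2 l‖ < 1 ↔ s2 = -1) := by
  have hc : ∀ c : ℝ, ∀ b > 0, ∀ᶠ l in 𝓝 (phi t1), c * ‖l - phi t1‖ ≤ b := by
    intro c b hb
    have h1 : Tendsto (fun l : ℂ => c * ‖l - phi t1‖) (𝓝 (phi t1)) (𝓝 (c * ‖phi t1 - phi t1‖)) := by
      have : Continuous fun l : ℂ => c * ‖l - phi t1‖ := by fun_prop
      exact this.tendsto _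
    rw [sub_self, norm_zero, mul_zero] at h1
    filter_upwards [h1.eventually (gt_mem_nhds hb)] with l hl
    exact hl.le
  filter_upwards [h.lim1 (kap / 2) (by positivity), h.lim2 (kap / 2) (by positivity),
    hc (‖a1‖ ^ 2 + 1) kap hk, hc (‖a2‖ ^ 2 + 1) kap hk, hc kap 1 one_pos] with l h1 h2 h3 h4 h5 hl
    s1 s2 hs1 hs2 hS
  exact ⟨dx_side h.n1 hk rfl h3 h5 (h1 hl) hs1 hS.2.1, dx_side h.n2 hk rfl h4 h5 (h2 hl) hs2 hS.2.2⟩

private theorem dx_lim {q t a : ℂ} {g : ℂ → ℂ}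
    (h : ∀ᶠ l in 𝓝 q, l ∉ K → ‖g l - t * (1 + a * (l - q))‖ ≤ 1 * ‖l - q‖) :
    Tendsto g (𝓝[Kᶜ] q) (𝓝 t) := by
  have h1 : Tendsto (fun l : ℂ => g l - t * (1 + a * (l - q))) (𝓝[Kᶜ] q) (𝓝 0) := by
    refine squeeze_zero_norm' (a := fun l => 1 * ‖l - q‖) ?_ ?_
    · rw [eventually_nhdsWithin_iff]
      exact h
    · have h2 : Tendsto (fun l : ℂ => 1 * ‖l - q‖) (𝓝 q) (𝓝 (1 * ‖q - q‖)) := by
        have : Continuous fun l : ℂ => 1 * ‖l - q‖ := by fun_prop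
        exact this.tendsto _
      rw [sub_self, norm_zero, mul_zero] at h2
      exact h2.mono_left nhdsWithin_le_nhds
  have h3 : Tendsto (fun l : ℂ => t * (1 + a * (l - q))) (𝓝[Kᶜ] q) (𝓝 t) := by
    have h4 : Tendsto (fun l : ℂ => t * (1 + a * (l - q))) (𝓝 q) (𝓝 (t * (1 + a * (q - q)))) := by
      have : Continuous fun l : ℂ => t * (1 + a * (l - q)) := by fun_prop
      exact this.tendsto _
    rw [sub_self, mul_zero, add_zero, mul_one] at h4
    exact h4.mono_left nhdsWithin_le_nhds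
  have h5 := h1.add h3
  simp only [sub_add_cancel, zero_add] at h5
  exact h5

theorem db_lim (h : Db phi K t1 t2 a1 a2 x g1 g2) : Tendsto g1 (𝓝[Kᶜ] (phi t1)) (𝓝 t1) ∧
    Tendsto g2 (𝓝[Kᶜ] (phi t1)) (𝓝 t2) :=
  ⟨dx_lim (h.lim1 1 one_pos), dx_lim (h.lim2 1 one_pos)⟩

private theorem dx_four (n : ℕ) (g h : ℂ) :
    T (fourier (n : ℤ) * ((fourier 1 - algebraMap ℂ CT g) * (fourier 1 - algebraMap ℂ CT h))) =
      S ^ n * ((S - g • (1 : Op)) * (S - h • (1 : Op))) := by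
  rw [T_mul_right _ ((TBirM.plus_sub g).mul (TBirM.plus_sub h)), T_mul_right _ (TBirM.plus_sub h),
    T_sub, T_algebraMap, T_sub, T_algebraMap]
  congr 1
  induction n with
  | zero => rw [Nat.cast_zero, idx_fourier_zero, T_one, pow_zero]
  | succ n ih =>
    rw [Nat.cast_succ, ← idx_fourier_mul, T_mul_right _ (plus_fourier (by norm_num)), ih, pow_succ]
    rfl

private theorem dx_ev_pow {z : ℂ} (hz : ‖z‖ < 1) (n : ℕ) (v : Hardy) :
    ev z ((S ^ n) v) = z ^ n * ev z v := by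
  induction n with
  | zero => simp
  | succ n ih =>
    have h1 : (S ^ (n + 1)) v = S ((S ^ n) v) := by
      rw [pow_succ']
      rfl
    rw [h1, ev_S hz, ih, pow_succ]
    ring

private theorem dx_co_pow (n : ℕ) (v : Hardy) (i : ℕ) :
    co ((S ^ n) v) i = if i < n then 0 else co v (i - n) := by
  induction n generalizing i with
  | zero => simp
  | succ n ih =>
    have h1 : (S ^ (n + 1)) v = S ((S ^ n) v) := by
      rw [pow_succ']
      rfl
    rw [h1]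
    cases i with
    | zero => rw [co_S_zero, if_pos (by omega)]
    | succ i =>
      rw [co_S_succ, ih]
      by_cases hi : i < n
      · rw [if_pos hi, if_pos (by omega)]
      · rw [if_neg hi, if_neg (by omega)]
        congr 1
        omega

private theorem dx_range_pow (n : ℕ) (v : Hardy) :
    (∃ w, (S ^ n) w = v) ↔ ∀ i < n, co v i = 0 := by
  constructor
  · rintro ⟨w, rfl⟩ i hi
    rw [dx_co_pow, if_pos hi]
  · intro h
    refine ⟨Sa^[n] v, ext_co fun i => ?_⟩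
    rw [dx_co_pow]
    by_cases hi : i < n
    · rw [if_pos hi, h i hi]
    · rw [if_neg hi, evB_co_iter]
      congr 1
      omega

private theorem dx_rg1 {g : ℂ} (hg : ‖g‖ ≠ 1) {v : Hardy} (h : ‖g‖ < 1 → ev g v = 0) :
    ∃ u, (S - g • (1 : Op)) u = v := by
  rcases lt_or_gt_of_ne hg with hlt | hgt
  · exact div_of_ev hlt (h hlt)
  · obtain ⟨U, hU⟩ := isUnit_S_sub hgt
    refine ⟨(↑U⁻¹ : Op) v, ?_⟩
    rw [← hU]
    have h1 : (↑U * ↑U⁻¹ : Op) = 1 := U.mul_inv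
    calc (↑U : Op) ((↑U⁻¹ : Op) v) = (↑U * ↑U⁻¹ : Op) v := rfl
      _ = v := by rw [h1]; rfl

private theorem dx_rg2 (n : ℕ) {g h : ℂ} (hg : ‖g‖ ≠ 1) (hh : ‖h‖ ≠ 1) (hg0 : g ≠ 0) (hh0 : h ≠ 0)
    (hgh : g ≠ h) (v : Hardy) :
    (∃ u, (S ^ n * ((S - g • (1 : Op)) * (S - h • (1 : Op)))) u = v) ↔
      (∀ i < n, co v i = 0) ∧ (‖g‖ < 1 → ev g v = 0) ∧ (‖h‖ < 1 → ev h v = 0) := by
  constructor
  · rintro ⟨u, rfl⟩
    rw [mul_apply_eq_comp, mul_apply_eq_comp]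
    refine ⟨(dx_range_pow n _).1 ⟨_, rfl⟩, fun hlt => ?_, fun hlt => ?_⟩
    · rw [dx_ev_pow hlt, ev_S_sub hlt, sub_self, zero_mul, mul_zero]
    · rw [dx_ev_pow hlt, ev_S_sub hlt, ev_S_sub hlt, sub_self, zero_mul, mul_zero, mul_zero]
  · rintro ⟨h1, h2, h3⟩
    obtain ⟨w, rfl⟩ := (dx_range_pow n v).2 h1
    obtain ⟨w', rfl⟩ := dx_rg1 hg (v := w) (by
      intro hlt
      have h4 := h2 hlt
      rw [dx_ev_pow hlt] at h4
      exact (mul_eq_zero.1 h4).resolve_left (pow_ne_zero _ hg0))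
    obtain ⟨u, rfl⟩ := dx_rg1 hh (v := w') (by
      intro hlt
      have h4 := h3 hlt
      rw [dx_ev_pow hlt, ev_S_sub hlt] at h4
      have h5 := (mul_eq_zero.1 h4).resolve_left (pow_ne_zero _ hh0)
      exact (mul_eq_zero.1 h5).resolve_left (sub_ne_zero.2 hgh.symm))
    exact ⟨u, rfl⟩

private theorem dx_fac (hb : MemLp (fun x : UnitAddCircle => phi (e x)) ∞ mu0) {g h : ℂ}
    (hg : ‖g‖ ≠ 1) (hh : ‖h‖ ≠ 1) (n : ℕ) (l : ℂ) :
    Tp phi - l • (1 : Op) =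
      TM (mf (sb phi n l g h)) * (S ^ n * ((S - g • (1 : Op)) * (S - h • (1 : Op)))) := by
  have hP : Plus (fourier (n : ℤ) *
      ((fourier 1 - algebraMap ℂ CT g) * (fourier 1 - algebraMap ℂ CT h)) : CT) :=
    (plus_fourier (Int.natCast_nonneg n)).mul ((TBirM.plus_sub g).mul (TBirM.plus_sub h))
  rw [← tp_sub hb, ← dx_four, ← TM_plus _ hP, ← mf_ct, ← mf_mul (sb_mem hb hg hh l) (memLp_ct _)]
  congr 1
  refine mf_congr (Filter.Eventually.of_forall fun y => ?_)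
  have h2 : (fourier (n : ℤ) *
      ((fourier 1 - algebraMap ℂ CT g) * (fourier 1 - algebraMap ℂ CT h)) : CT) y =
      e y ^ (n : ℤ) * ((e y - g) * (e y - h)) := by
    rw [ContinuousMap.mul_apply, ContinuousMap.mul_apply, ContinuousMap.sub_apply,
      ContinuousMap.sub_apply, four_e, four_e, zpow_one]
    rfl
  simp only [h2, sb]
  have h3 : (e y - g) * (e y - h) ≠ 0 := mul_ne_zero (dx_ne hg y) (dx_ne hh y)
  have h4 : e y ^ (-(n : ℤ)) * e y ^ (n : ℤ) = 1 := by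
    rw [← zpow_add₀ (e_ne y), neg_add_cancel, zpow_zero]
  calc phi (e y) - l = (e y ^ (-(n : ℤ)) * e y ^ (n : ℤ)) *
        (((phi (e y) - l) / ((e y - g) * (e y - h))) * ((e y - g) * (e y - h))) := by
        rw [h4, one_mul, div_mul_cancel₀ _ h3]
    _ = _ := by ring

theorem db_fac (hb : MemLp (fun x : UnitAddCircle => phi (e x)) ∞ mu0)
    (h : Db phi K t1 t2 a1 a2 x g1 g2) (hx : 0 ≤ x) : ∃ (U V : ℂ → Op) (U0 V0 : Op),
      Tendsto U (𝓝[Kᶜ] (phi t1)) (𝓝 U0) ∧ Tendsto V (𝓝[Kᶜ] (phi t1)) (𝓝 V0) ∧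
      ∀ᶠ l in 𝓝 (phi t1), l ∉ K → U l * V l = 1 ∧ V l * U l = 1 ∧ ∀ f : Hardy,
        (RgJ phi f l ↔ (∀ i : ℕ, (i : ℤ) < x → co (V l f) i = 0) ∧
          (‖g1 l‖ < 1 → ev (g1 l) (V l f) = 0) ∧ (‖g2 l‖ < 1 → ev (g2 l) (V l f) = 0)) := by
  obtain ⟨n, rfl⟩ := Int.eq_ofNat_of_zero_le hx
  have h0 : IsUnit (TM (mf (sb phi n (phi t1) t1 t2))) := h.unit
  obtain ⟨eps0, he0, hu⟩ := dx_eps h0
  obtain ⟨hl1, hl2⟩ := db_lim h
  have hU : Tendsto (fun l => TM (mf (sb phi n l (g1 l) (g2 l)))) (𝓝[Kᶜ] (phi t1))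
      (𝓝 (TM (mf (sb phi n (phi t1) t1 t2)))) := by
    rw [Metric.tendsto_nhds]
    intro ε hε
    rw [eventually_nhdsWithin_iff]
    filter_upwards [h.off, h.fac (ε / 2) (by positivity)] with l h1 h2 hl
    obtain ⟨h3, h4⟩ := h1 hl
    have h5 := sb_near hb h0 h3 h4 (by positivity) (h2 hl)
    rw [dist_eq_norm]
    linarith
  refine ⟨fun l => TM (mf (sb phi n l (g1 l) (g2 l))),
    fun l => Ring.inverse (TM (mf (sb phi n l (g1 l) (g2 l)))), _,
    Ring.inverse (TM (mf (sb phi n (phi t1) t1 t2))), hU, ?_, ?_⟩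
  · obtain ⟨V, hV⟩ := h0
    have h3 : ContinuousAt Ring.inverse (V : Op) := NormedRing.inverse_continuousAt V
    rw [hV] at h3
    exact h3.tendsto.comp hU
  · have ht1 : t1 ≠ 0 := by
      rintro rfl
      have := h.n1
      simp at this
    have ht2 : t2 ≠ 0 := by
      rintro rfl
      have := h.n2
      simp at this
    have e1 : ∀ᶠ l in 𝓝[Kᶜ] (phi t1), g1 l ≠ 0 := hl1.eventually_ne ht1
    have e2 : ∀ᶠ l in 𝓝[Kᶜ] (phi t1), g2 l ≠ 0 := hl2.eventually_ne ht2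
    have e3 : ∀ᶠ l in 𝓝[Kᶜ] (phi t1), g1 l - g2 l ≠ 0 :=
      (hl1.sub hl2).eventually_ne (sub_ne_zero.2 h.ne)
    rw [eventually_nhdsWithin_iff] at e1 e2 e3
    filter_upwards [h.off, h.fac eps0 he0, e1, e2, e3] with l h1 h2 h3 h4 h5 hl
    obtain ⟨h6, h7⟩ := h1 hl
    have h8 := hu _ (sb_near hb h0 h6 h7 he0.le (h2 hl))
    have h9 := Ring.mul_inverse_cancel _ h8
    have h10 := Ring.inverse_mul_cancel _ h8
    refine ⟨h9, h10, fun f => ?_⟩
    have h11 := dx_rg2 n h6 h7 (h3 hl) (h4 hl) (sub_ne_zero.1 (h5 hl))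
      (Ring.inverse (TM (mf (sb phi n l (g1 l) (g2 l)))) f)
    simp only [Nat.cast_lt]
    rw [← h11]
    unfold RgJ
    refine exists_congr fun u => ?_
    rw [dx_fac hb h6 h7 n l]
    constructor
    · intro h12
      rw [← h12]
      calc (S ^ n * ((S - g1 l • (1 : Op)) * (S - g2 l • (1 : Op)))) u =
            (1 : Op) ((S ^ n * ((S - g1 l • (1 : Op)) * (S - g2 l • (1 : Op)))) u) := rfl
        _ = _ := by rw [← h10]; rfl
    · intro h12
      calc (TM (mf (sb phi n l (g1 l) (g2 l))) *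
            (S ^ n * ((S - g1 l • (1 : Op)) * (S - g2 l • (1 : Op))))) u =
            TM (mf (sb phi n l (g1 l) (g2 l)))
              ((S ^ n * ((S - g1 l • (1 : Op)) * (S - g2 l • (1 : Op)))) u) := rfl
        _ = TM (mf (sb phi n l (g1 l) (g2 l)))
              (Ring.inverse (TM (mf (sb phi n l (g1 l) (g2 l)))) f) := by rw [h12]
        _ = (TM (mf (sb phi n l (g1 l) (g2 l))) *
              Ring.inverse (TM (mf (sb phi n l (g1 l) (g2 l))))) f := rfl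
        _ = f := by rw [h9]; rfl

end Pool.Agent.TBirN
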