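import Pool.Agent.TBirN.Def
import Pool.Agent.TBirK.Fak
import Pool.Agent.TBirK.Wjk
import Pool.Agent.TBirK.Esk

/-!
# Approximate factors near a double point

`a j = I / tg phi (t j)`. Near `t j` use the construction of TBirK/Fak.lean: for `l` near `q = phi t1`, `l` not a value, let `E (x j + τ)` be a point of a small interval around `x j` (`t j = E (x j)`) where `phi (E ·)` is nearest to `l`, `t = E (x j + τ)`, `l - phi t = i s D` with `s` real, `s ≠ 0`, and `g j l = t (1 - s)`. Then `g j l - t j (1 + a j (l - q)) = o (|l - q|)`: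
`l - q = (phi t - q) + i s D`, `phi t - q = D_j τ + o (τ)`, `|s| + |τ| ≤ C |l - q|`. The quotient `(phi z - l) / ((z - g1) (z - g2))` is uniformly near the quotient at `q`: near `t1` it is `1 / (z - g2)` times `p + (m z - p) (z - t) / (z - g1)` as there; near `t2` the same; elsewhere clear. (Choose `g j l` in any way for the other `l`.) `unit`: the quotient at `q`, extended to `t1`, `t2` by
`D_j / (i t_j) / (t_j - t_i)`, is continuous off `F`, without zeros (`only`); the one-sided limits at `F` have a quotient in the slit plane (`hs`): `normal_form`, `isUnit_expJ` (see TBirK/Esk.lean, `exists_iq` in TBirK/Wjk.lean). `tr`: `h.trans`.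
-/

set_option autoImplicit false

open MeasureTheory Complex Set Filter Topology Metric AddCircle
open scoped ComplexConjugate InnerProductSpace ENNReal

namespace Pool.Agent.TBirN

open Pool.Agent.TBir Pool.Agent.TBirG Pool.Agent.TBirC Pool.Agent.TBirJ Pool.Agent.TBirK
open Pool.Agent.TBirP (E qT)
open Pool.Agent.TBirS (DR)

variable {phi : ℂ → ℂ} {F : Finset ℂ} {u v : ℂ → ℂ} {t1 t2 z0 : ℂ}

private theorem fb_norm_E (x : ℝ) : ‖E x‖ = 1 := by
  unfold E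
  exact Complex.norm_exp_ofReal_mul_I x

private theorem fb_E_add (x y : ℝ) : E (x + y) = E x * E y := by
  unfold E
  rw [← Complex.exp_add]
  push_cast
  rw [add_mul]

private theorem fb_E_cont : Continuous E := by
  unfold E
  fun_prop

private theorem fb_E_strict (x : ℝ) : HasStrictDerivAt E (I * E x) x := by
  have h1 : HasStrictDerivAt (fun y : ℝ => ((y : ℂ) * I)) (1 * I) x :=
    (Complex.ofRealCLM.hasStrictFDerivAt.hasStrictDerivAt (x := x)).mul_const I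
  have h2 := h1.cexp
  unfold E
  refine h2.congr_deriv ?_
  ring

private theorem fb_arg {z : ℂ} (hz : ‖z‖ = 1) : E (arg z) = z := by
  unfold E
  have h := Complex.norm_mul_exp_arg_mul_I z
  rw [hz] at h
  simpa using h

private theorem fb_inv {z0 : ℂ} {x0 : ℝ} (h0 : E x0 = z0) {δ : ℝ} (hδ : 0 < δ) :
    ∃ d : ℝ, 0 < d ∧ ∀ z : ℂ, ‖z‖ = 1 → ‖z - z0‖ < d → ∃ y : ℝ, |y - x0| < δ ∧ E y = z := by
  have hz0 : ‖z0‖ = 1 := by rw [← h0]; exact fb_norm_E x0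
  have hne : z0 ≠ 0 := by
    intro h
    rw [h, norm_zero] at hz0
    exact zero_ne_one hz0
  have h1 : ContinuousAt (fun z : ℂ => arg (z / z0)) z0 := by
    have h2 : ContinuousAt arg (z0 / z0) := by
      rw [div_self hne]
      exact Complex.continuousAt_arg Complex.one_mem_slitPlane
    exact ContinuousAt.comp (g := arg) (f := fun z : ℂ => z / z0) h2 (by fun_prop)
  rw [Metric.continuousAt_iff] at h1
  obtain ⟨d, hd, h⟩ := h1 δ hδ
  refine ⟨d, hd, fun z hz hzz => ⟨x0 + arg (z / z0), ?_, ?_⟩⟩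
  · have h3 := h (x := z) (by rw [dist_eq_norm]; exact hzz)
    rw [div_self hne, arg_one, Real.dist_eq, sub_zero] at h3
    rw [add_sub_cancel_left]
    exact h3
  · have h4 : ‖z / z0‖ = 1 := by rw [norm_div, hz, hz0, div_one]
    rw [fb_E_add, fb_arg h4, h0]
    field_simp

private theorem fb_bdd (h : PwC phi F u v) : ∃ B : ℝ, 0 ≤ B ∧ ∀ z : ℂ, ‖z‖ = 1 → ‖phi z‖ ≤ B := by
  have h1 : ∀ x : ℝ, ∃ t ∈ 𝓝 x, ∃ B : ℝ, ∀ y ∈ t, ‖phi (E y)‖ ≤ B := by
    intro x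
    by_cases hx : E x ∈ F
    · obtain ⟨hl, -⟩ := h.left _ hx
      obtain ⟨hr, -⟩ := h.right _ hx
      have el := hl.norm.eventually_le_const (lt_add_one ‖u (E x)‖)
      have er := hr.norm.eventually_le_const (lt_add_one ‖v (E x)‖)
      rw [eventually_iff, mem_nhdsGT_iff_exists_Ioo_subset] at el er
      obtain ⟨a, ha, ha'⟩ := el
      obtain ⟨b, hb, hb'⟩ := er
      have ha0 : (0 : ℝ) < a := ha
      have hb0 : (0 : ℝ) < b := hb
      refine ⟨Ioo (x - a) (x + b), Ioo_mem_nhds (by linarith) (by linarith),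
        max (max (‖u (E x)‖ + 1) (‖v (E x)‖ + 1)) ‖phi (E x)‖, ?_⟩
      intro y hy
      rcases lt_trichotomy y x with hyx | hyx | hyx
      · have h2 := ha' (show x - y ∈ Ioo 0 a from ⟨by linarith, by linarith [hy.1]⟩)
        have h3 : E x * E (-1 * (x - y)) = E y := by
          rw [← fb_E_add]
          ring_nf
        simp only [mem_ofPred_eq, h3] at h2
        exact le_max_of_le_left (le_max_of_le_left h2)
      · rw [hyx]
        exact le_max_right _ _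
      · have h2 := hb' (show y - x ∈ Ioo 0 b from ⟨by linarith, by linarith [hy.2]⟩)
        have h3 : E x * E (1 * (y - x)) = E y := by
          rw [← fb_E_add]
          ring_nf
        simp only [mem_ofPred_eq, h3] at h2
        exact le_max_of_le_left (le_max_of_le_right h2)
    · obtain ⟨hd, -, -⟩ := h.reg x hx
      have h2 := hd.continuousAt.norm.eventually_le_const (lt_add_one ‖phi (E x)‖)
      exact ⟨_, h2, ‖phi (E x)‖ + 1, fun y hy => hy⟩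
  have h2 : ∃ B : ℝ, ∀ y ∈ Icc (-Real.pi) Real.pi, ‖phi (E y)‖ ≤ B := by
    refine isCompact_Icc.induction_on (p := fun S : Set ℝ => ∃ B : ℝ, ∀ y ∈ S, ‖phi (E y)‖ ≤ B)
      ⟨0, fun y hy => absurd hy (notMem_empty y)⟩ ?_ ?_ ?_
    · rintro s t hst ⟨B, hB⟩
      exact ⟨B, fun y hy => hB y (hst hy)⟩
    · rintro s t ⟨B, hB⟩ ⟨C, hC⟩
      refine ⟨max B C, ?_⟩
      rintro y (hy | hy)
      · exact le_max_of_le_left (hB y hy)
      · exact le_max_of_le_right (hC y hy)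
    · intro x _
      obtain ⟨t, ht, B, hB⟩ := h1 x
      exact ⟨t, mem_nhdsWithin_of_mem_nhds ht, B, hB⟩
  obtain ⟨B, hB⟩ := h2
  refine ⟨max B 0, le_max_right _ _, fun z hz => ?_⟩
  have h3 := hB (arg z) ⟨(Complex.neg_pi_lt_arg z).le, Complex.arg_le_pi z⟩
  rw [fb_arg hz] at h3
  exact le_max_of_le_left h3

private theorem fb_strict (h : PwC phi F u v) {x0 : ℝ} (hF : E x0 ∉ F) :
    HasStrictDerivAt (fun y : ℝ => phi (E y)) (deriv (fun y : ℝ => phi (E y)) x0) x0 := by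
  have h1 : ∀ᶠ y in 𝓝 x0, E y ∉ F := by
    have h2 : IsClosed (F : Set ℂ) := F.finite_toSet.isClosed
    exact fb_E_cont.continuousAt.eventually (h2.isOpen_compl.mem_nhds hF)
  refine hasStrictDerivAt_of_hasDerivAt_of_continuousAt ?_ (h.reg x0 hF).2.2
  filter_upwards [h1] with y hy
  exact (h.reg y hy).1.hasDerivAt

private theorem fb_lo {f : ℝ → ℂ} {f' : ℂ} {x0 : ℝ} (h : HasStrictDerivAt f f' x0) {e : ℝ} (he : 0 < e) :
    ∃ δ : ℝ, 0 < δ ∧ ∀ y τ : ℝ, |y - x0| < δ → |τ - x0| < δ →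
      ‖f y - f τ - ((y - τ : ℝ) : ℂ) * f'‖ ≤ e * |y - τ| := by
  have h1 := hasStrictFDerivAt_iff_isLittleO.1 h.hasStrictFDerivAt
  have h2 := h1.def he
  rw [Metric.eventually_nhds_iff] at h2
  obtain ⟨δ, hδ, h3⟩ := h2
  refine ⟨δ, hδ, fun y τ hy hτ => ?_⟩
  have h4 := h3 (y := (y, τ)) (by
    rw [Prod.dist_eq, Real.dist_eq, Real.dist_eq]
    exact max_lt hy hτ)
  have h5 : ((y - τ : ℝ) : ℂ) * f' = (ContinuousLinearMap.toSpanSingleton ℝ f') (y - τ) := by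
    rw [ContinuousLinearMap.toSpanSingleton_apply, Complex.real_smul]
  rw [h5]
  simpa only [Real.norm_eq_abs] using h4

private theorem fb_near (h : PwC phi F u v) {x0 : ℝ} (h0 : E x0 = z0) (hzF : z0 ∉ F) {e : ℝ} (he : 0 < e) :
    ∃ δ : ℝ, 0 < δ ∧ ∀ y τ : ℝ, |y - x0| < δ → |τ - x0| < δ →
      ‖phi (E y) - phi (E τ) - deriv (fun y : ℝ => phi (E y)) x0 / (I * z0) * (E y - E τ)‖ ≤ e * ‖E y - E τ‖ := by
  have hz0 : ‖z0‖ = 1 := by rw [← h0]; exact fb_norm_E x0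
  have hne : z0 ≠ 0 := by
    intro h
    rw [h, norm_zero] at hz0
    exact zero_ne_one hz0
  have hx0 : E x0 ∉ F := by rw [h0]; exact hzF
  have hs := fb_strict h hx0
  generalize deriv (fun y : ℝ => phi (E y)) x0 = D at hs ⊢
  have hG : HasStrictDerivAt (fun y : ℝ => phi (E y) - D / (I * z0) * E y) 0 x0 := by
    refine (hs.sub ((fb_E_strict x0).const_mul (D / (I * z0)))).congr_deriv ?_
    rw [h0, div_mul_cancel₀ _ (mul_ne_zero I_ne_zero hne), sub_self]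
  obtain ⟨d1, hd1, k1⟩ := fb_lo hG (e := e / 2) (by positivity)
  obtain ⟨d2, hd2, k2⟩ := fb_lo (fb_E_strict x0) (e := 1 / 2) (by norm_num)
  refine ⟨min d1 d2, lt_min hd1 hd2, fun y τ hy hτ => ?_⟩
  have a1 := k1 y τ (lt_of_lt_of_le hy (min_le_left _ _)) (lt_of_lt_of_le hτ (min_le_left _ _))
  have a2 := k2 y τ (lt_of_lt_of_le hy (min_le_right _ _)) (lt_of_lt_of_le hτ (min_le_right _ _))
  rw [mul_zero, sub_zero] at a1
  have a3 : ‖((y - τ : ℝ) : ℂ) * (I * E x0)‖ = |y - τ| := by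
    rw [norm_mul, norm_mul, Complex.norm_I, fb_norm_E, Complex.norm_real, Real.norm_eq_abs]
    ring
  have a4 : |y - τ| ≤ ‖E y - E τ‖ + 1 / 2 * |y - τ| := by
    calc |y - τ| = ‖((y - τ : ℝ) : ℂ) * (I * E x0)‖ := a3.symm
      _ = ‖(E y - E τ) - (E y - E τ - ((y - τ : ℝ) : ℂ) * (I * E x0))‖ := by
          congr 1
          ring
      _ ≤ ‖E y - E τ‖ + ‖E y - E τ - ((y - τ : ℝ) : ℂ) * (I * E x0)‖ := norm_sub_le _ _
      _ ≤ _ := by linarith
  have a5 : phi (E y) - phi (E τ) - D / (I * z0) * (E y - E τ) =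
      (phi (E y) - D / (I * z0) * E y) - (phi (E τ) - D / (I * z0) * E τ) := by ring
  rw [a5]
  refine a1.trans ?_
  nlinarith

private theorem fb_ex (h : PwC phi F u v) {x0 : ℝ} (h0 : E x0 = z0) (hzF : z0 ∉ F) {eps : ℝ}
    (heps : 0 < eps) :
    ∃ δ : ℝ, 0 < δ ∧ ∀ τ s : ℝ, |τ - x0| ≤ δ → s ≠ 0 → |s| ≤ δ →
      E τ * (1 - s) ∈ ball z0 eps ∧ |s| < 1 / 2 ∧ ∀ z ∈ sphere (0 : ℂ) 1, z ≠ z0 →
        ‖(phi z - (phi (E τ) + I * s * deriv (fun y : ℝ => phi (E y)) τ)) / (z - E τ * (1 - s)) -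
          (phi z - phi z0) / (z - z0)‖ ≤ eps := by
  have hz0 : ‖z0‖ = 1 := by rw [← h0]; exact fb_norm_E x0
  have hne : z0 ≠ 0 := by
    intro h
    rw [h, norm_zero] at hz0
    exact zero_ne_one hz0
  have hx0 : E x0 ∉ F := by rw [h0]; exact hzF
  obtain ⟨B, hB0, hB⟩ := fb_bdd h
  have hcc : ContinuousAt (fun y : ℝ => phi (E y)) x0 := (h.reg x0 hx0).1.continuousAt
  have hDc : ContinuousAt (deriv fun y : ℝ => phi (E y)) x0 := (h.reg x0 hx0).2.2
  obtain ⟨d1, hd1, near⟩ := fb_near h h0 hzF (e := eps / 8) (by positivity)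
  generalize (deriv fun y : ℝ => phi (E y)) = D at near hDc ⊢
  obtain ⟨d, hd, k3⟩ := fb_inv h0 hd1
  have hη : ∃ η : ℝ, 0 < η ∧ η ≤ d / 2 ∧ η ≤ eps / 2 ∧ 2 * B * η * (2 / d * (1 / d)) + η * (2 / d) ≤ eps := by
    refine ⟨min (min (d / 2) (eps / 2)) (eps / (4 * B / d ^ 2 + 2 / d + 1)), ?_, ?_, ?_, ?_⟩
    · positivity
    · exact (min_le_left _ _).trans (min_le_left _ _)
    · exact (min_le_left _ _).trans (min_le_right _ _)
    · set K : ℝ := 4 * B / d ^ 2 + 2 / d + 1 with hK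
      have hK0 : 0 < K := by positivity
      set η : ℝ := min (min (d / 2) (eps / 2)) (eps / K)
      have h1 : η ≤ eps / K := min_le_right _ _
      have h2 : 0 ≤ η := by positivity
      calc 2 * B * η * (2 / d * (1 / d)) + η * (2 / d) = η * (4 * B / d ^ 2 + 2 / d) := by
            field_simp
            ring
        _ ≤ η * K := by
            apply mul_le_mul_of_nonneg_left _ h2
            rw [hK]
            linarith
        _ ≤ eps / K * K := by gcongr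
        _ = eps := by field_simp
  obtain ⟨η, hη0, hη1, hη2, hη3⟩ := hη
  have ev : ∀ᶠ q : ℝ × ℝ in 𝓝 (x0, 0), |q.1 - x0| < d1 ∧ ‖D q.1 - D x0 * E q.1 / z0‖ < eps / 8 ∧
      ‖E q.1 * (1 - q.2) - z0‖ < η ∧ ‖phi (E q.1) + I * q.2 * D q.1 - phi z0‖ < η ∧ |q.2| < 1 / 2 := by
    have hE : ContinuousAt (fun q : ℝ × ℝ => E q.1) (x0, 0) :=
      (fb_E_cont.comp continuous_fst).continuousAt
    have hc : ContinuousAt (fun q : ℝ × ℝ => phi (E q.1)) (x0, 0) :=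
      ContinuousAt.comp (g := fun y : ℝ => phi (E y)) (f := Prod.fst) hcc continuousAt_fst
    have hDD : ContinuousAt (fun q : ℝ × ℝ => D q.1) (x0, 0) :=
      ContinuousAt.comp (g := D) (f := Prod.fst) hDc continuousAt_fst
    have c1 : ContinuousAt (fun q : ℝ × ℝ => |q.1 - x0|) (x0, 0) := by fun_prop
    have c2 : ContinuousAt (fun q : ℝ × ℝ => ‖D q.1 - D x0 * E q.1 / z0‖) (x0, 0) :=
      (hDD.sub ((continuousAt_const.mul hE).div_const z0)).norm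
    have hs : ContinuousAt (fun q : ℝ × ℝ => ((q.2 : ℝ) : ℂ)) (x0, 0) := by fun_prop
    have c3 : ContinuousAt (fun q : ℝ × ℝ => ‖E q.1 * (1 - q.2) - z0‖) (x0, 0) :=
      ((hE.mul (continuousAt_const.sub hs)).sub continuousAt_const).norm
    have c4 : ContinuousAt (fun q : ℝ × ℝ => ‖phi (E q.1) + I * q.2 * D q.1 - phi z0‖) (x0, 0) :=
      ((hc.add ((continuousAt_const.mul hs).mul hDD)).sub continuousAt_const).norm
    have c5 : ContinuousAt (fun q : ℝ × ℝ => |q.2|) (x0, 0) := by fun_prop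
    have f1 := Tendsto.eventually_lt_const (show |x0 - x0| < d1 by simpa using hd1) c1.tendsto
    have f2 := Tendsto.eventually_lt_const (show ‖D x0 - D x0 * E x0 / z0‖ < eps / 8 by
      rw [h0, mul_div_assoc, div_self hne, mul_one, sub_self, norm_zero]
      positivity) c2.tendsto
    have f3 := Tendsto.eventually_lt_const (show ‖E x0 * (1 - ((0 : ℝ) : ℂ)) - z0‖ < η by
      rw [h0]
      simpa using hη0) c3.tendsto
    have f4 := Tendsto.eventually_lt_const (show ‖phi (E x0) + I * ((0 : ℝ) : ℂ) * D x0 - phi z0‖ < η by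
      rw [h0]
      simpa using hη0) c4.tendsto
    have f5 := Tendsto.eventually_lt_const (show |(0 : ℝ)| < 1 / 2 by simp) c5.tendsto
    filter_upwards [f1, f2, f3, f4, f5] with q g1 g2 g3 g4 g5
    exact ⟨g1, g2, g3, g4, g5⟩
  rw [Metric.eventually_nhds_iff] at ev
  obtain ⟨r, hr, ev⟩ := ev
  refine ⟨r / 2, by positivity, fun τ s hτ hs0 hs => ?_⟩
  obtain ⟨g1, g2, g3, g4, g5⟩ := ev (y := (τ, s)) (by
    rw [Prod.dist_eq, Real.dist_eq, Real.dist_eq, sub_zero]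
    exact max_lt (by linarith) (by linarith))
  simp only at g1 g2 g3 g4 g5
  refine ⟨by rw [mem_ball, dist_eq_norm]; linarith, g5, fun z hz hzz => ?_⟩
  have hz1 : ‖z‖ = 1 := by simpa using hz
  have hzz' : z - z0 ≠ 0 := sub_ne_zero.2 hzz
  set t : ℂ := E τ with ht
  set g : ℂ := t * (1 - s) with hg
  set l : ℂ := phi t + I * s * D τ with hl
  have hgs : |s| ≤ ‖z - g‖ := by
    have b1 := abs_norm_sub_norm_le z g
    have b2 : ‖g‖ = 1 - s := by
      rw [hg, norm_mul, ht, fb_norm_E, one_mul]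
      have b3 : ((1 : ℂ) - s) = ((1 - s : ℝ) : ℂ) := by push_cast; ring
      rw [b3, Complex.norm_real, Real.norm_eq_abs, abs_of_pos]
      have := (abs_lt.1 g5).2
      linarith
    rw [hz1, b2] at b1
    calc |s| = |1 - (1 - s)| := by ring_nf
      _ ≤ _ := b1
  have hs0' : 0 < |s| := abs_pos.2 hs0
  have hzg : 0 < ‖z - g‖ := lt_of_lt_of_le hs0' hgs
  have hzg' : z - g ≠ 0 := norm_pos_iff.1 hzg
  by_cases hzd : ‖z - z0‖ < d
  · obtain ⟨y, hy, rfl⟩ := k3 z hz1 hzd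
    have n1 := near y τ hy g1
    have n2 := near y x0 hy (by simpa using hd1)
    rw [h0] at n2
    rw [← ht] at n1
    set p : ℂ := D x0 / (I * z0) with hp
    have b1 : ‖E y - t‖ ≤ 2 * ‖E y - g‖ := by
      have b2 : E y - t = (E y - g) - t * s := by rw [hg]; ring
      calc ‖E y - t‖ = ‖(E y - g) - t * s‖ := by rw [b2]
        _ ≤ ‖E y - g‖ + ‖t * s‖ := norm_sub_le _ _
        _ = ‖E y - g‖ + |s| := by
            rw [norm_mul, ht, fb_norm_E, one_mul, Complex.norm_real, Real.norm_eq_abs]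
        _ ≤ _ := by linarith
    have hps : p * (s * t) = - (I * s * (D x0 * t / z0)) := by
      rw [hp]
      have hI : (I : ℂ) ≠ 0 := I_ne_zero
      field_simp
      rw [I_sq]
      ring
    have b3 : phi (E y) - l = p * (E y - g) + ((phi (E y) - phi t - p * (E y - t)) +
        -(I * s * (D τ - D x0 * t / z0))) := by
      rw [hl]
      have b4 : p * (E y - g) = p * (E y - t) + p * (s * t) := by rw [hg]; ring
      rw [b4, hps]
      ring
    have b5 : (phi (E y) - l) / (E y - g) - p = ((phi (E y) - phi t - p * (E y - t)) +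
        -(I * s * (D τ - D x0 * t / z0))) / (E y - g) := by
      rw [b3]
      field_simp
      ring
    have b6 : ‖(phi (E y) - l) / (E y - g) - p‖ ≤ 3 / 8 * eps := by
      rw [b5, norm_div, div_le_iff₀ hzg]
      calc ‖(phi (E y) - phi t - p * (E y - t)) + -(I * s * (D τ - D x0 * t / z0))‖
          ≤ ‖phi (E y) - phi t - p * (E y - t)‖ + ‖-(I * s * (D τ - D x0 * t / z0))‖ :=
            norm_add_le _ _
        _ = ‖phi (E y) - phi t - p * (E y - t)‖ + |s| * ‖D τ - D x0 * t / z0‖ := by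
            rw [norm_neg, norm_mul, norm_mul, Complex.norm_I, one_mul, Complex.norm_real,
              Real.norm_eq_abs]
        _ ≤ eps / 8 * (2 * ‖E y - g‖) + ‖E y - g‖ * (eps / 8) := by
            refine add_le_add (n1.trans (by gcongr)) ?_
            exact mul_le_mul hgs g2.le (norm_nonneg _) (norm_nonneg _)
        _ = 3 / 8 * eps * ‖E y - g‖ := by ring
    have b7 : ‖(phi (E y) - phi z0) / (E y - z0) - p‖ ≤ eps / 8 := by
      have b8 : (phi (E y) - phi z0) / (E y - z0) - p =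
          (phi (E y) - phi z0 - p * (E y - z0)) / (E y - z0) := by
        field_simp
      rw [b8, norm_div, div_le_iff₀ (norm_pos_iff.2 hzz')]
      exact n2
    calc ‖(phi (E y) - l) / (E y - g) - (phi (E y) - phi z0) / (E y - z0)‖
        = ‖((phi (E y) - l) / (E y - g) - p) - ((phi (E y) - phi z0) / (E y - z0) - p)‖ := by
          congr 1
          ring
      _ ≤ ‖(phi (E y) - l) / (E y - g) - p‖ + ‖(phi (E y) - phi z0) / (E y - z0) - p‖ :=
          norm_sub_le _ _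
      _ ≤ eps := by linarith
  · push Not at hzd
    have b1 : d / 2 ≤ ‖z - g‖ := by
      have b2 : ‖z - z0‖ ≤ ‖z - g‖ + ‖g - z0‖ := by
        calc ‖z - z0‖ = ‖(z - g) + (g - z0)‖ := by congr 1; ring
          _ ≤ _ := norm_add_le _ _
      linarith
    have b3 : (phi z - l) / (z - g) - (phi z - phi z0) / (z - z0) =
        (phi z - phi z0) * (g - z0) * (1 / (z - g) * (1 / (z - z0))) - (l - phi z0) * (1 / (z - g)) := by
      field_simp
      ring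
    rw [b3]
    have b4 : ‖1 / (z - g)‖ ≤ 2 / d := by
      rw [norm_div, norm_one, div_le_div_iff₀ hzg hd]
      linarith
    have b5 : ‖1 / (z - z0)‖ ≤ 1 / d := by
      rw [norm_div, norm_one]
      exact one_div_le_one_div_of_le hd hzd
    have b6 : ‖phi z - phi z0‖ ≤ 2 * B := by
      calc ‖phi z - phi z0‖ ≤ ‖phi z‖ + ‖phi z0‖ := norm_sub_le _ _
        _ ≤ 2 * B := by linarith [hB z hz1, hB z0 hz0]
    calc ‖(phi z - phi z0) * (g - z0) * (1 / (z - g) * (1 / (z - z0))) - (l - phi z0) * (1 / (z - g))‖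
        ≤ ‖(phi z - phi z0) * (g - z0) * (1 / (z - g) * (1 / (z - z0)))‖ +
          ‖(l - phi z0) * (1 / (z - g))‖ := norm_sub_le _ _
      _ = ‖phi z - phi z0‖ * ‖g - z0‖ * (‖1 / (z - g)‖ * ‖1 / (z - z0)‖) +
          ‖l - phi z0‖ * ‖1 / (z - g)‖ := by
          simp only [norm_mul]
      _ ≤ 2 * B * η * (2 / d * (1 / d)) + η * (2 / d) := by
          gcongr
      _ ≤ eps := hη3

private theorem fb_sel (h : PwC phi F u v) {x0 : ℝ} {z0 : ℂ} (h0 : E x0 = z0) (hzF : z0 ∉ F) :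
    ∃ C ρ : ℝ, 0 < C ∧ 0 < ρ ∧ ∀ l : ℂ, ‖l - phi z0‖ < ρ → l ∉ phi '' (sphere 0 1 \ F) →
      ∃ τ s : ℝ, s ≠ 0 ∧ |τ - x0| ≤ C * ‖l - phi z0‖ ∧ |s| ≤ C * ‖l - phi z0‖ ∧
        l = phi (E τ) + I * s * deriv (fun y : ℝ => phi (E y)) τ := by
  have hx0 : E x0 ∉ F := by rw [h0]; exact hzF
  have hst := fb_strict h hx0
  have hDne := (h.reg x0 hx0).2.1
  have hDc : ContinuousAt (deriv fun y : ℝ => phi (E y)) x0 := (h.reg x0 hx0).2.2
  have hder : ∀ y : ℝ, E y ∉ F → HasDerivAt (fun y : ℝ => phi (E y)) (deriv (fun y : ℝ => phi (E y)) y) y :=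
    fun y hy => (h.reg y hy).1.hasDerivAt
  generalize (deriv fun y : ℝ => phi (E y)) = D at hst hDne hDc hder ⊢
  have hD0 : 0 < ‖D x0‖ := norm_pos_iff.2 hDne
  obtain ⟨d1, hd1, k1⟩ := fb_lo hst (e := ‖D x0‖ / 2) (by positivity)
  have ev1 : ∀ᶠ y in 𝓝 x0, E y ∉ F := by
    have h2 : IsClosed (F : Set ℂ) := F.finite_toSet.isClosed
    exact fb_E_cont.continuousAt.eventually (h2.isOpen_compl.mem_nhds hx0)
  have ev2 : ∀ᶠ y in 𝓝 x0, ‖D x0‖ / 2 < ‖D y‖ :=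
    hDc.norm.tendsto.eventually_const_lt (by linarith)
  obtain ⟨r1, hr1, ev⟩ := Metric.eventually_nhds_iff.1 (ev1.and ev2)
  have hr : ∃ r : ℝ, 0 < r ∧ r < d1 ∧ r < r1 :=
    ⟨min (d1 / 2) (r1 / 2), by positivity,
      lt_of_le_of_lt (min_le_left _ _) (by linarith),
      lt_of_le_of_lt (min_le_right _ _) (by linarith)⟩
  obtain ⟨r, hr0, hrd, hrr⟩ := hr
  have hlow : ∀ y : ℝ, |y - x0| ≤ r → ‖D x0‖ / 2 * |y - x0| ≤ ‖phi (E y) - phi z0‖ := by
    intro y hy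
    have a1 := k1 y x0 (lt_of_le_of_lt hy hrd) (by simpa using hd1)
    rw [h0] at a1
    have a2 : ‖((y - x0 : ℝ) : ℂ) * D x0‖ = |y - x0| * ‖D x0‖ := by
      rw [norm_mul, Complex.norm_real, Real.norm_eq_abs]
    have a3 : ‖((y - x0 : ℝ) : ℂ) * D x0‖ ≤ ‖phi (E y) - phi z0‖ +
        ‖phi (E y) - phi z0 - ((y - x0 : ℝ) : ℂ) * D x0‖ := by
      calc ‖((y - x0 : ℝ) : ℂ) * D x0‖ = ‖(phi (E y) - phi z0) -
            (phi (E y) - phi z0 - ((y - x0 : ℝ) : ℂ) * D x0)‖ := by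
            congr 1
            ring
        _ ≤ _ := norm_sub_le _ _
    rw [a2] at a3
    linarith
  refine ⟨4 / ‖D x0‖, ‖D x0‖ / 2 * r / 2, by positivity, by positivity, fun l hl1 hlF => ?_⟩
  have hIcc : ∀ y ∈ Icc (x0 - r) (x0 + r), |y - x0| ≤ r := fun y hy =>
    abs_le.2 ⟨by linarith [hy.1], by linarith [hy.2]⟩
  have hFy : ∀ y ∈ Icc (x0 - r) (x0 + r), E y ∉ F ∧ ‖D x0‖ / 2 < ‖D y‖ := fun y hy =>
    ev (y := y) (by
      rw [Real.dist_eq]
      exact lt_of_le_of_lt (hIcc y hy) hrr)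
  have hcont : ContinuousOn (fun y : ℝ => ‖phi (E y) - l‖ ^ 2) (Icc (x0 - r) (x0 + r)) := by
    intro y hy
    have a1 := (hder y (hFy y hy).1).continuousAt
    exact ((a1.sub continuousAt_const).norm.pow 2).continuousWithinAt
  have hmem : x0 ∈ Icc (x0 - r) (x0 + r) := ⟨by linarith, by linarith⟩
  obtain ⟨τ, hτ, hmin⟩ := isCompact_Icc.exists_isMinOn ⟨x0, hmem⟩ hcont
  have hτ1 : ‖phi (E τ) - l‖ ≤ ‖l - phi z0‖ := by
    have a1 := hmin hmem
    simp only [mem_ofPred_eq, h0] at a1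
    rw [norm_sub_rev (phi z0) l] at a1
    exact le_of_sq_le_sq a1 (norm_nonneg _)
  have hτ3 : ‖phi (E τ) - phi z0‖ ≤ 2 * ‖l - phi z0‖ := by
    calc ‖phi (E τ) - phi z0‖ = ‖(phi (E τ) - l) + (l - phi z0)‖ := by congr 1; ring
      _ ≤ ‖phi (E τ) - l‖ + ‖l - phi z0‖ := norm_add_le _ _
      _ ≤ _ := by linarith
  have hlowτ := hlow τ (hIcc τ hτ)
  have hτr : |τ - x0| ≠ r := by
    intro hτe
    rw [hτe] at hlowτ
    linarith
  have hτ2 : |τ - x0| < r := lt_of_le_of_ne (hIcc τ hτ) hτr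
  have hloc : IsLocalMin (fun y : ℝ => ‖phi (E y) - l‖ ^ 2) τ := by
    have a1 : Icc (x0 - r) (x0 + r) ∈ 𝓝 τ :=
      Icc_mem_nhds (by linarith [(abs_lt.1 hτ2).1]) (by linarith [(abs_lt.1 hτ2).2])
    exact hmin.isLocalMin a1
  have hd := ((hder τ (hFy τ hτ).1).sub_const l).norm_sq
  have h1 := hloc.hasDerivAt_eq_zero hd
  have hDτ : 0 < ‖D τ‖ := lt_trans (by positivity) (hFy τ hτ).2
  have hDτ' : D τ ≠ 0 := norm_pos_iff.1 hDτ
  set q : ℂ := (l - phi (E τ)) / D τ with hq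
  have hq1 : l - phi (E τ) = q * D τ := by rw [hq]; field_simp
  have hre : q.re = 0 := by
    rw [Complex.inner] at h1
    have a1 : phi (E τ) - l = -(q * D τ) := by rw [← hq1]; ring
    have a0 : D τ * (starRingEnd ℂ) (phi (E τ) - l) = -((starRingEnd ℂ) q * (‖D τ‖ : ℂ) ^ 2) := by
      rw [a1, map_neg, map_mul, ← Complex.mul_conj']
      ring
    rw [a0, neg_re] at h1
    have a2 : ((starRingEnd ℂ) q * (‖D τ‖ : ℂ) ^ 2).re = q.re * ‖D τ‖ ^ 2 := by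
      rw [← ofReal_pow, re_mul_ofReal, conj_re]
    rw [a2] at h1
    have a3 : ‖D τ‖ ^ 2 ≠ 0 := by positivity
    have a4 : q.re * ‖D τ‖ ^ 2 = 0 := by linarith
    rcases mul_eq_zero.1 a4 with a5 | a5
    · exact a5
    · exact absurd a5 a3
  have hqI : q = I * (q.im : ℂ) := by
    apply Complex.ext
    · rw [hre]
      simp
    · simp
  have hleq : l = phi (E τ) + I * (q.im : ℂ) * D τ := by
    rw [← hqI, ← hq1]
    ring
  refine ⟨τ, q.im, ?_, ?_, ?_, hleq⟩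
  · intro hs
    apply hlF
    refine ⟨E τ, ⟨?_, (hFy τ hτ).1⟩, ?_⟩
    · rw [mem_sphere_zero_iff_norm]
      exact fb_norm_E τ
    · rw [hleq, hs]
      simp
  · rw [div_mul_eq_mul_div, le_div_iff₀ hD0]
    linarith
  · have a1 : |q.im| ≤ ‖q‖ := Complex.abs_im_le_norm q
    refine a1.trans ?_
    rw [hq, norm_div, norm_sub_rev, div_mul_eq_mul_div, div_le_div_iff₀ hDτ hD0]
    have a2 := (hFy τ hτ).2
    have a3 : 0 ≤ ‖l - phi z0‖ := norm_nonneg _
    calc ‖phi (E τ) - l‖ * ‖D x0‖ ≤ ‖l - phi z0‖ * ‖D x0‖ := by gcongr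
      _ ≤ ‖l - phi z0‖ * (4 * ‖D τ‖) := by
          apply mul_le_mul_of_nonneg_left _ a3
          linarith
      _ = 4 * ‖l - phi z0‖ * ‖D τ‖ := by ring

private theorem fb_norm_g (t : ℝ) {s : ℝ} (hs : |s| < 1 / 2) : ‖E t * (1 - s)‖ = 1 - s := by
  rw [norm_mul, fb_norm_E, one_mul]
  have b3 : ((1 : ℂ) - s) = ((1 - s : ℝ) : ℂ) := by push_cast; ring
  rw [b3, Complex.norm_real, Real.norm_eq_abs, abs_of_pos]
  have := (abs_lt.1 hs).2
  linarith

private theorem fb_asy (h : PwC phi F u v) {x0 : ℝ} {z0 : ℂ} (h0 : E x0 = z0) (hzF : z0 ∉ F) {e : ℝ}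
    (he : 0 < e) : ∃ δ : ℝ, 0 < δ ∧ ∀ τ s : ℝ, |τ - x0| < δ →
      ‖E τ * (1 - s) - z0 * (1 + I / deriv (fun y : ℝ => phi (E y)) x0 *
        (phi (E τ) + I * s * deriv (fun y : ℝ => phi (E y)) τ - phi z0))‖ ≤ e * (|τ - x0| + |s|) := by
  have hx0 : E x0 ∉ F := by rw [h0]; exact hzF
  have hz0 : ‖z0‖ = 1 := by rw [← h0]; exact fb_norm_E x0
  have hst := fb_strict h hx0
  have hDne := (h.reg x0 hx0).2.1
  have hDc : ContinuousAt (deriv fun y : ℝ => phi (E y)) x0 := (h.reg x0 hx0).2.2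
  generalize (deriv fun y : ℝ => phi (E y)) = D at hst hDne hDc ⊢
  have hD0 : 0 < ‖D x0‖ := norm_pos_iff.2 hDne
  have he' : 0 < e / (1 + 1 / ‖D x0‖) := by positivity
  obtain ⟨e', he'eq⟩ : ∃ e' : ℝ, e' = e / (1 + 1 / ‖D x0‖) := ⟨_, rfl⟩
  rw [← he'eq] at he'
  obtain ⟨d1, hd1, k1⟩ := fb_lo hst he'
  obtain ⟨d2, hd2, k2⟩ := fb_lo (fb_E_strict x0) he'
  have ev1 : ∀ᶠ y in 𝓝 x0, ‖E y - z0‖ < e' := by
    have h2 : ContinuousAt (fun y : ℝ => ‖E y - z0‖) x0 := by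
      exact (fb_E_cont.continuousAt.sub continuousAt_const).norm
    exact h2.tendsto.eventually_lt_const (by rw [h0, sub_self, norm_zero]; exact he')
  have ev2 : ∀ᶠ y in 𝓝 x0, ‖D y - D x0‖ < e' := by
    have h2 : ContinuousAt (fun y : ℝ => ‖D y - D x0‖) x0 := (hDc.sub continuousAt_const).norm
    exact h2.tendsto.eventually_lt_const (by rw [sub_self, norm_zero]; exact he')
  obtain ⟨d3, hd3, ev⟩ := Metric.eventually_nhds_iff.1 (ev1.and ev2)
  refine ⟨min (min d1 d2) d3, by positivity, fun τ s hτ => ?_⟩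
  have a1 := k1 τ x0 (lt_of_lt_of_le hτ ((min_le_left _ _).trans (min_le_left _ _))) (by simpa using hd1)
  have a2 := k2 τ x0 (lt_of_lt_of_le hτ ((min_le_left _ _).trans (min_le_right _ _))) (by simpa using hd2)
  obtain ⟨a3, a4⟩ := ev (y := τ) (by
    rw [Real.dist_eq]
    exact lt_of_lt_of_le hτ (min_le_right _ _))
  rw [h0] at a1 a2
  set σ : ℝ := τ - x0 with hσ
  have key : E τ * (1 - s) - z0 * (1 + I / D x0 * (phi (E τ) + I * s * D τ - phi z0)) =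
      (E τ - z0 - (σ : ℂ) * (I * z0)) - s * (E τ - z0) -
        z0 * (I / D x0) * ((phi (E τ) - phi z0 - (σ : ℂ) * D x0) + I * s * (D τ - D x0)) := by
    field_simp
    ring_nf
    rw [I_sq]
    ring
  rw [key]
  have n1 : ‖z0 * (I / D x0)‖ = 1 / ‖D x0‖ := by
    rw [norm_mul, hz0, norm_div, norm_I, one_mul]
  calc ‖(E τ - z0 - (σ : ℂ) * (I * z0)) - s * (E τ - z0) -
        z0 * (I / D x0) * ((phi (E τ) - phi z0 - (σ : ℂ) * D x0) + I * s * (D τ - D x0))‖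
      ≤ ‖(E τ - z0 - (σ : ℂ) * (I * z0)) - s * (E τ - z0)‖ +
        ‖z0 * (I / D x0) * ((phi (E τ) - phi z0 - (σ : ℂ) * D x0) + I * s * (D τ - D x0))‖ := norm_sub_le _ _
    _ ≤ (‖E τ - z0 - (σ : ℂ) * (I * z0)‖ + ‖(s : ℂ) * (E τ - z0)‖) +
        1 / ‖D x0‖ * (‖phi (E τ) - phi z0 - (σ : ℂ) * D x0‖ + ‖I * s * (D τ - D x0)‖) := by
        refine add_le_add (norm_sub_le _ _) ?_
        rw [norm_mul, n1]
        gcongr
        exact norm_add_le _ _
    _ = (‖E τ - z0 - (σ : ℂ) * (I * z0)‖ + |s| * ‖E τ - z0‖) +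
        1 / ‖D x0‖ * (‖phi (E τ) - phi z0 - (σ : ℂ) * D x0‖ + |s| * ‖D τ - D x0‖) := by
        rw [norm_mul, norm_mul, norm_mul, norm_I, one_mul, Complex.norm_real, Real.norm_eq_abs]
    _ ≤ (e' * |σ| + |s| * e') + 1 / ‖D x0‖ * (e' * |σ| + |s| * e') := by
        gcongr
    _ = e' * (1 + 1 / ‖D x0‖) * (|σ| + |s|) := by ring
    _ = e * (|σ| + |s|) := by
        rw [he'eq]
        field_simp

private theorem fb_pt (h : PwC phi F u v) {x0 : ℝ} {z0 : ℂ} (h0 : E x0 = z0) (hzF : z0 ∉ F) :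
    ∃ g : ℂ → ℂ, (∀ᶠ l in 𝓝 (phi z0), l ∉ phi '' (sphere 0 1 \ F) → ‖g l‖ ≠ 1) ∧
      (∀ eps > 0, ∀ᶠ l in 𝓝 (phi z0), l ∉ phi '' (sphere 0 1 \ F) →
        ‖g l - z0 * (1 + I / deriv (fun y : ℝ => phi (E y)) x0 * (l - phi z0))‖ ≤ eps * ‖l - phi z0‖) ∧
      ∀ eps > 0, ∀ᶠ l in 𝓝 (phi z0), l ∉ phi '' (sphere 0 1 \ F) → ∀ z ∈ sphere (0 : ℂ) 1, z ≠ z0 →
        ‖(phi z - l) / (z - g l) - (phi z - phi z0) / (z - z0)‖ ≤ eps := by
  classical
  obtain ⟨C, ρ, hC, hρ, hsel⟩ := fb_sel h h0 hzF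
  have key : ∀ l : ℂ, ∃ ts : ℝ × ℝ, ‖l - phi z0‖ < ρ → l ∉ phi '' (sphere 0 1 \ F) →
      ts.2 ≠ 0 ∧ |ts.1 - x0| ≤ C * ‖l - phi z0‖ ∧ |ts.2| ≤ C * ‖l - phi z0‖ ∧
        l = phi (E ts.1) + I * ts.2 * deriv (fun y : ℝ => phi (E y)) ts.1 := by
    intro l
    by_cases hl : ‖l - phi z0‖ < ρ ∧ l ∉ phi '' (sphere 0 1 \ F)
    · obtain ⟨τ, s, h1, h2, h3, h4⟩ := hsel l hl.1 hl.2
      exact ⟨(τ, s), fun _ _ => ⟨h1, h2, h3, h4⟩⟩
    · exact ⟨(0, 0), fun h1 h2 => absurd ⟨h1, h2⟩ hl⟩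
  choose ts hts using key
  have hball : ∀ {r : ℝ}, 0 < r → ∀ᶠ l in 𝓝 (phi z0), ‖l - phi z0‖ < r := fun {r} hr => by
    filter_upwards [Metric.ball_mem_nhds (phi z0) hr] with l hl
    rwa [mem_ball, dist_eq_norm] at hl
  refine ⟨fun l => E (ts l).1 * (1 - ((ts l).2 : ℂ)), ?_, ?_, ?_⟩
  · filter_upwards [hball hρ, hball (show 0 < 1 / (4 * C) by positivity)] with l h1 h2 hl
    obtain ⟨b1, b2, b3, b4⟩ := hts l h1 hl
    have b5 : |(ts l).2| < 1 / 2 := by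
      have b6 : C * ‖l - phi z0‖ < C * (1 / (4 * C)) := by gcongr
      have b7 : C * (1 / (4 * C)) = 1 / 4 := by field_simp
      linarith
    rw [fb_norm_g _ b5]
    intro b6
    apply b1
    linarith
  · intro eps heps
    obtain ⟨δ, hδ, k⟩ := fb_asy h h0 hzF (e := eps / (2 * C)) (by positivity)
    filter_upwards [hball hρ, hball (show 0 < δ / C by positivity)] with l h1 h2 hl
    obtain ⟨b1, b2, b3, b4⟩ := hts l h1 hl
    have b5 : |(ts l).1 - x0| < δ := by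
      refine lt_of_le_of_lt b2 ?_
      rw [mul_comm]
      exact (lt_div_iff₀ hC).1 h2
    have b6 := k (ts l).1 (ts l).2 b5
    rw [← b4] at b6
    refine b6.trans ?_
    calc eps / (2 * C) * (|(ts l).1 - x0| + |(ts l).2|)
        ≤ eps / (2 * C) * (C * ‖l - phi z0‖ + C * ‖l - phi z0‖) := by gcongr
      _ = eps * ‖l - phi z0‖ := by
          field_simp
          ring
  · intro eps heps
    obtain ⟨δ, hδ, k⟩ := fb_ex h h0 hzF heps
    filter_upwards [hball hρ, hball (show 0 < δ / C by positivity)] with l h1 h2 hl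
    obtain ⟨b1, b2, b3, b4⟩ := hts l h1 hl
    have b5 : C * ‖l - phi z0‖ ≤ δ := by
      rw [mul_comm]
      exact ((lt_div_iff₀ hC).1 h2).le
    obtain ⟨c1, c2, c3⟩ := k (ts l).1 (ts l).2 (b2.trans b5) b1 (b3.trans b5)
    rw [← b4] at c3
    exact c3

private theorem fb_quo (h : PwC phi F u v) {x0 : ℝ} {z0 : ℂ} (h0 : E x0 = z0) (hzF : z0 ∉ F) :
    ∃ M : ℝ, 0 ≤ M ∧ ∀ z ∈ sphere (0 : ℂ) 1, z ≠ z0 → ‖(phi z - phi z0) / (z - z0)‖ ≤ M := by
  have hz0 : ‖z0‖ = 1 := by rw [← h0]; exact fb_norm_E x0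
  obtain ⟨B, hB0, hB⟩ := fb_bdd h
  obtain ⟨δ, hδ, near⟩ := fb_near h h0 hzF (e := 1) one_pos
  obtain ⟨d, hd, k3⟩ := fb_inv h0 hδ
  generalize deriv (fun y : ℝ => phi (E y)) x0 / (I * z0) = p at near
  refine ⟨max (‖p‖ + 1) (2 * B / d), by positivity, fun z hz hzz => ?_⟩
  have hz1 : ‖z‖ = 1 := by simpa using hz
  have hpos : 0 < ‖z - z0‖ := norm_pos_iff.2 (sub_ne_zero.2 hzz)
  rw [norm_div]
  by_cases hzd : ‖z - z0‖ < d
  · obtain ⟨y, hy, rfl⟩ := k3 z hz1 hzd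
    refine le_trans ?_ (le_max_left _ _)
    have n2 := near y x0 hy (by simpa using hδ)
    rw [h0, one_mul] at n2
    rw [div_le_iff₀ hpos]
    calc ‖phi (E y) - phi z0‖ = ‖(phi (E y) - phi z0 - p * (E y - z0)) + p * (E y - z0)‖ := by
          congr 1
          ring
      _ ≤ ‖phi (E y) - phi z0 - p * (E y - z0)‖ + ‖p * (E y - z0)‖ := norm_add_le _ _
      _ ≤ ‖E y - z0‖ + ‖p‖ * ‖E y - z0‖ := by
          rw [norm_mul]
          linarith
      _ = (‖p‖ + 1) * ‖E y - z0‖ := by ring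
  · push Not at hzd
    refine le_trans ?_ (le_max_right _ _)
    have b6 : ‖phi z - phi z0‖ ≤ 2 * B := by
      calc ‖phi z - phi z0‖ ≤ ‖phi z‖ + ‖phi z0‖ := norm_sub_le _ _
        _ ≤ 2 * B := by linarith [hB z hz1, hB z0 hz0]
    exact div_le_div₀ (by positivity) b6 hd hzd

private theorem fb_tg (h : PwC phi F u v) {z : ℂ} (hz : ‖z‖ = 1) (hzF : z ∉ F) :
    ∃ x0 : ℝ, E x0 = z ∧ tg phi z = deriv (fun y : ℝ => phi (E y)) x0 ∧ tg phi z ≠ 0 ∧
      HasDerivAt (fun x : ℝ => phi (z * E x)) (tg phi z) 0 := by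
  obtain ⟨x0, hx0⟩ := EskA.exists_E hz
  obtain ⟨hd, hD0, -⟩ := h.reg x0 (by rw [hx0]; exact hzF)
  have hD : HasDerivAt (fun x : ℝ => phi (z * E x)) (deriv (fun y : ℝ => phi (E y)) x0) 0 := by
    have h1 : HasDerivAt (fun y : ℝ => phi (E y)) (deriv (fun y : ℝ => phi (E y)) x0) (x0 + 0) := by
      rw [add_zero]
      exact hd.hasDerivAt
    have h2 := h1.comp_const_add x0 0
    refine h2.congr_of_eventuallyEq (Filter.Eventually.of_forall fun x => ?_)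
    simp only
    rw [EskA.E_add, hx0]
  have h3 : tg phi z = deriv (fun y : ℝ => phi (E y)) x0 := hD.deriv
  exact ⟨x0, hx0, h3, by rw [h3]; exact hD0, by rw [h3]; exact hD⟩

private theorem fb_fac {P : ℂ → Prop} {g1 g2 : ℂ → ℂ} {q : ℂ} {M1 M2 : ℝ} (hne : t1 ≠ t2)
    (hA1 : ∀ eps > 0, ∀ᶠ l in 𝓝 q, P l → ∀ z ∈ sphere (0 : ℂ) 1, z ≠ t1 →
      ‖(phi z - l) / (z - g1 l) - (phi z - q) / (z - t1)‖ ≤ eps)
    (hA2 : ∀ eps > 0, ∀ᶠ l in 𝓝 q, P l → ∀ z ∈ sphere (0 : ℂ) 1, z ≠ t2 →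
      ‖(phi z - l) / (z - g2 l) - (phi z - q) / (z - t2)‖ ≤ eps)
    (hM1 : ∀ z ∈ sphere (0 : ℂ) 1, z ≠ t1 → ‖(phi z - q) / (z - t1)‖ ≤ M1)
    (hM2 : ∀ z ∈ sphere (0 : ℂ) 1, z ≠ t2 → ‖(phi z - q) / (z - t2)‖ ≤ M2)
    (h01 : 0 ≤ M1) (h02 : 0 ≤ M2)
    (hg1 : ∀ eps > 0, ∀ᶠ l in 𝓝 q, P l → ‖g1 l - t1‖ ≤ eps)
    (hg2 : ∀ eps > 0, ∀ᶠ l in 𝓝 q, P l → ‖g2 l - t2‖ ≤ eps)
    (hoff : ∀ᶠ l in 𝓝 q, P l → ‖g1 l‖ ≠ 1 ∧ ‖g2 l‖ ≠ 1) :
    ∀ eps > 0, ∀ᶠ l in 𝓝 q, P l → ∀ z ∈ sphere (0 : ℂ) 1, z ≠ t1 → z ≠ t2 →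
      ‖(phi z - l) / ((z - g1 l) * (z - g2 l)) - (phi z - q) / ((z - t1) * (z - t2))‖ ≤ eps := by
  intro eps heps
  have hd : 0 < ‖t1 - t2‖ := norm_pos_iff.2 (sub_ne_zero.2 hne)
  obtain ⟨d, hdd⟩ : ∃ d : ℝ, d = ‖t1 - t2‖ := ⟨_, rfl⟩
  rw [← hdd] at hd
  have hη : ∃ η : ℝ, 0 < η ∧ η ≤ d / 4 ∧ (M1 + M2) * (4 * η / d ^ 2) ≤ eps / 2 := by
    refine ⟨min (d / 4) (eps * d ^ 2 / (8 * (M1 + M2 + 1))), by positivity, min_le_left _ _, ?_⟩
    have h1 : min (d / 4) (eps * d ^ 2 / (8 * (M1 + M2 + 1))) ≤ eps * d ^ 2 / (8 * (M1 + M2 + 1)) :=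
      min_le_right _ _
    calc (M1 + M2) * (4 * min (d / 4) (eps * d ^ 2 / (8 * (M1 + M2 + 1))) / d ^ 2)
        ≤ (M1 + M2 + 1) * (4 * (eps * d ^ 2 / (8 * (M1 + M2 + 1))) / d ^ 2) := by
          apply mul_le_mul
          · linarith
          · gcongr
          · positivity
          · positivity
      _ = eps / 2 := by
          field_simp
          ring
  obtain ⟨η, hη0, hη1, hη2⟩ := hη
  filter_upwards [hA1 (eps * d / 8) (by positivity), hA2 (eps * d / 8) (by positivity), hg1 η hη0,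
    hg2 η hη0, hoff] with l k1 k2 k3 k4 k5 hl z hz hz1 hz2
  have c1 := k1 hl z hz hz1
  have c2 := k2 hl z hz hz2
  have c3 := k3 hl
  have c4 := k4 hl
  obtain ⟨c5, c6⟩ := k5 hl
  have m1 := hM1 z hz hz1
  have m2 := hM2 z hz hz2
  have hzn : ‖z‖ = 1 := by simpa using hz
  have e1 : z - g1 l ≠ 0 := by
    intro h1
    rw [← sub_eq_zero.1 h1] at c5
    exact c5 hzn
  have e2 : z - g2 l ≠ 0 := by
    intro h1
    rw [← sub_eq_zero.1 h1] at c6
    exact c6 hzn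
  have e3 : z - t1 ≠ 0 := sub_ne_zero.2 hz1
  have e4 : z - t2 ≠ 0 := sub_ne_zero.2 hz2
  have e5 : t1 - t2 ≠ 0 := sub_ne_zero.2 hne
  have hgg : d / 2 ≤ ‖g1 l - g2 l‖ := by
    have b1 : ‖t1 - t2‖ ≤ ‖g1 l - g2 l‖ + ‖g1 l - t1‖ + ‖g2 l - t2‖ := by
      calc ‖t1 - t2‖ = ‖(g1 l - g2 l) - (g1 l - t1) + (g2 l - t2)‖ := by
            congr 1
            ring
        _ ≤ ‖(g1 l - g2 l) - (g1 l - t1)‖ + ‖g2 l - t2‖ := norm_add_le _ _
        _ ≤ ‖g1 l - g2 l‖ + ‖g1 l - t1‖ + ‖g2 l - t2‖ := by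
            have := norm_sub_le (g1 l - g2 l) (g1 l - t1)
            linarith
    rw [← hdd] at b1
    linarith
  have hgp : 0 < ‖g1 l - g2 l‖ := lt_of_lt_of_le (by positivity) hgg
  have e6 : g1 l - g2 l ≠ 0 := norm_pos_iff.1 hgp
  generalize g1 l = G1 at *
  generalize g2 l = G2 at *
  have p1 : (phi z - l) / ((z - G1) * (z - G2)) =
      ((phi z - l) / (z - G1) - (phi z - l) / (z - G2)) / (G1 - G2) := by
    field_simp
    ring
  have p2 : (phi z - q) / ((z - t1) * (z - t2)) =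
      ((phi z - q) / (z - t1) - (phi z - q) / (z - t2)) / (t1 - t2) := by
    field_simp
    ring
  rw [p1, p2]
  generalize (phi z - l) / (z - G1) = A1 at *
  generalize (phi z - l) / (z - G2) = A2 at *
  generalize (phi z - q) / (z - t1) = B1 at *
  generalize (phi z - q) / (z - t2) = B2 at *
  have p3 : (A1 - A2) / (G1 - G2) - (B1 - B2) / (t1 - t2) =
      ((A1 - B1) - (A2 - B2)) / (G1 - G2) +
        (B1 - B2) * (((G2 - t2) - (G1 - t1)) / ((G1 - G2) * (t1 - t2))) := by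
    field_simp
    ring
  rw [p3]
  have q1 : ‖((A1 - B1) - (A2 - B2)) / (G1 - G2)‖ ≤ eps / 2 := by
    rw [norm_div, div_le_iff₀ hgp]
    calc ‖(A1 - B1) - (A2 - B2)‖ ≤ ‖A1 - B1‖ + ‖A2 - B2‖ := norm_sub_le _ _
      _ ≤ eps * d / 8 + eps * d / 8 := add_le_add c1 c2
      _ = eps / 2 * (d / 2) := by ring
      _ ≤ eps / 2 * ‖G1 - G2‖ := by gcongr
  have q2 : ‖((G2 - t2) - (G1 - t1)) / ((G1 - G2) * (t1 - t2))‖ ≤ 4 * η / d ^ 2 := by
    rw [norm_div, norm_mul, ← hdd, div_le_iff₀ (by positivity)]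
    calc ‖(G2 - t2) - (G1 - t1)‖ ≤ ‖G2 - t2‖ + ‖G1 - t1‖ := norm_sub_le _ _
      _ ≤ η + η := add_le_add c4 c3
      _ = 4 * η / d ^ 2 * (d / 2 * d) := by
          field_simp
          ring
      _ ≤ 4 * η / d ^ 2 * (‖G1 - G2‖ * d) := by gcongr
  calc ‖((A1 - B1) - (A2 - B2)) / (G1 - G2) +
        (B1 - B2) * (((G2 - t2) - (G1 - t1)) / ((G1 - G2) * (t1 - t2)))‖
      ≤ ‖((A1 - B1) - (A2 - B2)) / (G1 - G2)‖ +
        ‖(B1 - B2) * (((G2 - t2) - (G1 - t1)) / ((G1 - G2) * (t1 - t2)))‖ := norm_add_le _ _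
    _ = ‖((A1 - B1) - (A2 - B2)) / (G1 - G2)‖ +
        ‖B1 - B2‖ * ‖((G2 - t2) - (G1 - t1)) / ((G1 - G2) * (t1 - t2))‖ := by rw [norm_mul]
    _ ≤ eps / 2 + (M1 + M2) * (4 * η / d ^ 2) := by
        have q3 : ‖B1 - B2‖ ≤ M1 + M2 := (norm_sub_le _ _).trans (add_le_add m1 m2)
        refine add_le_add q1 ?_
        exact mul_le_mul q3 q2 (norm_nonneg _) (by positivity)
    _ ≤ eps := by linarith

private theorem fb_unit (h : PwC phi F u v) (hd : Dt phi F t1 t2)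
    (hs : ∀ t ∈ F, phi t1 ∉ segment ℝ (u t) (v t)) :
    ∃ n : ℤ, IsUnit (TM (mf fun y => e y ^ (-n) *
      ((phi (e y) - phi t1) / ((e y - t1) * (e y - t2))))) := by
  classical
  have hcv := h.cv
  have z1 : t1 ≠ 0 := fun h => by
    have h1 := hd.n1
    rw [h, norm_zero] at h1
    exact zero_ne_one h1
  have z2 : t2 ≠ 0 := fun h => by
    have h1 := hd.n2
    rw [h, norm_zero] at h1
    exact zero_ne_one h1
  have h12 : t1 - t2 ≠ 0 := sub_ne_zero.2 hd.ne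
  have h21 : t2 - t1 ≠ 0 := sub_ne_zero.2 hd.ne.symm
  obtain ⟨x1, -, -, hD1, hE1⟩ := fb_tg h hd.n1 hd.f1
  obtain ⟨x2, -, -, hD2, hE2⟩ := fb_tg h hd.n2 hd.f2
  have hp1 : tg phi t1 / (t1 * I) ≠ 0 := div_ne_zero hD1 (mul_ne_zero z1 I_ne_zero)
  have hp2 : tg phi t2 / (t2 * I) ≠ 0 := div_ne_zero hD2 (mul_ne_zero z2 I_ne_zero)
  have c1 := EskA.psi_cont hd.n1 hcv.cont hE1
  have c2 := EskA.psi_cont hd.n2 hcv.cont hE2
  generalize tg phi t1 / (t1 * I) = p1 at hp1 c1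
  generalize tg phi t2 / (t2 * I) = p2 at hp2 c2
  obtain ⟨Psi, hPsi⟩ : ∃ Psi : ℂ → ℂ, Psi = fun z => if z = t2 then p2 / (t2 - t1) else
      EskA.psi phi t1 p1 z / (z - t2) := ⟨_, rfl⟩
  have P2 : Psi t2 = p2 / (t2 - t1) := by rw [hPsi]; exact if_pos rfl
  have Pn : ∀ z, z ≠ t2 → Psi z = EskA.psi phi t1 p1 z / (z - t2) := fun z hz => by
    rw [hPsi]
    exact if_neg hz
  have Pm : ∀ z, z ≠ t1 → Psi z = EskA.psi phi t2 p2 z / (z - t1) := fun z hz => by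
    by_cases h2 : z = t2
    · rw [h2, P2, EskA.psi_eq]
    · rw [Pn z h2, EskA.psi_ne hz, EskA.psi_ne h2, hd.val, div_div, div_div, mul_comm]
  have hcont : ContinuousOn Psi (sphere 0 1 \ F) := by
    intro w hw
    by_cases hwz : w = t2
    · have h1 : Psi =ᶠ[𝓝 w] fun z => EskA.psi phi t2 p2 z / (z - t1) := by
        filter_upwards [isOpen_ne.mem_nhds (show w ≠ t1 by rw [hwz]; exact hd.ne.symm)] with x hx
        exact Pm x hx
      have h2 : ContinuousWithinAt (fun z => EskA.psi phi t2 p2 z / (z - t1)) (sphere 0 1 \ F) w :=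
        (c2 w hw).div (by fun_prop) (by rw [hwz]; exact h21)
      exact h2.congr_of_eventuallyEq (h1.filter_mono nhdsWithin_le_nhds) h1.eq_of_nhds
    · have h1 : Psi =ᶠ[𝓝 w] fun z => EskA.psi phi t1 p1 z / (z - t2) := by
        filter_upwards [isOpen_ne.mem_nhds hwz] with x hx
        exact Pn x hx
      have h2 : ContinuousWithinAt (fun z => EskA.psi phi t1 p1 z / (z - t2)) (sphere 0 1 \ F) w :=
        (c1 w hw).div (by fun_prop) (sub_ne_zero.2 hwz)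
      exact h2.congr_of_eventuallyEq (h1.filter_mono nhdsWithin_le_nhds) h1.eq_of_nhds
  have hne : ∀ w ∈ sphere (0 : ℂ) 1, w ∉ F → Psi w ≠ 0 := by
    intro w hw hwF
    by_cases hw2 : w = t2
    · rw [hw2, P2]
      exact div_ne_zero hp2 h21
    · rw [Pn w hw2]
      refine div_ne_zero ?_ (sub_ne_zero.2 hw2)
      by_cases hw1 : w = t1
      · rw [hw1, EskA.psi_eq]
        exact hp1
      · rw [EskA.psi_ne hw1]
        refine div_ne_zero (sub_ne_zero.2 fun h1 => ?_) (sub_ne_zero.2 hw1)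
        rcases hd.only w (mem_sphere_zero_iff_norm.1 hw) hwF h1 with h2 | h2
        · exact hw1 h2
        · exact hw2 h2
  have hseg := fun t ht => WjA.ne_seg (hs t ht)
  have ht1 : ∀ t ∈ F, t ≠ t1 := fun t ht h1 => hd.f1 (h1 ▸ ht)
  have ht2 : ∀ t ∈ F, t ≠ t2 := fun t ht h1 => hd.f2 (h1 ▸ ht)
  have hlim : ∀ t ∈ F, ∀ (f : ℝ → ℂ) (a : ℂ), Tendsto f (𝓝[>] 0) (𝓝 t) →
      Tendsto (fun x => phi (f x)) (𝓝[>] 0) (𝓝 a) →
      Tendsto (fun x => Psi (f x)) (𝓝[>] 0) (𝓝 ((a - phi t1) / (t - t1) / (t - t2))) := by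
    intro t ht f a hf hp
    have h1 := (EskA.psi_lim (p := p1) (ht1 t ht) hf hp).div (hf.sub_const t2)
      (sub_ne_zero.2 (ht2 t ht))
    refine h1.congr' ?_
    filter_upwards [hf.eventually_ne (ht2 t ht)] with x hx
    rw [Pn _ hx]
    rfl
  obtain ⟨r, hr⟩ := exists_rad h.circ
  obtain ⟨kap, hkap⟩ : ∃ kap : ℂ → ℂ, kap = fun t => Complex.log ((v t - phi t1) / (u t - phi t1)) :=
    ⟨_, rfl⟩
  obtain ⟨n, g, hg, hng⟩ := normal_form h.circ hr (psi := Psi) hcont hne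
    (a := fun t => (u t - phi t1) / (t - t1) / (t - t2))
    (b := fun t => (v t - phi t1) / (t - t1) / (t - t2))
    (kap := kap) (fun t ht => hlim t ht _ _ (WjA.tend_L t) (hcv.lim_left t ht))
    (fun t ht => hlim t ht _ _ (WjA.tend_R t) (hcv.lim_right t ht))
    (fun t ht => div_ne_zero (div_ne_zero (hseg t ht).1 (sub_ne_zero.2 (ht1 t ht)))
      (sub_ne_zero.2 (ht2 t ht)))
    (fun t ht => div_ne_zero (div_ne_zero (hseg t ht).2 (sub_ne_zero.2 (ht1 t ht)))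
      (sub_ne_zero.2 (ht2 t ht)))
    (fun t ht => by
      rw [hkap, div_div_div_cancel_right₀ (sub_ne_zero.2 (ht2 t ht)),
        div_div_div_cancel_right₀ (sub_ne_zero.2 (ht1 t ht))]
      exact Complex.exp_log (div_ne_zero (hseg t ht).2 (hseg t ht).1))
  refine ⟨n, ?_⟩
  have h1 := isUnit_expJ h.circ hr hg (kap := kap) fun t ht => by
    rw [hkap]
    exact WjA.log_im (hs t ht)
  rw [mf_congr (b := fun x => exp (g (e x) + ∑ t ∈ F, kap t * (ch r t (e x) : ℂ))) ?_]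
  · exact h1
  · filter_upwards [WjA.ae_notin F, WjA.ae_notin {t1}, WjA.ae_notin {t2}] with x hx hx1 hx2
    have hx1' : e x ≠ t1 := fun h3 => hx1 (Finset.mem_singleton.2 h3)
    have hx2' : e x ≠ t2 := fun h3 => hx2 (Finset.mem_singleton.2 h3)
    have h2 := hng (e x) (WjA.he x) hx
    rw [Pn _ hx2', EskA.psi_ne hx1', div_div] at h2
    rw [h2, ← mul_assoc, ← zpow_add₀ (PsiAux.e_ne x), neg_add_cancel, zpow_zero, one_mul]

theorem db_of (h : PwC phi F u v) (hd : Dt phi F t1 t2)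
    (hs : ∀ t ∈ F, phi t1 ∉ segment ℝ (u t) (v t)) : ∃ (x : ℤ) (g1 g2 : ℂ → ℂ),
      Db phi (Gam phi F u v) t1 t2 (I / tg phi t1) (I / tg phi t2) x g1 g2 := by
  obtain ⟨n, hn⟩ := fb_unit h hd hs
  obtain ⟨x1, hx1, e1, hD1, -⟩ := fb_tg h hd.n1 hd.f1
  obtain ⟨x2, hx2, e2, hD2, -⟩ := fb_tg h hd.n2 hd.f2
  obtain ⟨g1, o1, l1, f1⟩ := fb_pt h hx1 hd.f1
  obtain ⟨g2, o2, l2, f2⟩ := fb_pt h hx2 hd.f2
  obtain ⟨M1, hM1, m1⟩ := fb_quo h hx1 hd.f1
  obtain ⟨M2, hM2, m2⟩ := fb_quo h hx2 hd.f2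
  rw [← e1] at l1
  rw [← e2] at l2
  rw [hd.val] at o2 l2 f2 m2
  have hK : ∀ l, l ∉ Gam phi F u v → l ∉ phi '' (sphere 0 1 \ F) := fun l hl h1 => hl (Or.inl h1)
  have hclose : ∀ (g : ℂ → ℂ) (t a : ℂ), (∀ eps > 0, ∀ᶠ l in 𝓝 (phi t1),
      l ∉ phi '' (sphere 0 1 \ F) → ‖g l - t * (1 + a * (l - phi t1))‖ ≤ eps * ‖l - phi t1‖) →
      ∀ eps > 0, ∀ᶠ l in 𝓝 (phi t1), l ∉ phi '' (sphere 0 1 \ F) → ‖g l - t‖ ≤ eps := by
    intro g t a hg eps heps
    have h1 : ∀ᶠ l in 𝓝 (phi t1), ‖l - phi t1‖ + ‖t * a * (l - phi t1)‖ < eps := by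
      have h2 : ContinuousAt (fun l : ℂ => ‖l - phi t1‖ + ‖t * a * (l - phi t1)‖) (phi t1) := by
        fun_prop
      exact h2.tendsto.eventually_lt_const (by simpa using heps)
    filter_upwards [hg 1 one_pos, h1] with l k1 k2 hl
    have k3 := k1 hl
    calc ‖g l - t‖ = ‖(g l - t * (1 + a * (l - phi t1))) + t * a * (l - phi t1)‖ := by
          congr 1
          ring
      _ ≤ ‖g l - t * (1 + a * (l - phi t1))‖ + ‖t * a * (l - phi t1)‖ := norm_add_le _ _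
      _ ≤ eps := by linarith
  have hoff : ∀ᶠ l in 𝓝 (phi t1), l ∉ phi '' (sphere 0 1 \ F) → ‖g1 l‖ ≠ 1 ∧ ‖g2 l‖ ≠ 1 := by
    filter_upwards [o1, o2] with l k1 k2 hl
    exact ⟨k1 hl, k2 hl⟩
  have hfac := fb_fac hd.ne f1 f2 m1 m2 hM1 hM2 (hclose g1 t1 _ l1) (hclose g2 t2 _ l2) hoff
  refine ⟨n, g1, g2, hd.n1, hd.n2, hd.ne, hd.val, ?_, hn, ?_, ?_, ?_, ?_⟩
  · have k1 : I / tg phi t1 * conj (I / tg phi t2) = (tg phi t1 * conj (tg phi t2))⁻¹ := by
      have k2 : conj (tg phi t2) ≠ 0 := (map_ne_zero _).2 hD2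
      rw [map_div₀, conj_I]
      field_simp
      rw [I_sq]
      ring
    rw [k1, inv_im]
    have k3 : (tg phi t1 * conj (tg phi t2)).im = -(conj (tg phi t1) * tg phi t2).im := by
      simp only [mul_im, conj_re, conj_im]
      ring
    rw [k3, neg_neg]
    refine div_ne_zero hd.trans ?_
    rw [Ne, normSq_eq_zero]
    exact mul_ne_zero hD1 ((map_ne_zero _).2 hD2)
  · filter_upwards [hoff] with l k1 hl
    exact k1 (hK l hl)
  · intro eps heps
    filter_upwards [l1 eps heps] with l k1 hl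
    exact k1 (hK l hl)
  · intro eps heps
    filter_upwards [l2 eps heps] with l k1 hl
    exact k1 (hK l hl)
  · intro eps heps
    filter_upwards [hfac eps heps] with l k1 hl
    filter_upwards [WjA.ae_notin {t1}, WjA.ae_notin {t2}] with y hy1 hy2
    exact k1 (hK l hl) (e y) (WjA.he y) (fun h3 => hy1 (Finset.mem_singleton.2 h3))
      (fun h3 => hy2 (Finset.mem_singleton.2 h3))

end Pool.Agent.TBirN
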