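import Pool.Agent.TBirN.Def
import Pool.Agent.TBirK.Fak
import Pool.Agent.TBirK.Vlk

/-!
# Exact factor data

`q = phi t1`, `a j = I / D_j`, `g j = t j (1 + a j (l - q))`. In the region `|re ((a1 + a2) (l - q))| ≤ δ |l - q|` we have `|re (a j (l - q))| ≥ c |l - q|` for small `δ` (`trans`: for a unit vector `η` with `re (a1 η) = - re (a2 η)` both are not zero), so `|‖g j‖ - 1| ≥ c |l - q| / 2` near `q`, and `|z - t j| + |l - q| ≤ C |z - g j|` for `|z| = 1`. Since `phi (E ·)` is `C^2` at `t j`: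
`phi z - l = (D_j / (i t_j)) (z - g j) + O (|z - t j|^2)` for `z` near `t j`. So the symbol `b z = z ^ (-x) (phi z - l) / ((z - g1) (z - g2))` is `b_j + O (|z - g j|)` near `t j`, `b_1 = t1 ^ (-x) D_1 / (i t1) / (t1 - t2)` and `b_2` similarly (up to `O (|l - q|)`), and it tends uniformly to `b0 z` (the symbol at `q`) for `l → q`. `Th = mf b` (`mul (fourier ..)` has the factor `fourier x`),
`TM Th` is near the unit `TM (mf b0)`, so the norm of the inverse is bounded; `|b|` is bounded below (`|b0|` is: `ae_ge_of_isUnit`). `b1`: the polynomial of degree `≤ 1` with the values `1 / b_j` at `g j` (Lagrange; `|g1 - g2|` is bounded below), `b2` the same with `1 / z`. `K1 = mf ((b p - 1) / ((z - g1) (z - g2)))`: bounded because `b p - 1 = O (|z - g j|)` near `t j`. `Cm (mf ..)` is `Cm.mf`.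
-/

set_option autoImplicit false

open MeasureTheory Complex Set Filter Topology Metric AddCircle
open scoped ComplexConjugate InnerProductSpace ENNReal

namespace Pool.Agent.TBirN

open Pool.Agent.TBir Pool.Agent.TBirG Pool.Agent.TBirC Pool.Agent.TBirJ Pool.Agent.TBirK
open Pool.Agent.TBirP (E qT)
open Pool.Agent.TBirS (DR)

variable {phi : ℂ → ℂ} {F : Finset ℂ} {u v : ℂ → ℂ} {t1 t2 : ℂ}

/-- Linear independence over the reals. -/
private theorem fd_indep {a1 a2 : ℂ} (hn : (a1 * conj a2).im ≠ 0) : ∃ κ : ℝ, 0 < κ ∧ ∀ w : ℂ,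
    κ * ‖w‖ ≤ |(a1 * w).re| + |(a2 * w).re| := by
  have hs : 0 < ‖a1‖ + ‖a2‖ := by
    have h1 : a1 ≠ 0 := by
      rintro rfl
      simp at hn
    have := norm_pos_iff.2 h1
    positivity
  refine ⟨|(a1 * conj a2).im| / (‖a1‖ + ‖a2‖), by positivity, fun w => ?_⟩
  have h1 : ((a1 * conj a2).im : ℂ) * I * w =
      conj a2 * ((a1 * w).re : ℂ) - conj a1 * ((a2 * w).re : ℂ) := by
    apply Complex.ext
    · simp
      ring
    · simp
      ring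
  have h2 : |(a1 * conj a2).im| * ‖w‖ ≤ ‖a2‖ * |(a1 * w).re| + ‖a1‖ * |(a2 * w).re| := by
    calc |(a1 * conj a2).im| * ‖w‖ = ‖((a1 * conj a2).im : ℂ) * I * w‖ := by
          rw [norm_mul, norm_mul, Complex.norm_I, mul_one, Complex.norm_real, Real.norm_eq_abs]
      _ = ‖conj a2 * ((a1 * w).re : ℂ) - conj a1 * ((a2 * w).re : ℂ)‖ := by rw [h1]
      _ ≤ ‖conj a2 * ((a1 * w).re : ℂ)‖ + ‖conj a1 * ((a2 * w).re : ℂ)‖ := norm_sub_le _ _
      _ = _ := by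
          rw [norm_mul, norm_mul, RCLike.norm_conj, RCLike.norm_conj, Complex.norm_real,
            Complex.norm_real, Real.norm_eq_abs, Real.norm_eq_abs]
  rw [div_mul_eq_mul_div, div_le_iff₀ hs]
  have h3 := norm_nonneg a1
  have h4 := norm_nonneg a2
  have h5 := abs_nonneg (a1 * w).re
  have h6 := abs_nonneg (a2 * w).re
  nlinarith [mul_nonneg h3 h5, mul_nonneg h4 h6]

private theorem fd_one {a w : ℂ} {μ : ℝ} (hμ : 0 < μ) (hw : ‖a‖ ^ 2 * ‖w‖ ≤ μ)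
    (h1 : ‖a‖ * ‖w‖ ≤ 1) :
    (μ * ‖w‖ ≤ (a * w).re → μ / 3 * ‖w‖ ≤ ‖1 + a * w‖ - 1) ∧
    ((a * w).re ≤ -(μ * ‖w‖) → μ / 3 * ‖w‖ ≤ 1 - ‖1 + a * w‖) := by
  have hsq : ‖1 + a * w‖ ^ 2 = 1 + 2 * (a * w).re + ‖a * w‖ ^ 2 := by
    rw [Complex.sq_norm, Complex.sq_norm, Complex.normSq_apply, Complex.normSq_apply,
      Complex.add_re, Complex.add_im, Complex.one_re, Complex.one_im]
    ring
  have h2 : ‖a * w‖ = ‖a‖ * ‖w‖ := norm_mul _ _
  have h3 : 0 ≤ ‖1 + a * w‖ := norm_nonneg _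
  have h4 : ‖1 + a * w‖ ≤ 2 := by
    calc ‖1 + a * w‖ ≤ ‖(1 : ℂ)‖ + ‖a * w‖ := norm_add_le _ _
      _ ≤ 2 := by rw [norm_one, h2]; linarith
  have h5 : ‖a * w‖ ^ 2 ≤ μ * ‖w‖ := by
    rw [h2]
    have := norm_nonneg w
    nlinarith
  have h6 : 0 ≤ μ * ‖w‖ := by positivity
  constructor
  · intro h
    have h7 : 1 ≤ ‖1 + a * w‖ := by
      have : 0 ≤ ‖a * w‖ ^ 2 := by positivity
      nlinarith
    nlinarith [sq_nonneg (‖a * w‖)]
  · intro h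
    have h7 : ‖1 + a * w‖ ≤ 1 := by nlinarith
    nlinarith

/-- The geometry of the two factors. -/
private theorem fd_geo {a1 a2 : ℂ} (hn : (a1 * conj a2).im ≠ 0) : ∃ δ c s : ℝ, 0 < δ ∧ 0 < c ∧
    0 < s ∧ ∀ w : ℂ, w ≠ 0 → ‖w‖ < s → |((a1 + a2) * w).re| ≤ δ * ‖w‖ →
      c * ‖w‖ ≤ |1 - ‖1 + a1 * w‖| ∧ c * ‖w‖ ≤ |1 - ‖1 + a2 * w‖| ∧
      (‖1 + a1 * w‖ < 1 ↔ ¬ ‖1 + a2 * w‖ < 1) := by
  obtain ⟨κ, hκ, hi⟩ := fd_indep hn
  set A : ℝ := ‖a1‖ + ‖a2‖ + 1 with hA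
  have hA1 : ‖a1‖ ≤ A := by have := norm_nonneg a2; linarith
  have hA2 : ‖a2‖ ≤ A := by have := norm_nonneg a1; linarith
  have hA0 : 0 < A := by positivity
  refine ⟨κ / 2, κ / 4 / 3, min (κ / 4 / A ^ 2) (1 / A), by positivity, by positivity,
    by positivity, fun w hw0 hws hre => ?_⟩
  have hw1 : A ^ 2 * ‖w‖ ≤ κ / 4 := by
    have := hws.le.trans (min_le_left _ _)
    rw [le_div_iff₀ (by positivity)] at this
    linarith
  have hw2 : A * ‖w‖ ≤ 1 := by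
    have := hws.le.trans (min_le_right _ _)
    rw [le_div_iff₀ (by positivity)] at this
    linarith
  have hwn : 0 < ‖w‖ := norm_pos_iff.2 hw0
  have hsq : ∀ a : ℂ, ‖a‖ ≤ A → ‖a‖ ^ 2 * ‖w‖ ≤ κ / 4 ∧ ‖a‖ * ‖w‖ ≤ 1 := by
    intro a ha
    constructor
    · refine le_trans ?_ hw1
      gcongr
    · refine le_trans ?_ hw2
      gcongr
  obtain ⟨p1, p2⟩ := fd_one (a := a1) (w := w) (μ := κ / 4) (by positivity) (hsq a1 hA1).1
    (hsq a1 hA1).2
  obtain ⟨p3, p4⟩ := fd_one (a := a2) (w := w) (μ := κ / 4) (by positivity) (hsq a2 hA2).1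
    (hsq a2 hA2).2
  have hi' := hi w
  have hadd : ((a1 + a2) * w).re = (a1 * w).re + (a2 * w).re := by
    rw [add_mul, Complex.add_re]
  rw [hadd] at hre
  generalize (a1 * w).re = r1 at *
  generalize (a2 * w).re = r2 at *
  have hpos : 0 < κ * ‖w‖ := by positivity
  have hpos2 : 0 < κ / 4 / 3 * ‖w‖ := by positivity
  obtain ⟨hb1, hb2⟩ := abs_le.1 hre
  rcases le_total 0 r1 with hr1 | hr1
  · have hr2 : r2 ≤ 0 := by
      by_contra hcon
      push Not at hcon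
      rw [abs_of_nonneg hr1, abs_of_pos hcon] at hi'
      linarith
    rw [abs_of_nonneg hr1, abs_of_nonpos hr2] at hi'
    have q1 := p1 (by linarith)
    have q2 := p4 (by linarith)
    refine ⟨?_, ?_, ?_⟩
    · rw [abs_sub_comm, abs_of_nonneg (by linarith)]
      exact q1
    · rw [abs_of_nonneg (by linarith)]
      exact q2
    · constructor
      · intro h
        linarith
      · intro h
        exact absurd (by linarith) h
  · have hr2 : 0 ≤ r2 := by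
      by_contra hcon
      push Not at hcon
      rw [abs_of_nonpos hr1, abs_of_neg hcon] at hi'
      linarith
    rw [abs_of_nonpos hr1, abs_of_nonneg hr2] at hi'
    have q1 := p2 (by linarith)
    have q2 := p3 (by linarith)
    refine ⟨?_, ?_, ?_⟩
    · rw [abs_of_nonneg (by linarith)]
      exact q1
    · rw [abs_sub_comm, abs_of_nonneg (by linarith)]
      exact q2
    · constructor
      · intro _ h
        linarith
      · intro _
        linarith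

/-- One factor. -/
private theorem fd_single {z t g f l q p : ℂ} {C2 A c : ℝ} (hz : ‖z‖ = 1) (ht : ‖t‖ = 1)
    (hC : 0 ≤ C2) (hA : 0 ≤ A) (hc : 0 < c) (hpg : p * (g - t) = l - q)
    (hR : ‖f - q - p * (z - t)‖ ≤ C2 * ‖z - t‖ ^ 2) (hg : ‖g - t‖ ≤ A * ‖l - q‖)
    (hzg : c * ‖l - q‖ ≤ ‖z - g‖) (hzg0 : z ≠ g) (hzt : z ≠ t) :
    ‖(f - l) / (z - g) - (f - q) / (z - t)‖ ≤ C2 * A * (1 + A / c) * ‖l - q‖ ∧
    ‖(f - q) / (z - t)‖ ≤ ‖p‖ + 2 * C2 ∧ ‖z - t‖ ≤ (1 + A / c) * ‖z - g‖ := by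
  have h1 : z - g ≠ 0 := sub_ne_zero.2 hzg0
  have h2 : z - t ≠ 0 := sub_ne_zero.2 hzt
  have h1' : 0 < ‖z - g‖ := norm_pos_iff.2 h1
  have h2' : 0 < ‖z - t‖ := norm_pos_iff.2 h2
  have h3 : ‖z - t‖ ≤ (1 + A / c) * ‖z - g‖ := by
    have h4 : ‖z - t‖ ≤ ‖z - g‖ + ‖g - t‖ := by
      calc ‖z - t‖ = ‖(z - g) + (g - t)‖ := by congr 1; ring
        _ ≤ _ := norm_add_le _ _
    have h5 : A * ‖l - q‖ ≤ A / c * ‖z - g‖ := by
      calc A * ‖l - q‖ = A / c * (c * ‖l - q‖) := by field_simp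
        _ ≤ _ := by gcongr
    linarith
  refine ⟨?_, ?_, h3⟩
  · have h4 : (f - l) / (z - g) - (f - q) / (z - t) =
        (f - q - p * (z - t)) * (g - t) / ((z - g) * (z - t)) := by
      have h5 : f - l = f - q - p * (g - t) := by rw [hpg]; ring
      rw [h5]
      field_simp
      ring
    rw [h4, norm_div, norm_mul, norm_mul, div_le_iff₀ (by positivity)]
    have h6 : C2 * ‖z - t‖ ^ 2 * (A * ‖l - q‖) ≤
        C2 * A * (1 + A / c) * ‖l - q‖ * (‖z - g‖ * ‖z - t‖) := by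
      have h7 : ‖z - t‖ ^ 2 ≤ (1 + A / c) * ‖z - g‖ * ‖z - t‖ := by
        rw [pow_two]
        gcongr
      have h8 : 0 ≤ C2 * (A * ‖l - q‖) := by positivity
      calc C2 * ‖z - t‖ ^ 2 * (A * ‖l - q‖) = C2 * (A * ‖l - q‖) * ‖z - t‖ ^ 2 := by ring
        _ ≤ C2 * (A * ‖l - q‖) * ((1 + A / c) * ‖z - g‖ * ‖z - t‖) := by gcongr
        _ = _ := by ring
    refine le_trans ?_ h6
    gcongr
  · have h4 : (f - q) / (z - t) = p + (f - q - p * (z - t)) / (z - t) := by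
      field_simp
      ring
    rw [h4]
    refine (norm_add_le _ _).trans ?_
    have h5 : ‖(f - q - p * (z - t)) / (z - t)‖ ≤ 2 * C2 := by
      rw [norm_div, div_le_iff₀ h2']
      refine hR.trans ?_
      have h6 : ‖z - t‖ ≤ 2 := by
        calc ‖z - t‖ ≤ ‖z‖ + ‖t‖ := norm_sub_le _ _
          _ = 2 := by rw [hz, ht]; norm_num
      rw [pow_two]
      nlinarith [mul_nonneg hC h2'.le]
    linarith

/-- Two factors, `z` away from `t2`. -/
private theorem fd_half {z t1 t2 g1 g2 f l q p1 : ℂ} {C2 A c d P0 : ℝ} (hz : ‖z‖ = 1)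
    (ht : ‖t1‖ = 1) (hC : 0 ≤ C2) (hA : 0 ≤ A) (hc : 0 < c) (hd : 0 < d)
    (hpg : p1 * (g1 - t1) = l - q) (hP : ‖p1‖ ≤ P0)
    (hR : ‖f - q - p1 * (z - t1)‖ ≤ C2 * ‖z - t1‖ ^ 2) (hg : ‖g1 - t1‖ ≤ A * ‖l - q‖)
    (hzg : c * ‖l - q‖ ≤ ‖z - g1‖) (hzg0 : z ≠ g1) (hzt : z ≠ t1)
    (hg2 : ‖g2 - t2‖ ≤ A * ‖l - q‖) (hA2 : A * ‖l - q‖ ≤ d) (h2 : 2 * d ≤ ‖z - t2‖) :
    d ≤ ‖z - g2‖ ∧ ‖z - t1‖ ≤ (1 + A / c) * ‖z - g1‖ ∧
    ‖z - t2‖ ≤ 2 * ‖z - g2‖ ∧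
    ‖(f - l) / ((z - g1) * (z - g2)) - (f - q) / ((z - t1) * (z - t2))‖ ≤
      (C2 * A * (1 + A / c) / d + (P0 + 2 * C2) * A / (d * (2 * d))) * ‖l - q‖ ∧
    ‖(f - q) / ((z - t1) * (z - t2))‖ ≤ (P0 + 2 * C2) / (2 * d) := by
  obtain ⟨k1, k2, k3⟩ := fd_single hz ht hC hA hc hpg hR hg hzg hzg0 hzt
  have h3 : ‖z - t2‖ ≤ ‖z - g2‖ + ‖g2 - t2‖ := by
    calc ‖z - t2‖ = ‖(z - g2) + (g2 - t2)‖ := by congr 1; ring
      _ ≤ _ := norm_add_le _ _
  have h4 : d ≤ ‖z - g2‖ := by linarith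
  have h5 : z - g2 ≠ 0 := norm_pos_iff.1 (hd.trans_le h4)
  have h6 : z - t2 ≠ 0 := norm_pos_iff.1 (by linarith)
  have h5' : 0 < ‖z - g2‖ := norm_pos_iff.2 h5
  have h6' : 0 < ‖z - t2‖ := norm_pos_iff.2 h6
  have h7 : z - g1 ≠ 0 := sub_ne_zero.2 hzg0
  have h8 : z - t1 ≠ 0 := sub_ne_zero.2 hzt
  have hP0 : 0 ≤ P0 := (norm_nonneg _).trans hP
  have hQ : ‖(f - q) / (z - t1)‖ ≤ P0 + 2 * C2 := by linarith
  refine ⟨h4, k3, by linarith, ?_, ?_⟩
  · have e1 : (f - l) / ((z - g1) * (z - g2)) - (f - q) / ((z - t1) * (z - t2)) =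
        ((f - l) / (z - g1) - (f - q) / (z - t1)) / (z - g2) +
          (f - q) / (z - t1) * (g2 - t2) / ((z - g2) * (z - t2)) := by
      field_simp
      ring
    rw [e1]
    refine (norm_add_le _ _).trans ?_
    rw [add_mul]
    refine add_le_add ?_ ?_
    · rw [norm_div]
      calc ‖(f - l) / (z - g1) - (f - q) / (z - t1)‖ / ‖z - g2‖ ≤
          C2 * A * (1 + A / c) * ‖l - q‖ / d := by gcongr
        _ = _ := by ring
    · rw [norm_div, norm_mul, norm_mul]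
      calc ‖(f - q) / (z - t1)‖ * ‖g2 - t2‖ / (‖z - g2‖ * ‖z - t2‖) ≤
          (P0 + 2 * C2) * (A * ‖l - q‖) / (d * (2 * d)) := by
            gcongr
        _ = _ := by ring
  · rw [← div_div, norm_div]
    gcongr

/-- The interpolation condition at `q`, `z` away from `t2`. -/
private theorem fd_itp {z t1 t2 f q p1 zx tx pz pt : ℂ} {C2 d P0 P X : ℝ}
    (hzx : ‖zx‖ = 1) (htx : ‖tx‖ = 1) (hC : 0 ≤ C2) (hd : 0 < d) (hP : ‖p1‖ ≤ P0)
    (hR : ‖f - q - p1 * (z - t1)‖ ≤ C2 * ‖z - t1‖ ^ 2) (hzt : z ≠ t1)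
    (hX : ‖zx - tx‖ ≤ X * ‖z - t1‖) (hX0 : 0 ≤ X) (hpz : ‖pz‖ ≤ P) (hp : ‖pz - pt‖ ≤ P * ‖z - t1‖)
    (hB : tx * p1 * pt = t1 - t2) (h2 : 2 * d ≤ ‖z - t2‖) :
    ‖zx * ((f - q) / ((z - t1) * (z - t2))) * pz - 1‖ ≤
      (P0 * (X + 1) * P + 1 + P * C2) / (4 * d ^ 2) * (‖z - t1‖ * ‖z - t2‖) := by
  have hP1 : 0 ≤ P := (norm_nonneg _).trans hpz
  have hP0 : 0 ≤ P0 := (norm_nonneg _).trans hP
  have h6 : z - t2 ≠ 0 := norm_pos_iff.1 (by linarith)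
  have h6' : 0 < ‖z - t2‖ := norm_pos_iff.2 h6
  have h8 : z - t1 ≠ 0 := sub_ne_zero.2 hzt
  have h8' : 0 < ‖z - t1‖ := norm_pos_iff.2 h8
  have e1 : zx * ((f - q) / ((z - t1) * (z - t2))) * pz - 1 =
      (p1 * ((zx - tx) * pz + tx * (pz - pt)) - (z - t1) +
        zx * pz * ((f - q - p1 * (z - t1)) / (z - t1))) / (z - t2) := by
    field_simp
    linear_combination (z - t1) * hB
  rw [e1, norm_div]
  have h9 : ‖p1 * ((zx - tx) * pz + tx * (pz - pt)) - (z - t1) +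
        zx * pz * ((f - q - p1 * (z - t1)) / (z - t1))‖ ≤
      (P0 * (X + 1) * P + 1 + P * C2) * ‖z - t1‖ := by
    have i1 : ‖p1 * ((zx - tx) * pz + tx * (pz - pt))‖ ≤ P0 * (X + 1) * P * ‖z - t1‖ := by
      rw [norm_mul]
      calc ‖p1‖ * ‖(zx - tx) * pz + tx * (pz - pt)‖ ≤
          P0 * (X * ‖z - t1‖ * P + 1 * (P * ‖z - t1‖)) := by
            gcongr
            refine (norm_add_le _ _).trans ?_
            rw [norm_mul, norm_mul, htx]
            gcongr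
        _ = _ := by ring
    have i2 : ‖zx * pz * ((f - q - p1 * (z - t1)) / (z - t1))‖ ≤ P * C2 * ‖z - t1‖ := by
      rw [norm_mul, norm_mul, hzx, one_mul, norm_div]
      calc ‖pz‖ * (‖f - q - p1 * (z - t1)‖ / ‖z - t1‖) ≤ P * (C2 * ‖z - t1‖ ^ 2 / ‖z - t1‖) := by
            gcongr
        _ = _ := by field_simp
    calc ‖p1 * ((zx - tx) * pz + tx * (pz - pt)) - (z - t1) +
        zx * pz * ((f - q - p1 * (z - t1)) / (z - t1))‖ ≤
        ‖p1 * ((zx - tx) * pz + tx * (pz - pt)) - (z - t1)‖ +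
          ‖zx * pz * ((f - q - p1 * (z - t1)) / (z - t1))‖ := norm_add_le _ _
      _ ≤ ‖p1 * ((zx - tx) * pz + tx * (pz - pt))‖ + ‖z - t1‖ +
          ‖zx * pz * ((f - q - p1 * (z - t1)) / (z - t1))‖ := by
          gcongr
          exact norm_sub_le _ _
      _ ≤ _ := by linarith
  rw [div_le_iff₀ h6']
  refine h9.trans ?_
  have h10 : (2 * d) ^ 2 ≤ ‖z - t2‖ ^ 2 := by gcongr
  have h11 : 0 ≤ (P0 * (X + 1) * P + 1 + P * C2) * ‖z - t1‖ := by positivity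
  calc (P0 * (X + 1) * P + 1 + P * C2) * ‖z - t1‖ =
      (P0 * (X + 1) * P + 1 + P * C2) * ‖z - t1‖ * ((2 * d) ^ 2 / (4 * d ^ 2)) := by
        rw [show (2 * d) ^ 2 / (4 * d ^ 2) = 1 by field_simp; ring, mul_one]
    _ ≤ (P0 * (X + 1) * P + 1 + P * C2) * ‖z - t1‖ * (‖z - t2‖ ^ 2 / (4 * d ^ 2)) := by gcongr
    _ = _ := by ring

/-- Powers on the unit circle. -/
private theorem fd_zpow (x : ℤ) {z t : ℂ} (hz : ‖z‖ = 1) (ht : ‖t‖ = 1) :
    ‖z ^ x - t ^ x‖ ≤ |(x : ℝ)| * ‖z - t‖ := by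
  have hz0 : z ≠ 0 := by
    rintro rfl
    simp at hz
  have ht0 : t ≠ 0 := by
    rintro rfl
    simp at ht
  have hnat : ∀ n : ℕ, ‖z ^ n - t ^ n‖ ≤ n * ‖z - t‖ := by
    intro n
    induction n with
    | zero => simp
    | succ n ih =>
      have e1 : z ^ (n + 1) - t ^ (n + 1) = (z ^ n - t ^ n) * z + t ^ n * (z - t) := by ring
      rw [e1]
      refine (norm_add_le _ _).trans ?_
      rw [norm_mul, norm_mul, hz, norm_pow, ht, one_pow, one_mul, mul_one]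
      push_cast
      linarith
  obtain ⟨n, rfl | rfl⟩ := x.eq_nat_or_neg
  · have := hnat n
    simpa using this
  · have h1 := hnat n
    have e1 : z ^ (-(n : ℤ)) - t ^ (-(n : ℤ)) = -((z ^ n - t ^ n) / (z ^ n * t ^ n)) := by
      rw [zpow_neg, zpow_neg, zpow_natCast, zpow_natCast]
      have : z ^ n ≠ 0 := pow_ne_zero n hz0
      have : t ^ n ≠ 0 := pow_ne_zero n ht0
      field_simp
      ring
    rw [e1, norm_neg, norm_div, norm_mul, norm_pow, norm_pow, hz, ht]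
    simpa using h1

/-- Taylor's formula. -/
private theorem fd_taylor {f : ℝ → ℂ} (hf : ContDiffAt ℝ 2 f 0) : ∃ K r : ℝ, 0 ≤ K ∧ 0 < r ∧
    ∀ s : ℝ, |s| ≤ r → ‖f s - f 0 - s * deriv f 0‖ ≤ K * s ^ 2 := by
  have h1 : ContDiffAt ℝ 1 (deriv f) 0 := by
    have h2 : ContDiffAt ℝ 1 (fderiv ℝ f) 0 := hf.fderiv_right (by norm_num)
    have h3 : deriv f = fun x => fderiv ℝ f x 1 := by
      ext x
      exact (fderiv_apply_one_eq_deriv).symm
    rw [h3]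
    exact h2.clm_apply contDiffAt_const
  obtain ⟨K, t, ht, hK⟩ := h1.exists_lipschitzOnWith
  have h2 : ∀ᶠ s in 𝓝 (0 : ℝ), DifferentiableAt ℝ f s :=
    (hf.eventually (by simp)).mono fun s hs => hs.differentiableAt (by norm_num)
  obtain ⟨r, hr, hr2⟩ := Metric.eventually_nhds_iff.1 ((eventually_mem_set.2 ht).and h2)
  refine ⟨K, r / 2, K.2, by positivity, fun s hs => ?_⟩
  have hmem : ∀ u ∈ Icc (-|s|) |s|, dist u 0 < r ∧ |u| ≤ |s| := fun u hu => by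
    have := abs_le.2 ⟨hu.1, hu.2⟩
    refine ⟨?_, this⟩
    rw [Real.dist_eq, sub_zero]
    linarith
  have h0 : (0 : ℝ) ∈ t := (hr2 (by simpa using hr)).1
  have h3 := Convex.norm_image_sub_le_of_norm_hasDerivWithin_le (𝕜 := ℝ)
    (f := fun u : ℝ => f u - u * deriv f 0) (f' := fun u : ℝ => deriv f u - deriv f 0)
    (C := K * |s|) (s := Icc (-|s|) |s|) (x := 0) (y := s) (fun u hu => by
      have h4 := (hr2 (hmem u hu).1).2.hasDerivAt
      have h5 : HasDerivAt (fun u : ℝ => (u : ℂ) * deriv f 0) (1 * deriv f 0) u :=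
        (Complex.ofRealCLM.hasDerivAt (x := u)).mul_const (deriv f 0)
      rw [one_mul] at h5
      exact (h4.sub h5).hasDerivWithinAt) (fun u hu => by
      have h4 := hK.norm_sub_le (hr2 (hmem u hu).1).1 h0
      rw [sub_zero, Real.norm_eq_abs] at h4
      refine h4.trans ?_
      have := (hmem u hu).2
      gcongr) (convex_Icc _ _) ⟨by simp, abs_nonneg s⟩ ⟨neg_abs_le s, le_abs_self s⟩
  simp only [ofReal_zero, zero_mul, sub_zero] at h3
  calc ‖f s - f 0 - s * deriv f 0‖ = ‖f s - s * deriv f 0 - f 0‖ := by congr 1; ring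
    _ ≤ K * |s| * ‖s‖ := h3
    _ = K * s ^ 2 := by rw [Real.norm_eq_abs, mul_assoc, abs_mul_abs_self, pow_two]

/-- The quotient with `K`, `z` away from `t2`. -/
private theorem fd_K {z t1 t2 g1 g2 bl bq w zx pz : ℂ} {A c d C3 C4 P : ℝ} (hA : 0 ≤ A)
    (hc : 0 < c) (hd : 0 < d) (hC3 : 0 ≤ C3) (hC4 : 0 ≤ C4) (hb : ‖bl - bq‖ ≤ C3 * ‖w‖)
    (hi : ‖zx * bq * pz - 1‖ ≤ C4 * (‖z - t1‖ * ‖z - t2‖)) (hzx : ‖zx‖ = 1) (hpz : ‖pz‖ ≤ P)
    (h2 : d ≤ ‖z - g2‖) (h3 : ‖z - t1‖ ≤ (1 + A / c) * ‖z - g1‖) (h4 : ‖z - t2‖ ≤ 2 * ‖z - g2‖)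
    (h5 : c * ‖w‖ ≤ ‖z - g1‖) (hg : z ≠ g1) :
    ‖(zx * bl * pz - 1) / ((z - g1) * (z - g2))‖ ≤ P * C3 / (c * d) + C4 * ((1 + A / c) * 2) := by
  have hP : 0 ≤ P := (norm_nonneg _).trans hpz
  have h6 : 0 < ‖z - g1‖ := norm_pos_iff.2 (sub_ne_zero.2 hg)
  have h7 : 0 < ‖z - g2‖ := hd.trans_le h2
  rw [norm_div, norm_mul, div_le_iff₀ (by positivity)]
  have e1 : zx * bl * pz - 1 = zx * (bl - bq) * pz + (zx * bq * pz - 1) := by ring
  rw [e1]
  refine (norm_add_le _ _).trans ?_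
  rw [add_mul]
  refine add_le_add ?_ ?_
  · rw [norm_mul, norm_mul, hzx, one_mul]
    calc ‖bl - bq‖ * ‖pz‖ ≤ C3 * ‖w‖ * P := by gcongr
      _ = P * C3 / (c * d) * (c * ‖w‖ * d) := by field_simp
      _ ≤ P * C3 / (c * d) * (‖z - g1‖ * ‖z - g2‖) := by gcongr
  · refine hi.trans ?_
    calc C4 * (‖z - t1‖ * ‖z - t2‖) ≤ C4 * ((1 + A / c) * ‖z - g1‖ * (2 * ‖z - g2‖)) := by gcongr
      _ = _ := by ring

/-- The pointwise estimates. -/
private theorem fd_pt {z t1 t2 g1 g2 f l q p1 p2 : ℂ} {C2 A c d P0 : ℝ} (hz : ‖z‖ = 1)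
    (ht1 : ‖t1‖ = 1) (ht2 : ‖t2‖ = 1) (hC : 0 ≤ C2) (hA : 0 ≤ A) (hc : 0 < c) (hd : 0 < d)
    (htt : 4 * d ≤ ‖t1 - t2‖) (hpg1 : p1 * (g1 - t1) = l - q) (hpg2 : p2 * (g2 - t2) = l - q)
    (hP1 : ‖p1‖ ≤ P0) (hP2 : ‖p2‖ ≤ P0)
    (hR1 : ‖f - q - p1 * (z - t1)‖ ≤ C2 * ‖z - t1‖ ^ 2)
    (hR2 : ‖f - q - p2 * (z - t2)‖ ≤ C2 * ‖z - t2‖ ^ 2)
    (hg1 : ‖g1 - t1‖ ≤ A * ‖l - q‖) (hg2 : ‖g2 - t2‖ ≤ A * ‖l - q‖)
    (hz1 : c * ‖l - q‖ ≤ ‖z - g1‖) (hz2 : c * ‖l - q‖ ≤ ‖z - g2‖) (hn1 : z ≠ g1) (hn2 : z ≠ g2)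
    (hm1 : z ≠ t1) (hm2 : z ≠ t2) (hA2 : A * ‖l - q‖ ≤ d) :
    ‖(f - l) / ((z - g1) * (z - g2)) - (f - q) / ((z - t1) * (z - t2))‖ ≤
      (C2 * A * (1 + A / c) / d + (P0 + 2 * C2) * A / (d * (2 * d))) * ‖l - q‖ ∧
    ‖(f - q) / ((z - t1) * (z - t2))‖ ≤ (P0 + 2 * C2) / (2 * d) ∧
    ∀ (zx tx1 tx2 pz pt1 pt2 : ℂ) (P X : ℝ), ‖zx‖ = 1 → ‖tx1‖ = 1 → ‖tx2‖ = 1 → 0 ≤ X →
      ‖zx - tx1‖ ≤ X * ‖z - t1‖ → ‖zx - tx2‖ ≤ X * ‖z - t2‖ → ‖pz‖ ≤ P →
      ‖pz - pt1‖ ≤ P * ‖z - t1‖ → ‖pz - pt2‖ ≤ P * ‖z - t2‖ → tx1 * p1 * pt1 = t1 - t2 →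
      tx2 * p2 * pt2 = t2 - t1 →
      ‖(zx * ((f - l) / ((z - g1) * (z - g2))) * pz - 1) / ((z - g1) * (z - g2))‖ ≤
        P * (C2 * A * (1 + A / c) / d + (P0 + 2 * C2) * A / (d * (2 * d))) / (c * d) +
          (P0 * (X + 1) * P + 1 + P * C2) / (4 * d ^ 2) * ((1 + A / c) * 2) := by
  have hP0 : 0 ≤ P0 := (norm_nonneg _).trans hP1
  have h1 : ‖t1 - t2‖ ≤ ‖z - t1‖ + ‖z - t2‖ := by
    calc ‖t1 - t2‖ = ‖(z - t2) - (z - t1)‖ := by congr 1; ring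
      _ ≤ ‖z - t2‖ + ‖z - t1‖ := norm_sub_le _ _
      _ = _ := add_comm _ _
  have hC3 : 0 ≤ C2 * A * (1 + A / c) / d + (P0 + 2 * C2) * A / (d * (2 * d)) := by positivity
  rcases le_total (2 * d) ‖z - t2‖ with h2 | h2
  · obtain ⟨k1, k2, k3, k4, k5⟩ := fd_half hz ht1 hC hA hc hd hpg1 hP1 hR1 hg1 hz1 hn1 hm1 hg2 hA2 h2
    refine ⟨k4, k5, ?_⟩
    intro zx tx1 tx2 pz pt1 pt2 P X hzx htx1 _ hX0 hX1 _ hpz hp1 _ hB1 _
    have hP : 0 ≤ P := (norm_nonneg _).trans hpz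
    have k6 := fd_itp (t2 := t2) hzx htx1 hC hd hP1 hR1 hm1 hX1 hX0 hpz hp1 hB1 h2
    exact fd_K hA hc hd hC3 (by positivity) k4 k6 hzx hpz k1 k2 k3 hz1 hn1
  · have h2' : 2 * d ≤ ‖z - t1‖ := by linarith
    obtain ⟨k1, k2, k3, k4, k5⟩ := fd_half hz ht2 hC hA hc hd hpg2 hP2 hR2 hg2 hz2 hn2 hm2 hg1 hA2 h2'
    have e1 : (z - g1) * (z - g2) = (z - g2) * (z - g1) := mul_comm _ _
    have e2 : (z - t1) * (z - t2) = (z - t2) * (z - t1) := mul_comm _ _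
    rw [e1, e2]
    refine ⟨k4, k5, ?_⟩
    intro zx tx1 tx2 pz pt1 pt2 P X hzx _ htx2 hX0 _ hX2 hpz _ hp2 _ hB2
    have hP : 0 ≤ P := (norm_nonneg _).trans hpz
    have k6 := fd_itp (t2 := t1) hzx htx2 hC hd hP2 hR2 hm2 hX2 hX0 hpz hp2 hB2 h2'
    exact fd_K hA hc hd hC3 (by positivity) k4 k6 hzx hpz k1 k2 k3 hz2 hn2

/-- Linear interpolation. -/
private theorem fd_pol {t1 t2 : ℂ} (hne : t1 ≠ t2) (v1 v2 : ℂ) : ∃ (b : ℕ → ℂ) (P : ℝ), 0 ≤ P ∧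
    (∀ i, ‖b i‖ ≤ P) ∧ b 0 + b 1 * t1 = v1 ∧ b 0 + b 1 * t2 = v2 := by
  have h : t1 - t2 ≠ 0 := sub_ne_zero.2 hne
  refine ⟨fun i => if i = 0 then v1 - (v1 - v2) / (t1 - t2) * t1 else if i = 1 then
    (v1 - v2) / (t1 - t2) else 0, ‖v1 - (v1 - v2) / (t1 - t2) * t1‖ + ‖(v1 - v2) / (t1 - t2)‖,
    by positivity, fun i => ?_, ?_, ?_⟩
  · by_cases h0 : i = 0
    · simp only [h0, if_true]
      exact le_add_of_nonneg_right (norm_nonneg _)
    · by_cases h1 : i = 1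
      · simp only [h1, if_true, one_ne_zero, if_false]
        exact le_add_of_nonneg_left (norm_nonneg _)
      · simp only [h0, h1, if_false, norm_zero]
        positivity
  · simp
  · simp
    field_simp
    ring

private theorem fd_norm_E (x : ℝ) : ‖E x‖ = 1 := by
  unfold E
  exact Complex.norm_exp_ofReal_mul_I x

private theorem fd_arg {z : ℂ} (hz : ‖z‖ = 1) : E (arg z) = z := by
  unfold E
  have h := Complex.norm_mul_exp_arg_mul_I z
  rw [hz] at h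
  simpa using h

/-- The second order expansion on the circle near `t`. -/
private theorem fd_loc {t : ℂ} (ht : ‖t‖ = 1)
    (hs : ContDiffAt ℝ 2 (fun y : ℝ => phi (t * E y)) 0) :
    ∃ C d : ℝ, 0 ≤ C ∧ 0 < d ∧ ∀ z : ℂ, ‖z‖ = 1 → ‖z - t‖ < d →
      ‖phi z - phi t - tg phi t / (I * t) * (z - t)‖ ≤ C * ‖z - t‖ ^ 2 := by
  obtain ⟨K, r, hK, hr, hT⟩ := fd_taylor hs
  have ht0 : t ≠ 0 := by
    rintro rfl
    simp at ht
  have hc : ContinuousAt (fun z : ℂ => arg (z / t)) t := by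
    have h2 : ContinuousAt arg (t / t) := by
      rw [div_self ht0]
      exact Complex.continuousAt_arg Complex.one_mem_slitPlane
    exact ContinuousAt.comp (g := arg) (f := fun z : ℂ => z / t) h2 (by fun_prop)
  rw [Metric.continuousAt_iff] at hc
  obtain ⟨d, hd, hc⟩ := hc (min r (1 / 2)) (by positivity)
  refine ⟨4 * (K + ‖tg phi t‖), d, by positivity, hd, fun z hz hzt => ?_⟩
  obtain ⟨s, hs⟩ : ∃ s : ℝ, s = arg (z / t) := ⟨_, rfl⟩
  have h1 := hc (x := z) (by rw [dist_eq_norm]; exact hzt)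
  rw [div_self ht0, arg_one, Real.dist_eq, sub_zero, ← hs] at h1
  have hsr : |s| ≤ r := h1.le.trans (min_le_left _ _)
  have hs2 : |s| ≤ 1 / 2 := h1.le.trans (min_le_right _ _)
  have hzE : z = t * E s := by
    rw [hs, fd_arg (by rw [norm_div, hz, ht, div_one])]
    field_simp
  have hE0 : E 0 = 1 := by
    unfold E
    rw [ofReal_zero, zero_mul, exp_zero]
  have hE : ‖E s - 1 - s * I‖ ≤ s ^ 2 := by
    have h2 : ‖(s : ℂ) * I‖ = |s| := by
      rw [norm_mul, Complex.norm_I, mul_one, Complex.norm_real, Real.norm_eq_abs]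
    have h3 := Complex.norm_exp_sub_one_sub_id_le (x := (s : ℂ) * I) (by rw [h2]; linarith)
    rw [h2, sq_abs] at h3
    exact h3
  have hzt2 : z - t = t * (E s - 1) := by rw [hzE]; ring
  have hztn : ‖z - t‖ = ‖E s - 1‖ := by rw [hzt2, norm_mul, ht, one_mul]
  have hss : |s| ≤ 2 * ‖z - t‖ := by
    have h2 : |s| ≤ ‖E s - 1‖ + ‖E s - 1 - s * I‖ := by
      calc |s| = ‖(s : ℂ) * I‖ := by
            rw [norm_mul, Complex.norm_I, mul_one, Complex.norm_real, Real.norm_eq_abs]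
        _ = ‖(E s - 1) - (E s - 1 - s * I)‖ := by congr 1; ring
        _ ≤ _ := norm_sub_le _ _
    have h3 : s ^ 2 ≤ 1 / 2 * |s| := by
      rw [← sq_abs, pow_two]
      have := abs_nonneg s
      nlinarith
    rw [hztn]
    linarith
  have hs4 : s ^ 2 ≤ 4 * ‖z - t‖ ^ 2 := by
    rw [← sq_abs]
    calc |s| ^ 2 ≤ (2 * ‖z - t‖) ^ 2 := by gcongr
      _ = _ := by ring
  have hT' := hT s hsr
  simp only [hE0, mul_one, ← hzE] at hT'
  have e1 : phi z - phi t - tg phi t / (I * t) * (z - t) =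
      (phi z - phi t - s * tg phi t) - tg phi t / I * (E s - 1 - s * I) := by
    rw [hzt2]
    have hI : (I : ℂ) ≠ 0 := I_ne_zero
    field_simp
    ring
  rw [e1]
  refine (norm_sub_le _ _).trans ?_
  rw [norm_mul, norm_div, Complex.norm_I, div_one]
  have hD := norm_nonneg (tg phi t)
  calc ‖phi z - phi t - s * tg phi t‖ + ‖tg phi t‖ * ‖E s - 1 - s * I‖ ≤
      K * s ^ 2 + ‖tg phi t‖ * s ^ 2 := by
        gcongr
        exact hT'
    _ = (K + ‖tg phi t‖) * s ^ 2 := by ring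
    _ ≤ (K + ‖tg phi t‖) * (4 * ‖z - t‖ ^ 2) := by gcongr
    _ = _ := by ring

private theorem fd_glob (h : PwC phi F u v) {t : ℂ} (ht : ‖t‖ = 1)
    (hs : ContDiffAt ℝ 2 (fun y : ℝ => phi (t * E y)) 0) : ∃ C : ℝ, 0 ≤ C ∧
      ∀ᵐ y ∂mu0, ‖phi (e y) - phi t - tg phi t / (I * t) * (e y - t)‖ ≤ C * ‖e y - t‖ ^ 2 := by
  obtain ⟨C, d, hC, hd, hl⟩ := fd_loc ht hs
  obtain ⟨M, hM0, hM⟩ := PsiAux.bound (memLp_cv h.cv)
  refine ⟨C + (M + ‖phi t‖ + ‖tg phi t‖ * 2) / d ^ 2, by positivity, ?_⟩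
  filter_upwards [hM] with y hy
  have hn := PsiAux.norm_e' y
  by_cases hyd : ‖e y - t‖ < d
  · refine (hl (e y) hn hyd).trans ?_
    gcongr
    have : 0 ≤ (M + ‖phi t‖ + ‖tg phi t‖ * 2) / d ^ 2 := by positivity
    linarith
  · push Not at hyd
    have h1 : ‖phi (e y) - phi t - tg phi t / (I * t) * (e y - t)‖ ≤
        M + ‖phi t‖ + ‖tg phi t‖ * 2 := by
      refine (norm_sub_le _ _).trans ?_
      rw [norm_mul, norm_div, norm_mul, Complex.norm_I, ht, one_mul, div_one]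
      have h2 : ‖e y - t‖ ≤ 2 := by
        calc ‖e y - t‖ ≤ ‖e y‖ + ‖t‖ := norm_sub_le _ _
          _ = 2 := by rw [hn, ht]; norm_num
      have h3 := norm_sub_le (phi (e y)) (phi t)
      gcongr
      linarith
    have h2 : M + ‖phi t‖ + ‖tg phi t‖ * 2 ≤
        (M + ‖phi t‖ + ‖tg phi t‖ * 2) / d ^ 2 * ‖e y - t‖ ^ 2 := by
      have h4 : d ^ 2 ≤ ‖e y - t‖ ^ 2 := by gcongr
      calc M + ‖phi t‖ + ‖tg phi t‖ * 2 = (M + ‖phi t‖ + ‖tg phi t‖ * 2) / d ^ 2 * d ^ 2 := by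
            field_simp
        _ ≤ _ := by gcongr
    refine (h1.trans h2).trans ?_
    have h5 : 0 ≤ C * ‖e y - t‖ ^ 2 := by positivity
    rw [add_mul]
    linarith

private theorem fd_ae_ne (g : ℂ) : ∀ᵐ y : UnitAddCircle ∂mu0, e y ≠ g := by
  rw [ae_iff]
  have h : {x : UnitAddCircle | ¬ e x ≠ g}.Subsingleton := by
    intro x hx y hy
    have hx' : e x = g := not_not.1 hx
    have hy' : e y = g := not_not.1 hy
    exact PsiAux.e_inj (hx'.trans hy'.symm)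
  exact PsiAux.null h.finite

private theorem fd_meas (h : PwC phi F u v) (n : ℤ) (l g1 g2 : ℂ) : AEStronglyMeasurable
    (fun y : UnitAddCircle => e y ^ n * ((phi (e y) - l) / ((e y - g1) * (e y - g2)))) mu0 := by
  have h1 : AEMeasurable (fun x : UnitAddCircle => phi (e x)) mu0 := (memLp_cv h.cv).1.aemeasurable
  have h2 : AEMeasurable (fun x : UnitAddCircle => phi (e x) - l) mu0 := h1.sub_const l
  have h3 : Continuous fun x : UnitAddCircle => (e x - g1) * (e x - g2) := by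
    have := PsiAux.cont_e
    fun_prop
  have h4 : Continuous fun x : UnitAddCircle => (e x) ^ n :=
    PsiAux.cont_e.zpow₀ n fun x => Or.inl (PsiAux.e_ne x)
  exact h4.aestronglyMeasurable.mul (h2.div h3.measurable.aemeasurable).aestronglyMeasurable

theorem fq_of (h : PwC phi F u v) (hd : Dp phi F t1 t2) {x : ℤ}
    (hU : IsUnit (TM (mf fun y => e y ^ (-x) *
      ((phi (e y) - phi t1) / ((e y - t1) * (e y - t2)))))) :
    ∃ δ C c : ℝ, 0 < δ ∧ 0 < C ∧ 0 < c ∧ ∀ᶠ l in 𝓝 (phi t1), l ≠ phi t1 →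
      |((I / tg phi t1 + I / tg phi t2) * (l - phi t1)).re| ≤ δ * ‖l - phi t1‖ →
      c * ‖l - phi t1‖ ≤ |1 - ‖t1 * (1 + I / tg phi t1 * (l - phi t1))‖| ∧
      c * ‖l - phi t1‖ ≤ |1 - ‖t2 * (1 + I / tg phi t2 * (l - phi t1))‖| ∧
      (‖t1 * (1 + I / tg phi t1 * (l - phi t1))‖ < 1 ↔
        ¬ ‖t2 * (1 + I / tg phi t2 * (l - phi t1))‖ < 1) ∧
      Fq (mf fun y => phi (e y)) l (t1 * (1 + I / tg phi t1 * (l - phi t1)))
        (t2 * (1 + I / tg phi t2 * (l - phi t1))) x C := by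
  obtain ⟨Ca, hCa, hRa⟩ := fd_glob h hd.n1 hd.smooth1
  obtain ⟨Cb, hCb, hRb⟩ := fd_glob h hd.n2 hd.smooth2
  rw [hd.val] at hRb
  have htr := hd.trans
  have ht1 := hd.n1
  have ht2 := hd.n2
  have hne := hd.ne
  have hb := memLp_cv h.cv
  have hms := fun l g1 g2 => fd_meas h (-x) l g1 g2
  generalize tg phi t1 = D1 at *
  generalize tg phi t2 = D2 at *
  generalize phi t1 = q at *
  have hD1 : D1 ≠ 0 := by
    rintro rfl
    simp at htr
  have hD2 : D2 ≠ 0 := by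
    rintro rfl
    simp at htr
  have ht10 : t1 ≠ 0 := by
    rintro rfl
    simp at ht1
  have ht20 : t2 ≠ 0 := by
    rintro rfl
    simp at ht2
  have hI : (I : ℂ) ≠ 0 := I_ne_zero
  have hn : (I / D1 * conj (I / D2)).im ≠ 0 := by
    have e1 : I / D1 * conj (I / D2) = (D1 * conj D2)⁻¹ := by
      rw [map_div₀, conj_I]
      have : conj D2 ≠ 0 := by simpa using hD2
      field_simp
      rw [I_sq]
      ring
    rw [e1, Complex.inv_im]
    have h1 : (D1 * conj D2).im ≠ 0 := by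
      intro h2
      apply htr
      have h3 : conj D1 * D2 = conj (D1 * conj D2) := by
        rw [map_mul, conj_conj]
      rw [h3, conj_im, h2, neg_zero]
    have h4 : normSq (D1 * conj D2) ≠ 0 := by
      rw [Ne, Complex.normSq_eq_zero]
      intro h5
      rw [h5, zero_im] at h1
      exact h1 rfl
    exact div_ne_zero (neg_ne_zero.2 h1) h4
  obtain ⟨δ, c, s, hδ, hc, hs, hgeo⟩ := fd_geo hn
  set C2 : ℝ := Ca + Cb with hC2
  have hC20 : 0 ≤ C2 := by positivity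
  set A : ℝ := ‖I / D1‖ + ‖I / D2‖ with hA
  have hA0 : 0 ≤ A := by positivity
  set d : ℝ := ‖t1 - t2‖ / 4 with hdd
  have hd0 : 0 < d := by
    have := norm_pos_iff.2 (sub_ne_zero.2 hne)
    positivity
  set P0 : ℝ := ‖D1‖ + ‖D2‖ with hP0d
  have hP0 : 0 ≤ P0 := by positivity
  obtain ⟨C3, hC3d⟩ : ∃ C3 : ℝ, C3 = C2 * A * (1 + A / c) / d +
    (P0 + 2 * C2) * A / (d * (2 * d)) := ⟨_, rfl⟩
  have hC3 : 0 ≤ C3 := by rw [hC3d]; positivity
  obtain ⟨Cq, hCqd⟩ : ∃ Cq : ℝ, Cq = (P0 + 2 * C2) / (2 * d) := ⟨_, rfl⟩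
  have hCq : 0 ≤ Cq := by rw [hCqd]; positivity
  -- the polynomials
  obtain ⟨b1, P1, hP1, hb1, hv11, hv12⟩ := fd_pol hne
    ((t1 - t2) / (t1 ^ (-x) * (D1 / (I * t1)))) ((t2 - t1) / (t2 ^ (-x) * (D2 / (I * t2))))
  have hnei : t1⁻¹ ≠ t2⁻¹ := fun h1 => hne (inv_inj.1 h1)
  obtain ⟨b2, P2, hP2, hb2, hv21, hv22⟩ := fd_pol hnei
    ((t1 - t2) / (t1 ^ (-x) * (D1 / (I * t1)))) ((t2 - t1) / (t2 ^ (-x) * (D2 / (I * t2))))
  have hp1 : t1 ^ (-x) * (D1 / (I * t1)) ≠ 0 :=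
    mul_ne_zero (zpow_ne_zero _ ht10) (div_ne_zero hD1 (mul_ne_zero hI ht10))
  have hp2 : t2 ^ (-x) * (D2 / (I * t2)) ≠ 0 :=
    mul_ne_zero (zpow_ne_zero _ ht20) (div_ne_zero hD2 (mul_ne_zero hI ht20))
  obtain ⟨Th0, hTh0⟩ : ∃ Th0 : Op2, Th0 = mf fun y => e y ^ (-x) *
    ((phi (e y) - q) / ((e y - t1) * (e y - t2))) := ⟨_, rfl⟩
  rw [← hTh0] at hU
  obtain ⟨ep, hep⟩ : ∃ ep : ℝ, ep = 1 / (2 * (‖Ring.inverse (TM Th0)‖ + 1)) := ⟨_, rfl⟩
  have hep0 : 0 < ep := by rw [hep]; positivity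
  obtain ⟨X, hX⟩ : ∃ X : ℝ, X = |((-x : ℤ) : ℝ)| := ⟨_, rfl⟩
  have hX0 : 0 ≤ X := by rw [hX]; positivity
  obtain ⟨C5, hC5⟩ : ∃ C5 : ℝ → ℝ, C5 = fun P => P * C3 / (c * d) +
    (P0 * (X + 1) * P + 1 + P * C2) / (4 * d ^ 2) * ((1 + A / c) * 2) := ⟨_, rfl⟩
  have hC50 : ∀ P : ℝ, 0 ≤ P → 0 ≤ C5 P := fun P hP => by rw [hC5]; positivity
  have h1P := hC50 (2 * P1) (by positivity)
  have h2P := hC50 (2 * P2) (by positivity)
  have hIn := norm_nonneg (Ring.inverse (TM Th0))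
  refine ⟨δ, Cq + ep + C5 (2 * P1) + C5 (2 * P2) + P1 + P2 + 2 * ‖Ring.inverse (TM Th0)‖, c, hδ,
    by positivity, hc, ?_⟩
  have hs' : 0 < min s (min (d / (A + 1)) (ep / (C3 + 1))) := by positivity
  filter_upwards [Metric.ball_mem_nhds q hs'] with l hl hlq hre
  rw [mem_ball, dist_eq_norm] at hl
  have hls : ‖l - q‖ < s := hl.trans_le (min_le_left _ _)
  have hld : A * ‖l - q‖ ≤ d := by
    have h1 : ‖l - q‖ ≤ d / (A + 1) := hl.le.trans ((min_le_right _ _).trans (min_le_left _ _))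
    rw [le_div_iff₀ (by positivity)] at h1
    have := norm_nonneg (l - q)
    nlinarith
  have hlep : C3 * ‖l - q‖ ≤ ep := by
    have h1 : ‖l - q‖ ≤ ep / (C3 + 1) := hl.le.trans ((min_le_right _ _).trans (min_le_right _ _))
    rw [le_div_iff₀ (by positivity)] at h1
    have := norm_nonneg (l - q)
    nlinarith
  have hw0 : l - q ≠ 0 := sub_ne_zero.2 hlq
  have hwn : 0 < ‖l - q‖ := norm_pos_iff.2 hw0
  obtain ⟨k1, k2, k3⟩ := hgeo (l - q) hw0 hls hre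
  have hng1 : ‖t1 * (1 + I / D1 * (l - q))‖ = ‖1 + I / D1 * (l - q)‖ := by
    rw [norm_mul, ht1, one_mul]
  have hng2 : ‖t2 * (1 + I / D2 * (l - q))‖ = ‖1 + I / D2 * (l - q)‖ := by
    rw [norm_mul, ht2, one_mul]
  rw [← hng1] at k1 k3
  rw [← hng2] at k2 k3
  refine ⟨k1, k2, k3, ?_⟩
  have hpg1 : D1 / (I * t1) * (t1 * (1 + I / D1 * (l - q)) - t1) = l - q := by
    field_simp
    ring
  have hpg2 : D2 / (I * t2) * (t2 * (1 + I / D2 * (l - q)) - t2) = l - q := by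
    field_simp
    ring
  have hg1 : ‖t1 * (1 + I / D1 * (l - q)) - t1‖ ≤ A * ‖l - q‖ := by
    have e1 : t1 * (1 + I / D1 * (l - q)) - t1 = t1 * (I / D1 * (l - q)) := by ring
    rw [e1, norm_mul, ht1, one_mul, norm_mul]
    gcongr
    exact le_add_of_nonneg_right (norm_nonneg _)
  have hg2 : ‖t2 * (1 + I / D2 * (l - q)) - t2‖ ≤ A * ‖l - q‖ := by
    have e1 : t2 * (1 + I / D2 * (l - q)) - t2 = t2 * (I / D2 * (l - q)) := by ring
    rw [e1, norm_mul, ht2, one_mul, norm_mul]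
    gcongr
    exact le_add_of_nonneg_left (norm_nonneg _)
  generalize t1 * (1 + I / D1 * (l - q)) = g1 at *
  generalize t2 * (1 + I / D2 * (l - q)) = g2 at *
  have hzg : ∀ y : UnitAddCircle, c * ‖l - q‖ ≤ ‖e y - g1‖ ∧ c * ‖l - q‖ ≤ ‖e y - g2‖ := by
    intro y
    have hy := PsiAux.norm_e' y
    have h1 := abs_norm_sub_norm_le (e y) g1
    have h2 := abs_norm_sub_norm_le (e y) g2
    rw [hy] at h1 h2
    exact ⟨k1.trans h1, k2.trans h2⟩
  have hcw : 0 < c * ‖l - q‖ := by positivity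
  have hzn : ∀ y : UnitAddCircle, e y ≠ g1 ∧ e y ≠ g2 := by
    intro y
    exact ⟨sub_ne_zero.1 (norm_pos_iff.1 (hcw.trans_le (hzg y).1)),
      sub_ne_zero.1 (norm_pos_iff.1 (hcw.trans_le (hzg y).2))⟩
  have hpt : ∀ᵐ y ∂mu0,
      ‖(phi (e y) - l) / ((e y - g1) * (e y - g2)) -
        (phi (e y) - q) / ((e y - t1) * (e y - t2))‖ ≤ C3 * ‖l - q‖ ∧
      ‖(phi (e y) - q) / ((e y - t1) * (e y - t2))‖ ≤ Cq ∧
      ‖(e y ^ (-x) * ((phi (e y) - l) / ((e y - g1) * (e y - g2))) * (pl 2 b1 : CT) y - 1) /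
        ((e y - g1) * (e y - g2))‖ ≤ C5 (2 * P1) ∧
      ‖(e y ^ (-x) * ((phi (e y) - l) / ((e y - g1) * (e y - g2))) * (mi 2 b2 : CT) y - 1) /
        ((e y - g1) * (e y - g2))‖ ≤ C5 (2 * P2) := by
    filter_upwards [hRa, hRb, fd_ae_ne t1, fd_ae_ne t2] with y hya hyb hy1 hy2
    have hy := PsiAux.norm_e' y
    have hy0 := PsiAux.e_ne y
    obtain ⟨m1, m2, m3⟩ := fd_pt (f := phi (e y)) (P0 := P0) (C2 := C2) hy ht1 ht2 hC20 hA0 hc hd0
      (by rw [hdd]; linarith) hpg1 hpg2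
      (by
        rw [norm_div, norm_mul, Complex.norm_I, ht1, one_mul, div_one]
        exact le_add_of_nonneg_right (norm_nonneg _))
      (by
        rw [norm_div, norm_mul, Complex.norm_I, ht2, one_mul, div_one]
        exact le_add_of_nonneg_left (norm_nonneg _))
      (hya.trans (by gcongr; linarith)) (hyb.trans (by gcongr; linarith)) hg1 hg2 (hzg y).1
      (hzg y).2 (hzn y).1 (hzn y).2 hy1 hy2 hld
    rw [← hC3d] at m1 m3
    rw [← hCqd] at m2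
    refine ⟨m1, m2, ?_, ?_⟩
    · have hpl : (pl 2 b1 : CT) y = b1 0 + b1 1 * e y := by
        rw [ItpAux.pl_apply, Finset.sum_range_succ, Finset.sum_range_succ, Finset.sum_range_zero]
        ring
      rw [hpl]
      have m4 := m3 (e y ^ (-x)) (t1 ^ (-x)) (t2 ^ (-x)) (b1 0 + b1 1 * e y) (b1 0 + b1 1 * t1)
        (b1 0 + b1 1 * t2) (2 * P1) X (by rw [norm_zpow, hy, one_zpow])
        (by rw [norm_zpow, ht1, one_zpow]) (by rw [norm_zpow, ht2, one_zpow]) hX0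
        (by rw [hX]; exact fd_zpow (-x) hy ht1) (by rw [hX]; exact fd_zpow (-x) hy ht2)
        (by
          refine (norm_add_le _ _).trans ?_
          rw [norm_mul, hy, mul_one]
          linarith [hb1 0, hb1 1])
        (by
          have e1 : b1 0 + b1 1 * e y - (b1 0 + b1 1 * t1) = b1 1 * (e y - t1) := by ring
          rw [e1, norm_mul]
          gcongr
          linarith [hb1 1])
        (by
          have e1 : b1 0 + b1 1 * e y - (b1 0 + b1 1 * t2) = b1 1 * (e y - t2) := by ring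
          rw [e1, norm_mul]
          gcongr
          linarith [hb1 1])
        (by rw [hv11, mul_div_cancel₀ _ hp1]) (by rw [hv12, mul_div_cancel₀ _ hp2])
      rw [hC5]
      exact m4
    · have hmi : (mi 2 b2 : CT) y = b2 0 + b2 1 * (e y)⁻¹ := by
        rw [ItpAux.mi_apply, Finset.sum_range_succ, Finset.sum_range_succ, Finset.sum_range_zero]
        ring
      rw [hmi]
      have hinv : ∀ t : ℂ, ‖t‖ = 1 → t ≠ 0 → ‖(e y)⁻¹ - t⁻¹‖ = ‖e y - t‖ := by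
        intro t ht ht0
        have e1 : (e y)⁻¹ - t⁻¹ = -((e y - t) / (e y * t)) := by
          field_simp
          ring
        rw [e1, norm_neg, norm_div, norm_mul, hy, ht, one_mul, div_one]
      have m4 := m3 (e y ^ (-x)) (t1 ^ (-x)) (t2 ^ (-x)) (b2 0 + b2 1 * (e y)⁻¹)
        (b2 0 + b2 1 * t1⁻¹) (b2 0 + b2 1 * t2⁻¹) (2 * P2) X (by rw [norm_zpow, hy, one_zpow])
        (by rw [norm_zpow, ht1, one_zpow]) (by rw [norm_zpow, ht2, one_zpow]) hX0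
        (by rw [hX]; exact fd_zpow (-x) hy ht1) (by rw [hX]; exact fd_zpow (-x) hy ht2)
        (by
          refine (norm_add_le _ _).trans ?_
          rw [norm_mul, norm_inv, hy, inv_one, mul_one]
          linarith [hb2 0, hb2 1])
        (by
          have e1 : b2 0 + b2 1 * (e y)⁻¹ - (b2 0 + b2 1 * t1⁻¹) = b2 1 * ((e y)⁻¹ - t1⁻¹) := by
            ring
          rw [e1, norm_mul, hinv t1 ht1 ht10]
          gcongr
          linarith [hb2 1])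
        (by
          have e1 : b2 0 + b2 1 * (e y)⁻¹ - (b2 0 + b2 1 * t2⁻¹) = b2 1 * ((e y)⁻¹ - t2⁻¹) := by
            ring
          rw [e1, norm_mul, hinv t2 ht2 ht20]
          gcongr
          linarith [hb2 1])
        (by rw [hv21, mul_div_cancel₀ _ hp1]) (by rw [hv22, mul_div_cancel₀ _ hp2])
      rw [hC5]
      exact m4
  have hbq : ∀ᵐ y ∂mu0, ‖e y ^ (-x) * ((phi (e y) - q) / ((e y - t1) * (e y - t2)))‖ ≤ Cq := by
    filter_upwards [hpt] with y hy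
    rw [norm_mul, norm_zpow, PsiAux.norm_e', one_zpow, one_mul]
    exact hy.2.1
  have hbl : ∀ᵐ y ∂mu0, ‖e y ^ (-x) * ((phi (e y) - l) / ((e y - g1) * (e y - g2)))‖ ≤ Cq + ep := by
    filter_upwards [hpt] with y hy
    rw [norm_mul, norm_zpow, PsiAux.norm_e', one_zpow, one_mul]
    calc ‖(phi (e y) - l) / ((e y - g1) * (e y - g2))‖ =
        ‖(phi (e y) - q) / ((e y - t1) * (e y - t2)) + ((phi (e y) - l) / ((e y - g1) * (e y - g2)) -
        (phi (e y) - q) / ((e y - t1) * (e y - t2)))‖ := by congr 1; ring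
      _ ≤ _ := norm_add_le _ _
      _ ≤ Cq + ep := add_le_add hy.2.1 (hy.1.trans hlep)
  have mq : MemLp (fun y : UnitAddCircle => e y ^ (-x) *
      ((phi (e y) - q) / ((e y - t1) * (e y - t2)))) ∞ mu0 :=
    memLp_top_of_bound (hms q t1 t2) Cq hbq
  have ml : MemLp (fun y : UnitAddCircle => e y ^ (-x) *
      ((phi (e y) - l) / ((e y - g1) * (e y - g2)))) ∞ mu0 :=
    memLp_top_of_bound (hms l g1 g2) (Cq + ep) hbl
  obtain ⟨Th, hTh⟩ : ∃ Th : Op2, Th = mf fun y => e y ^ (-x) *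
    ((phi (e y) - l) / ((e y - g1) * (e y - g2))) := ⟨_, rfl⟩
  have hCm : Cm Th := by rw [hTh]; exact Cm.mf _
  have hdiff : ‖TM Th - TM Th0‖ ≤ ep := by
    rw [← TM_sub]
    refine (norm_TM_le _).trans ?_
    rw [hTh, hTh0, ← mf_sub ml mq]
    refine norm_mf_le hep0.le ?_
    filter_upwards [hpt] with y hy
    rw [← mul_sub, norm_mul, norm_zpow, PsiAux.norm_e', one_zpow, one_mul]
    exact hy.1.trans hlep
  obtain ⟨u1, u2⟩ := PsiAux.unit_pert hU hep hdiff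
  obtain ⟨u3, u4⟩ := isUnit_of_TM hCm u1
  have hThn : ‖Th‖ ≤ Cq + ep := by
    rw [hTh]
    exact norm_mf_le (by positivity) hbl
  obtain ⟨pz, hpz⟩ : ∃ pz : CT, pz = (fourier 1 - algebraMap ℂ CT g1) *
    (fourier 1 - algebraMap ℂ CT g2) := ⟨_, rfl⟩
  have hpza : ∀ y : UnitAddCircle, pz y = (e y - g1) * (e y - g2) := by
    intro y
    rw [hpz, ContinuousMap.mul_apply, ContinuousMap.sub_apply, ContinuousMap.sub_apply,
      PsiAux.four_e, zpow_one]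
    rfl
  have hprod : ∀ y : UnitAddCircle, (e y - g1) * (e y - g2) ≠ 0 := fun y =>
    mul_ne_zero (sub_ne_zero.2 (hzn y).1) (sub_ne_zero.2 (hzn y).2)
  have hgen : ∀ (p : CT) (C : ℝ), 0 ≤ C → (∀ᵐ y ∂mu0, ‖(e y ^ (-x) * ((phi (e y) - l) /
      ((e y - g1) * (e y - g2))) * p y - 1) / ((e y - g1) * (e y - g2))‖ ≤ C) →
      ∃ K : Op2, Cm K ∧ ‖K‖ ≤ C ∧ Th * mul p - 1 = K * mul pz := by
    intro p C hC hp
    refine ⟨mf fun y => (e y ^ (-x) * ((phi (e y) - l) / ((e y - g1) * (e y - g2))) * p y - 1) /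
      ((e y - g1) * (e y - g2)), Cm.mf _, norm_mf_le hC hp, ?_⟩
    have hpm : MemLp (fun y => p y) ∞ mu0 := memLp_ct p
    have m3 := memLp_mul ml hpm
    have m4 : MemLp (fun _ : UnitAddCircle => (1 : ℂ)) ∞ mu0 := memLp_const 1
    have m5 := m3.sub m4
    have hcont : Continuous fun y : UnitAddCircle => (e y - g1) * (e y - g2) := by
      have := PsiAux.cont_e
      fun_prop
    have m6 : MemLp (fun y : UnitAddCircle => (e y ^ (-x) * ((phi (e y) - l) /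
        ((e y - g1) * (e y - g2))) * p y - 1) / ((e y - g1) * (e y - g2))) ∞ mu0 :=
      memLp_top_of_bound ((m5.1.aemeasurable.div
        hcont.measurable.aemeasurable).aestronglyMeasurable) C hp
    have m7 : MemLp (fun y => pz y) ∞ mu0 := memLp_ct _
    have e1 : (1 : Op2) = mf (fun _ => (1 : ℂ)) := by
      rw [mf_const, map_one]
    rw [hTh, ← mf_ct p, ← mf_ct pz, ← mf_mul ml hpm, ← mf_mul m6 m7, e1, ← mf_sub m3 m4]
    refine mf_congr ?_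
    filter_upwards with y
    rw [hpza, div_mul_cancel₀ _ (hprod y)]
  obtain ⟨K1, c1, n1, r1⟩ := hgen (pl 2 b1) (C5 (2 * P1)) h1P (hpt.mono fun y hy => hy.2.2.1)
  obtain ⟨K2, c2, n2, r2⟩ := hgen (mi 2 b2) (C5 (2 * P2)) h2P (hpt.mono fun y hy => hy.2.2.2)
  rw [hpz] at r1 r2
  refine ⟨Th, K1, K2, b1, b2, hCm, c1, c2, ?_, ?_, ?_, fun i => ⟨?_, ?_⟩, u3, ?_, u1, ?_, ?_, r1, r2⟩
  · linarith
  · linarith
  · linarith
  · linarith [hb1 i]
  · linarith [hb2 i]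
  · linarith [u4.trans u2]
  · linarith
  · rw [← hpz]
    have m3 : MemLp (fun y => (fourier x * pz : CT) y) ∞ mu0 := memLp_ct _
    have m4 : MemLp (fun _ : UnitAddCircle => l) ∞ mu0 := memLp_const l
    rw [hTh, ← mf_ct (fourier x * pz), ← mf_mul ml m3, ← mf_const l, ← mf_sub hb m4]
    refine mf_congr ?_
    filter_upwards with y
    have hpr := hprod y
    rw [ContinuousMap.mul_apply, hpza, PsiAux.four_e, zpow_neg]
    have he : (e y) ^ x ≠ 0 := zpow_ne_zero x (PsiAux.e_ne y)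
    have hp1 : e y - g1 ≠ 0 := left_ne_zero_of_mul hpr
    have hp2 : e y - g2 ≠ 0 := right_ne_zero_of_mul hpr
    field_simp

end Pool.Agent.TBirN
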