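import Pool.Agent.TBirN.Def
import Pool.Agent.TBirC.FrC
import Pool.Agent.TBirC.FrB
import Pool.Agent.TBirC.HW
import Pool.Agent.TBirC.Loc
import Pool.Agent.TBirC.Grw

/-!
# The form of the resolvent at one point

`core` in TBirC/FrC.lean (private, copy it; it is a pointwise statement) with `k = 2`, `z = ![g1, g2]`; `res_bd`, `off_circle` in TBirC/Grw.lean as in `grow_fac`.
-/

set_option autoImplicit false

open MeasureTheory Complex Set Filter Topology Metric AddCircle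
open scoped ComplexConjugate InnerProductSpace ENNReal

namespace Pool.Agent.TBirN

open Pool.Agent.TBir Pool.Agent.TBirG Pool.Agent.TBirC Pool.Agent.TBirJ Pool.Agent.TBirK
open Pool.Agent.TBirP (E qT)
open Pool.Agent.TBirS (DR)

open Pool.Agent.TBirE (evr)

open Pool.Agent.TBirM

private theorem four_cancel (n : ℤ) : (fourier n : CT) * fourier (-n) = 1 := by
  ext t
  rw [ContinuousMap.mul_apply, ← fourier_add, add_neg_cancel, fourier_zero]
  rfl

private theorem norm_lin_le {z : ℂ} (h : ‖z‖ ≤ 2) : ‖(fourier 1 - algebraMap ℂ CT z : CT)‖ ≤ 3 := by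
  refine (norm_sub_le _ _).trans ?_
  rw [fourier_norm, norm_algebraMap']
  linarith

private theorem norm_lin_le' {z : ℂ} (h : ‖z‖ ≤ 2) : ‖(1 - z • fourier (-1) : CT)‖ ≤ 3 := by
  refine (norm_sub_le _ _).trans ?_
  rw [norm_smul, fourier_norm, norm_one]
  linarith

private theorem norm_prod_le3 {k : ℕ} (s : Finset (Fin k)) {h : Fin k → CT} (hh : ∀ i, ‖h i‖ ≤ 3) :
    ‖∏ i ∈ s, h i‖ ≤ 3 ^ k := by
  refine (Finset.norm_prod_le s h).trans ?_
  refine (Finset.prod_le_prod (fun i _ => norm_nonneg (h i)) fun i _ => hh i).trans ?_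
  rw [Finset.prod_const]
  refine pow_le_pow_right₀ (by norm_num) ?_
  exact (Finset.card_le_univ s).trans (by simp)

private theorem norm_mi_le {C : ℝ} (k : ℕ) {a : ℕ → ℂ} (h : ∀ i, ‖a i‖ ≤ C) :
    ‖mi k a‖ ≤ k * C := by
  unfold mi
  refine (norm_sum_le _ _).trans ?_
  have h1 : ∀ i ∈ Finset.range k, ‖a i • (fourier (-(i : ℤ)) : CT)‖ ≤ C := by
    intro i _
    rw [norm_smul, fourier_norm, mul_one]
    exact h i
  refine (Finset.sum_le_sum h1).trans ?_
  simp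

private theorem plus_pl (k : ℕ) (a : ℕ → ℂ) : Plus (pl k a) := by
  unfold pl
  have h0 : Plus (0 : CT) := by
    rw [← map_zero (algebraMap ℂ CT)]
    exact plus_algebraMap 0
  refine Finset.sum_induction _ Plus (fun a b ha hb => ?_) h0 ?_
  · have h3 : a + b = a - (0 - b) := by ring
    rw [h3]
    exact ha.sub (h0.sub hb)
  · intro i _
    have h2 : (a i • fourier (i : ℤ) : CT) = algebraMap ℂ CT (a i) * fourier (i : ℤ) := by
      ext t
      rw [ContinuousMap.smul_apply, ContinuousMap.mul_apply, alg_apply, smul_eq_mul]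
    rw [h2]
    exact (plus_algebraMap _).mul (plus_fourier (by positivity))

private theorem minus_mi (k : ℕ) (a : ℕ → ℂ) : Minus (mi k a) := by
  unfold mi
  have h0 : Minus (0 : CT) := by
    rw [← map_zero (algebraMap ℂ CT)]
    exact minus_algebraMap 0
  refine Finset.sum_induction _ Minus (fun a b ha hb => ?_) h0 ?_
  · have h3 : a + b = a - (0 - b) := by ring
    rw [h3]
    exact ha.sub (h0.sub hb)
  · intro i _
    have h2 : (a i • fourier (-(i : ℤ)) : CT) = algebraMap ℂ CT (a i) * fourier (-(i : ℤ)) := by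
      ext t
      rw [ContinuousMap.smul_apply, ContinuousMap.mul_apply, alg_apply, smul_eq_mul]
    rw [h2]
    exact (minus_algebraMap _).mul (minus_fourier (by simp))

private theorem TM_neg' (A : Op2) : TM (-A) = -TM A := by
  unfold TM
  rw [ContinuousLinearMap.neg_comp, ContinuousLinearMap.comp_neg]

private theorem norm_star_mul_le (a : CT) (x : L2) : ‖mul (star a) x‖ ≤ ‖a‖ * ‖x‖ := by
  refine (ContinuousLinearMap.le_opNorm _ _).trans ?_
  refine mul_le_mul_of_nonneg_right ?_ (norm_nonneg _)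
  exact (norm_mul_ct_le _).trans (norm_star a).le


private theorem alg_core {M Th K1 K2 : Op2} {l : ℂ} {k c : ℕ} {x : ℤ} {N PI Bp Bm Nb al dl L1 L2 : CT}
    (hTh : Cm Th) (hK1 : Cm K1) (hK2 : Cm K2) (hU : IsUnit Th) (hUT : IsUnit (TM Th))
    (hM : M - algebraMap ℂ Op2 l = Th * mul (fourier x * N)) (h1 : Th * mul L1 - 1 = K1 * mul N)
    (h2 : Th * mul L2 - 1 = K2 * mul N) (pN : Plus N) (pBp : Plus Bp) (pal : Plus al) (pL1 : Plus L1)
    (mBm : Minus Bm) (mdl : Minus dl) (mL2 : Minus L2) (mNb : Minus Nb) (eN : N = PI * Bp)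
    (ex : fourier x * N = Bm * Bp) (ed : dl * Bm = 1) (ea : al * Bp = 1)
    (eP : PI = fourier (c : ℤ) * Bm) (eNb : N = fourier (k : ℤ) * Nb) (f g : Hardy) :
    inner ℂ g ((resolvent (TM M) l - TM (resolvent M l)) f) =
      inner ℂ (incl g) (mul (L1 * al) (mul dl (incl f) - incl (T dl f))) -
      inner ℂ (incl g) (Ring.inverse Th (K1 (mul (fourier (c : ℤ)) (incl f)))) +
      (inner ℂ (mul (star Bp) (incl (ContinuousLinearMap.adjoint (T al) g)))
          (mul L2 (K1 (mul PI (incl (T dl f))))) -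
        inner ℂ (ContinuousLinearMap.adjoint (T Nb) (ContinuousLinearMap.adjoint (T al) g))
          (TM (K2 * mul (fourier (k : ℤ))) (Ring.inverse (TM Th) (TM K1 (T N (T dl f)))))) := by
  obtain ⟨tau, htau⟩ : ∃ tau : Op2, tau = Ring.inverse Th := ⟨_, rfl⟩
  obtain ⟨X, hX⟩ : ∃ X : Op, X = Ring.inverse (TM Th) := ⟨_, rfl⟩
  rw [← htau, ← hX]
  have c1 : Th * tau = 1 := by rw [htau]; exact Ring.mul_inverse_cancel _ hU
  have c2 : tau * Th = 1 := by rw [htau]; exact Ring.inverse_mul_cancel _ hU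
  have c3 : TM Th * X = 1 := by rw [hX]; exact Ring.mul_inverse_cancel _ hUT
  have c4 : X * TM Th = 1 := by rw [hX]; exact Ring.inverse_mul_cancel _ hUT
  have htc : Cm tau := by rw [htau]; exact hTh.inverse
  have m1 : ∀ a b : CT, mul a * mul b = mul (a * b) := fun a b => (mul_ct a b).symm
  -- the resolvent of `M`
  have r1 : resolvent M l = -(mul al * tau * mul dl) := by
    apply resolvent_eq_neg
    · rw [hM, ex]
      have e1 : Bm * Bp * al = Bm := by rw [mul_assoc, mul_comm Bp al, ea, mul_one]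
      calc Th * mul (Bm * Bp) * (mul al * tau * mul dl) =
          Th * (mul (Bm * Bp) * mul al) * tau * mul dl := by simp only [mul_assoc]
        _ = Th * (tau * mul Bm) * mul dl := by rw [m1, e1, mul_assoc Th, ← htc Bm]
        _ = (Th * tau) * (mul Bm * mul dl) := by simp only [mul_assoc]
        _ = 1 := by rw [c1, m1, mul_comm Bm dl, ed, mul_one_ct, one_mul]
    · rw [hM, ex]
      have e1 : al * (dl * (Bm * Bp)) = 1 := by
        rw [← mul_assoc dl, ed, one_mul, ea]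
      calc mul al * tau * mul dl * (Th * mul (Bm * Bp)) =
          mul al * tau * (mul dl * Th) * mul (Bm * Bp) := by simp only [mul_assoc]
        _ = mul al * (tau * Th) * (mul dl * mul (Bm * Bp)) := by
            rw [← hTh dl]; simp only [mul_assoc]
        _ = 1 := by rw [c2, mul_one, m1, m1, e1, mul_one_ct]
  -- the resolvent of `TM M`
  have tM : TM M - algebraMap ℂ Op l = T Bm * TM Th * T Bp := by
    rw [← TM_algebraMap, ← TM_sub, hM, ex, mul_ct, ← mul_assoc, TM_plus _ pBp, hTh Bm,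
      TM_minus _ mBm]
  have t1 : T al * T Bp = 1 := by rw [← T_mul_right al pBp, ea, T_one]
  have t2 : T Bp * T al = 1 := by rw [← T_mul_right Bp pal, mul_comm, ea, T_one]
  have t3 : T dl * T Bm = 1 := by rw [← T_mul_left mdl Bm, ed, T_one]
  have t4 : T Bm * T dl = 1 := by rw [← T_mul_left mBm dl, mul_comm, ed, T_one]
  have r2 : resolvent (TM M) l = -(T al * X * T dl) := by
    apply resolvent_eq_neg
    · rw [tM]
      calc T Bm * TM Th * T Bp * (T al * X * T dl) =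
          T Bm * (TM Th * ((T Bp * T al) * X)) * T dl := by simp only [mul_assoc]
        _ = 1 := by rw [t2, one_mul, c3, mul_one, t4]
    · rw [tM]
      calc T al * X * T dl * (T Bm * TM Th * T Bp) =
          T al * (X * ((T dl * T Bm) * TM Th)) * T Bp := by simp only [mul_assoc]
        _ = 1 := by rw [t3, one_mul, c4, mul_one, t1]
  -- decomposition of `mul al * tau * mul dl`
  have q1 : tau = mul L1 - tau * K1 * mul N := by
    have e1 : tau * (Th * mul L1 - 1) = tau * (K1 * mul N) := by rw [h1]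
    rw [mul_sub, ← mul_assoc, c2, one_mul, mul_one, ← mul_assoc] at e1
    rw [← e1]
    abel
  have hcK : Cm (tau * K1) := htc.comp hK1
  have eN2 : al * N * dl = fourier (c : ℤ) := by
    rw [eN, eP]
    calc al * (fourier (c : ℤ) * Bm * Bp) * dl = (al * Bp) * (fourier (c : ℤ) * (dl * Bm)) := by ring
      _ = fourier (c : ℤ) := by rw [ea, ed, one_mul, mul_one]
  have q2 : mul al * tau * mul dl = mul (L1 * al) * mul dl - tau * K1 * mul (fourier (c : ℤ)) := by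
    have e2 : mul al * (tau * K1 * mul N) * mul dl = tau * K1 * mul (fourier (c : ℤ)) := by
      calc mul al * (tau * K1 * mul N) * mul dl = (mul al * (tau * K1)) * mul N * mul dl := by
            simp only [mul_assoc]
        _ = tau * K1 * (mul al * mul N * mul dl) := by rw [← hcK al]; simp only [mul_assoc]
        _ = _ := by rw [m1, m1, eN2]
    have e3 : mul al * tau * mul dl = mul al * (mul L1 - tau * K1 * mul N) * mul dl := by
      rw [← q1]
    rw [e3, mul_sub, sub_mul, e2, m1, mul_comm al L1]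
  -- the identities for `X`
  have q3 : X - T L1 = -(X * TM K1 * T N) := by
    have e1 : TM Th * T L1 = 1 + TM K1 * T N := by
      rw [← TM_plus _ pL1, ← TM_plus _ pN, ← h1, TM_sub, TM_one]
      abel
    have e2 : X * (TM Th * T L1) = X * (1 + TM K1 * T N) := by rw [e1]
    rw [← mul_assoc, c4, one_mul, mul_add, mul_one, ← mul_assoc] at e2
    rw [e2]
    abel
  obtain ⟨K3, hK3⟩ : ∃ K3 : Op2, K3 = K2 * mul (fourier (k : ℤ)) := ⟨_, rfl⟩
  have q4 : X = T L2 - T Nb * TM K3 * X := by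
    have hK3c : Cm K3 := by rw [hK3]; exact hK2.comp (Cm.mul_ct _)
    have e0 : K2 * mul N = mul Nb * K3 := by
      rw [← hK3c Nb, hK3, mul_assoc, m1, ← eNb]
    have e1 : T L2 * TM Th = 1 + T Nb * TM K3 := by
      rw [← TM_minus _ mL2, ← TM_minus _ mNb, ← e0, ← h2, ← hTh L2, TM_sub, TM_one]
      abel
    have e2 : T L2 * TM Th * X = (1 + T Nb * TM K3) * X := by rw [e1]
    rw [mul_assoc, c3, mul_one, add_mul, one_mul] at e2
    rw [e2]
    abel
  -- the computation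
  obtain ⟨u, hu⟩ : ∃ u : Hardy, u = T dl f := ⟨_, rfl⟩
  obtain ⟨v, hv⟩ : ∃ v : Hardy, v = ContinuousLinearMap.adjoint (T al) g := ⟨_, rfl⟩
  obtain ⟨w, hw⟩ : ∃ w : Hardy, w = TM K1 (T N u) := ⟨_, rfl⟩
  rw [← hu, ← hv, ← hw, ← hK3]
  have s1 : inner ℂ g ((resolvent (TM M) l - TM (resolvent M l)) f) =
      inner ℂ (incl g) ((mul al * tau * mul dl) (incl f)) - inner ℂ v (X u) := by
    rw [r1, r2, TM_neg', sub_neg_eq_add, add_apply, neg_apply,
      inner_add_right, inner_neg_right, inner_TM, hv, ContinuousLinearMap.adjoint_inner_left, hu]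
    rw [neg_add_eq_sub]
    rfl
  have s2 : inner ℂ (incl g) ((mul al * tau * mul dl) (incl f)) =
      inner ℂ (incl g) (mul (L1 * al) (mul dl (incl f))) -
        inner ℂ (incl g) (tau (K1 (mul (fourier (c : ℤ)) (incl f)))) := by
    rw [q2, sub_apply, inner_sub_right]
    rfl
  have s3 : inner ℂ (incl g) (mul (L1 * al) (incl u)) = inner ℂ v (T L1 u) := by
    rw [← inner_TM, TM_mul, mul_comm L1 al, T_mul_right al pL1, hv,
      ContinuousLinearMap.adjoint_inner_left]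
    rfl
  have s4 : inner ℂ v (X u) = inner ℂ v (T L1 u) - inner ℂ v (X w) := by
    have e1 : X u = T L1 u - X w := by
      have e2 := congrArg (fun A : Op => A u) q3
      simp only [sub_apply, neg_apply] at e2
      rw [sub_eq_iff_eq_add] at e2
      rw [e2, hw]
      rw [neg_add_eq_sub]
      rfl
    rw [e1, inner_sub_right]
  have s5 : inner ℂ v (X w) = inner ℂ v (T L2 w) -
      inner ℂ (ContinuousLinearMap.adjoint (T Nb) v) (TM K3 (X w)) := by
    have e1 : X w = T L2 w - T Nb (TM K3 (X w)) := by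
      have e2 := congrArg (fun A : Op => A w) q4
      simpa using e2
    rw [ContinuousLinearMap.adjoint_inner_left, ← inner_sub_right, ← e1]
  have s6 : inner ℂ v (T L2 w) =
      inner ℂ (mul (star Bp) (incl v)) (mul L2 (K1 (mul PI (incl u)))) := by
    have e1 : T L2 w = TM (mul L2 * K1 * mul N) u := by
      rw [TM_plus _ pN, TM_minus _ mL2, hw]
      rfl
    have e2 : mul L2 * K1 * mul N = mul Bp * (mul L2 * K1 * mul PI) := by
      rw [eN, mul_comm PI Bp, mul_ct]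
      calc mul L2 * K1 * (mul Bp * mul PI) = mul L2 * (K1 * mul Bp) * mul PI := by
            simp only [mul_assoc]
        _ = (mul L2 * mul Bp) * K1 * mul PI := by rw [hK1 Bp]; simp only [mul_assoc]
        _ = (mul Bp * mul L2) * K1 * mul PI := by rw [m1, m1, mul_comm L2 Bp]
        _ = _ := by simp only [mul_assoc]
    rw [e1, inner_TM, e2, ← adjoint_mul_ct, ContinuousLinearMap.adjoint_inner_left]
    rfl
  rw [s1, s2, s4, s5, ← s6, map_sub, inner_sub_right, ← s3]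
  ring


private theorem core {C0 s0 : ℝ} (hC0 : 0 < C0) (hs0 : 0 < s0) (hs1 : s0 ≤ 1) (k : ℕ) :
    ∃ K : ℝ, 0 < K ∧ ∀ (M : Op2) (l : ℂ) (z : Fin k → ℂ) (x : ℤ) (Th K1 K2 : Op2) (a1 a2 : ℕ → ℂ),
      (∀ i, s0 ≤ ‖z i‖ ∧ ‖z i‖ ≤ 2) → (∀ i, ‖z i‖ ≠ 1) → (∀ i j, i ≠ j → s0 ≤ ‖z i - z j‖) →
      x + ((Finset.univ.filter fun j => ‖z j‖ < 1).card : ℤ) = 0 →
      Cm Th → Cm K1 → Cm K2 → ‖K1‖ ≤ C0 → ‖K2‖ ≤ C0 →
      (∀ i, ‖a1 i‖ ≤ C0 ∧ ‖a2 i‖ ≤ C0) → IsUnit Th → ‖Ring.inverse Th‖ ≤ C0 →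
      IsUnit (TM Th) → ‖Ring.inverse (TM Th)‖ ≤ C0 →
      M - algebraMap ℂ Op2 l = Th * mul (fourier x * ∏ j, (fourier 1 - algebraMap ℂ CT (z j))) →
      Th * mul (pl k a1) - 1 = K1 * mul (∏ j, (fourier 1 - algebraMap ℂ CT (z j))) →
      Th * mul (mi k a2) - 1 = K2 * mul (∏ j, (fourier 1 - algebraMap ℂ CT (z j))) →
      ∀ f g : Hardy, ‖inner ℂ g ((resolvent (TM M) l - TM (resolvent M l)) f)‖ ≤
        K * ((‖f‖ + ∑ j, ‖evr (z j) f‖) * (‖g‖ + ∑ j, ‖evr (z j) g‖)) := by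
  obtain ⟨Kp, hKp, hpair⟩ := frm_pair hs0 hs1 hC0 k
  obtain ⟨Ku, hKu, hu⟩ := frm_u hs0 hs1 k
  obtain ⟨Kv, hKv, hv⟩ := frm_v hs0 hs1 k
  refine ⟨Kp + C0 * C0 + (Kv * (k * C0) * C0 * Ku + 3 ^ k * Kv * (C0 * C0 * C0) * 3 ^ k * Ku),
    by positivity, ?_⟩
  intro M l z x Th K1 K2 a1 a2 hz hz1 hsep hcard hTh hcK1 hcK2 nK1 nK2 na hU nU hUT nUT hM h1 h2 f g
  obtain ⟨I, hI⟩ : ∃ I : Finset (Fin k), I = Finset.univ.filter fun j => ‖z j‖ < 1 := ⟨_, rfl⟩
  obtain ⟨O, hO⟩ : ∃ O : Finset (Fin k), O = Finset.univ.filter fun j => ¬ ‖z j‖ < 1 := ⟨_, rfl⟩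
  have hIm : ∀ i, i ∈ I ↔ ‖z i‖ < 1 := fun i => by rw [hI]; simp
  have hOm : ∀ i, i ∈ O ↔ 1 < ‖z i‖ := fun i => by
    rw [hO, Finset.mem_filter, not_lt]
    constructor
    · rintro ⟨-, h⟩
      exact lt_of_le_of_ne h (hz1 i).symm
    · intro h
      exact ⟨Finset.mem_univ i, h.le⟩
  rw [← hI] at hcard
  have hx : x = -(I.card : ℤ) := by linarith
  obtain ⟨N, hN⟩ : ∃ N : CT, N = ∏ j, (fourier 1 - algebraMap ℂ CT (z j)) := ⟨_, rfl⟩
  obtain ⟨PI, hPI⟩ : ∃ PI : CT, PI = ∏ i ∈ I, (fourier 1 - algebraMap ℂ CT (z i)) := ⟨_, rfl⟩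
  obtain ⟨Bp, hBp⟩ : ∃ Bp : CT, Bp = ∏ i ∈ O, (fourier 1 - algebraMap ℂ CT (z i)) := ⟨_, rfl⟩
  obtain ⟨Bm, hBm⟩ : ∃ Bm : CT, Bm = ∏ i ∈ I, (1 - z i • fourier (-1) : CT) := ⟨_, rfl⟩
  obtain ⟨Nb, hNb⟩ : ∃ Nb : CT, Nb = ∏ i, (1 - z i • fourier (-1) : CT) := ⟨_, rfl⟩
  obtain ⟨al, hal⟩ : ∃ al : CT, al = ∏ i ∈ O, Ak (z i) := ⟨_, rfl⟩
  obtain ⟨dl, hdl⟩ : ∃ dl : CT, dl = ∏ i ∈ I, Gk (z i) := ⟨_, rfl⟩
  rw [← hN] at hM h1 h2
  have eN : N = PI * Bp := by
    rw [hN, hPI, hBp, hI, hO]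
    exact (Finset.prod_filter_mul_prod_filter_not Finset.univ _ _).symm
  have eBm : fourier (-(I.card : ℤ)) * PI = Bm := by rw [hPI, hBm]; exact four_prod I z
  have eP : PI = fourier ((I.card : ℕ) : ℤ) * Bm := by
    rw [← eBm, ← mul_assoc, four_cancel, one_mul]
  have ex : fourier x * N = Bm * Bp := by
    rw [hx, eN, ← mul_assoc, eBm]
  have ed : dl * Bm = 1 := by
    rw [hdl, hBm, ← Finset.prod_mul_distrib]
    exact Finset.prod_eq_one fun i hi => Gk_mul ((hIm i).1 hi)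
  have ea : al * Bp = 1 := by
    rw [hal, hBp, ← Finset.prod_mul_distrib]
    exact Finset.prod_eq_one fun i hi => Ak_mul ((hOm i).1 hi)
  have eNb : N = fourier (k : ℤ) * Nb := by
    have e1 := four_prod Finset.univ z
    rw [← hN, ← hNb, Finset.card_univ, Fintype.card_fin] at e1
    rw [← e1, ← mul_assoc, four_cancel, one_mul]
  have pN : Plus N := by rw [hN]; exact plus_prod _ fun i _ => plus_sub (z i)
  have pBp : Plus Bp := by rw [hBp]; exact plus_prod _ fun i _ => plus_sub (z i)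
  have pal : Plus al := by rw [hal]; exact plus_prod _ fun i hi => plus_Ak ((hOm i).1 hi)
  have mBm : Minus Bm := by rw [hBm]; exact minus_prod _ fun i _ => minus_one_sub (z i)
  have mNb : Minus Nb := by rw [hNb]; exact minus_prod _ fun i _ => minus_one_sub (z i)
  have mdl : Minus dl := by rw [hdl]; exact minus_prod _ fun i hi => minus_Gk ((hIm i).1 hi)
  rw [alg_core hTh hcK1 hcK2 hU hUT hM h1 h2 pN pBp pal (plus_pl k a1) mBm mdl (minus_mi k a2) mNb eN
    ex ed ea eP eNb f g]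
  -- the sums
  obtain ⟨F, hF⟩ : ∃ F : ℝ, F = ‖f‖ + ∑ j, ‖evr (z j) f‖ := ⟨_, rfl⟩
  obtain ⟨G, hG⟩ : ∃ G : ℝ, G = ‖g‖ + ∑ j, ‖evr (z j) g‖ := ⟨_, rfl⟩
  rw [← hF, ← hG]
  have hsf : ∑ i ∈ I, ‖ev (z i) f‖ ≤ ∑ j, ‖evr (z j) f‖ := by
    have e1 : ∑ i ∈ I, ‖ev (z i) f‖ = ∑ i ∈ I, ‖evr (z i) f‖ := by
      refine Finset.sum_congr rfl fun i hi => ?_
      unfold evr
      rw [if_pos ((hIm i).1 hi)]
    rw [e1]
    exact Finset.sum_le_sum_of_subset_of_nonneg (Finset.subset_univ I) fun _ _ _ => norm_nonneg _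
  have hsg : ∑ i ∈ O, ‖ev (conj (z i))⁻¹ g‖ ≤ ∑ j, ‖evr (z j) g‖ := by
    have e1 : ∑ i ∈ O, ‖ev (conj (z i))⁻¹ g‖ = ∑ i ∈ O, ‖evr (z i) g‖ := by
      refine Finset.sum_congr rfl fun i hi => ?_
      unfold evr
      rw [if_neg ((hOm i).1 hi).le.not_gt]
    rw [e1]
    exact Finset.sum_le_sum_of_subset_of_nonneg (Finset.subset_univ O) fun _ _ _ => norm_nonneg _
  have hfF : ‖f‖ ≤ F := by
    rw [hF]
    exact le_add_of_nonneg_right (Finset.sum_nonneg fun _ _ => norm_nonneg _)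
  have hgG : ‖g‖ ≤ G := by
    rw [hG]
    exact le_add_of_nonneg_right (Finset.sum_nonneg fun _ _ => norm_nonneg _)
  have hF0 : 0 ≤ F := (norm_nonneg f).trans hfF
  have hG0 : 0 ≤ G := (norm_nonneg g).trans hgG
  -- first term
  have T1 : ‖inner ℂ (incl g) (mul (pl k a1 * al) (mul dl (incl f) - incl (T dl f)))‖ ≤
      Kp * (F * G) := by
    have e1 := hpair z I O a1 (fun i => (na i).1)
      (fun i hi => ⟨(hIm i).1 hi, (hz i).1⟩) (fun i hi => ⟨(hOm i).1 hi, (hz i).2⟩) hsep f g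
    rw [← hal, ← hdl] at e1
    refine e1.trans (mul_le_mul_of_nonneg_left ?_ hKp.le)
    refine mul_le_mul (hsf.trans ?_) ?_ ?_ hF0
    · rw [hF]
      exact le_add_of_nonneg_left (norm_nonneg _)
    · rw [hG]
      linarith
    · exact add_nonneg (norm_nonneg _) (Finset.sum_nonneg fun _ _ => norm_nonneg _)
  -- second term
  have T2 : ‖inner ℂ (incl g) (Ring.inverse Th (K1 (mul (fourier ((I.card : ℕ) : ℤ)) (incl f))))‖ ≤
      C0 * C0 * (F * G) := by
    refine (norm_inner_le_norm _ _).trans ?_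
    have e1 : ‖mul (fourier ((I.card : ℕ) : ℤ)) (incl f)‖ ≤ ‖f‖ := by
      refine (ContinuousLinearMap.le_opNorm _ _).trans ?_
      rw [TpB_norm_incl]
      refine mul_le_of_le_one_left (norm_nonneg _) ?_
      exact (norm_mul_ct_le _).trans (fourier_norm _).le
    have e2 : ‖K1 (mul (fourier ((I.card : ℕ) : ℤ)) (incl f))‖ ≤ C0 * ‖f‖ :=
      ContinuousLinearMap.le_of_opNorm_le_of_le _ nK1 e1
    have e3 : ‖Ring.inverse Th (K1 (mul (fourier ((I.card : ℕ) : ℤ)) (incl f)))‖ ≤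
        C0 * (C0 * ‖f‖) := ContinuousLinearMap.le_of_opNorm_le_of_le _ nU e2
    rw [TpB_norm_incl]
    calc _ ≤ G * (C0 * (C0 * F)) := by
          refine mul_le_mul hgG (e3.trans ?_) (norm_nonneg _) hG0
          refine mul_le_mul_of_nonneg_left ?_ hC0.le
          exact mul_le_mul_of_nonneg_left hfF hC0.le
      _ = C0 * C0 * (F * G) := by ring
  -- the two vectors
  have eu : ‖mul PI (incl (T dl f))‖ ≤ Ku * F := by
    have e1 := hu z I (fun i hi => ⟨(hIm i).1 hi, (hz i).1⟩) (fun i _ j _ hij => hsep i j hij) f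
    rw [← hPI, ← hdl] at e1
    refine e1.trans (mul_le_mul_of_nonneg_left ?_ hKu.le)
    rw [hF]
    linarith
  have evv : ‖mul (star Bp) (incl (ContinuousLinearMap.adjoint (T al) g))‖ ≤ Kv * G := by
    have e1 := hv z O (fun i hi => ⟨(hOm i).1 hi, (hz i).2⟩) (fun i _ j _ hij => hsep i j hij) g
    rw [← hBp, ← hal] at e1
    refine e1.trans (mul_le_mul_of_nonneg_left ?_ hKv.le)
    rw [hG]
    linarith
  have nBp : ‖Bp‖ ≤ 3 ^ k := by
    rw [hBp]
    exact norm_prod_le3 O fun i => norm_lin_le (hz i).2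
  -- third term
  have T3 : ‖inner ℂ (mul (star Bp) (incl (ContinuousLinearMap.adjoint (T al) g)))
      (mul (mi k a2) (K1 (mul PI (incl (T dl f)))))‖ ≤ Kv * (k * C0) * C0 * Ku * (F * G) := by
    refine (norm_inner_le_norm _ _).trans ?_
    have e1 : ‖K1 (mul PI (incl (T dl f)))‖ ≤ C0 * (Ku * F) :=
      ContinuousLinearMap.le_of_opNorm_le_of_le _ nK1 eu
    have e2 : ‖mul (mi k a2) (K1 (mul PI (incl (T dl f))))‖ ≤ (k * C0) * (C0 * (Ku * F)) :=
      ContinuousLinearMap.le_of_opNorm_le_of_le _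
        ((norm_mul_ct_le _).trans (norm_mi_le k fun i => (na i).2)) e1
    calc _ ≤ (Kv * G) * ((k * C0) * (C0 * (Ku * F))) :=
          mul_le_mul evv e2 (norm_nonneg _) (by positivity)
      _ = _ := by ring
  -- fourth term
  have T4 : ‖inner ℂ (ContinuousLinearMap.adjoint (T Nb) (ContinuousLinearMap.adjoint (T al) g))
      (TM (K2 * mul (fourier (k : ℤ))) (Ring.inverse (TM Th) (TM K1 (T N (T dl f)))))‖ ≤
      3 ^ k * Kv * (C0 * C0 * C0) * 3 ^ k * Ku * (F * G) := by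
    refine (norm_inner_le_norm _ _).trans ?_
    have e1 : ‖ContinuousLinearMap.adjoint (T Nb) (ContinuousLinearMap.adjoint (T al) g)‖ ≤
        3 ^ k * (Kv * G) := by
      obtain ⟨NbI, hNbI⟩ : ∃ NbI : CT, NbI = Bm * fourier (-(O.card : ℤ)) := ⟨_, rfl⟩
      have e2 : Nb = NbI * Bp := by
        have e3 := four_prod O z
        rw [← hBp] at e3
        rw [hNbI, mul_assoc, e3, hNb, hBm, hI, hO]
        exact (Finset.prod_filter_mul_prod_filter_not Finset.univ _ _).symm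
      have nNbI : ‖NbI‖ ≤ 3 ^ k := by
        rw [hNbI]
        refine (norm_mul_le _ _).trans ?_
        rw [fourier_norm, mul_one, hBm]
        exact norm_prod_le3 I fun i => norm_lin_le' (hz i).2
      have e3 : ContinuousLinearMap.adjoint (T Nb) (ContinuousLinearMap.adjoint (T al) g) =
          proj (mul (star NbI) (mul (star Bp) (incl (ContinuousLinearMap.adjoint (T al) g)))) := by
        rw [adjoint_T, TpB_apply, e2, star_mul', mul_ct]
        rfl
      rw [e3]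
      refine (TpB_norm_proj _).trans ((norm_star_mul_le _ _).trans ?_)
      exact mul_le_mul nNbI evv (norm_nonneg _) (by positivity)
    have e4 : ‖T N (T dl f)‖ ≤ 3 ^ k * (Ku * F) := by
      have e5 : T N (T dl f) = proj (mul Bp (mul PI (incl (T dl f)))) := by
        rw [TpB_apply, eN, mul_comm PI Bp, mul_ct]
        rfl
      rw [e5]
      refine (TpB_norm_proj _).trans ?_
      exact ContinuousLinearMap.le_of_opNorm_le_of_le _ ((norm_mul_ct_le _).trans nBp) eu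
    have e6 : ‖TM K1 (T N (T dl f))‖ ≤ C0 * (3 ^ k * (Ku * F)) :=
      ContinuousLinearMap.le_of_opNorm_le_of_le _ ((norm_TM_le _).trans nK1) e4
    have e7 : ‖Ring.inverse (TM Th) (TM K1 (T N (T dl f)))‖ ≤ C0 * (C0 * (3 ^ k * (Ku * F))) :=
      ContinuousLinearMap.le_of_opNorm_le_of_le _ nUT e6
    have n3 : ‖TM (K2 * mul (fourier (k : ℤ)))‖ ≤ C0 := by
      refine (norm_TM_le _).trans ((norm_mul_le _ _).trans ?_)
      have e8 : ‖mul (fourier (k : ℤ))‖ ≤ 1 := (norm_mul_ct_le _).trans (fourier_norm _).le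
      calc ‖K2‖ * ‖mul (fourier (k : ℤ))‖ ≤ C0 * 1 :=
            mul_le_mul nK2 e8 (norm_nonneg _) hC0.le
        _ = C0 := mul_one _
    have e8 : ‖TM (K2 * mul (fourier (k : ℤ))) (Ring.inverse (TM Th) (TM K1 (T N (T dl f))))‖ ≤
        C0 * (C0 * (C0 * (3 ^ k * (Ku * F)))) :=
      ContinuousLinearMap.le_of_opNorm_le_of_le _ n3 e7
    calc _ ≤ (3 ^ k * (Kv * G)) * (C0 * (C0 * (C0 * (3 ^ k * (Ku * F))))) :=
          mul_le_mul e1 e8 (norm_nonneg _) (by positivity)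
      _ = _ := by ring
  refine (norm_add_le _ _).trans ?_
  have S1 := norm_sub_le (inner ℂ (incl g) (mul (pl k a1 * al) (mul dl (incl f) - incl (T dl f))))
    (inner ℂ (incl g) (Ring.inverse Th (K1 (mul (fourier ((I.card : ℕ) : ℤ)) (incl f)))))
  have S2 := norm_sub_le (inner ℂ (mul (star Bp) (incl (ContinuousLinearMap.adjoint (T al) g)))
      (mul (mi k a2) (K1 (mul PI (incl (T dl f))))))
    (inner ℂ (ContinuousLinearMap.adjoint (T Nb) (ContinuousLinearMap.adjoint (T al) g))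
      (TM (K2 * mul (fourier (k : ℤ))) (Ring.inverse (TM Th) (TM K1 (T N (T dl f))))))
  calc _ ≤ (Kp * (F * G) + C0 * C0 * (F * G)) + (Kv * (k * C0) * C0 * Ku * (F * G) +
        3 ^ k * Kv * (C0 * C0 * C0) * 3 ^ k * Ku * (F * G)) :=
        add_le_add (S1.trans (add_le_add T1 T2)) (S2.trans (add_le_add T3 T4))
    _ = _ := by ring

theorem form_q {C0 s0 : ℝ} (hC0 : 0 < C0) (hs0 : 0 < s0) (hs1 : s0 ≤ 1) : ∃ C : ℝ, 0 < C ∧
    ∀ (M : Op2) (l g1 g2 : ℂ), Cm M → s0 ≤ ‖g1‖ → ‖g1‖ ≤ 2 → s0 ≤ ‖g2‖ → ‖g2‖ ≤ 2 → ‖g1‖ ≠ 1 →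
      ‖g2‖ ≠ 1 → s0 ≤ ‖g1 - g2‖ → (‖g1‖ < 1 ↔ ¬ ‖g2‖ < 1) → Fq M l g1 g2 (-1) C0 →
      l ∉ spectrum ℂ (TM M) ∧ |1 - ‖g1‖| * |1 - ‖g2‖| * ‖resolvent (TM M) l‖ ≤ C ∧
      ∀ f g : Hardy, ‖inner ℂ g ((resolvent (TM M) l - TM (resolvent M l)) f)‖ ≤
        C * ((‖f‖ + ‖evr g1 f‖ + ‖evr g2 f‖) * (‖g‖ + ‖evr g1 g‖ + ‖evr g2 g‖)) := by
  obtain ⟨K, hK, hcore⟩ := core hC0 hs0 hs1 2
  refine ⟨max K C0, lt_max_of_lt_left hK, ?_⟩
  intro M l g1 g2 hM n1 n1' n2 n2' u1 u2 hsep hio hF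
  obtain ⟨Th, K1, K2, b1, b2, cTh, cK1, cK2, -, nK1, nK2, na, hU, nU, hUT, nUT, hfM, h1, h2⟩ := hF
  have hp : (∏ j, (fourier 1 - algebraMap ℂ CT ((![g1, g2] : Fin 2 → ℂ) j)) : CT) =
      (fourier 1 - algebraMap ℂ CT g1) * (fourier 1 - algebraMap ℂ CT g2) := by
    rw [Fin.prod_univ_two]
    rfl
  have hz : ∀ i, s0 ≤ ‖(![g1, g2] : Fin 2 → ℂ) i‖ ∧ ‖(![g1, g2] : Fin 2 → ℂ) i‖ ≤ 2 := by
    intro i
    fin_cases i
    · exact ⟨n1, n1'⟩
    · exact ⟨n2, n2'⟩
  have hz1 : ∀ i, ‖(![g1, g2] : Fin 2 → ℂ) i‖ ≠ 1 := by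
    intro i
    fin_cases i
    · exact u1
    · exact u2
  have hs : ∀ i j, i ≠ j → s0 ≤ ‖(![g1, g2] : Fin 2 → ℂ) i - (![g1, g2] : Fin 2 → ℂ) j‖ := by
    intro i j hij
    fin_cases i <;> fin_cases j
    · exact absurd rfl hij
    · exact hsep
    · show s0 ≤ ‖g2 - g1‖
      rw [norm_sub_rev]
      exact hsep
    · exact absurd rfl hij
  have hcard : (-1 : ℤ) + ((Finset.univ.filter fun j => ‖(![g1, g2] : Fin 2 → ℂ) j‖ < 1).card : ℤ) = 0 := by
    by_cases hh : ‖g1‖ < 1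
    · have hh2 := hio.1 hh
      have e1 : (Finset.univ.filter fun j => ‖(![g1, g2] : Fin 2 → ℂ) j‖ < 1) = {0} := by
        ext j
        rw [Finset.mem_filter, Finset.mem_singleton]
        fin_cases j
        · exact ⟨fun _ => rfl, fun _ => ⟨Finset.mem_univ _, hh⟩⟩
        · exact ⟨fun h => absurd h.2 hh2, fun h => absurd h (by decide)⟩
      rw [e1]
      rfl
    · have hh2 : ‖g2‖ < 1 := by
        by_contra h
        exact hh (hio.2 h)
      have e1 : (Finset.univ.filter fun j => ‖(![g1, g2] : Fin 2 → ℂ) j‖ < 1) = {1} := by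
        ext j
        rw [Finset.mem_filter, Finset.mem_singleton]
        fin_cases j
        · exact ⟨fun h => absurd h.2 hh, fun h => absurd h (by decide)⟩
        · exact ⟨fun _ => rfl, fun _ => ⟨Finset.mem_univ _, hh2⟩⟩
      rw [e1]
      rfl
  rw [← hp] at hfM h1 h2
  have hform := hcore M l ![g1, g2] (-1) Th K1 K2 b1 b2 hz hz1 hs hcard cTh cK1 cK2 nK1 nK2 na hU nU hUT
    nUT hfM h1 h2
  have hmem : l ∈ spectrum ℂ (TM M) ↔ ¬ IsUnit (TM (Th * mul (fourier (-1) *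
      ∏ i, (fourier 1 - algebraMap ℂ CT ((![g1, g2] : Fin 2 → ℂ) i))))) := by
    rw [Grw.mem_spec, ← Grw.TM_sub_alg, hfM]
  obtain ⟨Y, hY1, hY2, hY3⟩ := Grw.res_bd cTh hUT (z := ![g1, g2]) (x := -1) hz1 hcard
  rw [← hfM, Grw.TM_sub_alg] at hY1 hY2
  have hres : resolvent (TM M) l = -Y := resolvent_eq_neg hY1 hY2
  refine ⟨?_, ?_, ?_⟩
  · rw [hmem, not_not]
    exact (Grw.off_circle cTh hUT (z := ![g1, g2]) (x := -1) hz1).2 hcard
  · rw [hres, norm_neg]
    rw [Fin.prod_univ_two] at hY3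
    have p1 : 0 < |1 - ‖g1‖| := abs_pos.2 (sub_ne_zero.2 (Ne.symm u1))
    have p2 : 0 < |1 - ‖g2‖| := abs_pos.2 (sub_ne_zero.2 (Ne.symm u2))
    have hY4 : ‖Y‖ ≤ |1 - ‖g1‖|⁻¹ * |1 - ‖g2‖|⁻¹ * ‖Ring.inverse (TM Th)‖ := hY3
    calc |1 - ‖g1‖| * |1 - ‖g2‖| * ‖Y‖ ≤ |1 - ‖g1‖| * |1 - ‖g2‖| *
          (|1 - ‖g1‖|⁻¹ * |1 - ‖g2‖|⁻¹ * ‖Ring.inverse (TM Th)‖) :=
          mul_le_mul_of_nonneg_left hY4 (by positivity)
      _ = ‖Ring.inverse (TM Th)‖ := by field_simp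
      _ ≤ C0 := nUT
      _ ≤ max K C0 := le_max_right _ _
  · intro f g
    have e1 := hform f g
    rw [Fin.sum_univ_two, Fin.sum_univ_two] at e1
    have e2 : ‖f‖ + (‖evr g1 f‖ + ‖evr g2 f‖) = ‖f‖ + ‖evr g1 f‖ + ‖evr g2 f‖ := by ring
    have e3 : ‖g‖ + (‖evr g1 g‖ + ‖evr g2 g‖) = ‖g‖ + ‖evr g1 g‖ + ‖evr g2 g‖ := by ring
    have e4 : ‖inner ℂ g ((resolvent (TM M) l - TM (resolvent M l)) f)‖ ≤
        K * ((‖f‖ + (‖evr g1 f‖ + ‖evr g2 f‖)) * (‖g‖ + (‖evr g1 g‖ + ‖evr g2 g‖))) := e1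
    rw [e2, e3] at e4
    refine e4.trans (mul_le_mul_of_nonneg_right (le_max_left _ _) (by positivity))

end Pool.Agent.TBirN
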