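import Pool.Agent.TBirN.Rc

/-!
# The jumps near a double point

`0 ≤ x`: the number in the cone with the signs `1 1` is `x`, `D.nn`. Let `c1 = tau (-1) 1 - tau 1 1 = tau (-1) (-1) - tau 1 (-1)` (`rect`). For `z` near `t1`, `z ≠ t1`, let `A`, `B`, `s` be as in `Cr`: on `A` the number is constant (`Ix.of_preconnected`, `D.off`) and the trace too (`tr_preconnectedJ`), namely those of the cone with the signs `-1 s`; on `B` those of the cone with the
signs `1 s`. If `Jmp phi K P (phi z) c'` with `m`, `tau'`: near `phi z` there are points of `A` and of `B` (closure), with the numbers `N + 1` and `N`, so `N = m` and `c' = tau (-1) s - tau 1 s = c1`. The same at `t2`.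
-/

set_option autoImplicit false

open MeasureTheory Complex Set Filter Topology Metric AddCircle
open scoped ComplexConjugate InnerProductSpace ENNReal

namespace Pool.Agent.TBirN

open Pool.Agent.TBir Pool.Agent.TBirG Pool.Agent.TBirC Pool.Agent.TBirJ Pool.Agent.TBirK
open Pool.Agent.TBirP (E qT)
open Pool.Agent.TBirS (DR)

variable {phi : ℂ → ℂ} {K : Set ℂ} {t1 t2 a1 a2 : ℂ} {x : ℤ} {g1 g2 : ℂ → ℂ}

/-- The number and the trace are constant on a connected set off `K`. -/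
private theorem ld_const (D : Dk phi K) {P : Op} (hP2 : P * P = P) (hP : P * Tp phi = Tp phi * P)
    {A : Set ℂ} (hA : IsPreconnected A) (hAK : A ⊆ Kᶜ) {l0 : ℂ} (hl0 : l0 ∈ A) {n : ℕ} {tau : ℂ}
    (h1 : Ix phi l0 n) (h2 : TrJ phi P l0 n tau) : ∀ l ∈ A, Ix phi l n ∧ TrJ phi P l n tau := by
  have h3 : ∀ l ∈ A, Ix phi l n := fun l hl =>
    Ix.of_preconnected D.hb hA (fun l hl => D.off l (hAK hl)) hl0 hl h1
  obtain ⟨tau', h4⟩ := tr_preconnectedJ D.hb hP2 hP hA h3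
  have h5 : tau' = tau := ((h4 l0 hl0).unique hP h2).2
  intro l hl
  refine ⟨h3 l hl, ?_⟩
  rw [← h5]
  exact h4 l hl

private theorem ld_key {P : Op} (hP : P * Tp phi = Tp phi * P)
    {A B : Set ℂ} {q c' tA tB : ℂ} {nA nB : ℕ} (hAK : A ⊆ Kᶜ) (hBK : B ⊆ Kᶜ)
    (hqA : q ∈ closure A) (hqB : q ∈ closure B)
    (hA : ∀ l ∈ A, Ix phi l nA ∧ TrJ phi P l nA tA)
    (hB : ∀ l ∈ B, Ix phi l nB ∧ TrJ phi P l nB tB) (hn : nA = nB + 1)
    (hJ : Jmp phi K P q c') : c' = tA - tB := by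
  obtain ⟨m, tau, hev, -, -⟩ := hJ
  obtain ⟨l1, hl1, h1⟩ := ((mem_closure_iff_frequently.1 hqA).and_eventually hev).exists
  obtain ⟨l2, hl2, h2⟩ := ((mem_closure_iff_frequently.1 hqB).and_eventually hev).exists
  obtain ⟨a1, b1⟩ := hA l1 hl1
  obtain ⟨a2, b2⟩ := hB l2 hl2
  rcases h1 (hAK hl1) with ⟨h3, h4⟩ | ⟨h3, h4⟩
  · rcases h2 (hBK hl2) with ⟨h5, h6⟩ | ⟨h5, h6⟩
    · have e1 := Ix.unique a1 h3
      have e2 := Ix.unique a2 h5
      omega
    · have e3 := (TrJ.unique hP b1 h4).2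
      have e4 := (TrJ.unique hP b2 h6).2
      rw [e3, e4]
      ring
  · rcases h2 (hBK hl2) with ⟨h5, h6⟩ | ⟨h5, h6⟩
    · have e1 := Ix.unique a1 h3
      have e2 := Ix.unique a2 h5
      omega
    · have e1 := Ix.unique a1 h3
      have e2 := Ix.unique a2 h5
      omega

private theorem ii_one : ii 1 = 0 := by
  unfold ii
  rw [if_neg (by norm_num)]

private theorem ii_neg : ii (-1) = 1 := by
  unfold ii
  rw [if_pos (by norm_num)]

/-- The number `x` is not negative. -/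
private theorem ld_nn (D : Dk phi K) (h : Db phi K t1 t2 a1 a2 x g1 g2) {kap r0 : ℝ} (hk : 0 < kap)
    (hr0 : 0 < r0) (hS : ∀ r : ℝ, 0 < r → r ≤ r0 → Sx a1 a2 (phi t1) kap r 1 1 ⊆ Kᶜ ∧
      (Sx a1 a2 (phi t1) kap r 1 1).Nonempty) : 0 ≤ x := by
  have h1 := (db_ix D.hb h).and (db_sx h (r := r0) hk)
  obtain ⟨r, hr, h2⟩ := Metric.eventually_nhds_iff_ball.1 h1
  have hm : 0 < min r r0 := lt_min hr hr0
  obtain ⟨h3, l, hl⟩ := hS (min r r0) hm (min_le_right _ _)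
  have hlK : l ∉ K := h3 hl
  have hlr : l ∈ ball (phi t1) r := ball_subset_ball (min_le_left _ _) hl.1
  obtain ⟨h4, h5⟩ := h2 l hlr
  have hl0 : l ∈ Sx a1 a2 (phi t1) kap r0 1 1 :=
    ⟨ball_subset_ball (min_le_right _ _) hl.1, hl.2⟩
  obtain ⟨h6, h7⟩ := h5 hlK 1 1 (Or.inl rfl) (Or.inl rfl) hl0
  have e1 : ¬ ‖g1 l‖ < 1 := fun h8 => by
    have := h6.1 h8
    norm_num at this
  have e2 : ¬ ‖g2 l‖ < 1 := fun h8 => by
    have := h7.1 h8
    norm_num at this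
  have h9 := h4 hlK
  rw [if_neg e1, if_neg e2, add_zero, add_zero] at h9
  exact D.nn l x h9

theorem lc_dbl (D : Dk phi K) (h : Db phi K t1 t2 a1 a2 x g1 g2) (hc : Cr phi K t1 t2 a1 a2) :
    Lc phi K t1 ∧ Lc phi K t2 := by
  obtain ⟨kap, hk, hC⟩ := hc
  obtain ⟨r0, hr0, hC⟩ := hC kap hk le_rfl
  have hx : 0 ≤ x := ld_nn D h hk hr0 fun r hr hrr => (hC r hr hrr).1 1 1 (Or.inl rfl) (Or.inl rfl)
  have key : ∀ P : Op, P * P = P → P * Tp phi = Tp phi * P → ∃ c1 c2 : ℂ,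
      (∀ᶠ z in 𝓝[≠] t1, ‖z‖ = 1 → ∀ c', Jmp phi K P (phi z) c' → c' = c1) ∧
      ∀ᶠ z in 𝓝[≠] t2, ‖z‖ = 1 → ∀ c', Jmp phi K P (phi z) c' → c' = c2 := by
    intro P hP2 hP
    obtain ⟨r, tau, hr, hrr, htau, hrect⟩ := rect D hP2 hP h hx hk hr0 (hC r0 hr0 le_rfl).1
    obtain ⟨-, hz1, hz2, -⟩ := hC r hr hrr
    refine ⟨tau (-1) 1 - tau 1 1, tau 1 (-1) - tau 1 1, ?_, ?_⟩
    · filter_upwards [hz1] with z hz hzn c' hJ
      obtain ⟨A, B, s, hs, hA, hB, hAK, hBK, hqA, hqB, ⟨lA, hlA, hlA'⟩, ⟨lB, hlB, hlB'⟩, -, -⟩ := hz hzn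
      obtain ⟨nA, hnA, iA, tA⟩ := htau (-1) s (Or.inr rfl) hs lA hlA'
      obtain ⟨nB, hnB, iB, tB⟩ := htau 1 s (Or.inl rfl) hs lB hlB'
      rw [ii_neg] at hnA
      rw [ii_one] at hnB
      have e := ld_key hP hAK hBK hqA hqB (ld_const D hP2 hP hA hAK hlA iA tA)
        (ld_const D hP2 hP hB hBK hlB iB tB) (by omega) hJ
      rcases hs with rfl | rfl
      · exact e
      · rw [e]
        linear_combination hrect
    · filter_upwards [hz2] with z hz hzn c' hJ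
      obtain ⟨A, B, s, hs, hA, hB, hAK, hBK, hqA, hqB, ⟨lA, hlA, hlA'⟩, ⟨lB, hlB, hlB'⟩, -, -⟩ := hz hzn
      obtain ⟨nA, hnA, iA, tA⟩ := htau s (-1) hs (Or.inr rfl) lA hlA'
      obtain ⟨nB, hnB, iB, tB⟩ := htau s 1 hs (Or.inl rfl) lB hlB'
      rw [ii_neg] at hnA
      rw [ii_one] at hnB
      have e := ld_key hP hAK hBK hqA hqB (ld_const D hP2 hP hA hAK hlA iA tA)
        (ld_const D hP2 hP hB hBK hlB iB tB) (by omega) hJ
      rcases hs with rfl | rfl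
      · exact e
      · rw [e]
        linear_combination hrect
  refine ⟨fun P hP2 hP => ?_, fun P hP2 hP => ?_⟩
  · obtain ⟨c1, c2, h1, -⟩ := key P hP2 hP
    exact ⟨c1, h1⟩
  · obtain ⟨c1, c2, -, h2⟩ := key P hP2 hP
    exact ⟨c2, h2⟩

end Pool.Agent.TBirN
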