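import Pool.Agent.TBirN.Def
import Pool.Agent.TBirJ.Loj
import Pool.Agent.TBirJ.Cej
import Pool.Agent.TBirJ.Ccj
import Pool.Agent.TBirJ.Inj

/-!
# Constant jumps: the other cases

`lc_link`: `Sides.jmp`, `jmp_const` on `S`, `Jmp.near` at `a` and at `b`. `lc_iq`: the points near `t` are simple, their colours are equal (`exists_colJ`, `col_constJ`; inner numbers `≥ 0` by `sm_sides`, `D.nn`), `Jmp.of_sm`, `Jmp.near` (`self_of_nhds`). See TBirK/Cok.lean.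
-/

set_option autoImplicit false

open MeasureTheory Complex Set Filter Topology Metric AddCircle
open scoped ComplexConjugate InnerProductSpace ENNReal

namespace Pool.Agent.TBirN

open Pool.Agent.TBir Pool.Agent.TBirG Pool.Agent.TBirC Pool.Agent.TBirJ Pool.Agent.TBirK
open Pool.Agent.TBirP (E qT)
open Pool.Agent.TBirS (DR)

variable {phi : ℂ → ℂ} {K : Set ℂ} {t : ℂ}

/-- inner numbers of simple points are nonnegative -/
private theorem ll_nonneg (D : Dk phi K) {z : ℂ} {x : ℤ} (h : Sm phi z x) : 0 ≤ x := by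
  obtain ⟨A, B, -, -, -, hB, -, hclB, -⟩ := sm_sides D.hb D.off h
  obtain ⟨l, hl⟩ : B.Nonempty := closure_nonempty_iff.1 ⟨_, hclB⟩
  exact D.nn l x (hB l hl)

theorem lc_link (D : Dk phi K) {S : Set ℂ} {a b : ℂ} (h : LinkOn phi K t S a b) : Lc phi K t := by
  intro P hP2 hP
  obtain ⟨hS, haS, hbS, hsd, hlim⟩ := h
  obtain ⟨c, hc⟩ := jmp_const hP hS fun q hq => by
    obtain ⟨m, hm, hs⟩ := hsd q hq
    obtain ⟨k, rfl⟩ := Int.eq_ofNat_of_zero_le hm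
    exact Sides.jmp D.hb D.closed D.off D.dense hP2 hP hs
  obtain ⟨e1, he1, h1⟩ := Metric.eventually_nhds_iff_ball.1 (Jmp.near hP (hc a haS))
  obtain ⟨e2, he2, h2⟩ := Metric.eventually_nhds_iff_ball.1 (Jmp.near hP (hc b hbS))
  obtain ⟨s, hs, h3⟩ := hlim (min e1 e2) (lt_min he1 he2)
  refine ⟨c, ?_⟩
  rw [eventually_nhdsWithin_iff]
  filter_upwards [ball_mem_nhds t hs] with z1 hz1 hne hn1 c' hc'
  rcases h3 z1 hz1 hn1 hne with h5 | h5
  · exact h1 _ (mem_ball.2 (h5.trans_le (min_le_left _ _))) c' hc'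
  · exact h2 _ (mem_ball.2 (h5.trans_le (min_le_right _ _))) c' hc'

theorem lc_iq (D : Dk phi K) (ht : ‖t‖ = 1) (ha : AnalyticAt ℂ phi t) {x : ℤ} (hx : 0 ≤ x)
    (hI : Iq phi (phi t) x) (hn : ∀ᶠ z in 𝓝[≠] t, ‖z‖ = 1 → ∃ x, Sm phi z x) : Lc phi K t := by
  intro P hP2 hP
  obtain ⟨s, hs, h1⟩ := col_constJ D.hb ht ha hx hI P
  have hcol : ∀ z y, Sm phi z y → ∃ c : ℂ, ColJ phi P z c ∧ Jmp phi K P (phi z) c := by
    intro z y hz
    obtain ⟨c, -, hc⟩ := exists_colJ D.hb hz (ll_nonneg D hz) hP2 hP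
    obtain ⟨m, rfl⟩ := Int.eq_ofNat_of_zero_le (ll_nonneg D hz)
    exact ⟨c, hc, Jmp.of_sm D.hb D.closed D.off D.dense hP2 hP hz hc⟩
  rw [eventually_nhdsWithin_iff] at hn
  by_cases hex : ∃ z2 ∈ ball t s, ∃ y, Sm phi z2 y
  · obtain ⟨z2, hz2, y2, s2⟩ := hex
    obtain ⟨k, hk, -⟩ := hcol z2 y2 s2
    refine ⟨k, ?_⟩
    rw [eventually_nhdsWithin_iff]
    filter_upwards [hn, ball_mem_nhds t hs] with z1 hz1 hz1s hne hn1 c' hc'
    obtain ⟨y1, s1⟩ := hz1 hne hn1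
    obtain ⟨c1, hc1, hj⟩ := hcol z1 y1 s1
    rw [(Jmp.near hP hj).self_of_nhds c' hc']
    exact h1 z1 hz1s z2 hz2 y1 y2 s1 s2 _ _ hc1 hk
  · refine ⟨0, ?_⟩
    rw [eventually_nhdsWithin_iff]
    filter_upwards [hn, ball_mem_nhds t hs] with z1 hz1 hz1s hne hn1 c' hc'
    exact absurd ⟨z1, hz1s, hz1 hne hn1⟩ hex

end Pool.Agent.TBirN
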