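import Pool.Agent.TBirN.Def
import Pool.Agent.TBirK.Mnk

/-!
# The abstract theorem

Ports of `const_ofK` (TBirK/Cok.lean), `linK` (Lnk.lean), `main_datK` (Mnk.lean) with `Cn` in place of `Ck`; the local constancy is `D.lc`.
-/

set_option autoImplicit false

open MeasureTheory Complex Set Filter Topology Metric AddCircle
open scoped ComplexConjugate InnerProductSpace ENNReal

namespace Pool.Agent.TBirN

open Pool.Agent.TBir Pool.Agent.TBirG Pool.Agent.TBirC Pool.Agent.TBirJ Pool.Agent.TBirK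
open Pool.Agent.TBirP (E qT)
open Pool.Agent.TBirS (DR)

variable {phi : ℂ → ℂ} {K : Set ℂ}

/-- Points of the circle outside a finite set. -/
private theorem mnn_pt {E : Set ℂ} (hE : E.Finite) {z0 : ℂ} (hz0 : ‖z0‖ = 1) {eps : ℝ}
    (heps : 0 < eps) : ∃ z ∈ ball z0 eps, ‖z‖ = 1 ∧ z ∉ E := by
  by_contra hcon
  push Not at hcon
  have h1 : sphere (0 : ℂ) 1 ∩ ball z0 eps ⊆ E := fun z hz => hcon z hz.2 (by simpa using hz.1)
  have h2 := hE.subset h1
  have hc : Continuous fun t : ℝ => z0 * Complex.exp (t * I) := by fun_prop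
  have h3 : ∀ᶠ t : ℝ in 𝓝 0, z0 * Complex.exp (t * I) ∈ ball z0 eps := by
    refine hc.continuousAt.eventually (isOpen_ball.mem_nhds ?_)
    simp [heps]
  obtain ⟨δ, hδ, h4⟩ := Metric.eventually_nhds_iff_ball.1 h3
  have h5 : (fun t : ℝ => z0 * Complex.exp (t * I)) '' (Ioo 0 (min δ 1)) ⊆
      sphere (0 : ℂ) 1 ∩ ball z0 eps := by
    rintro _ ⟨t, ht, rfl⟩
    refine ⟨?_, h4 t ?_⟩
    · simp [hz0, Complex.norm_exp_ofReal_mul_I]
    · rw [mem_ball, dist_zero_right, Real.norm_eq_abs, abs_of_pos ht.1]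
      exact ht.2.trans_le (min_le_left _ _)
  have h6 : InjOn (fun t : ℝ => z0 * Complex.exp (t * I)) (Ioo 0 (min δ 1)) := by
    intro a ha b hb hab
    have hz : z0 ≠ 0 := by
      rintro rfl
      simp at hz0
    have h7 := mul_left_cancel₀ hz hab
    rw [Complex.exp_eq_exp_iff_exists_int] at h7
    obtain ⟨n, hn⟩ := h7
    have h8 : (a : ℂ) = b + n * (2 * Real.pi) := by
      have hI := Complex.I_ne_zero
      apply mul_right_cancel₀ hI
      rw [hn]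
      ring
    have h9 : a = b + n * (2 * Real.pi) := by exact_mod_cast h8
    have ha1 : a < 1 := ha.2.trans_le (min_le_right _ _)
    have hb1 : b < 1 := hb.2.trans_le (min_le_right _ _)
    have ha0 : 0 < a := ha.1
    have hb0 : 0 < b := hb.1
    have hpi := Real.pi_gt_three
    have h10 : n = 0 := by
      by_contra hn0
      rcases lt_or_gt_of_ne hn0 with h | h
      · have : (n : ℝ) ≤ -1 := by exact_mod_cast (show n ≤ -1 by omega)
        nlinarith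
      · have : (1 : ℝ) ≤ n := by exact_mod_cast (show 1 ≤ n by omega)
        nlinarith
    rw [h9, h10]
    simp
  exact (((Set.Ioo_infinite (lt_min hδ one_pos)).image h6).mono h5) h2


/-- The jumps on a linked set. -/
private theorem mnn_link (D : Cn phi K) {P : Op} (hP2 : P * P = P) (hP : P * Tp phi = Tp phi * P)
    {t : ℂ} {S : Set ℂ} {a b : ℂ} (hL : LinkOn phi K t S a b) :
    ∃ c, (∀ q ∈ S, Jmp phi K P q c) ∧ ∃ s > 0, ∀ z1 ∈ ball t s, z1 ≠ t → ‖z1‖ = 1 →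
      ∀ c', Jmp phi K P (phi z1) c' → c' = c := by
  obtain ⟨hS, haS, hbS, hsd, hlim⟩ := hL
  obtain ⟨c, hc⟩ := jmp_const hP hS fun q hq => by
    obtain ⟨m, hm, hs⟩ := hsd q hq
    obtain ⟨k, rfl⟩ := Int.eq_ofNat_of_zero_le hm
    exact Sides.jmp D.hb D.closed D.off D.dense hP2 hP hs
  refine ⟨c, hc, ?_⟩
  obtain ⟨e1, he1, h1⟩ := Metric.eventually_nhds_iff_ball.1 (Jmp.near hP (hc a haS))
  obtain ⟨e2, he2, h2⟩ := Metric.eventually_nhds_iff_ball.1 (Jmp.near hP (hc b hbS))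
  obtain ⟨s, hs, h3⟩ := hlim (min e1 e2) (lt_min he1 he2)
  refine ⟨s, hs, fun z1 hz1 hne hn1 c' hc' => ?_⟩
  rcases h3 z1 hz1 hn1 hne with h | h
  · exact h1 _ (mem_ball.2 (h.trans_le (min_le_left _ _))) c' hc'
  · exact h2 _ (mem_ball.2 (h.trans_le (min_le_right _ _))) c' hc'

/-- Points with a jump near every point of the circle. -/
private theorem mnn_near (D : Cn phi K) {P : Op} (hP2 : P * P = P) (hP : P * Tp phi = Tp phi * P)
    {z : ℂ} (hz : ‖z‖ = 1) {s : ℝ} (hs : 0 < s) :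
    ∃ z2 ∈ ball z s, z2 ≠ z ∧ ‖z2‖ = 1 ∧ ∃ c', Jmp phi K P (phi z2) c' := by
  obtain ⟨z2, h1, h2, h3⟩ := mnn_pt (D.sim.union (Set.finite_singleton z)) hz hs
  rw [mem_union, not_or] at h3
  refine ⟨z2, h1, fun h => h3.2 (by rw [h]; rfl), h2, ?_⟩
  have h4 : LinkOn phi K z2 {phi z2} (phi z2) (phi z2) := by
    by_contra h4
    exact h3.1 ⟨h2, h4⟩
  obtain ⟨c, hc, -⟩ := mnn_link D hP2 hP h4
  exact ⟨c, hc _ rfl⟩

theorem const_ofN (D : Cn phi K) {P : Op} (hP2 : P * P = P) (hP : P * Tp phi = Tp phi * P) :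
    ∃ c : ℂ, ∀ t, ‖t‖ = 1 → ∀ S a b, LinkOn phi K t S a b → ∀ q ∈ S, Jmp phi K P q c := by
  classical
  obtain ⟨V, hV⟩ : ∃ V : ℂ → Set ℂ, V = fun k => {z | ∃ ρ > 0, ∀ z1 ∈ ball z ρ, z1 ≠ z →
      ‖z1‖ = 1 → ∀ c', Jmp phi K P (phi z1) c' → c' = k} := ⟨_, rfl⟩
  have hVo : ∀ k, IsOpen (V k) := by
    intro k
    rw [Metric.isOpen_iff, hV]
    rintro z ⟨ρ, hρ, h⟩
    refine ⟨ρ / 2, half_pos hρ, fun w hw => ?_⟩
    by_cases hwz : w = z
    · rw [hwz]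
      exact ⟨ρ, hρ, h⟩
    · refine ⟨min (ρ / 2) (dist w z), lt_min (half_pos hρ) (dist_pos.2 hwz),
        fun z1 hz1 _ => h z1 ?_ ?_⟩
      · have h1 := (mem_ball.1 hz1).trans_le (min_le_left _ _)
        rw [mem_ball] at hw ⊢
        linarith [dist_triangle z1 w z]
      · rintro rfl
        have h1 := (mem_ball.1 hz1).trans_le (min_le_right _ _)
        rw [dist_comm] at h1
        exact lt_irrefl _ h1
  have hcov0 : ∀ z ∈ sphere (0 : ℂ) 1, ∃ k, z ∈ V k := by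
    intro z hz
    have hz' : ‖z‖ = 1 := by simpa using hz
    obtain ⟨k, hk⟩ := D.lc z hz' P hP2 hP
    rw [eventually_nhdsWithin_iff] at hk
    obtain ⟨s, hs, h⟩ := Metric.eventually_nhds_iff_ball.1 hk
    refine ⟨k, ?_⟩
    rw [hV]
    exact ⟨s, hs, fun z1 hz1 hne hn1 => h z1 hz1 hne hn1⟩
  have hdisj : ∀ z ∈ sphere (0 : ℂ) 1, ∀ k k', z ∈ V k → z ∈ V k' → k = k' := by
    intro z hz k k' h0 h1
    rw [hV] at h0 h1
    obtain ⟨ρ0, hρ0, h0⟩ := h0
    obtain ⟨ρ1, hρ1, h1⟩ := h1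
    obtain ⟨z2, hz2, hne2, hn2, c', hc'⟩ := mnn_near D hP2 hP (by simpa using hz) (lt_min hρ0 hρ1)
    have e0 := h0 z2 (ball_subset_ball (min_le_left _ _) hz2) hne2 hn2 c' hc'
    have e1 := h1 z2 (ball_subset_ball (min_le_right _ _) hz2) hne2 hn2 c' hc'
    exact e0.symm.trans e1
  have hpre : IsPreconnected (sphere (0 : ℂ) 1) := by
    refine isPreconnected_sphere ?_ _ _
    rw [Complex.rank_real_complex]
    norm_num
  obtain ⟨k, hk⟩ := hcov0 1 (by simp)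
  have hall : sphere (0 : ℂ) 1 ⊆ V k := by
    intro z hz
    by_contra hzk
    obtain ⟨k1, hk1⟩ := hcov0 z hz
    have hne : k1 ≠ k := by
      rintro rfl
      exact hzk hk1
    obtain ⟨w, hw, hw1, hw2⟩ := hpre (V k) (⋃ k' ∈ {k' : ℂ | k' ≠ k}, V k') (hVo k)
      (isOpen_biUnion fun k' _ => hVo k') (fun w hw => by
        obtain ⟨k2, hk2⟩ := hcov0 w hw
        by_cases h2 : k2 = k
        · left
          rw [h2] at hk2
          exact hk2
        · right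
          exact mem_iUnion₂.2 ⟨k2, h2, hk2⟩)
      ⟨1, by simp, hk⟩ ⟨z, hz, mem_iUnion₂.2 ⟨k1, hne, hk1⟩⟩
    obtain ⟨k3, hk3, hw3⟩ := mem_iUnion₂.1 hw2
    exact hk3 (hdisj w hw k3 k hw3 hw1)
  refine ⟨k, ?_⟩
  intro t ht S a b hL q hq
  obtain ⟨c, hc, s, hs, h3⟩ := mnn_link D hP2 hP hL
  have htk := hall (show t ∈ sphere (0 : ℂ) 1 by simpa using ht)
  rw [hV] at htk
  obtain ⟨ρ, hρ, h4⟩ := htk
  obtain ⟨z2, hz2, hne2, hn2, c', hc'⟩ := mnn_near D hP2 hP ht (lt_min hs hρ)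
  have e0 := h3 z2 (ball_subset_ball (min_le_left _ _) hz2) hne2 hn2 c' hc'
  have e1 := h4 z2 (ball_subset_ball (min_le_right _ _) hz2) hne2 hn2 c' hc'
  have e2 : k = c := e1.symm.trans e0
  rw [e2]
  exact hc q hq

theorem linN (D : Cn phi K) {P : Op} (hP2 : P * P = P) (hP : P * Tp phi = Tp phi * P) {c : ℂ}
    (hc : ∀ t, ‖t‖ = 1 → ∀ S a b, LinkOn phi K t S a b → ∀ q ∈ S, Jmp phi K P q c) :
    ∀ l ∉ K, ∀ n : ℕ, Ix phi l n → TrJ phi P l n (c * n) := by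
  classical
  obtain ⟨Fl, hFl⟩ : ∃ Fl : ℂ → ℂ → Prop, Fl = fun q tau =>
    ∃ ρ > 0, ∀ l ∈ ball q ρ, l ∉ K → ∃ n : ℕ, Ix phi l n ∧ TrJ phi P l n (tau + c * n) := ⟨_, rfl⟩
  obtain ⟨Bad, hBad⟩ : ∃ Bad : Set ℂ, Bad = {q : ℂ | q ∈ K ∧
    ∀ t, ‖t‖ = 1 → ∀ S a b, LinkOn phi K t S a b → q ∉ S} := ⟨_, rfl⟩
  have hBf : Bad.Finite := by
    rw [hBad]
    exact D.sides
  have hjmp : ∀ q, Jmp phi K P q c → ∃ tau, Fl q tau := by
    rintro q ⟨m, tau, h1, -, -⟩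
    obtain ⟨ρ, hρ, h2⟩ := Metric.eventually_nhds_iff_ball.1 h1
    rw [hFl]
    refine ⟨tau - c * m, ρ, hρ, fun l hl hlK => ?_⟩
    rcases h2 l hl hlK with ⟨h4, h3⟩ | ⟨h4, h3⟩
    · refine ⟨m + 1, by exact_mod_cast h4, ?_⟩
      have h5 : tau - c * m + c * ((m + 1 : ℕ) : ℂ) = tau + c := by
        push_cast
        ring
      rw [h5]
      exact h3
    · refine ⟨m, h4, ?_⟩
      have h5 : tau - c * m + c * (m : ℂ) = tau := by ring
      rw [h5]
      exact h3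
  have hoff : ∀ q ∉ K, ∀ n : ℕ, Ix phi q n → ∃ tau, Fl q tau ∧ TrJ phi P q n (tau + c * n) := by
    intro q hqK n hn
    obtain ⟨tau, h1⟩ := exists_trJ D.hb hP2 hP hn
    obtain ⟨ρ, hρ, h2⟩ := Metric.eventually_nhds_iff_ball.1 (h1.and (Ix.nhds D.hb hn))
    have h5 : tau - c * n + c * (n : ℂ) = tau := by ring
    refine ⟨tau - c * n, ?_, ?_⟩
    · rw [hFl]
      refine ⟨ρ, hρ, fun l hl _ => ⟨n, (h2 l hl).2, ?_⟩⟩
      rw [h5]
      exact (h2 l hl).1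
    · rw [h5]
      exact h1.self_of_nhds
  have hflat : ∀ q ∈ Badᶜ, ∃ tau, Fl q tau := by
    intro q hq
    by_cases hqK : q ∈ K
    · by_cases h2 : ∃ t, ‖t‖ = 1 ∧ ∃ S a b, LinkOn phi K t S a b ∧ q ∈ S
      · obtain ⟨t, ht, S, a, b, h3, h4⟩ := h2
        exact hjmp _ (hc t ht S a b h3 q h4)
      · exfalso
        apply hq
        rw [hBad]
        exact ⟨hqK, fun t ht S a b h3 h4 => h2 ⟨t, ht, S, a, b, h3, h4⟩⟩
    · obtain ⟨n, hn⟩ := D.off q hqK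
      obtain ⟨k, rfl⟩ := Int.eq_ofNat_of_zero_le (D.nn q n hn)
      obtain ⟨tau, h1, -⟩ := hoff q hqK k hn
      exact ⟨tau, h1⟩
  have hop : ∀ p : ℂ → Prop, IsOpen {l : ℂ | ∃ ρ > 0, ∀ μ ∈ ball l ρ, p μ} := by
    intro p
    rw [Metric.isOpen_iff]
    rintro z ⟨ρ, hρ, h⟩
    refine ⟨ρ / 2, half_pos hρ, fun w hw => ⟨ρ / 2, half_pos hρ, fun z1 hz1 => h z1 ?_⟩⟩
    rw [mem_ball] at hw hz1 ⊢
    linarith [dist_triangle z1 w z]
  have hopFl : ∀ tau, IsOpen {q : ℂ | Fl q tau} := by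
    intro tau
    rw [hFl]
    exact hop fun l => l ∉ K → ∃ n : ℕ, Ix phi l n ∧ TrJ phi P l n (tau + c * n)
  obtain ⟨V, hV⟩ : ∃ V : Set ℂ, V = {q : ℂ | Fl q 0} := ⟨_, rfl⟩
  obtain ⟨V', hV'⟩ : ∃ V' : Set ℂ, V' = ⋃ tau ∈ {tau : ℂ | tau ≠ 0}, {q : ℂ | Fl q tau} := ⟨_, rfl⟩
  have hVo : IsOpen V := by
    rw [hV]
    exact hopFl 0
  have hVo' : IsOpen V' := by
    rw [hV']
    exact isOpen_biUnion fun tau _ => hopFl tau
  have hcov : Badᶜ ⊆ V ∪ V' := by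
    intro q hq
    obtain ⟨tau, h1⟩ := hflat q hq
    by_cases h0 : tau = 0
    · left
      rw [hV]
      rw [h0] at h1
      exact h1
    · right
      rw [hV']
      exact mem_iUnion₂.2 ⟨tau, h0, h1⟩
  have hconn : IsPreconnected Badᶜ := by
    refine (hBf.countable.isPathConnected_compl_of_one_lt_rank ?_).isConnected.isPreconnected
    rw [Complex.rank_real_complex]
    norm_num
  have hVne : (Badᶜ ∩ V).Nonempty := by
    obtain ⟨R1, hR⟩ := Ix.large D.hb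
    obtain ⟨R, hR0, hRR⟩ : ∃ R : ℝ, 0 ≤ R ∧ R1 ≤ R := ⟨|R1|, abs_nonneg R1, le_abs_self R1⟩
    have h1 : IsOpen {l : ℂ | R < ‖l‖} := isOpen_lt continuous_const continuous_norm
    have h2 : {l : ℂ | R < ‖l‖}.Nonempty := by
      refine ⟨((R + 1 : ℝ) : ℂ), ?_⟩
      change R < ‖((R + 1 : ℝ) : ℂ)‖
      rw [Complex.norm_real, Real.norm_eq_abs, abs_of_nonneg (by positivity)]
      linarith
    obtain ⟨l, hl, hl', hlK⟩ : ∃ l : ℂ, R < ‖l‖ ∧ l ∈ Badᶜ ∧ l ∉ K := by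
      have h3 : IsOpen ({l : ℂ | R < ‖l‖} ∩ Kᶜ) := h1.inter D.closed.isOpen_compl
      have h4 : ({l : ℂ | R < ‖l‖} ∩ Kᶜ).Nonempty := D.dense.inter_open_nonempty _ h1 h2
      obtain ⟨l, hl, hl'⟩ := (hBf.countable.dense_compl ℝ).inter_open_nonempty _ h3 h4
      exact ⟨l, hl.1, hl', hl.2⟩
    refine ⟨l, hl', ?_⟩
    have h5 : Ix phi l ((0 : ℕ) : ℤ) := by
      have := hR l (hRR.trans_lt hl)
      simpa using this
    obtain ⟨tau, h6, h7⟩ := hoff l hlK 0 h5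
    have h8 : tau = 0 := by
      obtain ⟨a, v, -, -, h9⟩ := h7
      simpa using h9
    rw [hV]
    rw [h8] at h6
    exact h6
  have hBe : ¬ (Badᶜ ∩ V').Nonempty := by
    intro hne
    obtain ⟨q, -, hq1, hq2⟩ := hconn V V' hVo hVo' hcov hVne hne
    rw [hV, hFl] at hq1
    rw [hV', hFl] at hq2
    obtain ⟨tau, htau, hq3⟩ := mem_iUnion₂.1 hq2
    obtain ⟨ρ, hρ, h1⟩ := hq1
    obtain ⟨ρ', hρ', h2⟩ := hq3
    obtain ⟨l, ⟨hl1, hl2⟩, hl3⟩ := D.dense.inter_open_nonempty (ball q ρ ∩ ball q ρ')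
      (isOpen_ball.inter isOpen_ball) ⟨q, mem_ball_self hρ, mem_ball_self hρ'⟩
    obtain ⟨n, -, h3⟩ := h1 l hl1 hl3
    obtain ⟨n', -, h4⟩ := h2 l hl2 hl3
    obtain ⟨h5, h6⟩ := h3.unique hP h4
    rw [h5] at h6
    exact htau (add_right_cancel h6).symm
  intro l hl n hn
  have hlB : l ∈ Badᶜ := by
    intro h
    rw [hBad] at h
    exact hl h.1
  have hlV : l ∈ V := (hcov hlB).resolve_right fun h => hBe ⟨l, hlB, h⟩
  rw [hV, hFl] at hlV
  obtain ⟨ρ, hρ, h⟩ := hlV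
  obtain ⟨n', hn', ht⟩ := h l (mem_ball_self hρ) hl
  have h1 : (n : ℤ) = n' := Ix.unique hn hn'
  have h2 : n = n' := by exact_mod_cast h1
  rw [h2]
  rw [zero_add] at ht
  exact ht

/-- A linked point on the circle. -/
private theorem mnn_exists (D : Cn phi K) :
    ∃ t : ℂ, ‖t‖ = 1 ∧ LinkOn phi K t {phi t} (phi t) (phi t) := by
  by_contra hcon
  push Not at hcon
  have h1 : sphere (0 : ℂ) 1 ⊆ {z : ℂ | ‖z‖ = 1 ∧ ¬ LinkOn phi K z {phi z} (phi z) (phi z)} := by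
    intro z hz
    have hz' : ‖z‖ = 1 := by simpa using hz
    exact ⟨hz', hcon z hz'⟩
  have h2 : (sphere (0 : ℂ) 1).Finite := D.sim.subset h1
  have h3 : (fun t : ℝ => Complex.exp (t * I)) '' (Ioo 0 1) ⊆ sphere (0 : ℂ) 1 := by
    rintro _ ⟨t, -, rfl⟩
    simp [Complex.norm_exp_ofReal_mul_I]
  have h4 : InjOn (fun t : ℝ => Complex.exp (t * I)) (Ioo 0 1) := by
    intro a ha b hb hab
    have h7 : Complex.exp (a * I) = Complex.exp (b * I) := hab
    rw [Complex.exp_eq_exp_iff_exists_int] at h7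
    obtain ⟨n, hn⟩ := h7
    have h8 : (a : ℂ) = b + n * (2 * Real.pi) := by
      have hI := Complex.I_ne_zero
      apply mul_right_cancel₀ hI
      rw [hn]
      ring
    have h9 : a = b + n * (2 * Real.pi) := by exact_mod_cast h8
    have ha1 : a < 1 := ha.2
    have hb1 : b < 1 := hb.2
    have ha0 : 0 < a := ha.1
    have hb0 : 0 < b := hb.1
    have hpi := Real.pi_gt_three
    have h10 : n = 0 := by
      by_contra hn0
      rcases lt_or_gt_of_ne hn0 with h | h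
      · have : (n : ℝ) ≤ -1 := by exact_mod_cast (show n ≤ -1 by omega)
        nlinarith
      · have : (1 : ℝ) ≤ n := by exact_mod_cast (show 1 ≤ n by omega)
        nlinarith
    rw [h9, h10]
    simp
  exact (((Set.Ioo_infinite one_pos).image h4).mono h3) h2

/-- The constant is `0` or `1`. -/
private theorem mnn_const (D : Cn phi K) {P : Op} (hP2 : P * P = P)
    (hP : P * Tp phi = Tp phi * P) {c : ℂ}
    (hc : ∀ t, ‖t‖ = 1 → ∀ S a b, LinkOn phi K t S a b → ∀ q ∈ S, Jmp phi K P q c)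
    (hlin : ∀ l ∉ K, ∀ n : ℕ, Ix phi l n → TrJ phi P l n (c * n)) : c = 0 ∨ c = 1 := by
  obtain ⟨t, ht, hL⟩ := mnn_exists D
  obtain ⟨m, tau, -, hf1, hf2⟩ := hc t ht _ _ _ hL (phi t) rfl
  obtain ⟨l, hl1, hl⟩ := hf1.exists
  obtain ⟨l', hl1', hl'⟩ := hf2.exists
  have e1 := hlin l hl (m + 1) (by push_cast; exact hl1)
  have e2 := hlin l' hl' m hl1'
  obtain ⟨k, hk, ek⟩ := trJ_bd hP2 hP e1
  obtain ⟨k', hk', ek'⟩ := trJ_bd hP2 hP e2
  have h1 : c = ((k - k' : ℤ) : ℂ) := by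
    push_cast
    rw [← ek, ← ek']
    push_cast
    ring
  have h2 : (((k - k' : ℤ) * (m + 1) : ℤ) : ℂ) = ((k : ℤ) : ℂ) := by
    push_cast at h1 ek ⊢
    rw [← h1]
    exact ek
  have h3 : (k - k' : ℤ) * (m + 1) = k := by exact_mod_cast h2
  have h4 : (k - k' : ℤ) = 0 ∨ (k - k' : ℤ) = 1 := by
    have hm : (0 : ℤ) < m + 1 := by positivity
    have hk0 : (0 : ℤ) ≤ k := by positivity
    have hk1 : (k : ℤ) ≤ m + 1 := by exact_mod_cast hk
    have h5 : 0 ≤ (k - k' : ℤ) := by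
      by_contra hneg
      push Not at hneg
      nlinarith
    have h6 : (k - k' : ℤ) ≤ 1 := by
      by_contra hbig
      push Not at hbig
      nlinarith
    omega
  rcases h4 with h4 | h4
  · left
    rw [h1, h4, Int.cast_zero]
  · right
    rw [h1, h4, Int.cast_one]

theorem main_datN (D : Cn phi K) : CompletelyIrreducible (Tp phi) := by
  rw [bir_iff]
  intro P hP2 hP
  obtain ⟨c, hc⟩ := const_ofN D hP2 hP
  have hlin := linN D hP2 hP hc
  have hnat : ∀ l ∉ K, ∃ n : ℕ, Ix phi l n := by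
    intro l hl
    obtain ⟨n, hn⟩ := D.off l hl
    obtain ⟨m, rfl⟩ := Int.eq_ofNat_of_zero_le (D.nn l n hn)
    exact ⟨m, hn⟩
  rcases mnn_const D hP2 hP hc hlin with rfl | rfl
  · left
    refine zero_PK D.toDk hP ?_
    intro f l hl
    obtain ⟨n, hn⟩ := hnat l hl
    have h1 := hlin l hl n hn
    rw [zero_mul] at h1
    exact tr_zeroJ hP2 hP h1 f
  · right
    have h1 : (1 - P) * (1 - P) = 1 - P := by
      rw [mul_sub, mul_one, sub_mul, one_mul, hP2, sub_self, sub_zero]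
    have h2 : (1 - P) * Tp phi = Tp phi * (1 - P) := by
      rw [sub_mul, mul_sub, hP, one_mul, mul_one]
    have h3 : 1 - P = 0 := by
      refine zero_PK D.toDk h2 ?_
      intro f l hl
      obtain ⟨n, hn⟩ := hnat l hl
      have h4 := trJ_compl (hlin l hl n hn)
      rw [one_mul, sub_self] at h4
      exact tr_zeroJ h1 h2 h4 f
    rw [sub_eq_zero] at h3
    exact h3.symm

end Pool.Agent.TBirN
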