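import Pool.Agent.TBirN.Ng
import Pool.Agent.TBirN.Ad
import Pool.Agent.TBirN.Mn
import Pool.Agent.TBirN.Ll
import Pool.Agent.TBirN.Ld
import Pool.Agent.TBirN.Mi
import Pool.Agent.TBirK.Fnk

/-!
# The criterion for piecewise `C^1` symbols with a normal curve

As TBirK/Fnk.lean. `nc_dat`: `lc`: `t` not in `F` without partner: `lc_link` (`sides_reg`); `t` in `F`: `lc_link` (`bc_sides`, the segment); `t` with a partner, `Dp`: `db_of`, `cr_of`, `lc_dbl`; half plane: `exists_iq`, `iq_half`, `exists_sm`, `lc_iq`; third case: `Nj.iq`, `Nj.reg`. `rem`: double points are among the exceptions.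
-/

set_option autoImplicit false

open MeasureTheory Complex Set Filter Topology Metric AddCircle
open scoped ComplexConjugate InnerProductSpace ENNReal

namespace Pool.Agent.TBirN

open Pool.Agent.TBir Pool.Agent.TBirG Pool.Agent.TBirC Pool.Agent.TBirJ Pool.Agent.TBirK
open Pool.Agent.TBirP (E qT)
open Pool.Agent.TBirS (DR)

variable {phi : ℂ → ℂ} {F : Finset ℂ} {u v : ℂ → ℂ}

/-- An analytic value at a point of `F` is the one-sided limit. -/
private theorem fn_an (h : Cv phi F u v) {z : ℂ} (hz : z ∈ F) (ha : AnalyticAt ℂ phi z) :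
    phi z = u z := by
  have h1 := h.lim_left z hz
  have h2 : Tendsto (fun x : ℝ => phi (z * E (-x))) (𝓝[>] 0) (𝓝 (phi z)) := by
    have h3 : Tendsto (fun x : ℝ => z * E (-x)) (𝓝[>] 0) (𝓝 z) := by
      have h4 : Continuous fun x : ℝ => z * E (-x) := by
        unfold E
        fun_prop
      have h5 := h4.tendsto 0
      have h6 : z * E (-0) = z := by simp [E]
      rw [h6] at h5
      exact h5.mono_left nhdsWithin_le_nhds
    exact ha.continuousAt.tendsto.comp h3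
  exact tendsto_nhds_unique h2 h1

private theorem fn_ix (h : Cv phi F u v) (hw : ∀ l n, Wj phi F l n → 0 ≤ n) :
    ∀ l n, Ix phi l n → 0 ≤ n := by
  intro l n hl
  have h1 := Ix.nhds (memLp_cv h) hl
  obtain ⟨l', h2, h3⟩ := (gam_dense h).inter_nhds_nonempty h1
  obtain ⟨n', h4⟩ := exists_wj h h2
  have h3' : Ix phi l' n := h3
  rw [h3'.unique (wj_ix h h4)]
  exact hw l' n' h4

private theorem fn_arg {t : ℂ} (ht : ‖t‖ = 1) : Tendsto (fun z : ℂ => arg (z / t)) (𝓝 t) (𝓝 0) := by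
  have ht0 : t ≠ 0 := by
    rintro rfl
    rw [norm_zero] at ht
    exact zero_ne_one ht
  have h1 : ContinuousAt arg (t / t) := by
    rw [div_self ht0]
    exact continuousAt_arg (by simp)
  have h2 : ContinuousAt (fun z : ℂ => z / t) t := by fun_prop
  have h3 : ContinuousAt (fun z : ℂ => arg (z / t)) t :=
    ContinuousAt.comp (f := fun z : ℂ => z / t) (g := arg) h1 h2
  have h4 := h3.tendsto
  rwa [div_self ht0, arg_one] at h4

private theorem fn_arg_eq {t z : ℂ} (ht : ‖t‖ = 1) (hz : ‖z‖ = 1) :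
    t * E (arg (z / t)) = z := by
  have ht0 : t ≠ 0 := by
    rintro rfl
    rw [norm_zero] at ht
    exact zero_ne_one ht
  have h4 : ‖z / t‖ = 1 := by
    rw [norm_div, ht, hz, div_one]
  have h5 := Complex.norm_mul_exp_arg_mul_I (z / t)
  rw [h4, ofReal_one, one_mul] at h5
  unfold E
  rw [h5, mul_div_cancel₀ _ ht0]

private theorem fn_near (h : Cv phi F u v) {t : ℂ} (ht : t ∈ F) {eps : ℝ} (heps : 0 < eps) :
    ∃ s > 0, ∀ z ∈ ball t s, ‖z‖ = 1 → z ≠ t →
      dist (phi z) (u t) < eps ∨ dist (phi z) (v t) < eps := by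
  have htn := h.circ t ht
  have h1 := (h.lim_left t ht).eventually (ball_mem_nhds _ heps)
  have h2 := (h.lim_right t ht).eventually (ball_mem_nhds _ heps)
  rw [eventually_nhdsWithin_iff] at h1 h2
  obtain ⟨d, hd, h3⟩ := Metric.eventually_nhds_iff_ball.1 (h1.and h2)
  have h4 := (fn_arg htn).eventually (ball_mem_nhds 0 hd)
  obtain ⟨s, hs, h5⟩ := Metric.eventually_nhds_iff_ball.1 h4
  refine ⟨s, hs, fun z hz hz1 hzt => ?_⟩
  have h6 : arg (z / t) ∈ ball (0 : ℝ) d := h5 z hz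
  have h7 := fn_arg_eq htn hz1
  rcases lt_trichotomy (arg (z / t)) 0 with h8 | h8 | h8
  · left
    have h6' : -arg (z / t) ∈ ball (0 : ℝ) d := by
      rw [mem_ball, dist_zero_right] at h6 ⊢
      rwa [norm_neg]
    have h9 := (h3 _ h6').1 (show (0 : ℝ) < -arg (z / t) by linarith)
    rw [neg_neg, h7] at h9
    exact h9
  · exfalso
    apply hzt
    rw [h8] at h7
    rw [← h7]
    simp [E]
  · right
    have h9 := (h3 _ h6).2 h8
    rw [h7] at h9
    exact h9

/-- The numbers of the two sides are nonnegative. -/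
private theorem fn_sides {K : Set ℂ} (hnn : ∀ l n, Ix phi l n → 0 ≤ n) {q : ℂ} {m : ℤ}
    (hm : Sides phi K q m) : 0 ≤ m := by
  obtain ⟨A, B, -, -, -, hB, -, hcB, -⟩ := hm
  obtain ⟨l, hl⟩ := closure_nonempty_iff.1 ⟨q, hcB⟩
  exact hnn l m (hB l hl)

/-- The link over a point of `F`. -/
private theorem fn_link (h : NCross phi F u v) (hnn : ∀ l n, Ix phi l n → 0 ≤ n) {t : ℂ}
    (ht : t ∈ F) : LinkOn phi (Gam phi F u v) t (segment ℝ (u t) (v t)) (u t) (v t) := by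
  refine ⟨(convex_segment _ _).isPreconnected, left_mem_segment ℝ _ _, right_mem_segment ℝ _ _,
    fun q hq => ?_, fun eps heps => fn_near h.toBCross.toPwC.cv ht heps⟩
  obtain ⟨m, hm⟩ := bc_sides h.toBCross ht hq
  exact ⟨m, fn_sides hnn hm, hm⟩

/-- The points with a partner. -/
private def Pn (phi : ℂ → ℂ) (F : Finset ℂ) : Set ℂ :=
  {z | ‖z‖ = 1 ∧ z ∉ F ∧ ∃ z' : ℂ, ‖z'‖ = 1 ∧ z' ∉ F ∧ phi z' = phi z ∧ z' ≠ z}

private theorem fn_mult (h : NCross phi F u v) : (Pn phi F).Finite := by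
  obtain ⟨D, hD, hinj⟩ := h.inj
  have hfin : (D ∪ ⋃ b ∈ phi '' D, {z : ℂ | z ∈ sphere (0 : ℂ) 1 ∧ z ∉ F ∧ phi z = b}).Finite :=
    hD.union ((hD.image phi).biUnion fun b _ => cv_level h.toBCross.toPwC.cv b)
  refine hfin.subset ?_
  rintro z ⟨hz, hzF, z', hz', hz'F, he, hne⟩
  by_contra hcon
  rw [mem_union, not_or] at hcon
  obtain ⟨hzD, hzU⟩ := hcon
  have hzsph : z ∈ sphere (0 : ℂ) 1 := mem_sphere_zero_iff_norm.2 hz
  have hz'D : z' ∉ D := by
    intro hD'
    apply hzU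
    exact mem_iUnion₂.2 ⟨phi z', ⟨z', hD', rfl⟩, hzsph, hzF, he.symm⟩
  apply hne
  refine hinj ⟨mem_sphere_zero_iff_norm.2 hz', ?_⟩ ⟨hzsph, ?_⟩ he
  · rintro (h1 | h1)
    · exact hz'F h1
    · exact hz'D h1
  · rintro (h1 | h1)
    · exact hzF h1
    · exact hzD h1

private theorem fn_alone {z : ℂ} (hz : ‖z‖ = 1) (hzF : z ∉ F) (hP : z ∉ Pn phi F) :
    ∀ z' : ℂ, ‖z'‖ = 1 → z' ∉ F → phi z' = phi z → z' = z := by
  intro z' hz' hz'F he
  by_contra hne
  exact hP ⟨hz, hzF, z', hz', hz'F, he, hne⟩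

/-- The link at a point without partner. -/
private theorem fn_reg (h : NCross phi F u v) (hnn : ∀ l n, Ix phi l n → 0 ≤ n) {z : ℂ}
    (hz : ‖z‖ = 1) (hzF : z ∉ F) (hP : z ∉ Pn phi F) :
    LinkOn phi (Gam phi F u v) z {phi z} (phi z) (phi z) := by
  have hzsph : z ∈ sphere (0 : ℂ) 1 := mem_sphere_zero_iff_norm.2 hz
  have hFc : ∀ᶠ z1 in 𝓝 z, z1 ∉ F :=
    F.finite_toSet.isClosed.isOpen_compl.eventually_mem (show z ∈ (F : Set ℂ)ᶜ from hzF)
  have hPc : ∀ᶠ z1 in 𝓝 z, z1 ∉ Pn phi F :=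
    (fn_mult h).isClosed.isOpen_compl.eventually_mem (show z ∈ (Pn phi F)ᶜ from hP)
  refine ⟨isPreconnected_singleton, rfl, rfl, fun q hq => ?_, fun eps heps => ?_⟩
  · rw [mem_singleton_iff.1 hq]
    obtain ⟨m, hm⟩ := sides_reg h.toBCross.toPwC hz hzF (fun t ht => h.sep t ht z hzsph hzF)
      (fn_alone hz hzF hP) (by
        filter_upwards [hPc] with z1 h1 h2 h3
        exact fn_alone h2 h3 h1)
    exact ⟨m, fn_sides hnn hm, hm⟩
  · have h1 := (h.toBCross.toPwC.cv.cont z ⟨hzsph, hzF⟩).eventually (ball_mem_nhds _ heps)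
    rw [eventually_nhdsWithin_iff] at h1
    obtain ⟨s, hs, h2⟩ := Metric.eventually_nhds_iff_ball.1 (h1.and hFc)
    refine ⟨s, hs, fun z1 hz1 hz1n _ => Or.inl ?_⟩
    obtain ⟨h3, h4⟩ := h2 z1 hz1
    exact h3 ⟨mem_sphere_zero_iff_norm.2 hz1n, h4⟩

private theorem fn_closed (a b : ℂ) : IsClosed (segment ℝ a b) := by
  have h1 : IsCompact (segment ℝ a b) := by
    rw [segment_eq_image']
    exact isCompact_Icc.image (by fun_prop)
  exact h1.isClosed

private theorem fn_seg {q : ℂ} (hq : ∀ t ∈ F, q ∉ segment ℝ (u t) (v t)) :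
    ∀ᶠ q' in 𝓝 q, ∀ t ∈ F, q' ∉ segment ℝ (u t) (v t) := by
  rw [Filter.eventually_all_finset]
  intro t ht
  exact (fn_closed _ _).isOpen_compl.eventually_mem (hq t ht)

/-- Analytic multiple points: the points near them are simple. -/
private theorem fn_dbl (h : NCross phi F u v) {t : ℂ} (hP : t ∈ Pn phi F)
    (hder : ∀ z ∈ sphere (0 : ℂ) 1, z ∉ F → phi z = phi t →
      AnalyticAt ℂ phi z ∧ deriv phi z ≠ 0) :
    AnalyticAt ℂ phi t ∧ ∀ᶠ z in 𝓝[≠] t, ‖z‖ = 1 → ∃ x, Sm phi z x := by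
  obtain ⟨ht, htF, z', hz', hz'F, he, hne⟩ := id hP
  have hts : t ∈ sphere (0 : ℂ) 1 := mem_sphere_zero_iff_norm.2 ht
  obtain ⟨ha, hd⟩ := hder t hts htF rfl
  refine ⟨ha, ?_⟩
  have h1 : ∀ᶠ z in 𝓝 t, AnalyticAt ℂ phi z := ha.eventually_analyticAt
  have h2 : ∀ᶠ z in 𝓝 t, deriv phi z ≠ 0 := ha.deriv.continuousAt.eventually_ne hd
  have h3 : ∀ᶠ z in 𝓝 t, z ∉ F :=
    F.finite_toSet.isClosed.isOpen_compl.eventually_mem (show t ∈ (F : Set ℂ)ᶜ from htF)
  have h4 : ∀ᶠ z in 𝓝 t, z ∉ Pn phi F \ {t} :=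
    ((fn_mult h).subset Set.sdiff_subset).isClosed.isOpen_compl.eventually_mem
      (show t ∈ (Pn phi F \ {t})ᶜ from fun h5 => h5.2 rfl)
  rw [eventually_nhdsWithin_iff]
  filter_upwards [h1, h2, h3, h4] with z g1 g2 g3 g4 g5 g6
  have g7 : z ∉ Pn phi F := fun g8 => g4 ⟨g8, g5⟩
  exact exists_sm h.toBCross.toPwC.cv g6 g3 g1 g2
    (fun t' ht' => h.sep t' ht' z (mem_sphere_zero_iff_norm.2 g6) g3) (fn_alone g6 g3 g7)

/-- Analytic multiple points in a half plane. -/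
private theorem fn_half (h : NCross phi F u v) (hnn : ∀ l n, Ix phi l n → 0 ≤ n) {t w : ℂ}
    (hP : t ∈ Pn phi F) (hw : ∀ z ∈ sphere (0 : ℂ) 1, z ∉ F → phi z = phi t →
      AnalyticAt ℂ phi z ∧ 0 < (conj w * (I * (z * deriv phi z))).re) :
    (∀ z ∈ sphere (0 : ℂ) 1, z ∉ F → phi z = phi t → AnalyticAt ℂ phi z ∧ deriv phi z ≠ 0) ∧
      ∃ x, 0 ≤ x ∧ Iq phi (phi t) x := by
  obtain ⟨ht, htF, z', hz', hz'F, he, hne⟩ := id hP
  have hts : t ∈ sphere (0 : ℂ) 1 := mem_sphere_zero_iff_norm.2 ht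
  have hsep : ∀ t' ∈ F, phi t ∉ segment ℝ (u t') (v t') := fun t' ht' => h.sep t' ht' t hts htF
  have hder : ∀ z ∈ sphere (0 : ℂ) 1, z ∉ F → phi z = phi t →
      AnalyticAt ℂ phi z ∧ deriv phi z ≠ 0 := by
    intro z hz hzF hzq
    obtain ⟨h1, h2⟩ := hw z hz hzF hzq
    refine ⟨h1, fun h0 => ?_⟩
    rw [h0, mul_zero, mul_zero, mul_zero, zero_re] at h2
    exact lt_irrefl _ h2
  refine ⟨hder, ?_⟩
  obtain ⟨x, hI⟩ := exists_iq h.toBCross.toPwC.cv hsep hder
  refine ⟨x, ?_, hI⟩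
  obtain ⟨l, hl⟩ := (iq_half (memLp_cv h.toBCross.toPwC.cv) hI (w := w) (by
    intro z hz haz hzq
    have hzF : z ∉ F := by
      intro hzF
      apply hsep z hzF
      rw [← hzq, fn_an h.toBCross.toPwC.cv hzF haz]
      exact left_mem_segment ℝ _ _
    exact (hw z (mem_sphere_zero_iff_norm.2 hz) hzF hzq).2)).exists
  exact hnn l x hl

/-- The jumps are constant near every point of the circle. -/
private theorem fn_lc (h : NCross phi F u v) (hw : ∀ l n, Wj phi F l n → 0 ≤ n)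
    (D : Dk phi (Gam phi F u v)) {t : ℂ} (ht : ‖t‖ = 1) : Lc phi (Gam phi F u v) t := by
  have hc := h.toBCross.toPwC.cv
  have hnn := fn_ix hc hw
  by_cases htF : t ∈ F
  · exact lc_link D (fn_link h hnn htF)
  · by_cases htP : t ∈ Pn phi F
    · obtain ⟨-, -, z', hz', hz'F, he, hne⟩ := id htP
      have hts : t ∈ sphere (0 : ℂ) 1 := mem_sphere_zero_iff_norm.2 ht
      rcases h.mult t hts htF z' (mem_sphere_zero_iff_norm.2 hz') hz'F hne.symm he.symm with
        ⟨hd, -⟩ | ⟨w, hw'⟩ | ⟨k, x, hN, hx, -⟩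
      · have hsep : ∀ t' ∈ F, phi t ∉ segment ℝ (u t') (v t') :=
          fun t' ht' => h.sep t' ht' t hts htF
        obtain ⟨x, g1, g2, hD⟩ := db_of h.toBCross.toPwC hd hsep
        exact (lc_dbl D hD (cr_of h.toBCross.toPwC hd hsep)).1
      · obtain ⟨hder, x, hx, hI⟩ := fn_half h hnn htP hw'
        obtain ⟨ha, hn⟩ := fn_dbl h htP hder
        exact lc_iq D ht ha hx hI hn
      · obtain ⟨ha, hn⟩ := fn_dbl h htP fun z hz hzF hzq => hN.reg hz hzF hzq
        exact lc_iq D ht ha (hx (Eventually.of_forall fun l n hn' => hw l n hn')) (hN.iq hc) hn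
    · exact lc_link D (fn_reg h hnn ht htF htP)

private theorem fn_dk (h : NCross phi F u v) (hw : ∀ l n, Wj phi F l n → 0 ≤ n) :
    Dk phi (Gam phi F u v) := by
  have hc := h.toBCross.toPwC.cv
  have hb := memLp_cv hc
  have hnn := fn_ix hc hw
  have hoff : ∀ l ∉ Gam phi F u v, ∃ n : ℤ, Ix phi l n := by
    intro l hl
    obtain ⟨n, hn⟩ := exists_wj hc hl
    exact ⟨n, wj_ix hc hn⟩
  have hcl : IsClosed (Gam phi F u v) := (gam_compact hc).isClosed
  refine
    { hb := hb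
      closed := hcl
      ne := gam_ne hc
      dense := gam_dense hc
      vol := gam_vol hc
      null := cv_null hc
      off := hoff
      nn := hnn
      grow := ?_
      rem := ?_ }
  · obtain ⟨C, N, hC, hg⟩ := growK hc
    refine ⟨C, N, hC, fun l hl hl1 w => ?_⟩
    obtain ⟨n, hn⟩ := exists_wj hc hl
    exact hg l hl hl1 n (hw l n hn) hn w
  · refine (((F.finite_toSet.image u).union (F.finite_toSet.image v)).union
      ((fn_mult h).image phi)).subset ?_
    intro q hq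
    by_contra hcon
    rw [mem_union, mem_union, not_or, not_or] at hcon
    obtain ⟨⟨hqu, hqv⟩, hqP⟩ := hcon
    apply hq
    by_cases hs : ∃ t ∈ F, q ∈ segment ℝ (u t) (v t)
    · obtain ⟨t, ht, hqs⟩ := hs
      refine rem_seg hc ht hqs (fun h1 => hqu ⟨t, ht, h1.symm⟩)
        (fun h1 => hqv ⟨t, ht, h1.symm⟩) ?_ ?_ hnn _
      · intro z hz hzF he
        apply h.sep t ht z hz hzF
        rw [he]
        exact hqs
      · intro t' ht' hne hq'
        exact Set.disjoint_left.1 (h.seg t ht t' ht' hne.symm) hqs hq'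
    · push Not at hs
      refine rem_sc hb hcl (gam_dense hc) (gam_vol hc) hoff hnn ?_
      have h2 : ∀ᶠ q' in 𝓝 q, q' ∉ phi '' Pn phi F :=
        ((fn_mult h).image phi).isClosed.isOpen_compl.eventually_mem hqP
      filter_upwards [fn_seg hs, h2] with q' g1 g2 g3
      rcases g3 with ⟨z, ⟨hz, hzF⟩, rfl⟩ | g3
      · have hzn : ‖z‖ = 1 := mem_sphere_zero_iff_norm.1 hz
        have hzF' : z ∉ F := hzF
        have hzP : z ∉ Pn phi F := fun g4 => g2 ⟨z, g4, rfl⟩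
        obtain ⟨x, hx⟩ := exists_sc h.toBCross.toPwC hzn hzF' (fun t ht => h.sep t ht z hz hzF')
          (fn_alone hzn hzF' hzP)
        exact ⟨z, x, rfl, hx⟩
      · exfalso
        obtain ⟨t, ht, g4⟩ := mem_iUnion₂.1 g3
        exact g1 t ht g4

theorem nc_dat (h : NCross phi F u v) (hw : ∀ l n, Wj phi F l n → 0 ≤ n) :
    Cn phi (Gam phi F u v) := by
  have hnn := fn_ix h.toBCross.toPwC.cv hw
  have hD := fn_dk h hw
  refine
    { toDk := hD
      sim := ?_
      lc := fun t ht => fn_lc h hw hD ht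
      sides := ?_ }
  · refine (F.finite_toSet.union (fn_mult h)).subset ?_
    rintro z ⟨hz, hzl⟩
    by_contra hcon
    rw [mem_union, not_or] at hcon
    exact hzl (fn_reg h hnn hz hcon.1 hcon.2)
  · refine ((fn_mult h).image phi).subset ?_
    rintro q ⟨hqK, hq2⟩
    rcases hqK with ⟨z, ⟨hz, hzF⟩, rfl⟩ | hqK
    · have hzn : ‖z‖ = 1 := mem_sphere_zero_iff_norm.1 hz
      have hzF' : z ∉ F := hzF
      by_cases hzP : z ∈ Pn phi F
      · exact ⟨z, hzP, rfl⟩
      · exact absurd (mem_singleton (phi z)) (hq2 z hzn _ _ _ (fn_reg h hnn hzn hzF' hzP))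
    · exfalso
      obtain ⟨t, ht, hqs⟩ := mem_iUnion₂.1 hqK
      exact hq2 t (h.circ t ht) _ _ _ (fn_link h hnn ht) hqs

theorem nc_main (h : NCross phi F u v) : (∀ f ∈ H2, ∃! g, IsToeplitz phi f g) ∧
    (BIR H2 (IsToeplitz phi) ↔
      ¬ ∃ (l l' : ℂ) (n n' : ℤ), Wj phi F l n ∧ Wj phi F l' n' ∧ n < 0 ∧ 0 < n') := by
  have hb := memLp_cv h.toBCross.toPwC.cv
  refine ⟨exists_unique_TM hb, ?_, ?_⟩
  · rintro hB ⟨l, l', n, n', hl, hl', hn, hn'⟩
    exact nc_neg h hl hn hl' hn' hB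
  · intro hno
    rw [bir_iff_TM hb]
    change CompletelyIrreducible (Tp phi)
    by_cases hw : ∀ l n, Wj phi F l n → 0 ≤ n
    · exact main_datN (nc_dat h hw)
    · push Not at hw
      obtain ⟨l, n, hl, hn⟩ := hw
      rw [← ci_pstar hb]
      refine main_datN (nc_dat h.pstar fun l' n' h' => ?_)
      by_contra hc
      push Not at hc
      rw [show l' = conj (conj l') from (Complex.conj_conj l').symm, wj_pstar_iff] at h'
      exact hno ⟨l, conj l', n, -n', hl, h', hn, by omega⟩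

end Pool.Agent.TBirN
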