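import Pool.Agent.TBirN.Def

/-!
# Normalised kernels

`en w = sqrt (1 - |w|^2) * ev w`, a functional of norm `1` (the norm of `ev w` is `(1 - |w|^2)^(-1/2)`: Cauchy-Schwarz, `ev w f = sum co f n w^n`), `kn w` is the vector which represents it (`InnerProductSpace.toDual`), `co (kn w) n = sqrt (1 - |w|^2) * conj w ^ n`. `en_weak`: for a polynomial `f` clear, then density. `en_cross`: `ev a (kn b)`
is `sqrt (1 - |b|^2) / (1 - conj b * a)`, and `1 - conj b * a` tends to `1 - conj t2 * t1 ≠ 0`. `en_near`: `‖kn w - kn w'‖^2 = 2 - 2 re (inner ..)`, `|1 - rho^2|` with the pseudohyperbolic distance, or directly.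
-/

set_option autoImplicit false

open MeasureTheory Complex Set Filter Topology Metric AddCircle
open scoped ComplexConjugate InnerProductSpace ENNReal

namespace Pool.Agent.TBirN

open Pool.Agent.TBir Pool.Agent.TBirG Pool.Agent.TBirC Pool.Agent.TBirJ Pool.Agent.TBirK
open Pool.Agent.TBirP (E qT)
open Pool.Agent.TBirS (DR)

/-- Normalised evaluation. -/
noncomputable def en (w : ℂ) : Hardy →L[ℂ] ℂ := (Real.sqrt (1 - ‖w‖ ^ 2) : ℂ) • ev w

/-- Normalised kernel. -/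
noncomputable def kn (w : ℂ) : Hardy := (InnerProductSpace.toDual ℂ Hardy).symm (en w)

theorem inner_kn (w : ℂ) (f : Hardy) : inner ℂ (kn w) f = en w f :=
  InnerProductSpace.toDual_symm_apply

theorem kr_en_apply (w : ℂ) (f : Hardy) : en w f = (Real.sqrt (1 - ‖w‖ ^ 2) : ℂ) * ev w f := rfl

theorem kr_co_kn {w : ℂ} (hw : ‖w‖ < 1) (n : ℕ) :
    co (kn w) n = (Real.sqrt (1 - ‖w‖ ^ 2) : ℂ) * conj w ^ n := by
  rw [← coL_apply]
  change inner ℂ (mono n) (kn w) = _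
  rw [← inner_conj_symm, inner_kn, kr_en_apply, ev_mono hw, map_mul, Complex.conj_ofReal, map_pow]

theorem kr_one_sub_ne {a b : ℂ} (ha : ‖a‖ < 1) (hb : ‖b‖ < 1) : 1 - conj b * a ≠ 0 := by
  intro h
  have h1 : conj b * a = 1 := (sub_eq_zero.1 h).symm
  have h2 : ‖b‖ * ‖a‖ = 1 := by
    have := congrArg norm h1
    rwa [norm_mul, Complex.norm_conj, norm_one] at this
  nlinarith [norm_nonneg a, norm_nonneg b]

theorem kr_en_kn {a b : ℂ} (ha : ‖a‖ < 1) (hb : ‖b‖ < 1) :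
    en a (kn b) = (Real.sqrt (1 - ‖a‖ ^ 2) * Real.sqrt (1 - ‖b‖ ^ 2) : ℝ) / (1 - conj b * a) := by
  have h1 := hasSum_ev ha (kn b)
  have hlt : ‖conj b * a‖ < 1 := by
    rw [norm_mul, Complex.norm_conj]
    nlinarith [norm_nonneg a, norm_nonneg b]
  have h2 := (hasSum_geometric_of_norm_lt_one hlt).mul_left (Real.sqrt (1 - ‖b‖ ^ 2) : ℂ)
  have h3 : HasSum (fun n => co (kn b) n * a ^ n) ((Real.sqrt (1 - ‖b‖ ^ 2) : ℂ) * (1 - conj b * a)⁻¹) := by
    refine hasSum_of_eq h2 fun n => ?_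
    rw [kr_co_kn hb, mul_pow]
    ring
  rw [kr_en_apply, h1.unique h3]
  push_cast
  ring

theorem en_kn {w : ℂ} (hw : ‖w‖ < 1) : en w (kn w) = 1 := by
  have h0 : 0 ≤ 1 - ‖w‖ ^ 2 := by nlinarith [norm_nonneg w]
  have h1 : 1 - conj w * w = ((1 - ‖w‖ ^ 2 : ℝ) : ℂ) := by
    rw [Complex.conj_mul']
    push_cast
    ring
  rw [kr_en_kn hw hw, Real.mul_self_sqrt h0, h1]
  have := kr_one_sub_ne hw hw
  rw [h1] at this
  exact div_self this

theorem norm_kn {w : ℂ} (hw : ‖w‖ < 1) : ‖kn w‖ = 1 := by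
  have h1 : inner ℂ (kn w) (kn w) = (1 : ℂ) := by rw [inner_kn, en_kn hw]
  have h2 := inner_self_eq_norm_sq_to_K (𝕜 := ℂ) (kn w)
  rw [h1] at h2
  have h3 : ‖kn w‖ ^ 2 = 1 := by
    have : ((‖kn w‖ ^ 2 : ℝ) : ℂ) = ((1 : ℝ) : ℂ) := by
      push_cast
      exact h2.symm
    exact_mod_cast this
  nlinarith [norm_nonneg (kn w)]

theorem norm_en {w : ℂ} (hw : ‖w‖ < 1) : ‖en w‖ = 1 := by
  rw [← norm_kn hw, kn, LinearIsometryEquiv.norm_map]

theorem kr_sqrt_tendsto {t : ℂ} (ht : ‖t‖ = 1) :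
    Tendsto (fun w : ℂ => (Real.sqrt (1 - ‖w‖ ^ 2) : ℂ)) (𝓝 t) (𝓝 0) := by
  have h : ContinuousAt (fun w : ℂ => (Real.sqrt (1 - ‖w‖ ^ 2) : ℂ)) t := by
    apply ContinuousAt.comp (f := fun w : ℂ => Real.sqrt (1 - ‖w‖ ^ 2)) Complex.continuous_ofReal.continuousAt
    apply Real.continuous_sqrt.continuousAt.comp
    fun_prop
  have h1 := h.tendsto
  simpa [ht] using h1

theorem en_weak {t : ℂ} (ht : ‖t‖ = 1) (f : Hardy) :
    Tendsto (fun w => en w f) (𝓝[ball 0 1] t) (𝓝 0) := by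
  have hmono : ∀ n, Tendsto (fun w => en w (mono n)) (𝓝[ball 0 1] t) (𝓝 0) := by
    intro n
    have h1 : Tendsto (fun w : ℂ => (Real.sqrt (1 - ‖w‖ ^ 2) : ℂ) * w ^ n) (𝓝 t) (𝓝 (0 * t ^ n)) :=
      (kr_sqrt_tendsto ht).mul ((continuous_pow n).tendsto t)
    rw [zero_mul] at h1
    refine (h1.mono_left nhdsWithin_le_nhds).congr' ?_
    filter_upwards [self_mem_nhdsWithin] with w hw
    rw [kr_en_apply, ev_mono (by simpa using hw)]
  rw [Metric.tendsto_nhds]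
  intro eps heps
  have h1 := (hasSum_mono f).tendsto_sum_nat
  obtain ⟨N, hN⟩ := ((Metric.tendsto_nhds.1 h1) (eps / 2) (by positivity)).exists
  set P : Hardy := ∑ i ∈ Finset.range N, co f i • mono i with hP
  have h2 : Tendsto (fun w => en w P) (𝓝[ball 0 1] t) (𝓝 0) := by
    have h3 : Tendsto (fun w => ∑ i ∈ Finset.range N, co f i * en w (mono i)) (𝓝[ball 0 1] t)
        (𝓝 (∑ i ∈ Finset.range N, co f i * 0)) :=
      tendsto_finsetSum _ fun i _ => (hmono i).const_mul _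
    simp only [mul_zero, Finset.sum_const_zero] at h3
    refine h3.congr fun w => ?_
    rw [hP, map_sum]
    exact Finset.sum_congr rfl fun i _ => by rw [map_smul, smul_eq_mul]
  filter_upwards [(Metric.tendsto_nhds.1 h2) (eps / 2) (by positivity), self_mem_nhdsWithin] with w hw hw1
  have hw1' : ‖w‖ < 1 := by simpa using hw1
  rw [dist_zero_right] at hw ⊢
  rw [dist_comm, dist_eq_norm] at hN
  have h4 : en w f = en w (f - P) + en w P := by rw [← map_add, sub_add_cancel]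
  have h5 : ‖en w (f - P)‖ ≤ 1 * ‖f - P‖ := (en w).le_of_opNorm_le (norm_en hw1').le _
  calc ‖en w f‖ ≤ ‖en w (f - P)‖ + ‖en w P‖ := by rw [h4]; exact norm_add_le _ _
    _ < eps := by linarith

theorem en_cross {t1 t2 : ℂ} (h1 : ‖t1‖ = 1) (h2 : ‖t2‖ = 1) (hne : t1 ≠ t2) {eps : ℝ}
    (heps : 0 < eps) : ∃ δ > 0, ∀ a b : ℂ, ‖a‖ < 1 → ‖b‖ < 1 → ‖a - t1‖ < δ → ‖b - t2‖ < δ →
      ‖en a (kn b)‖ ≤ eps := by
  have hden : 1 - conj t2 * t1 ≠ 0 := by
    intro h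
    have h3 : conj t2 * t1 = 1 := (sub_eq_zero.1 h).symm
    apply hne
    have h4 : t2 * conj t2 = 1 := by
      rw [Complex.mul_conj', h2]
      norm_num
    calc t1 = (t2 * conj t2) * t1 := by rw [h4, one_mul]
      _ = t2 * (conj t2 * t1) := by ring
      _ = t2 := by rw [h3, mul_one]
  have hc : ContinuousAt (fun p : ℂ × ℂ => Real.sqrt (1 - ‖p.1‖ ^ 2) * Real.sqrt (1 - ‖p.2‖ ^ 2) /
      ‖1 - conj p.2 * p.1‖) (t1, t2) := by
    apply ContinuousAt.div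
    · apply ContinuousAt.mul
      · apply Real.continuous_sqrt.continuousAt.comp
        fun_prop
      · apply Real.continuous_sqrt.continuousAt.comp
        fun_prop
    · apply ContinuousAt.norm
      apply ContinuousAt.sub continuousAt_const
      apply ContinuousAt.mul
      · exact Complex.continuous_conj.continuousAt.comp continuousAt_snd
      · exact continuousAt_fst
    · simpa using hden
  rw [Metric.continuousAt_iff] at hc
  obtain ⟨δ, hδ, hd⟩ := hc eps heps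
  refine ⟨δ, hδ, fun a b ha hb ha' hb' => ?_⟩
  have h3 := hd (x := (a, b)) (by
    rw [Prod.dist_eq]
    exact max_lt (by rwa [dist_eq_norm]) (by rwa [dist_eq_norm]))
  simp only [h1, h2, one_pow, sub_self, Real.sqrt_zero, mul_zero, zero_div, dist_zero_right] at h3
  rw [kr_en_kn ha hb, norm_div, Complex.norm_real]
  rw [Real.norm_eq_abs, abs_div, abs_norm] at h3
  rw [Real.norm_eq_abs]
  exact h3.le

theorem en_near {eps : ℝ} (heps : 0 < eps) : ∃ δ > 0, ∀ w w' : ℂ, ‖w‖ < 1 →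
    ‖w' - w‖ ≤ δ * (1 - ‖w‖) → ‖w'‖ < 1 ∧ ‖en w' - en w‖ ≤ eps := by
  refine ⟨min (1 / 4) (eps ^ 2 / 16), by positivity, fun w w' hw hww => ?_⟩
  set δ := min (1 / 4) (eps ^ 2 / 16) with hδ
  have hδ0 : 0 < δ := by positivity
  have hδ1 : δ ≤ 1 / 4 := min_le_left _ _
  have hδ2 : δ ≤ eps ^ 2 / 16 := min_le_right _ _
  have hs : 0 < 1 - ‖w‖ := by linarith
  have hw' : ‖w'‖ < 1 := by
    have h1 : ‖w'‖ ≤ ‖w' - w‖ + ‖w‖ := by
      calc ‖w'‖ = ‖(w' - w) + w‖ := by rw [sub_add_cancel]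
        _ ≤ _ := norm_add_le _ _
    nlinarith
  refine ⟨hw', ?_⟩
  have hn0 := norm_nonneg w
  have hn0' := norm_nonneg w'
  set x : ℝ := 1 - ‖w‖ ^ 2 with hx
  set y : ℝ := 1 - ‖w'‖ ^ 2 with hy
  set z : ℂ := 1 - conj w' * w with hz
  have hx1 : 1 - ‖w‖ ≤ x := by nlinarith
  have hx0 : 0 < x := by linarith
  have hd0 : ‖w' - w‖ ≤ δ * x := hww.trans (mul_le_mul_of_nonneg_left hx1 hδ0.le)
  have hy1 : (1 - 2 * δ) * x ≤ y := by
    have h1 : ‖w'‖ ≤ ‖w' - w‖ + ‖w‖ := by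
      calc ‖w'‖ = ‖(w' - w) + w‖ := by rw [sub_add_cancel]
        _ ≤ _ := norm_add_le _ _
    have h2 : ‖w'‖ ^ 2 - ‖w‖ ^ 2 ≤ 2 * (δ * x) := by
      have h3 : ‖w'‖ - ‖w‖ ≤ δ * x := by linarith
      have h4 : ‖w'‖ + ‖w‖ ≤ 2 := by linarith
      have h5 : 0 ≤ δ * x := by positivity
      by_cases h6 : 0 ≤ ‖w'‖ - ‖w‖
      · nlinarith
      · push Not at h6
        nlinarith
    have h7 : y = x - (‖w'‖ ^ 2 - ‖w‖ ^ 2) := by rw [hx, hy]; ring
    rw [h7]
    linarith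
  have hy0 : 0 < y := lt_of_lt_of_le (by
    apply mul_pos _ hx0
    linarith) hy1
  have hzx : ‖z - x‖ ≤ δ * x := by
    have h1 : z - x = conj (w - w') * w := by
      have h2 : (x : ℂ) = 1 - conj w * w := by
        rw [Complex.conj_mul', hx]
        push_cast
        ring
      rw [h2, hz, map_sub]
      ring
    rw [h1, norm_mul, Complex.norm_conj, norm_sub_rev]
    calc ‖w' - w‖ * ‖w‖ ≤ ‖w' - w‖ * 1 := by gcongr
      _ ≤ δ * x := by rw [mul_one]; exact hd0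
  have hre : (1 - δ) * x ≤ z.re := by
    have h1 := (abs_le.1 ((Complex.abs_re_le_norm (z - x)).trans hzx)).1
    rw [Complex.sub_re, Complex.ofReal_re] at h1
    linarith
  have hnz : ‖z‖ ≤ (1 + δ) * x := by
    calc ‖z‖ = ‖(z - x) + x‖ := by rw [sub_add_cancel]
      _ ≤ ‖z - x‖ + ‖(x : ℂ)‖ := norm_add_le _ _
      _ ≤ δ * x + x := by
        rw [Complex.norm_real, Real.norm_eq_abs, abs_of_pos hx0]
        linarith
      _ = _ := by ring
  have hz0 : z ≠ 0 := by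
    intro h
    rw [h, Complex.zero_re] at hre
    nlinarith
  set q : ℝ := Real.sqrt x * Real.sqrt y with hq
  have hq1 : (1 - 2 * δ) * x ≤ q := by
    rw [hq, ← Real.sqrt_mul hx0.le]
    apply Real.le_sqrt_of_sq_le
    have h1 : 0 ≤ 1 - 2 * δ := by linarith
    have h2 : (1 - 2 * δ) * x ≤ x := by nlinarith
    calc ((1 - 2 * δ) * x) ^ 2 = ((1 - 2 * δ) * x) * ((1 - 2 * δ) * x) := by ring
      _ ≤ x * y := by
        apply mul_le_mul h2 hy1 (by positivity) hx0.le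
  have hmain : 1 - 8 * δ ≤ ((q : ℂ) / z).re := by
    have hN : 0 < Complex.normSq z := Complex.normSq_pos.2 hz0
    rw [Complex.div_re, Complex.ofReal_re, Complex.ofReal_im, zero_mul, zero_div, add_zero, le_div_iff₀ hN,
      Complex.normSq_eq_norm_sq]
    by_cases h8 : 1 - 8 * δ ≤ 0
    · have : 0 ≤ q * z.re := by
        apply mul_nonneg (by positivity)
        have : 0 ≤ (1 - δ) * x := mul_nonneg (by linarith) hx0.le
        linarith
      nlinarith [sq_nonneg ‖z‖]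
    · push Not at h8
      have h9 : (1 - 8 * δ) * ‖z‖ ^ 2 ≤ (1 - 8 * δ) * ((1 + δ) * x) ^ 2 := by
        gcongr
      have h10 : ((1 - 2 * δ) * x) * ((1 - δ) * x) ≤ q * z.re := by
        apply mul_le_mul hq1 hre
        · exact mul_nonneg (by linarith) hx0.le
        · positivity
      have h11 : (1 - 8 * δ) * (1 + δ) ^ 2 ≤ (1 - 2 * δ) * (1 - δ) := by nlinarith [sq_nonneg δ, pow_pos hδ0 3]
      calc (1 - 8 * δ) * ‖z‖ ^ 2 ≤ (1 - 8 * δ) * ((1 + δ) * x) ^ 2 := h9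
        _ = ((1 - 8 * δ) * (1 + δ) ^ 2) * x ^ 2 := by ring
        _ ≤ ((1 - 2 * δ) * (1 - δ)) * x ^ 2 := by gcongr
        _ = ((1 - 2 * δ) * x) * ((1 - δ) * x) := by ring
        _ ≤ q * z.re := h10
  have hnn : ‖en w' - en w‖ = ‖kn w' - kn w‖ := by
    rw [kn, kn, ← map_sub, LinearIsometryEquiv.norm_map]
  have hsq : ‖kn w' - kn w‖ ^ 2 ≤ eps ^ 2 := by
    have h1 := norm_sub_sq (𝕜 := ℂ) (kn w) (kn w')
    rw [norm_kn hw, norm_kn hw', inner_kn, kr_en_kn hw hw'] at h1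
    rw [norm_sub_rev, h1]
    have h2 : RCLike.re ((((Real.sqrt (1 - ‖w‖ ^ 2) * Real.sqrt (1 - ‖w'‖ ^ 2) : ℝ) : ℂ)) / (1 - conj w' * w))
        = ((q : ℂ) / z).re := rfl
    rw [h2]
    linarith
  rw [hnn]
  exact le_of_sq_le_sq hsq heps.le

end Pool.Agent.TBirN
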