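import Pool.Agent.TBirN.Fd
import Pool.Agent.TBirN.Fm
import Pool.Agent.TBirN.Ct
import Pool.Agent.TBirN.Dx
import Pool.Agent.TBirN.Cg

/-!
# The local input at a double point with the numbers 1, 0, 0, -1

`A = Tp phi`, `q = phi t1`, `b = a1 + a2`, `δ` from `fq_of`. Near `q` the points of the spectrum (`l ≠ q`) satisfy `re (b (l - q)) < -δ |l - q|` or `> δ |l - q|` (otherwise `Fq`, `form_q`: `l ∉ spectrum`). The part of the spectrum near `q` with `re (b (l - q)) < 0` is in one of the sets `U1`, `U2`: the cone with the signs `-1 -1` is in the spectrum (number `1`), convex, so it is in one of them, `U`. A point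
`l ∉ K` of the spectrum near `q` (number not `0`: both `g j l` inside or both outside, `db_ix`, `lim1`, `lim2`; with `re (b (l - q)) < 0`: both inside) is connected with the cone in `Kᶜ` by `C` of `Cr`, with the constant number `1`, so it is in `U`. A point `l` of `K`, `l ≠ q`, near `q`: `l = phi z`, `A`, `B`, `s` of `Cr`: the numbers of the cones `-1 s`, `1 s` are `ii s`, `ii s - 1`: exactly one is not
zero; that set, `A` or `B`, with `l` added, is preconnected and in the spectrum without `q`, and meets a cone `-1 -1` or `1 1`; with `re (b (l - q)) < 0` it is `-1 -1` (if not, `re (b (l - q)) ≥ 0` by continuity of .. `l` is in the closure of the set, whose points near `l` are outside for both branches). So it is in `U`. The same for `re (b (l - q)) > 0`. Choose `f` = `exists_cut`, `1 - ` it, or a constant `0`, `1`, according to the sets.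
Growth: `form_q` and `|1 - ‖g j‖| ≥ c |l - q|`, `p = 2`. The last condition: `form_q`, `(α + β + γ) (α' + β' + γ') ≤` .. Cauchy-Schwarz for the integral with the weight `‖dbar f‖` and `emb_cut`, `int_cut` (as in `Br.locA`, TBirC/Gl2.lean). `lq_dp`: the first part of `Lq` is `dr_dp`: `Tp phi - q = T (1 - t1 conj e) * TM (mf ..) * T (e - t2)` (`hU`, `x = -1`), `dr_T_bm`, `dr_T_bp` in TBirC/Grw.lean, `DR.mul`, `DR.of_inv`.
-/

set_option autoImplicit false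

open MeasureTheory Complex Set Filter Topology Metric AddCircle
open scoped ComplexConjugate InnerProductSpace ENNReal

namespace Pool.Agent.TBirN

open Pool.Agent.TBir Pool.Agent.TBirG Pool.Agent.TBirC Pool.Agent.TBirJ Pool.Agent.TBirK
open Pool.Agent.TBirP (E qT)
open Pool.Agent.TBirS (DR)

open Pool.Agent.TBirJ.IxAux Pool.Agent.TBirC.PsiAux in
theorem dr_dp {phi : ℂ → ℂ} (hb : MemLp (fun x : UnitAddCircle => phi (e x)) ∞ mu0) {t1 t2 : ℂ}
    (h1 : ‖t1‖ = 1) (h2 : ‖t2‖ = 1) (hU : IsUnit (TM (mf fun y => e y ^ (1 : ℤ) *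
      ((phi (e y) - phi t1) / ((e y - t1) * (e y - t2)))))) :
    DR (Tp phi - phi t1 • (1 : Hardy →L[ℂ] Hardy)) := by
  set b1 : UnitAddCircle → ℂ := fun y => e y ^ (1 : ℤ) *
    ((phi (e y) - phi t1) / ((e y - t1) * (e y - t2))) with hb1
  have hm : MemLp b1 ∞ mu0 := memLp_of_unit hU
  have h3 : mf (fun x => phi (e x) - phi t1) =
      mul (1 - t1 • fourier (-1)) * (mf b1 * mul (fourier 1 - algebraMap ℂ CT t2)) := by
    rw [← mf_ct, ← mf_ct, ← mf_mul hm (memLp_ct _),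
      ← mf_mul (memLp_ct _) (memLp_mul hm (memLp_ct _))]
    refine mf_congr ?_
    have hn0 : mu0 {x : UnitAddCircle | e x ∈ ({t1, t2} : Set ℂ)} = 0 := by
      apply PsiAux.null
      exact (Set.toFinite ({t1, t2} : Set ℂ)).preimage (f := e)
        (fun x _ y _ hxy => PsiAux.e_inj hxy)
    have hn := measure_eq_zero_iff_ae_notMem.1 hn0
    filter_upwards [hn] with y hy
    have hy1 : e y - t1 ≠ 0 := fun h0 => hy (Or.inl (sub_eq_zero.1 h0))
    have hy2 : e y - t2 ≠ 0 := fun h0 => hy (Or.inr (sub_eq_zero.1 h0))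
    have h5 : (1 - t1 • fourier (-1) : CT) y = 1 - t1 * (e y)⁻¹ := by
      rw [ContinuousMap.sub_apply, ContinuousMap.smul_apply, four_e, ContinuousMap.one_apply,
        smul_eq_mul, zpow_neg, zpow_one]
    have h6 : (fourier 1 - algebraMap ℂ CT t2 : CT) y = e y - t2 := by
      rw [ContinuousMap.sub_apply, four_e, zpow_one]
      rfl
    have hy0 := PsiAux.e_ne y
    simp only [h5, h6, hb1, zpow_one]
    field_simp
  have h4 : Tp phi - phi t1 • (1 : Op) = T (1 - t1 • fourier (-1)) *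
      (TM (mf b1) * T (fourier 1 - algebraMap ℂ CT t2)) := by
    rw [← tp_sub hb, h3, TM_minus _ (TBirM.minus_one_sub t1), TM_plus _ (TBirM.plus_sub t2)]
  rw [h4]
  refine DR.mul ?_ (DR.mul ?_ ?_)
  · have h5 : T (1 - t1 • fourier (-1) : CT) = (1 : Hardy →L[ℂ] Hardy) - t1 • Sa := by
      rw [T_sub, T_one, T_smul]
      rfl
    rw [h5]
    exact Pool.Agent.TBirS.dr_one_sub_Sa _
  · exact Pool.Agent.TBirS.DR.of_inv (Ring.mul_inverse_cancel _ hU)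
  · have h5 : T (fourier 1 - algebraMap ℂ CT t2 : CT) = S - t2 • (1 : Hardy →L[ℂ] Hardy) := by
      rw [T_sub, T_algebraMap]
      rfl
    rw [h5]
    exact Pool.Agent.TBirS.dr_S_sub h2


private theorem lo_spec {phi : ℂ → ℂ} (hb : MemLp (fun x : UnitAddCircle => phi (e x)) ∞ mu0)
    (l : ℂ) : l ∈ spectrum ℂ (Tp phi) ↔ ¬ Ix phi l 0 := by
  rw [spectrum.mem_iff, IxAux.ix_zero hb, Algebra.algebraMap_eq_smul_one, ← IsUnit.neg_iff,
    neg_sub]

private theorem lo_cone {a1 a2 q : ℂ} {kap r s1 s2 : ℝ} (hk : 0 ≤ kap) :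
    Convex ℝ (Sx a1 a2 q kap r s1 s2) := by
  have key : ∀ (a : ℂ) (s : ℝ), ConcaveOn ℝ univ fun l : ℂ => s * (a * (l - q)).re -
      kap * ‖l - q‖ := by
    intro a s
    refine ConcaveOn.sub ?_ ?_
    · refine ⟨convex_univ, fun x _ y _ c d _ _ hcd => le_of_eq ?_⟩
      have h1 : c • x + d • y - q = (c : ℂ) * (x - q) + (d : ℂ) * (y - q) := by
        rw [Complex.real_smul, Complex.real_smul]
        have h2 : (c : ℂ) + d = 1 := by exact_mod_cast hcd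
        linear_combination q * h2
      beta_reduce
      rw [h1, mul_add, Complex.add_re, smul_eq_mul, smul_eq_mul]
      have h3 : a * ((c : ℂ) * (x - q)) = (c : ℂ) * (a * (x - q)) := by ring
      have h4 : a * ((d : ℂ) * (y - q)) = (d : ℂ) * (a * (y - q)) := by ring
      rw [h3, h4, Complex.re_ofReal_mul, Complex.re_ofReal_mul]
      ring
    · refine ⟨convex_univ, fun x _ y _ c d hc hd hcd => ?_⟩
      have h1 : c • x + d • y - q = c • (x - q) + d • (y - q) := by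
        rw [smul_sub, smul_sub]
        have h2 : q = c • q + d • q := by rw [← add_smul, hcd, one_smul]
        nth_rewrite 1 [h2]
        abel
      beta_reduce
      rw [h1, smul_eq_mul, smul_eq_mul]
      have h3 : ‖c • (x - q) + d • (y - q)‖ ≤ c * ‖x - q‖ + d * ‖y - q‖ := by
        refine (norm_add_le _ _).trans ?_
        rw [norm_smul, norm_smul, Real.norm_of_nonneg hc, Real.norm_of_nonneg hd]
      nlinarith
  have h1 : Sx a1 a2 q kap r s1 s2 = ball q r ∩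
      ({l | l ∈ univ ∧ 0 < s1 * (a1 * (l - q)).re - kap * ‖l - q‖} ∩
        {l | l ∈ univ ∧ 0 < s2 * (a2 * (l - q)).re - kap * ‖l - q‖}) := by
    ext l
    simp only [Sx, mem_ofPred_eq, mem_inter_iff, mem_univ, true_and, sub_pos]
  rw [h1]
  exact (convex_ball q r).inter (((key a1 s1).convex_gt 0).inter ((key a2 s2).convex_gt 0))

private theorem lo_ii {s : ℝ} (h : s = 1 ∨ s = -1) : (-1 + ii s + ii s : ℤ) ≠ 0 := by
  rcases h with rfl | rfl
  · have : ii (1 : ℝ) = 0 := by unfold ii; norm_num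
    rw [this]
    norm_num
  · have : ii (-1 : ℝ) = 1 := by unfold ii; norm_num
    rw [this]
    norm_num

/-- the number in a cone -/
private theorem lo_m1 {phi : ℂ → ℂ} {K : Set ℂ} {q a1 a2 : ℂ} {kap r rho : ℝ} {g1 g2 : ℂ → ℂ}
    (n1 : ∀ l ∈ ball q rho, l ∉ K →
      Ix phi l (-1 + (if ‖g1 l‖ < 1 then 1 else 0) + if ‖g2 l‖ < 1 then 1 else 0))
    (n2 : ∀ l ∈ ball q rho, l ∉ K → ∀ s1 s2 : ℝ, (s1 = 1 ∨ s1 = -1) → (s2 = 1 ∨ s2 = -1) →
      l ∈ Sx a1 a2 q kap r s1 s2 → (‖g1 l‖ < 1 ↔ s1 = -1) ∧ (‖g2 l‖ < 1 ↔ s2 = -1)) :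
    ∀ l ∈ ball q rho, l ∉ K → ∀ s1 s2 : ℝ, (s1 = 1 ∨ s1 = -1) → (s2 = 1 ∨ s2 = -1) →
      l ∈ Sx a1 a2 q kap r s1 s2 → Ix phi l (-1 + ii s1 + ii s2) := by
  intro l hl hlK s1 s2 h1 h2 hlS
  have h3 := n1 l hl hlK
  obtain ⟨h4, h5⟩ := n2 l hl hlK s1 s2 h1 h2 hlS
  have h6 : (if ‖g1 l‖ < 1 then (1 : ℤ) else 0) = ii s1 := by
    unfold ii
    rcases h1 with rfl | rfl
    · rw [if_neg (by rw [h4]; norm_num), if_neg (by norm_num)]
    · rw [if_pos (h4.2 rfl), if_pos (by norm_num)]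
  have h7 : (if ‖g2 l‖ < 1 then (1 : ℤ) else 0) = ii s2 := by
    unfold ii
    rcases h2 with rfl | rfl
    · rw [if_neg (by rw [h5]; norm_num), if_neg (by norm_num)]
    · rw [if_pos (h5.2 rfl), if_pos (by norm_num)]
  rw [h6, h7] at h3
  exact h3

/-- the part of the spectrum on one side of `q` is in one of the sets -/
private theorem lo_side {phi : ℂ → ℂ} (hb : MemLp (fun x : UnitAddCircle => phi (e x)) ∞ mu0)
    {K U V : Set ℂ} {q a1 a2 : ℂ} {kap r rho rho' δ : ℝ} {g1 g2 : ℂ → ℂ} (hδ : 0 < δ)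
    (hr : r ≤ rho) (hr' : rho' ≤ rho) (hq : q ∈ K) (hU : IsOpen U) (hV : IsOpen V) (hUV : Disjoint U V)
    (n1 : ∀ l ∈ ball q rho, l ∉ K →
      Ix phi l (-1 + (if ‖g1 l‖ < 1 then 1 else 0) + if ‖g2 l‖ < 1 then 1 else 0))
    (n2 : ∀ l ∈ ball q rho, l ∉ K → ∀ s1 s2 : ℝ, (s1 = 1 ∨ s1 = -1) → (s2 = 1 ∨ s2 = -1) →
      l ∈ Sx a1 a2 q kap r s1 s2 → (‖g1 l‖ < 1 ↔ s1 = -1) ∧ (‖g2 l‖ < 1 ↔ s2 = -1))
    (n3 : ∀ l ∈ ball q rho, l ∉ K → ‖g1 l‖ ≠ 1 ∧ ‖g2 l‖ ≠ 1)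
    (n4 : ∀ l ∈ ball q rho, l ∉ K →
      (1 < ‖g1 l‖ → -(δ / 4 * ‖l - q‖) ≤ (a1 * (l - q)).re) ∧
      (‖g1 l‖ < 1 → (a1 * (l - q)).re ≤ δ / 4 * ‖l - q‖) ∧
      (1 < ‖g2 l‖ → -(δ / 4 * ‖l - q‖) ≤ (a2 * (l - q)).re) ∧
      (‖g2 l‖ < 1 → (a2 * (l - q)).re ≤ δ / 4 * ‖l - q‖))
    (n5 : ∀ l ∈ ball q rho, l ≠ q → l ∈ spectrum ℂ (Tp phi) →
      δ * ‖l - q‖ < |((a1 + a2) * (l - q)).re|)
    (n6 : ∀ l ∈ ball q rho, l ∈ spectrum ℂ (Tp phi) → l ≠ q → l ∈ U ∨ l ∈ V)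
    (c1 : ∀ s1 s2 : ℝ, (s1 = 1 ∨ s1 = -1) → (s2 = 1 ∨ s2 = -1) →
      Sx a1 a2 q kap r s1 s2 ⊆ Kᶜ)
    (c4 : ∀ l ∈ ball q rho', l ∉ K → ∃ (C : Set ℂ) (s1 s2 : ℝ), (s1 = 1 ∨ s1 = -1) ∧
      (s2 = 1 ∨ s2 = -1) ∧ IsPreconnected C ∧ l ∈ C ∧ C ⊆ Kᶜ ∧
      (C ∩ Sx a1 a2 q kap r s1 s2).Nonempty ∧ C ⊆ ball q r)
    (c5 : ∀ l ∈ ball q rho', l ∈ K → l ≠ q → ∃ (Z : Set ℂ) (s : ℝ), (s = 1 ∨ s = -1) ∧
      IsPreconnected Z ∧ Z ⊆ Kᶜ ∧ l ∈ closure Z ∧ (Z ∩ Sx a1 a2 q kap r s s).Nonempty ∧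
      Z ⊆ ball q r) {σ : ℝ} (hσ : σ = 1 ∨ σ = -1) (hP : Sx a1 a2 q kap r σ σ ⊆ U) :
    ∀ l ∈ ball q rho', l ∈ spectrum ℂ (Tp phi) → l ≠ q → 0 < σ * ((a1 + a2) * (l - q)).re →
      l ∈ U := by
  have hbr : ball q r ⊆ ball q rho := ball_subset_ball hr
  -- the number in a cone
  have m1 := lo_m1 n1 n2
  have hsp : ∀ l n, Ix phi l n → n ≠ 0 → l ∈ spectrum ℂ (Tp phi) := by
    intro l n h1 h2
    rw [lo_spec hb]
    intro h3
    exact h2 (Ix.unique h1 h3)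
  -- connected sets
  have key : ∀ (Z : Set ℂ) (s : ℝ) (l : ℂ), (s = 1 ∨ s = -1) → IsPreconnected Z → Z ⊆ Kᶜ →
      l ∈ closure Z → (Z ∩ Sx a1 a2 q kap r s s).Nonempty → Z ⊆ ball q r → l ∈ ball q rho →
      l ∈ spectrum ℂ (Tp phi) → l ≠ q → 0 < σ * ((a1 + a2) * (l - q)).re → l ∈ U := by
    intro Z s l hs hZ hZK hlZ hne hZr hl hlS hlq hpos
    obtain ⟨w, hwZ, hwS⟩ := hne
    have hw := m1 w (hbr (hZr hwZ)) (hZK hwZ) s s hs hs hwS
    have hnum : ∀ l' ∈ Z, Ix phi l' (-1 + ii s + ii s) := fun l' hl' =>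
      Ix.of_preconnected hb hZ (fun w hw => ⟨_, n1 w (hbr (hZr hw)) (hZK hw)⟩) hwZ hl' hw
    have hest : ∀ l' ∈ Z, -(δ / 2 * ‖l' - q‖) ≤ s * ((a1 + a2) * (l' - q)).re := by
      intro l' hl'
      have h1 := hnum l' hl'
      have h2 := n1 l' (hbr (hZr hl')) (hZK hl')
      have h3 := Ix.unique h1 h2
      obtain ⟨h4, h5⟩ := n3 l' (hbr (hZr hl')) (hZK hl')
      obtain ⟨p1, p2, p3, p4⟩ := n4 l' (hbr (hZr hl')) (hZK hl')
      rw [add_mul, Complex.add_re]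
      rcases hs with rfl | rfl
      · have e1 : ii (1 : ℝ) = 0 := by unfold ii; norm_num
        rw [e1] at h3
        have h6 : ¬ ‖g1 l'‖ < 1 ∧ ¬ ‖g2 l'‖ < 1 := by
          constructor
          · intro h
            rw [if_pos h] at h3
            split_ifs at h3 <;> omega
          · intro h
            rw [if_pos h] at h3
            split_ifs at h3 <;> omega
        have h7 := p1 (lt_of_le_of_ne (not_lt.1 h6.1) h4.symm)
        have h8 := p3 (lt_of_le_of_ne (not_lt.1 h6.2) h5.symm)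
        linarith
      · have e1 : ii (-1 : ℝ) = 1 := by unfold ii; norm_num
        rw [e1] at h3
        have h6 : ‖g1 l'‖ < 1 ∧ ‖g2 l'‖ < 1 := by
          constructor
          · by_contra h
            rw [if_neg h] at h3
            split_ifs at h3 <;> omega
          · by_contra h
            rw [if_neg h] at h3
            split_ifs at h3 <;> omega
        have h7 := p2 h6.1
        have h8 := p4 h6.2
        linarith
    have hestl : -(δ / 2 * ‖l - q‖) ≤ s * ((a1 + a2) * (l - q)).re := by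
      have hcl : IsClosed {l' : ℂ | -(δ / 2 * ‖l' - q‖) ≤ s * ((a1 + a2) * (l' - q)).re} := by
        apply isClosed_le
        · fun_prop
        · exact continuous_const.mul (Complex.continuous_re.comp (by fun_prop))
      exact hcl.closure_subset_iff.2 hest hlZ
    have hl0 : 0 < ‖l - q‖ := norm_pos_iff.2 (sub_ne_zero.2 hlq)
    have hbig := n5 l hl hlq hlS
    have hsσ : s = σ := by
      by_contra hne
      have h1 : s = -σ := by
        rcases hs with rfl | rfl <;> rcases hσ with rfl | rfl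
        · exact absurd rfl hne
        · norm_num
        · rfl
        · exact absurd rfl hne
      rw [h1] at hestl
      have h2 : |((a1 + a2) * (l - q)).re| = σ * ((a1 + a2) * (l - q)).re := by
        rcases hσ with rfl | rfl
        · rw [one_mul] at hpos ⊢
          exact abs_of_pos hpos
        · rw [neg_one_mul] at hpos ⊢
          exact abs_of_neg (by linarith)
      rw [h2] at hbig
      have h3 : 0 < δ * ‖l - q‖ := by positivity
      linarith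
    subst hsσ
    have hins : IsPreconnected (insert l Z) :=
      hZ.subset_closure (subset_insert _ _) (insert_subset hlZ subset_closure)
    have hcov : insert l Z ⊆ U ∪ V := by
      intro w' hw'
      rcases hw' with rfl | hw'
      · exact n6 w' hl hlS hlq
      · refine n6 w' (hbr (hZr hw')) (hsp _ _ (hnum w' hw') (lo_ii hs)) ?_
        rintro rfl
        exact hZK hw' hq
    rcases hins.subset_or_subset hU hV hUV hcov with h1 | h1
    · exact h1 (mem_insert _ _)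
    · exact absurd (h1 (mem_insert_of_mem _ hwZ)) (disjoint_left.1 hUV (hP hwS))
  intro l hl hlS hlq hpos
  have hlr : l ∈ ball q rho := ball_subset_ball hr' hl
  by_cases hlK : l ∈ K
  · obtain ⟨Z, s, hs, hZ, hZK, hlZ, hne, hZr⟩ := c5 l hl hlK hlq
    exact key Z s l hs hZ hZK hlZ hne hZr hlr hlS hlq hpos
  · obtain ⟨C, s1, s2, hs1, hs2, hC, hlC, hCK, ⟨w, hwC, hwS⟩, hCr⟩ := c4 l hl hlK
    have h1 := m1 w (hbr (hCr hwC)) (hCK hwC) s1 s2 hs1 hs2 hwS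
    have h2 : Ix phi l (-1 + ii s1 + ii s2) :=
      Ix.of_preconnected hb hC (fun w hw => ⟨_, n1 w (hbr (hCr hw)) (hCK hw)⟩) hwC hlC h1
    have h3 : (-1 + ii s1 + ii s2 : ℤ) ≠ 0 := by
      intro h0
      rw [h0] at h2
      exact (lo_spec hb l).1 hlS h2
    have h4 : s1 = s2 := by
      rcases hs1 with rfl | rfl <;> rcases hs2 with rfl | rfl
      · rfl
      · exact absurd (by unfold ii; norm_num) h3
      · exact absurd (by unfold ii; norm_num) h3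
      · rfl
    subst h4
    exact key C s1 l hs1 hC hCK (subset_closure hlC) ⟨w, hwC, hwS⟩ hCr hlr hlS hlq hpos


section form

open Pool.Agent.TBirE (evr)
open Pool.Agent.TBirE
open Pool.Lib (dbar)

/-- The sum and the sum of squares. -/
private theorem lo_sq {n : ℕ} (x : ℝ) (y : Fin n → ℝ) :
    (x + ∑ j, y j) ^ 2 ≤ (n + 1) * (x ^ 2 + ∑ j, y j ^ 2) := by
  have h := sq_sum_le_card_mul_sum_sq (s := (Finset.univ : Finset (Option (Fin n))))
    (f := fun o => o.elim x y)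
  simpa [Fintype.sum_option] using h

/-- A segment from outside the spectrum to the spectrum meets the curve. -/
private theorem lo_evr {z : ℂ} (hz : ‖z‖ ≠ 1) (h : Hardy) :
    ContinuousAt (fun w => evr w h) z := by
  have hev : ∀ w : ℂ, ‖w‖ < 1 → ContinuousAt (fun x => ev x h) w := by
    intro w hw
    have h1 : DifferentiableAt ℂ ev w :=
      ev_diffOn.differentiableAt (isOpen_ball.mem_nhds (by simpa using hw))
    exact h1.continuousAt.clm_apply continuousAt_const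
  rcases lt_or_gt_of_ne hz with h1 | h1
  · have h2 : (fun w => evr w h) =ᶠ[𝓝 z] fun w => ev w h := by
      have : ∀ᶠ w : ℂ in 𝓝 z, ‖w‖ < 1 := continuous_norm.continuousAt.eventually_lt_const h1
      filter_upwards [this] with w hw
      unfold evr
      rw [if_pos hw]
    exact (hev z h1).congr h2.symm
  · have h2 : (fun w => evr w h) =ᶠ[𝓝 z] fun w => ev (conj w)⁻¹ h := by
      have : ∀ᶠ w : ℂ in 𝓝 z, 1 < ‖w‖ := continuous_norm.continuousAt.eventually_const_lt h1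
      filter_upwards [this] with w hw
      unfold evr
      rw [if_neg (not_lt.2 hw.le)]
    have hz0 : conj z ≠ 0 := by
      intro h0
      have : ‖z‖ = 0 := by
        rw [← Complex.norm_conj, h0, norm_zero]
      linarith
    have h3 : ContinuousAt (fun w : ℂ => (conj w)⁻¹) z :=
      (Complex.continuous_conj.continuousAt).inv₀ hz0
    have h4 : ‖(conj z)⁻¹‖ < 1 := by
      rw [norm_inv, Complex.norm_conj]
      exact inv_lt_one_of_one_lt₀ h1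
    have h5 : ContinuousAt (fun w : ℂ => ev (conj w)⁻¹ h) z :=
      ContinuousAt.comp (f := fun w : ℂ => (conj w)⁻¹) (g := fun x => ev x h) (hev _ h4) h3
    exact h5.congr h2.symm

/-- The weighted square integrals. -/
private theorem lo_int {k : ℕ} {D : Set ℂ} (hD : MeasurableSet D) {w : ℂ → ℝ≥0∞} {A : ℝ≥0∞}
    (hA : ∫⁻ l in D, w l ≤ A) (hAt : A < ⊤) (hw : AEMeasurable w (volume.restrict D))
    {v : Fin k → Hardy → ℂ → ℂ}
    (hv : ∀ j h, AEMeasurable (fun l => ‖v j h l‖ₑ) (volume.restrict D)) {K : Fin k → ℝ}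
    (hK : ∀ j h, ∫⁻ l in D, w l * ‖v j h l‖ₑ ^ 2 ≤ ENNReal.ofReal (K j * ‖h‖ ^ 2)) :
    ∃ K2 : ℝ, 0 ≤ K2 ∧ ∀ h : Hardy,
      ∫⁻ l in D, w l * ENNReal.ofReal (‖h‖ ^ 2 + ∑ j, ‖v j h l‖ ^ 2) ≤
        ENNReal.ofReal (K2 * ‖h‖ ^ 2) := by
  refine ⟨A.toReal + ∑ j, |K j|, by positivity, fun h => ?_⟩
  have e1 : ∀ l, w l * ENNReal.ofReal (‖h‖ ^ 2 + ∑ j, ‖v j h l‖ ^ 2) =
      ENNReal.ofReal (‖h‖ ^ 2) * w l + ∑ j, w l * ‖v j h l‖ₑ ^ 2 := by
    intro l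
    rw [ENNReal.ofReal_add (by positivity) (by positivity),
      ENNReal.ofReal_sum_of_nonneg (fun j _ => by positivity), mul_add, Finset.mul_sum,
      mul_comm (w l) (ENNReal.ofReal (‖h‖ ^ 2))]
    congr 1
    refine Finset.sum_congr rfl fun j _ => ?_
    rw [ENNReal.ofReal_pow (norm_nonneg _), ofReal_norm]
  simp_rw [e1]
  have hm : ∀ j, AEMeasurable (fun l => w l * ‖v j h l‖ₑ ^ 2) (volume.restrict D) :=
    fun j => hw.mul ((hv j h).pow_const 2)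
  rw [lintegral_add_left' (hw.const_mul _),
    lintegral_const_mul' _ _ ENNReal.ofReal_ne_top,
    lintegral_finsetSum' _ (fun j _ => hm j)]
  have h1 : ENNReal.ofReal (‖h‖ ^ 2) * ∫⁻ l in D, w l ≤
      ENNReal.ofReal (A.toReal * ‖h‖ ^ 2) := by
    rw [mul_comm A.toReal, ENNReal.ofReal_mul (by positivity), ENNReal.ofReal_toReal hAt.ne]
    gcongr
  have h2 : ∑ j, ∫⁻ l in D, w l * ‖v j h l‖ₑ ^ 2 ≤
      ENNReal.ofReal ((∑ j, |K j|) * ‖h‖ ^ 2) := by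
    rw [Finset.sum_mul, ENNReal.ofReal_sum_of_nonneg (fun j _ => by positivity)]
    refine Finset.sum_le_sum fun j _ => (hK j h).trans ?_
    refine ENNReal.ofReal_le_ofReal ?_
    gcongr
    exact le_abs_self _
  refine (add_le_add h1 h2).trans ?_
  rw [← ENNReal.ofReal_add (by positivity) (by positivity), add_mul]

/-- The bound of the form. -/
private theorem lo_form {k : ℕ} {D : Set ℂ} {w : ℂ → ℝ≥0∞}
    (hw : AEMeasurable w (volume.restrict D)) (hD : MeasurableSet D)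
    {v : Fin k → Hardy → ℂ → ℂ}
    (hv : ∀ j h, AEMeasurable (fun l => ‖v j h l‖ₑ) (volume.restrict D)) {C K2 : ℝ}
    (hC : 0 ≤ C) (hK20 : 0 ≤ K2)
    (hK2 : ∀ h : Hardy, ∫⁻ l in D, w l * ENNReal.ofReal (‖h‖ ^ 2 + ∑ j, ‖v j h l‖ ^ 2) ≤
        ENNReal.ofReal (K2 * ‖h‖ ^ 2)) {F : ℂ → Hardy →L[ℂ] Hardy}
    (hF : ∀ l ∈ D, ∀ f g : Hardy, ‖inner ℂ g (F l f)‖ ≤
      C * ((‖f‖ + ∑ j, ‖v j f l‖) * (‖g‖ + ∑ j, ‖v j g l‖))) (f g : Hardy) :
    ∫⁻ l in D, w l * ‖inner ℂ g (F l f)‖ₑ ≤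
      ENNReal.ofReal (C * (k + 1) * K2 * ‖f‖ * ‖g‖) := by
  rcases eq_or_ne f 0 with hf | hf
  · subst hf
    simp
  rcases eq_or_ne g 0 with hg | hg
  · subst hg
    simp
  have hf0 : 0 < ‖f‖ := norm_pos_iff.2 hf
  have hg0 : 0 < ‖g‖ := norm_pos_iff.2 hg
  obtain ⟨t, ht0, ht1, ht2⟩ : ∃ t : ℝ, 0 < t ∧ t * ‖f‖ ^ 2 = ‖f‖ * ‖g‖ ∧
      t⁻¹ * ‖g‖ ^ 2 = ‖f‖ * ‖g‖ := by
    refine ⟨‖g‖ / ‖f‖, by positivity, by field_simp, ?_⟩
    rw [inv_div]
    field_simp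
  set C1 : ℝ := C * (k + 1) / 2 with hC1
  have hC10 : 0 ≤ C1 := by positivity
  have hpt : ∀ l ∈ D, w l * ‖inner ℂ g (F l f)‖ₑ ≤
      ENNReal.ofReal (C1 * t) * (w l * ENNReal.ofReal (‖f‖ ^ 2 + ∑ j, ‖v j f l‖ ^ 2)) +
      ENNReal.ofReal (C1 * t⁻¹) * (w l * ENNReal.ofReal (‖g‖ ^ 2 + ∑ j, ‖v j g l‖ ^ 2)) := by
    intro l hl
    have h1 := hF l hl f g
    have h2 := lo_sq ‖f‖ (fun j => ‖v j f l‖)
    have h3 := lo_sq ‖g‖ (fun j => ‖v j g l‖)
    set a : ℝ := ‖f‖ + ∑ j, ‖v j f l‖ with ha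
    set b : ℝ := ‖g‖ + ∑ j, ‖v j g l‖ with hb
    set nf : ℝ := ‖f‖ ^ 2 + ∑ j, ‖v j f l‖ ^ 2 with hnf
    set ng : ℝ := ‖g‖ ^ 2 + ∑ j, ‖v j g l‖ ^ 2 with hng
    have hnf0 : 0 ≤ nf := by positivity
    have hng0 : 0 ≤ ng := by positivity
    have h4 : a * b ≤ (t * a ^ 2 + t⁻¹ * b ^ 2) / 2 := by
      have h5 : 0 ≤ t * (a - t⁻¹ * b) ^ 2 := by positivity
      have h6 : t * (a - t⁻¹ * b) ^ 2 = t * a ^ 2 - 2 * (a * b) + t⁻¹ * b ^ 2 := by
        field_simp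
        ring
      linarith
    have h5 : ‖inner ℂ g (F l f)‖ ≤ C1 * t * nf + C1 * t⁻¹ * ng := by
      have h6 : t * a ^ 2 ≤ t * ((k + 1) * nf) := mul_le_mul_of_nonneg_left h2 ht0.le
      have h7 : t⁻¹ * b ^ 2 ≤ t⁻¹ * ((k + 1) * ng) :=
        mul_le_mul_of_nonneg_left h3 (inv_pos.2 ht0).le
      have h8 : a * b ≤ (t * ((k + 1) * nf) + t⁻¹ * ((k + 1) * ng)) / 2 := by linarith
      calc ‖inner ℂ g (F l f)‖ ≤ C * (a * b) := h1
        _ ≤ C * ((t * ((k + 1) * nf) + t⁻¹ * ((k + 1) * ng)) / 2) :=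
          mul_le_mul_of_nonneg_left h8 hC
        _ = C1 * t * nf + C1 * t⁻¹ * ng := by rw [hC1]; ring
    have h6 : ‖inner ℂ g (F l f)‖ₑ ≤ ENNReal.ofReal (C1 * t) * ENNReal.ofReal nf +
        ENNReal.ofReal (C1 * t⁻¹) * ENNReal.ofReal ng := by
      rw [← ofReal_norm, ← ENNReal.ofReal_mul (by positivity), ← ENNReal.ofReal_mul (by positivity),
        ← ENNReal.ofReal_add (by positivity) (by positivity)]
      exact ENNReal.ofReal_le_ofReal h5
    calc w l * ‖inner ℂ g (F l f)‖ₑ ≤ w l * (ENNReal.ofReal (C1 * t) * ENNReal.ofReal nf +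
        ENNReal.ofReal (C1 * t⁻¹) * ENNReal.ofReal ng) := by gcongr
      _ = _ := by ring
  have hms : ∀ h : Hardy, AEMeasurable
      (fun l => w l * ENNReal.ofReal (‖h‖ ^ 2 + ∑ j, ‖v j h l‖ ^ 2)) (volume.restrict D) := by
    intro h
    refine hw.mul (ENNReal.measurable_ofReal.comp_aemeasurable ?_)
    refine aemeasurable_const.add ?_
    refine Finset.aemeasurable_fun_sum _ fun j _ => ?_
    refine AEMeasurable.pow_const ?_ 2
    have := (hv j h).ennreal_toReal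
    simpa using this
  calc ∫⁻ l in D, w l * ‖inner ℂ g (F l f)‖ₑ
      ≤ ∫⁻ l in D, (ENNReal.ofReal (C1 * t) * (w l * ENNReal.ofReal (‖f‖ ^ 2 + ∑ j, ‖v j f l‖ ^ 2)) +
      ENNReal.ofReal (C1 * t⁻¹) * (w l * ENNReal.ofReal (‖g‖ ^ 2 + ∑ j, ‖v j g l‖ ^ 2))) := by
        refine lintegral_mono_ae ?_
        filter_upwards [ae_restrict_mem hD] with l hl
        exact hpt l hl
    _ = ENNReal.ofReal (C1 * t) * (∫⁻ l in D, w l * ENNReal.ofReal (‖f‖ ^ 2 + ∑ j, ‖v j f l‖ ^ 2)) +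
      ENNReal.ofReal (C1 * t⁻¹) *
        (∫⁻ l in D, w l * ENNReal.ofReal (‖g‖ ^ 2 + ∑ j, ‖v j g l‖ ^ 2)) := by
        rw [lintegral_add_left' ((hms f).const_mul _),
          lintegral_const_mul' _ _ ENNReal.ofReal_ne_top,
          lintegral_const_mul' _ _ ENNReal.ofReal_ne_top]
    _ ≤ ENNReal.ofReal (C1 * t) * ENNReal.ofReal (K2 * ‖f‖ ^ 2) +
        ENNReal.ofReal (C1 * t⁻¹) * ENNReal.ofReal (K2 * ‖g‖ ^ 2) := by
        gcongr
        · exact hK2 f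
        · exact hK2 g
    _ = ENNReal.ofReal (C * (k + 1) * K2 * ‖f‖ * ‖g‖) := by
        rw [← ENNReal.ofReal_mul (by positivity), ← ENNReal.ofReal_mul (by positivity),
          ← ENNReal.ofReal_add (by positivity) (by positivity)]
        congr 1
        have h1 : C1 * t * (K2 * ‖f‖ ^ 2) + C1 * t⁻¹ * (K2 * ‖g‖ ^ 2) =
            C1 * K2 * (t * ‖f‖ ^ 2) + C1 * K2 * (t⁻¹ * ‖g‖ ^ 2) := by ring
        rw [h1, ht1, ht2, hC1]
        ring


private theorem lo_loc {A : Op} {N : ℂ → Op} {U1 U2 : Set ℂ} {q : ℂ} {G : Fin 2 → ℂ → ℂ}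
    {f : ℂ → ℂ} {C C1 c : ℝ} (hc : 0 < c) (hC1 : 0 ≤ C1)
    (hfC : ContDiffOn ℝ 1 f {q}ᶜ) (hfv : ∀ l, ∃ t : ℝ, 0 ≤ t ∧ t ≤ 1 ∧ f l = t)
    (hfd : ∀ l, l ≠ q → ‖dbar f l‖ ≤ C * ‖l - q‖⁻¹) (hG : ∀ j, Continuous (G j))
    (hG0 : ∀ᶠ l in 𝓝 q, ∀ j, G j l ≠ 0)
    (h1 : ∀ᶠ l in 𝓝 q, l ∈ spectrum ℂ A → l ≠ q → l ∈ U1 → ∀ᶠ l' in 𝓝 l, f l' = 1)
    (h2 : ∀ᶠ l in 𝓝 q, l ∈ spectrum ℂ A → l ≠ q → l ∈ U2 → ∀ᶠ l' in 𝓝 l, f l' = 0)
    (h3 : ∀ᶠ l in 𝓝 q, l ≠ q → (dbar f l ≠ 0 ∨ (f l ≠ 0 ∧ f l ≠ 1)) →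
      l ∉ spectrum ℂ A ∧ (∀ j, c * ‖l - q‖ ≤ |1 - ‖G j l‖|) ∧
      (∏ j, |1 - ‖G j l‖|) * ‖resolvent A l‖ ≤ C1 ∧ ∀ f g : Hardy,
        ‖inner ℂ g ((resolvent A l - N l) f)‖ ≤
        C1 * ((‖f‖ + ∑ j, ‖evr (G j l) f‖) * (‖g‖ + ∑ j, ‖evr (G j l) g‖))) :
    LocA A N U1 U2 q := by
  obtain ⟨rho, hrho, hnear⟩ := Metric.eventually_nhds_iff_ball.1 (hG0.and (h1.and (h2.and h3)))
  have hemb := fun j => emb_cut (q := q) (f := f) (C := C) hc hfd (g := G j)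
  choose R0 hR0 K hK using hemb
  obtain ⟨R, hR, hRrho, hRR⟩ : ∃ R : ℝ, 0 < R ∧ R ≤ rho ∧ ∀ j, R ≤ R0 j := by
    refine ⟨min rho (min (R0 0) (R0 1)), lt_min hrho (lt_min (hR0 0) (hR0 1)), min_le_left _ _,
      fun j => ?_⟩
    fin_cases j
    · exact (min_le_right _ _).trans (min_le_left _ _)
    · exact (min_le_right _ _).trans (min_le_right _ _)
  have hn := fun l (hl : l ∈ ball q R) => hnear l (ball_subset_ball hRrho hl)
  have hint : ∫⁻ l in ball q R, ‖dbar f l‖ₑ < ⊤ := int_cut hfd hR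
  have hKR : ∀ j (h : Hardy), ∫⁻ l in ball q R, ‖dbar f l‖ₑ * ‖evr (G j l) h‖ₑ ^ 2 ≤
      ENNReal.ofReal (K j * ‖h‖ ^ 2) := by
    intro j h
    refine hK j R hR (hRR j) (fun l hl hlq hd => ?_) h
    obtain ⟨p0, -, -, p3⟩ := hn l hl
    exact ⟨(p3 hlq (Or.inl hd)).2.1 j, p0 j⟩
  -- the open set of integration
  have hdb : ContinuousOn (dbar f) {q}ᶜ := by
    have h1 : ContinuousOn (fderiv ℝ f) {q}ᶜ :=
      hfC.continuousOn_fderiv_of_isOpen isOpen_compl_singleton le_rfl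
    unfold Pool.Lib.dbar
    exact ((h1.clm_apply continuousOn_const).add
      (continuousOn_const.mul (h1.clm_apply continuousOn_const))).div_const 2
  set D : Set ℂ := {l | (l ∈ ball q R ∧ l ≠ q) ∧ dbar f l ≠ 0} with hDdef
  have hDo : IsOpen D := by
    have h1 : IsOpen ((ball q R ∩ {q}ᶜ) ∩ dbar f ⁻¹' {0}ᶜ) :=
      (hdb.mono inter_subset_right).isOpen_inter_preimage
        (isOpen_ball.inter isOpen_compl_singleton) isOpen_compl_singleton
    exact h1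
  have hDm : MeasurableSet D := hDo.measurableSet
  have hDR : D ⊆ ball q R := fun l hl => hl.1.1
  have hwm : AEMeasurable (fun l => ‖dbar f l‖ₑ) (volume.restrict D) := by
    have h1 : ContinuousOn (fun l => ‖dbar f l‖ₑ) D :=
      (hdb.mono fun l hl => hl.1.2).enorm
    exact h1.aemeasurable hDm
  have hvm : ∀ (j : Fin 2) (h : Hardy),
      AEMeasurable (fun l => ‖evr (G j l) h‖ₑ) (volume.restrict D) := by
    intro j h
    have h1 : ContinuousOn (fun l => ‖evr (G j l) h‖ₑ) D := by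
      intro l hl
      have h4 : ‖G j l‖ ≠ 1 := by
        intro h6
        obtain ⟨-, -, -, p3⟩ := hn l hl.1.1
        have h7 := (p3 hl.1.2 (Or.inl hl.2)).2.1 j
        rw [h6, sub_self, abs_zero] at h7
        have h8 : 0 < ‖l - q‖ := norm_pos_iff.2 (sub_ne_zero.2 hl.1.2)
        have h9 : 0 < c * ‖l - q‖ := by positivity
        linarith
      have h5 : ContinuousAt (fun l => evr (G j l) h) l :=
        ContinuousAt.comp (f := G j) (g := fun w => evr w h) (lo_evr h4 h) (hG j).continuousAt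
      exact h5.enorm.continuousWithinAt
    exact h1.aemeasurable hDm
  obtain ⟨K2, hK20, hK2⟩ := lo_int (v := fun j h l => evr (G j l) h) (K := K) hDm
    (lintegral_mono_set hDR) hint hwm hvm (fun j h => (lintegral_mono_set hDR).trans (hKR j h))
  refine ⟨R, f, C1 / c ^ 2, 2, hR, hfC, hfv, ?_, ?_, ?_, hint, ?_⟩
  · exact fun l hl hlq hS hU => (hn l hl).2.1 hS hlq hU
  · exact fun l hl hlq hS hU => (hn l hl).2.2.1 hS hlq hU
  · intro l hl hlq hd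
    obtain ⟨-, -, -, p3⟩ := hn l hl
    obtain ⟨q1, q2, q3, -⟩ := p3 hlq hd
    refine ⟨q1, ?_⟩
    rw [le_div_iff₀ (by positivity)]
    refine le_trans ?_ q3
    rw [Fin.prod_univ_two]
    have h4 : (c * ‖l - q‖) * (c * ‖l - q‖) ≤ |1 - ‖G 0 l‖| * |1 - ‖G 1 l‖| :=
      mul_le_mul (q2 0) (q2 1) (by positivity) (abs_nonneg _)
    calc ‖l - q‖ ^ 2 * ‖resolvent A l‖ * c ^ 2
        = (c * ‖l - q‖) * (c * ‖l - q‖) * ‖resolvent A l‖ := by ring
      _ ≤ _ := mul_le_mul_of_nonneg_right h4 (norm_nonneg _)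
  · refine ⟨C1 * ((2 : ℕ) + 1) * K2, fun f' g' => ?_⟩
    have h4 := lo_form (v := fun j h l => evr (G j l) h) hwm hDm hvm hC1 hK20 hK2
      (F := fun l => resolvent A l - N l)
      (fun l hl f g => by
        obtain ⟨-, -, -, p3⟩ := hn l hl.1.1
        exact (p3 hl.1.2 (Or.inl hl.2)).2.2.2 f g) f' g'
    refine le_trans ?_ h4
    have h2 : ∫⁻ l in ball q R, ‖dbar f l‖ₑ *
        ‖inner ℂ g' ((resolvent A l - N l) f')‖ₑ ≤
        ∫⁻ l in ball q R, D.indicator (fun l => ‖dbar f l‖ₑ *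
        ‖inner ℂ g' ((resolvent A l - N l) f')‖ₑ) l := by
      refine lintegral_mono_ae ?_
      have h3 : ∀ᵐ l : ℂ ∂(volume.restrict (ball q R)), l ≠ q :=
        ae_restrict_of_ae (by simp [ae_iff])
      filter_upwards [ae_restrict_mem measurableSet_ball, h3] with l hl hlq
      by_cases h4 : l ∈ D
      · rw [indicator_of_mem h4]
      · have h5 : dbar f l = 0 := by
          by_contra h5
          exact h4 ⟨⟨hl, hlq⟩, h5⟩
        rw [h5]
        simp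
    refine h2.trans ?_
    rw [lintegral_indicator hDm, Measure.restrict_restrict hDm, inter_eq_left.2 hDR]

end form


private theorem lo_lim {K : Set ℂ} {q a t : ℂ} {g : ℂ → ℂ} {δ : ℝ} (hδ : 0 < δ) (ht : ‖t‖ = 1)
    (h : ∀ eps > 0, ∀ᶠ l in 𝓝 q, l ∉ K → ‖g l - t * (1 + a * (l - q))‖ ≤ eps * ‖l - q‖) :
    ∀ᶠ l in 𝓝 q, l ∉ K → (1 < ‖g l‖ → -(δ * ‖l - q‖) ≤ (a * (l - q)).re) ∧
      (‖g l‖ < 1 → (a * (l - q)).re ≤ δ * ‖l - q‖) := by
  have h1 : ∀ᶠ l in 𝓝 q, (‖a‖ ^ 2 + δ + 1) * ‖l - q‖ < min δ 1 := by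
    have h2 : Tendsto (fun l : ℂ => (‖a‖ ^ 2 + δ + 1) * ‖l - q‖) (𝓝 q) (𝓝 0) := by
      have h3 : Continuous fun l : ℂ => (‖a‖ ^ 2 + δ + 1) * ‖l - q‖ := by fun_prop
      have h4 := h3.tendsto q
      simpa using h4
    exact h2.eventually_lt_const (lt_min hδ one_pos)
  filter_upwards [h1, h (δ / 2) (by positivity)] with l h2 h3 hlK
  have h4 := h3 hlK
  set x : ℝ := ‖l - q‖ with hx
  have hx0 : 0 ≤ x := norm_nonneg _
  set w : ℂ := a * (l - q) with hw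
  have hwn : ‖w‖ = ‖a‖ * x := norm_mul _ _
  have h5 : ‖t * (1 + w)‖ = ‖1 + w‖ := by rw [norm_mul, ht, one_mul]
  have h6 : ‖1 + w‖ ^ 2 = 1 + 2 * w.re + ‖w‖ ^ 2 := by
    rw [Complex.sq_norm, Complex.sq_norm, Complex.normSq_apply, Complex.normSq_apply,
      Complex.add_re, Complex.add_im, Complex.one_re, Complex.one_im]
    ring
  have hmin1 : (‖a‖ ^ 2 + δ + 1) * x < δ := h2.trans_le (min_le_left _ _)
  have hmin2 : (‖a‖ ^ 2 + δ + 1) * x < 1 := h2.trans_le (min_le_right _ _)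
  have h7 : ‖a‖ ^ 2 * x ≤ δ := by nlinarith [sq_nonneg ‖a‖]
  have h8 : δ * x ≤ 1 := by nlinarith [sq_nonneg ‖a‖, mul_nonneg (sq_nonneg ‖a‖) hx0]
  have h9 : ‖w‖ ^ 2 ≤ δ * x := by
    rw [hwn, mul_pow]
    nlinarith [mul_le_mul_of_nonneg_right h7 hx0]
  constructor
  · intro h10
    have h11 : 1 - δ / 2 * x ≤ ‖1 + w‖ := by
      have h12 : ‖g l‖ ≤ ‖g l - t * (1 + w)‖ + ‖t * (1 + w)‖ := by
        have := norm_add_le (g l - t * (1 + w)) (t * (1 + w))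
        rwa [sub_add_cancel] at this
      rw [h5] at h12
      linarith
    have h12 : (1 - δ / 2 * x) ^ 2 ≤ ‖1 + w‖ ^ 2 := pow_le_pow_left₀ (by linarith) h11 2
    rw [h6] at h12
    nlinarith [sq_nonneg (δ / 2 * x)]
  · intro h10
    have h11 : ‖1 + w‖ ≤ 1 + δ / 2 * x := by
      have h12 : ‖t * (1 + w)‖ ≤ ‖g l‖ + ‖g l - t * (1 + w)‖ := by
        have := norm_sub_le (g l) (g l - t * (1 + w))
        rwa [sub_sub_cancel] at this
      rw [h5] at h12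
      linarith
    have h12 : ‖1 + w‖ ^ 2 ≤ (1 + δ / 2 * x) ^ 2 := pow_le_pow_left₀ (norm_nonneg _) h11 2
    rw [h6] at h12
    have h13 : 0 ≤ ‖w‖ ^ 2 := sq_nonneg _
    have h14 : δ * x * (δ * x) ≤ 1 * (δ * x) := mul_le_mul_of_nonneg_right h8 (by positivity)
    nlinarith

open Pool.Agent.TBirE (evr) in
open Pool.Lib (dbar) in
theorem lq_dp {phi : ℂ → ℂ} {F : Finset ℂ} {u v : ℂ → ℂ} {t1 t2 : ℂ} (h : PwC phi F u v)
    (hd : Dp phi F t1 t2) (hs : ∀ t ∈ F, phi t1 ∉ segment ℝ (u t) (v t)) {g1 g2 : ℂ → ℂ}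
    (hD : Db phi (Gam phi F u v) t1 t2 (I / tg phi t1) (I / tg phi t2) (-1) g1 g2) :
    Lq phi (phi t1) := by
  have hb : MemLp (fun x : UnitAddCircle => phi (e x)) ∞ mu0 := memLp_cv h.cv
  have hU := hD.unit
  refine ⟨fun _ => dr_dp hb hd.n1 hd.n2 (by simpa only [neg_neg] using hU), ?_⟩
  intro U1 U2 hU1 hU2 hdis hcov
  obtain ⟨δ, C0, c, hδ, hC0, hc, hfq⟩ := fq_of h hd hU
  have hcr := cr_of h hd.toDt hs
  set a1 : ℂ := I / tg phi t1 with ha1
  set a2 : ℂ := I / tg phi t2 with ha2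
  set q : ℂ := phi t1 with hq
  set K : Set ℂ := Gam phi F u v with hK
  have hqK : q ∈ K := Or.inl ⟨t1, ⟨mem_sphere_zero_iff_norm.2 hd.n1, hd.f1⟩, rfl⟩
  set A : Op := Tp phi with hA
  have hAM : A = TM (mf fun y => phi (e y)) := rfl
  set M : Op2 := mf fun y => phi (e y) with hM
  set G : Fin 2 → ℂ → ℂ := ![fun l => t1 * (1 + a1 * (l - q)), fun l => t2 * (1 + a2 * (l - q))]
    with hG
  have hGc : ∀ j, Continuous (G j) := by
    intro j
    fin_cases j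
    · show Continuous fun l => t1 * (1 + a1 * (l - q))
      fun_prop
    · show Continuous fun l => t2 * (1 + a2 * (l - q))
      fun_prop
  have hG0 : G 0 q = t1 := by
    show t1 * (1 + a1 * (q - q)) = t1
    rw [sub_self, mul_zero, add_zero, mul_one]
  have hG1 : G 1 q = t2 := by
    show t2 * (1 + a2 * (q - q)) = t2
    rw [sub_self, mul_zero, add_zero, mul_one]
  have h12 : 0 < ‖t1 - t2‖ := norm_pos_iff.2 (sub_ne_zero.2 hd.ne)
  obtain ⟨s0, hs0, hs1, hs2, hs3⟩ : ∃ s0 : ℝ, 0 < s0 ∧ s0 ≤ 1 ∧ s0 ≤ 1 / 2 ∧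
      s0 ≤ ‖t1 - t2‖ / 2 := by
    refine ⟨min (1 / 2) (‖t1 - t2‖ / 2), lt_min (by norm_num) (by positivity), ?_, min_le_left _ _,
      min_le_right _ _⟩
    exact (min_le_left _ _).trans (by norm_num)
  obtain ⟨C1, hC1, hform⟩ := form_q hC0 hs0 hs1
  -- near `q`
  have hGn : ∀ᶠ l in 𝓝 q, (1 / 2 < ‖G 0 l‖ ∧ ‖G 0 l‖ < 2) ∧ (1 / 2 < ‖G 1 l‖ ∧ ‖G 1 l‖ < 2) ∧
      ‖t1 - t2‖ / 2 < ‖G 0 l - G 1 l‖ := by
    have e0 : ContinuousAt (fun l => ‖G 0 l‖) q := (hGc 0).norm.continuousAt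
    have e1 : ContinuousAt (fun l => ‖G 1 l‖) q := (hGc 1).norm.continuousAt
    have e2 : ContinuousAt (fun l => ‖G 0 l - G 1 l‖) q := ((hGc 0).sub (hGc 1)).norm.continuousAt
    refine ((e0.eventually_const_lt ?_).and (e0.eventually_lt_const ?_)).and
      (((e1.eventually_const_lt ?_).and (e1.eventually_lt_const ?_)).and
        (e2.eventually_const_lt ?_))
    · beta_reduce; rw [hG0, hd.n1]; norm_num
    · beta_reduce; rw [hG0, hd.n1]; norm_num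
    · beta_reduce; rw [hG1, hd.n2]; norm_num
    · beta_reduce; rw [hG1, hd.n2]; norm_num
    · beta_reduce; rw [hG0, hG1]; linarith
  have hnear : ∀ᶠ l in 𝓝 q, l ≠ q → |((a1 + a2) * (l - q)).re| ≤ δ * ‖l - q‖ →
      l ∉ spectrum ℂ A ∧ (∀ j, c * ‖l - q‖ ≤ |1 - ‖G j l‖|) ∧
      (∏ j, |1 - ‖G j l‖|) * ‖resolvent A l‖ ≤ C1 ∧ ∀ f g : Hardy,
        ‖inner ℂ g ((resolvent A l - TM (resolvent M l)) f)‖ ≤
        C1 * ((‖f‖ + ∑ j, ‖evr (G j l) f‖) * (‖g‖ + ∑ j, ‖evr (G j l) g‖)) := by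
    filter_upwards [hfq, hGn] with l h1 h2 hlq hre
    obtain ⟨p1, p2, p3, p4⟩ := h1 hlq hre
    obtain ⟨⟨q1, q2⟩, ⟨q3, q4⟩, q5⟩ := h2
    have hl0 : 0 < ‖l - q‖ := norm_pos_iff.2 (sub_ne_zero.2 hlq)
    have hcl : 0 < c * ‖l - q‖ := by positivity
    have r1 : ‖G 0 l‖ ≠ 1 := by
      intro h0
      have p1' : c * ‖l - q‖ ≤ |1 - ‖G 0 l‖| := p1
      rw [h0, sub_self, abs_zero] at p1'
      linarith
    have r2 : ‖G 1 l‖ ≠ 1 := by
      intro h0
      have p2' : c * ‖l - q‖ ≤ |1 - ‖G 1 l‖| := p2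
      rw [h0, sub_self, abs_zero] at p2'
      linarith
    obtain ⟨f1, f2, f3⟩ := hform M l (G 0 l) (G 1 l) (Cm.mf _) (by linarith) q2.le (by linarith)
      q4.le r1 r2 (by linarith) p3 p4
    refine ⟨f1, fun j => ?_, ?_, fun f g => ?_⟩
    · fin_cases j
      · exact p1
      · exact p2
    · rw [Fin.prod_univ_two]
      exact f2
    · rw [Fin.sum_univ_two, Fin.sum_univ_two, ← add_assoc, ← add_assoc]
      exact f3 f g
  -- the two sides
  obtain ⟨kap, hkap, hcr⟩ := hcr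
  obtain ⟨r0, hr0, hcr⟩ := hcr kap hkap le_rfl
  have hn4 := (lo_lim (δ := δ / 4) (by positivity) hd.n1 hD.lim1).and
    (lo_lim (δ := δ / 4) (by positivity) hd.n2 hD.lim2)
  obtain ⟨rho, hrho, hball⟩ := Metric.eventually_nhds_iff_ball.1
    ((db_ix hb hD).and ((db_sx (r := r0) hD hkap).and (hD.off.and (hn4.and (hnear.and hcov)))))
  obtain ⟨r, hr, hrr0, hrrho⟩ : ∃ r : ℝ, 0 < r ∧ r ≤ r0 ∧ r ≤ rho :=
    ⟨min r0 rho, lt_min hr0 hrho, min_le_left _ _, min_le_right _ _⟩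
  obtain ⟨c1, c2, c3, c4, c5⟩ := hcr r hr hrr0
  have hbr : ball q r ⊆ ball q rho := ball_subset_ball hrrho
  have hSr : ∀ s1 s2 : ℝ, Sx a1 a2 q kap r s1 s2 ⊆ Sx a1 a2 q kap r0 s1 s2 := fun s1 s2 l hl =>
    ⟨ball_subset_ball hrr0 hl.1, hl.2⟩
  have n1 : ∀ l ∈ ball q rho, l ∉ K →
      Ix phi l (-1 + (if ‖g1 l‖ < 1 then 1 else 0) + if ‖g2 l‖ < 1 then 1 else 0) :=
    fun l hl hlK => (hball l hl).1 hlK
  have n2 : ∀ l ∈ ball q rho, l ∉ K → ∀ s1 s2 : ℝ, (s1 = 1 ∨ s1 = -1) → (s2 = 1 ∨ s2 = -1) →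
      l ∈ Sx a1 a2 q kap r s1 s2 → (‖g1 l‖ < 1 ↔ s1 = -1) ∧ (‖g2 l‖ < 1 ↔ s2 = -1) :=
    fun l hl hlK s1 s2 hs1 hs2 hlS => (hball l hl).2.1 hlK s1 s2 hs1 hs2 (hSr s1 s2 hlS)
  have n3 : ∀ l ∈ ball q rho, l ∉ K → ‖g1 l‖ ≠ 1 ∧ ‖g2 l‖ ≠ 1 :=
    fun l hl hlK => (hball l hl).2.2.1 hlK
  have n4 : ∀ l ∈ ball q rho, l ∉ K →
      (1 < ‖g1 l‖ → -(δ / 4 * ‖l - q‖) ≤ (a1 * (l - q)).re) ∧
      (‖g1 l‖ < 1 → (a1 * (l - q)).re ≤ δ / 4 * ‖l - q‖) ∧
      (1 < ‖g2 l‖ → -(δ / 4 * ‖l - q‖) ≤ (a2 * (l - q)).re) ∧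
      (‖g2 l‖ < 1 → (a2 * (l - q)).re ≤ δ / 4 * ‖l - q‖) := by
    intro l hl hlK
    obtain ⟨-, -, -, ⟨p1, p2⟩, -⟩ := hball l hl
    have p2' : l ∉ K → (1 < ‖g2 l‖ → -(δ / 4 * ‖l - q‖) ≤ (a2 * (l - q)).re) ∧
      (‖g2 l‖ < 1 → (a2 * (l - q)).re ≤ δ / 4 * ‖l - q‖) := p2
    exact ⟨(p1 hlK).1, (p1 hlK).2, (p2' hlK).1, (p2' hlK).2⟩
  have n5 : ∀ l ∈ ball q rho, l ≠ q → l ∈ spectrum ℂ (Tp phi) →
      δ * ‖l - q‖ < |((a1 + a2) * (l - q)).re| := by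
    intro l hl hlq hlS
    by_contra h0
    exact ((hball l hl).2.2.2.2.1 hlq (not_lt.1 h0)).1 hlS
  have n6 : ∀ l ∈ ball q rho, l ∈ spectrum ℂ (Tp phi) → l ≠ q → l ∈ U1 ∨ l ∈ U2 :=
    fun l hl hlS hlq => (hball l hl).2.2.2.2.2 hlS hlq
  -- the connecting sets at the points of the curve
  have c5' : ∀ᶠ l in 𝓝 q, l ∈ K → l ≠ q → ∃ (Z : Set ℂ) (s : ℝ), (s = 1 ∨ s = -1) ∧
      IsPreconnected Z ∧ Z ⊆ Kᶜ ∧ l ∈ closure Z ∧ (Z ∩ Sx a1 a2 q kap r s s).Nonempty ∧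
      Z ⊆ ball q r := by
    obtain ⟨e1, he1, hc2⟩ := Metric.eventually_nhds_iff_ball.1 (eventually_nhdsWithin_iff.1 c2)
    obtain ⟨e2, he2, hc3⟩ := Metric.eventually_nhds_iff_ball.1 (eventually_nhdsWithin_iff.1 c3)
    filter_upwards [c5 (min e1 e2) (lt_min he1 he2)] with l hl hlK hlq
    obtain ⟨z, hz1, rfl, hz⟩ := hl hlK hlq
    rcases hz with ⟨hz2, hz3⟩ | ⟨hz2, hz3⟩
    · obtain ⟨A', B', s, hs, hA1, hB1, hA2, hB2, hA3, hB3, hA4, hB4, hA5, hB5⟩ :=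
        hc2 z (ball_subset_ball (min_le_left _ _) hz3) hz2 hz1
      rcases hs with rfl | rfl
      · exact ⟨B', 1, Or.inl rfl, hB1, hB2, hB3, hB4, hB5⟩
      · exact ⟨A', -1, Or.inr rfl, hA1, hA2, hA3, hA4, hA5⟩
    · obtain ⟨A', B', s, hs, hA1, hB1, hA2, hB2, hA3, hB3, hA4, hB4, hA5, hB5⟩ :=
        hc3 z (ball_subset_ball (min_le_right _ _) hz3) hz2 hz1
      rcases hs with rfl | rfl
      · exact ⟨B', 1, Or.inl rfl, hB1, hB2, hB3, hB4, hB5⟩
      · exact ⟨A', -1, Or.inr rfl, hA1, hA2, hA3, hA4, hA5⟩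
  obtain ⟨rho1, hrho1, hball1⟩ := Metric.eventually_nhds_iff_ball.1 (c4.and c5')
  obtain ⟨rho', hrho', hrr, hrr1⟩ : ∃ rho' : ℝ, 0 < rho' ∧ rho' ≤ rho ∧ rho' ≤ rho1 :=
    ⟨min rho rho1, lt_min hrho hrho1, min_le_left _ _, min_le_right _ _⟩
  have c4' : ∀ l ∈ ball q rho', l ∉ K → ∃ (C : Set ℂ) (s1 s2 : ℝ), (s1 = 1 ∨ s1 = -1) ∧
      (s2 = 1 ∨ s2 = -1) ∧ IsPreconnected C ∧ l ∈ C ∧ C ⊆ Kᶜ ∧
      (C ∩ Sx a1 a2 q kap r s1 s2).Nonempty ∧ C ⊆ ball q r :=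
    fun l hl hlK => (hball1 l (ball_subset_ball hrr1 hl)).1 hlK
  have c5'' : ∀ l ∈ ball q rho', l ∈ K → l ≠ q → ∃ (Z : Set ℂ) (s : ℝ), (s = 1 ∨ s = -1) ∧
      IsPreconnected Z ∧ Z ⊆ Kᶜ ∧ l ∈ closure Z ∧ (Z ∩ Sx a1 a2 q kap r s s).Nonempty ∧
      Z ⊆ ball q r :=
    fun l hl hlK hlq => (hball1 l (ball_subset_ball hrr1 hl)).2 hlK hlq
  have hside : ∀ σ : ℝ, (σ = 1 ∨ σ = -1) →
      (∀ l ∈ ball q rho', l ∈ spectrum ℂ (Tp phi) → l ≠ q → 0 < σ * ((a1 + a2) * (l - q)).re →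
        l ∈ U1) ∨ ∀ l ∈ ball q rho', l ∈ spectrum ℂ (Tp phi) → l ≠ q →
        0 < σ * ((a1 + a2) * (l - q)).re → l ∈ U2 := by
    intro σ hσ
    have hcone : Sx a1 a2 q kap r σ σ ⊆ U1 ∪ U2 := by
      intro l hl
      have hlK : l ∉ K := (c1 σ σ hσ hσ).1 hl
      have hlr : l ∈ ball q rho := hbr hl.1
      have h1 := lo_m1 n1 n2 l hlr hlK σ σ hσ hσ hl
      refine n6 l hlr ?_ ?_
      · rw [lo_spec hb]
        intro h3
        exact lo_ii hσ (Ix.unique h1 h3)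
      · rintro rfl
        exact hlK hqK
    rcases (lo_cone (s1 := σ) (s2 := σ) (r := r) (a1 := a1) (a2 := a2) (q := q)
      hkap.le).isPreconnected.subset_or_subset hU1 hU2 hdis hcone with h1 | h1
    · left
      exact lo_side hb hδ hrrho hrr hqK hU1 hU2 hdis n1 n2 n3 n4 n5 n6
        (fun s1 s2 h1 h2 => (c1 s1 s2 h1 h2).1) c4' c5'' hσ h1
    · right
      exact lo_side hb hδ hrrho hrr hqK hU2 hU1 hdis.symm n1 n2 n3 n4 n5
        (fun l hl hlS hlq => (n6 l hl hlS hlq).symm)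
        (fun s1 s2 h1 h2 => (c1 s1 s2 h1 h2).1) c4' c5'' hσ h1
  -- the cutoff function
  obtain ⟨f0, Cf, hf0C, hf0v, hf0L, hf0R, hf0d⟩ := exists_cut (a1 + a2) q hδ
  have hGne : ∀ᶠ l in 𝓝 q, ∀ j, G j l ≠ 0 := by
    filter_upwards [hGn] with l hl j
    obtain ⟨⟨q1, -⟩, ⟨q3, -⟩, -⟩ := hl
    intro h0
    fin_cases j
    · have h0' : G 0 l = 0 := h0
      rw [h0', norm_zero] at q1
      linarith
    · have h0' : G 1 l = 0 := h0
      rw [h0', norm_zero] at q3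
      linarith
  have hloc : ∀ (f : ℂ → ℂ) (C : ℝ), ContDiffOn ℝ 1 f {q}ᶜ →
      (∀ l, ∃ t : ℝ, 0 ≤ t ∧ t ≤ 1 ∧ f l = t) → (∀ l, l ≠ q → ‖dbar f l‖ ≤ C * ‖l - q‖⁻¹) →
      (∀ l, l ≠ q → δ * ‖l - q‖ < |((a1 + a2) * (l - q)).re| →
        (∀ᶠ l' in 𝓝 l, f l' = 1) ∨ ∀ᶠ l' in 𝓝 l, f l' = 0) →
      (∀ l ∈ ball q rho', l ∈ spectrum ℂ A → l ≠ q → l ∈ U1 → ∀ᶠ l' in 𝓝 l, f l' = 1) →
      (∀ l ∈ ball q rho', l ∈ spectrum ℂ A → l ≠ q → l ∈ U2 → ∀ᶠ l' in 𝓝 l, f l' = 0) →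
      LocA A (fun l => TM (resolvent M l)) U1 U2 q := by
    intro f C hfC hfv hfd hff h1 h2
    have hb' : ∀ᶠ l in 𝓝 q, l ∈ ball q rho' := ball_mem_nhds q hrho'
    refine lo_loc hc hC1.le hfC hfv hfd hGc hGne ?_ ?_ ?_
    · filter_upwards [hb'] with l hl hlS hlq hlU
      exact h1 l hl hlS hlq hlU
    · filter_upwards [hb'] with l hl hlS hlq hlU
      exact h2 l hl hlS hlq hlU
    · filter_upwards [hnear] with l hl hlq hne
      refine hl hlq ?_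
      by_contra h0
      rw [not_le] at h0
      have hconst : ∀ a : ℂ, (∀ᶠ l' in 𝓝 l, f l' = a) → dbar f l = 0 := by
        intro a ha
        have h1 : f =ᶠ[𝓝 l] fun _ => a := ha
        rw [Pool.Lib.dbar_congr h1]
        exact Pool.Lib.dbar_eq_zero (differentiableAt_const a)
      rcases hff l hlq h0 with h3 | h3
      · rcases hne with h4 | h4
        · exact h4 (hconst 1 h3)
        · exact h4.2 h3.self_of_nhds
      · rcases hne with h4 | h4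
        · exact h4 (hconst 0 h3)
        · exact h4.1 h3.self_of_nhds
  have habs : ∀ l, δ * ‖l - q‖ < |((a1 + a2) * (l - q)).re| →
      ((a1 + a2) * (l - q)).re < -(δ * ‖l - q‖) ∨ δ * ‖l - q‖ < ((a1 + a2) * (l - q)).re := by
    intro l h1
    rcases lt_abs.1 h1 with h2 | h2
    · exact Or.inr h2
    · exact Or.inl (by linarith)
  have hpos : ∀ l, l ≠ q → 0 < δ * ‖l - q‖ := fun l hlq =>
    mul_pos hδ (norm_pos_iff.2 (sub_ne_zero.2 hlq))
  have hside' : ∀ l ∈ ball q rho', l ∈ spectrum ℂ A → l ≠ q →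
      ((a1 + a2) * (l - q)).re < -(δ * ‖l - q‖) ∨ δ * ‖l - q‖ < ((a1 + a2) * (l - q)).re :=
    fun l hl hlS hlq => habs l (n5 l (ball_subset_ball hrr hl) hlq hlS)
  have hnot : ∀ l, l ∈ U1 → l ∈ U2 → False := fun l h1 h2 => disjoint_left.1 hdis h1 h2
  rcases hside (-1) (Or.inr rfl) with hL | hL <;> rcases hside 1 (Or.inl rfl) with hR | hR
  · -- constant `1`
    refine hloc (fun _ => 1) 0 contDiffOn_const (fun l => ⟨1, zero_le_one, le_rfl, by norm_num⟩)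
      (fun l _ => ?_) (fun l _ _ => Or.inl (Eventually.of_forall fun _ => rfl))
      (fun l _ _ _ _ => Eventually.of_forall fun _ => rfl) ?_
    · rw [Pool.Lib.dbar_eq_zero (differentiableAt_const _), norm_zero, zero_mul]
    · intro l hl hlS hlq hlU
      exfalso
      have hp := hpos l hlq
      rcases hside' l hl hlS hlq with h3 | h3
      · exact hnot l (hL l hl hlS hlq (by linarith)) hlU
      · exact hnot l (hR l hl hlS hlq (by linarith)) hlU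
  · -- `f0`
    refine hloc f0 Cf hf0C hf0v hf0d (fun l hlq h3 => ?_) ?_ ?_
    · rcases habs l h3 with h4 | h4
      · exact Or.inl (hf0L l hlq h4)
      · exact Or.inr (hf0R l hlq h4)
    · intro l hl hlS hlq hlU
      have hp := hpos l hlq
      rcases hside' l hl hlS hlq with h3 | h3
      · exact hf0L l hlq h3
      · exact (hnot l hlU (hR l hl hlS hlq (by linarith))).elim
    · intro l hl hlS hlq hlU
      have hp := hpos l hlq
      rcases hside' l hl hlS hlq with h3 | h3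
      · exact (hnot l (hL l hl hlS hlq (by linarith)) hlU).elim
      · exact hf0R l hlq h3
  · -- `1 - f0`
    refine hloc (fun l => 1 - f0 l) Cf (contDiffOn_const.sub hf0C) (fun l => ?_) (fun l hlq => ?_)
      (fun l hlq h3 => ?_) ?_ ?_
    · obtain ⟨t, h3, h4, h5⟩ := hf0v l
      exact ⟨1 - t, by linarith, by linarith, by rw [h5]; push_cast; ring⟩
    · have h3 : dbar (fun l => 1 - f0 l) l = -dbar f0 l := by
        unfold Pool.Lib.dbar
        rw [fderiv_const_sub]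
        simp only [_root_.neg_apply]
        ring
      rw [h3, norm_neg]
      exact hf0d l hlq
    · rcases habs l h3 with h4 | h4
      · exact Or.inr ((hf0L l hlq h4).mono fun l' hl' => by rw [hl', sub_self])
      · exact Or.inl ((hf0R l hlq h4).mono fun l' hl' => by rw [hl', sub_zero])
    · intro l hl hlS hlq hlU
      have hp := hpos l hlq
      rcases hside' l hl hlS hlq with h3 | h3
      · exact (hnot l hlU (hL l hl hlS hlq (by linarith))).elim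
      · exact (hf0R l hlq h3).mono fun l' hl' => by rw [hl', sub_zero]
    · intro l hl hlS hlq hlU
      have hp := hpos l hlq
      rcases hside' l hl hlS hlq with h3 | h3
      · exact (hf0L l hlq h3).mono fun l' hl' => by rw [hl', sub_self]
      · exact (hnot l (hR l hl hlS hlq (by linarith)) hlU).elim
  · -- constant `0`
    refine hloc (fun _ => 0) 0 contDiffOn_const (fun l => ⟨0, le_rfl, zero_le_one, by norm_num⟩)
      (fun l _ => ?_) (fun l _ _ => Or.inr (Eventually.of_forall fun _ => rfl)) ?_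
      (fun l _ _ _ _ => Eventually.of_forall fun _ => rfl)
    · rw [Pool.Lib.dbar_eq_zero (differentiableAt_const _), norm_zero, zero_mul]
    · intro l hl hlS hlq hlU
      exfalso
      have hp := hpos l hlq
      rcases hside' l hl hlS hlq with h3 | h3
      · exact hnot l hlU (hL l hl hlS hlq (by linarith))
      · exact hnot l hlU (hR l hl hlS hlq (by linarith))

end Pool.Agent.TBirN
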