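import Pool.Agent.TBirN.Def
import Pool.Agent.TBirC.Fin

/-!
# The splitting theorem with local hypotheses

`lq_reg`: `exists_fac` (the lemma before `main_disc` in TBirC/Fin.lean: `Reg1` gives `FacL`), `loc_A`, `dr_fac`. `main_discN`: `main_closed`, `disc_op`, `main_disc` of TBirC/Fin.lean with the hypothesis `Lq` instead of the factorisations.
-/

set_option autoImplicit false

open MeasureTheory Complex Set Filter Topology Metric AddCircle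
open scoped ComplexConjugate InnerProductSpace ENNReal

namespace Pool.Agent.TBirN

open Pool.Agent.TBir Pool.Agent.TBirG Pool.Agent.TBirC Pool.Agent.TBirJ Pool.Agent.TBirK
open Pool.Agent.TBirP (E qT)
open Pool.Agent.TBirS (DR)
open Pool.Agent.TBirM (punct_ball)

private def LqM (M : Op2) (q : ℂ) : Prop :=
  (q ∈ closure (spectrum ℂ (TM M))ᶜ → DR (TM M - q • (1 : Hardy →L[ℂ] Hardy))) ∧
    ∀ U1 U2 : Set ℂ, IsOpen U1 → IsOpen U2 → Disjoint U1 U2 →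
      (∀ᶠ l in 𝓝 q, l ∈ spectrum ℂ (TM M) → l ≠ q → l ∈ U1 ∨ l ∈ U2) →
      LocA (TM M) (fun l => TM (resolvent M l)) U1 U2 q

private theorem sp_closed {M : Op2} (hN : Bfc (TM M) (fun l => TM (resolvent M l)))
    {A B : Set ℂ} (hA : IsClosed A) (hB : IsClosed B)
    (hAB : A ∪ B = spectrum ℂ (TM M)) (hQ : (A ∩ B).Finite) (hA' : ¬ A ⊆ B) (hB' : ¬ B ⊆ A)
    (hq : ∀ q ∈ A ∩ B, LqM M q) :
    ¬ CompletelyIrreducible (TM M) := by
  obtain ⟨a, ha, ha'⟩ := Set.not_subset.1 hA'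
  obtain ⟨b, hb, hb'⟩ := Set.not_subset.1 hB'
  have haS : a ∈ spectrum ℂ (TM M) := by rw [← hAB]; exact Or.inl ha
  have hbS : b ∈ spectrum ℂ (TM M) := by rw [← hAB]; exact Or.inr hb
  obtain ⟨A0, hA0⟩ : ∃ A0 : Set ℂ, A0 = A \ B := ⟨_, rfl⟩
  obtain ⟨B0, hB0⟩ : ∃ B0 : Set ℂ, B0 = B \ A := ⟨_, rfl⟩
  have cA : closure A0 ⊆ A := closure_minimal (by rw [hA0]; exact Set.sdiff_subset) hA
  have cB : closure B0 ⊆ B := closure_minimal (by rw [hB0]; exact Set.sdiff_subset) hB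
  obtain ⟨A1, hA1⟩ : ∃ A1 : Set ℂ, A1 = closure A0 ∪ ((A ∩ B) \ closure B0) := ⟨_, rfl⟩
  obtain ⟨B1, hB1⟩ : ∃ B1 : Set ℂ, B1 = closure B0 := ⟨_, rfl⟩
  obtain ⟨Q1, hQ1⟩ : ∃ Q1 : Set ℂ, Q1 = closure A0 ∩ closure B0 := ⟨_, rfl⟩
  have hQsub : Q1 ⊆ A ∩ B := by
    rw [hQ1]
    exact fun x hx => ⟨cA hx.1, cB hx.2⟩
  have hQ1f : Q1.Finite := hQ.subset hQsub
  have hA1c : IsClosed A1 := by
    rw [hA1]
    exact isClosed_closure.union (hQ.subset Set.sdiff_subset).isClosed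
  have hB1c : IsClosed B1 := by rw [hB1]; exact isClosed_closure
  have hint : A1 ∩ B1 ⊆ Q1 := by
    rw [hA1, hB1, hQ1]
    rintro x ⟨h1 | h1, h2⟩
    · exact ⟨h1, h2⟩
    · exact absurd h2 h1.2
  have d1 : Disjoint (closure (A1 \ Q1)) (B1 \ Q1) := by
    rw [Set.disjoint_left]
    intro x hx hx'
    exact hx'.2 (hint ⟨closure_minimal Set.sdiff_subset hA1c hx, hx'.1⟩)
  have d2 : Disjoint (A1 \ Q1) (closure (B1 \ Q1)) := by
    rw [Set.disjoint_left]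
    intro x hx hx'
    exact hx.2 (hint ⟨hx.1, closure_minimal Set.sdiff_subset hB1c hx'⟩)
  obtain ⟨U1, U2, o1, o2, s1, s2, s3⟩ := separatedNhds_iff_disjoint.2
    (CompletelyNormalSpace.completely_normal d1 d2)
  have hcov : spectrum ℂ (TM M) \ Q1 ⊆ U1 ∪ U2 := by
    rintro l ⟨hl, hlQ⟩
    rw [← hAB] at hl
    by_cases hlA : l ∈ A
    · by_cases hlB : l ∈ B
      · by_cases h : l ∈ closure B0
        · exact Or.inr (s2 ⟨by rw [hB1]; exact h, hlQ⟩)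
        · exact Or.inl (s1 ⟨by rw [hA1]; exact Or.inr ⟨⟨hlA, hlB⟩, h⟩, hlQ⟩)
      · refine Or.inl (s1 ⟨?_, hlQ⟩)
        rw [hA1]
        exact Or.inl (subset_closure (by rw [hA0]; exact ⟨hlA, hlB⟩))
    · have hlB : l ∈ B := hl.resolve_left hlA
      refine Or.inr (s2 ⟨?_, hlQ⟩)
      rw [hB1]
      exact subset_closure (by rw [hB0]; exact ⟨hlB, hlA⟩)
  have inA : ∀ l ∈ A \ B, l ∈ U1 := by
    rintro l ⟨h1, h2⟩
    refine s1 ⟨?_, fun h => h2 (hQsub h).2⟩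
    rw [hA1]
    exact Or.inl (subset_closure (by rw [hA0]; exact ⟨h1, h2⟩))
  have inB : ∀ l ∈ B \ A, l ∈ U2 := by
    rintro l ⟨h1, h2⟩
    refine s2 ⟨?_, fun h => h2 (hQsub h).1⟩
    rw [hB1]
    exact subset_closure (by rw [hB0]; exact ⟨h1, h2⟩)
  have hcl : ∀ q ∈ Q1, q ∈ closure (spectrum ℂ (TM M))ᶜ := by
    intro q hqQ
    by_contra hcon
    rw [_root_.mem_closure_iff] at hcon
    push Not at hcon
    obtain ⟨O, hO, hqO, hOS⟩ := hcon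
    have hOS' : O ⊆ spectrum ℂ (TM M) := by
      intro x hx
      by_contra h
      have : x ∈ O ∩ (spectrum ℂ (TM M))ᶜ := ⟨hx, h⟩
      rw [hOS] at this
      exact this
    have hfin : ((A ∩ B) \ {q}).Finite := hQ.subset Set.sdiff_subset
    have hO2 : IsOpen (O ∩ ((A ∩ B) \ {q})ᶜ) := hO.inter hfin.isClosed.isOpen_compl
    obtain ⟨r, hr, hrO⟩ := Metric.isOpen_iff.1 hO2 q ⟨hqO, fun h => h.2 rfl⟩
    have hP := punct_ball q hr
    rw [isPreconnected_closed_iff] at hP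
    rw [hQ1] at hqQ
    have e1 : ((ball q r \ {q}) ∩ A).Nonempty := by
      obtain ⟨x, hx, hx'⟩ := _root_.mem_closure_iff.1 hqQ.1 (ball q r) isOpen_ball (mem_ball_self hr)
      rw [hA0] at hx'
      exact ⟨x, ⟨hx, fun h => hx'.2 (by
        rw [show x = q from h]
        exact cB hqQ.2)⟩, hx'.1⟩
    have e2 : ((ball q r \ {q}) ∩ B).Nonempty := by
      obtain ⟨x, hx, hx'⟩ := _root_.mem_closure_iff.1 hqQ.2 (ball q r) isOpen_ball (mem_ball_self hr)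
      rw [hB0] at hx'
      exact ⟨x, ⟨hx, fun h => hx'.2 (by
        rw [show x = q from h]
        exact cA hqQ.1)⟩, hx'.1⟩
    obtain ⟨x, ⟨hx1, hx2⟩, hx3⟩ := hP A B hA hB (fun x hx => by
      rw [hAB]
      exact hOS' (hrO hx.1).1) e1 e2
    exact (hrO hx1).2 ⟨hx3, hx2⟩
  refine abs_split hN hQ1f (fun q hqQ => ?_) o1 o2 s3 hcov (fun q hqQ => ?_)
    ⟨a, inA a ⟨ha, ha'⟩, haS, fun h => ha' (hQsub h).2⟩
    ⟨b, inB b ⟨hb, hb'⟩, hbS, fun h => hb' (hQsub h).1⟩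
  · exact (hq q (hQsub hqQ)).1 (hcl q hqQ)
  · refine (hq q (hQsub hqQ)).2 U1 U2 o1 o2 s3 ?_
    have hfin : (Q1 \ {q}).Finite := hQ1f.subset Set.sdiff_subset
    filter_upwards [hfin.isClosed.isOpen_compl.mem_nhds
      (show q ∈ (Q1 \ {q})ᶜ from fun h => h.2 rfl)] with l hl hlS hlq
    exact hcov ⟨hlS, fun h => hl ⟨h, hlq⟩⟩

private theorem sp_disc {M : Op2} (hN : Bfc (TM M) (fun l => TM (resolvent M l)))
    {Q : Set ℂ} (hQ : Q.Finite) (hq : ∀ q ∈ Q, LqM M q)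
    (hdisc : ¬ IsPreconnected (spectrum ℂ (TM M) \ Q)) : ¬ CompletelyIrreducible (TM M) := by
  rw [IsPreconnected] at hdisc
  push Not at hdisc
  obtain ⟨u, v, hu, hv, hS, ⟨a, ha, hau⟩, ⟨b, hb, hbv⟩, he⟩ := hdisc
  have hSc : IsClosed (spectrum ℂ (TM M)) := spectrum.isClosed (𝕜 := ℂ) (TM M)
  have hmem : ∀ x ∈ spectrum ℂ (TM M) \ Q, x ∈ u → x ∈ v → False := fun x hx h1 h2 => by
    have : x ∈ (spectrum ℂ (TM M) \ Q) ∩ (u ∩ v) := ⟨hx, h1, h2⟩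
    rw [he] at this
    exact this
  obtain ⟨A, hA⟩ : ∃ A : Set ℂ, A = closure ((spectrum ℂ (TM M) \ Q) ∩ u) ∪ (spectrum ℂ (TM M) ∩ Q) := ⟨_, rfl⟩
  obtain ⟨B, hB⟩ : ∃ B : Set ℂ, B = closure ((spectrum ℂ (TM M) \ Q) ∩ v) := ⟨_, rfl⟩
  have cA : IsClosed A := by
    rw [hA]
    exact isClosed_closure.union (hQ.subset inter_subset_right).isClosed
  have cB : IsClosed B := by rw [hB]; exact isClosed_closure
  have sA : A ⊆ spectrum ℂ (TM M) := by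
    rw [hA]
    exact union_subset (closure_minimal (fun x hx => hx.1.1) hSc) inter_subset_left
  have sB : B ⊆ spectrum ℂ (TM M) := by
    rw [hB]
    exact closure_minimal (fun x hx => hx.1.1) hSc
  have hU : A ∪ B = spectrum ℂ (TM M) := by
    refine Subset.antisymm (union_subset sA sB) fun x hx => ?_
    by_cases hxQ : x ∈ Q
    · left
      rw [hA]
      exact Or.inr ⟨hx, hxQ⟩
    · rcases hS ⟨hx, hxQ⟩ with h | h
      · left
        rw [hA]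
        exact Or.inl (subset_closure ⟨⟨hx, hxQ⟩, h⟩)
      · right
        rw [hB]
        exact subset_closure ⟨⟨hx, hxQ⟩, h⟩
  have nA : ∀ x ∈ spectrum ℂ (TM M) \ Q, x ∈ u → x ∉ B := by
    intro x hx hxu hxB
    rw [hB] at hxB
    obtain ⟨y, hy, hy'⟩ := _root_.mem_closure_iff.1 hxB u hu hxu
    exact hmem y hy'.1 hy hy'.2
  have nB : ∀ x ∈ spectrum ℂ (TM M) \ Q, x ∈ v → x ∉ A := by
    intro x hx hxv hxA
    rw [hA] at hxA
    rcases hxA with h | h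
    · obtain ⟨y, hy, hy'⟩ := _root_.mem_closure_iff.1 h v hv hxv
      exact hmem y hy'.1 hy'.2 hy
    · exact hx.2 h.2
  have hAB : A ∩ B ⊆ Q := by
    rintro x ⟨hxA, hxB⟩
    by_contra hxQ
    rcases hS ⟨sA hxA, hxQ⟩ with h | h
    · exact nA x ⟨sA hxA, hxQ⟩ h hxB
    · exact nB x ⟨sA hxA, hxQ⟩ h hxA
  refine sp_closed hN cA cB hU (hQ.subset hAB) ?_ ?_ fun q hqQ => hq q (hAB hqQ)
  · intro h
    refine nA a ha hau (h ?_)
    rw [hA]
    exact Or.inl (subset_closure ⟨ha, hau⟩)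
  · intro h
    refine nB b hb hbv (h ?_)
    rw [hB]
    exact subset_closure ⟨hb, hbv⟩

theorem lq_reg {phi : ℂ → ℂ} (hb : MemLp (fun x : UnitAddCircle => phi (e x)) ∞ mu0) {q : ℂ}
    (h : Reg1 phi q) : Lq phi q := by
  obtain ⟨B, x, hF⟩ := reg_fac hb h
  exact ⟨fun hcl => dr_fac (Cm.mf _) B hF hcl,
    fun U1 U2 o1 o2 hdis hcov => loc_A (Cm.mf _) B hF o1 o2 hdis hcov⟩

theorem main_discN {phi : ℂ → ℂ} (hb : MemLp (fun x : UnitAddCircle => phi (e x)) ∞ mu0)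
    {Q : Set ℂ} (hQ : Q.Finite) (hq : ∀ q ∈ Q, Lq phi q)
    (hdisc : ¬ IsPreconnected (Spec phi \ Q)) : ¬ BIR H2 (IsToeplitz phi) := by
  rw [bir_iff_TM hb]
  rw [spec_eq hb] at hdisc
  exact sp_disc (bfc_mf hb) hQ (fun q hqQ => hq q hqQ) hdisc

end Pool.Agent.TBirN
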