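import Pool.Agent.TBirN.Sb
import Pool.Agent.TBirN.Sp
import Pool.Agent.TBirN.Lo
import Pool.Agent.TBirN.Fb
import Pool.Agent.TBirN.Mi
import Pool.Agent.TBirK.Ngk

/-!
# Both signs

As TBirK/Ngk.lean. The points of `Q = closure U+ ∩ closure U-` are multiple values. If `q` is a double point `Dp`: `db_of` gives `x`; near `q`, off `Gam`, the numbers are `x`, `x + 1`, `x + 2` (`db_ix`), and both signs occur, so `x = -1`: `lq_dp`. Else `phi` is analytic at the points over `q`: `exists_iq`, `reg1_of_iq`, `lq_reg`. `main_discN`.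
-/

set_option autoImplicit false

open MeasureTheory Complex Set Filter Topology Metric AddCircle
open scoped ComplexConjugate InnerProductSpace ENNReal

namespace Pool.Agent.TBirN

open Pool.Agent.TBir Pool.Agent.TBirG Pool.Agent.TBirC Pool.Agent.TBirJ Pool.Agent.TBirK
open Pool.Agent.TBirP (E qT)
open Pool.Agent.TBirS (DR)

variable {phi : ℂ → ℂ} {F : Finset ℂ} {u v : ℂ → ℂ}

private theorem ngn_perf : Preperfect (sphere (0 : ℂ) 1) := by
  refine (isPreconnected_sphere (E := ℂ) ?_ 0 1).preperfect_of_nontrivial ?_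
  · rw [Complex.rank_real_complex]
    exact Nat.one_lt_ofNat
  · refine ⟨1, ?_, -1, ?_, ?_⟩
    · rw [mem_sphere_zero_iff_norm, norm_one]
    · rw [mem_sphere_zero_iff_norm, norm_neg, norm_one]
    · norm_num

/-- The circle without a finite set is dense in the circle. -/
private theorem ngn_dense {T : Set ℂ} (hT : T.Finite) {z : ℂ} (hz : z ∈ sphere (0 : ℂ) 1) :
    z ∈ closure (sphere (0 : ℂ) 1 \ T) := by
  by_cases hzT : z ∈ T
  · have h1 : AccPt z (𝓟 (sphere (0 : ℂ) 1)) := ngn_perf z hz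
    rw [accPt_iff_frequently] at h1
    have h2 : ∀ᶠ y in 𝓝 z, y ∉ T \ {z} := by
      have h3 : IsClosed (T \ {z}) := (hT.subset sdiff_subset).isClosed
      exact h3.isOpen_compl.mem_nhds fun h4 => h4.2 rfl
    rw [mem_closure_iff_frequently]
    refine (h1.and_eventually h2).mono ?_
    rintro y ⟨⟨hyz, hy⟩, hyT⟩
    exact ⟨hy, fun h5 => hyT ⟨h5, hyz⟩⟩
  · exact subset_closure ⟨hz, hzT⟩

/-- The points which are not simple. -/
private def NN (phi : ℂ → ℂ) (F : Finset ℂ) : Set ℂ :=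
  {z | z ∈ sphere (0 : ℂ) 1 ∧ z ∉ F ∧ ∃ z' ∈ sphere (0 : ℂ) 1, z' ∉ F ∧ phi z' = phi z ∧ z' ≠ z}

private theorem ngn_nn (h : BCross phi F u v) : (NN phi F).Finite := by
  obtain ⟨D, hD, hinj⟩ := h.inj
  have h1 : (D ∪ ⋃ d ∈ D, {z : ℂ | z ∈ sphere (0 : ℂ) 1 ∧ z ∉ F ∧ phi z = phi d}).Finite :=
    hD.union (hD.biUnion fun d _ => cv_level h.toPwC.cv (phi d))
  refine h1.subset ?_
  rintro z ⟨hz, hzF, z', hz', hzF', hq, hne⟩
  by_cases hzD : z ∈ D
  · exact Or.inl hzD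
  · by_cases hzD' : z' ∈ D
    · exact Or.inr (mem_biUnion hzD' ⟨hz, hzF, hq.symm⟩)
    · refine (hne (hinj ⟨hz', ?_⟩ ⟨hz, ?_⟩ hq)).elim
      · rintro (h2 | h2)
        · exact hzF' h2
        · exact hzD' h2
      · rintro (h2 | h2)
        · exact hzF h2
        · exact hzD h2

/-- The points with a positive number. -/
private def Up (phi : ℂ → ℂ) : Set ℂ := {l | ∃ n : ℤ, 0 < n ∧ Ix phi l n}

/-- The points with a negative number. -/
private def Um (phi : ℂ → ℂ) : Set ℂ := {l | ∃ n : ℤ, n < 0 ∧ Ix phi l n}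

/-- Every point with two sides is in the closure. -/
private theorem ngn_sides {K : Set ℂ} {q : ℂ} {m : ℤ} (h : Sides phi K q m) :
    q ∈ closure (Up phi ∪ Um phi) := by
  obtain ⟨A, B, -, -, hA, hB, hAc, hBc, -⟩ := h
  rcases lt_trichotomy m 0 with hm | hm | hm
  · have hBO : B ⊆ Up phi ∪ Um phi := fun l hl => Or.inr ⟨m, hm, hB l hl⟩
    exact closure_mono hBO hBc
  · have hAO : A ⊆ Up phi ∪ Um phi := fun l hl => Or.inl ⟨m + 1, by omega, hA l hl⟩
    exact closure_mono hAO hAc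
  · have hBO : B ⊆ Up phi ∪ Um phi := fun l hl => Or.inl ⟨m, hm, hB l hl⟩
    exact closure_mono hBO hBc

/-- A point with two sides is not in both closures. -/
private theorem ngn_not {K : Set ℂ} (hK : Dense Kᶜ) (o1 : IsOpen (Up phi)) (o2 : IsOpen (Um phi)) {q : ℂ} {m : ℤ}
    (h : Sides phi K q m) (h1 : q ∈ closure (Up phi)) (h2 : q ∈ closure (Um phi)) : False := by
  obtain ⟨A, B, -, -, hA, hB, -, -, hev⟩ := h
  obtain ⟨V, hV, hVo, hqV⟩ := _root_.eventually_nhds_iff.1 hev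
  have key : ∀ U : Set ℂ, IsOpen U → q ∈ closure U → ∃ l ∈ U, Ix phi l (m + 1) ∨ Ix phi l m := by
    intro U hU hq
    have h3 : (V ∩ U).Nonempty := mem_closure_iff.1 hq V hVo hqV
    obtain ⟨l, ⟨hlV, hlU⟩, hlK⟩ := hK.inter_open_nonempty _ (hVo.inter hU) h3
    rcases hV l hlV hlK with h4 | h4
    · exact ⟨l, hlU, Or.inl (hA l h4)⟩
    · exact ⟨l, hlU, Or.inr (hB l h4)⟩
  obtain ⟨l, ⟨n, hn, hl⟩, h3⟩ := key _ o1 h1
  obtain ⟨l', ⟨n', hn', hl'⟩, h4⟩ := key _ o2 h2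
  have h5 : 0 ≤ m := by
    rcases h3 with h3 | h3
    · have := hl.unique h3
      omega
    · have := hl.unique h3
      omega
  rcases h4 with h4 | h4
  · have := hl'.unique h4
    omega
  · have := hl'.unique h4
    omega

private theorem ngn_nonempty {U Q : Set ℂ} (o : IsOpen U) (n : U.Nonempty) (hQ : Q.Finite) :
    (U \ Q).Nonempty := by
  obtain ⟨w, hw⟩ := n
  exact ((infinite_of_mem_nhds w (o.mem_nhds hw)).sdiff hQ).nonempty

theorem nc_neg {phi : ℂ → ℂ} {F : Finset ℂ} {u v : ℂ → ℂ} (h : NCross phi F u v) {l l' : ℂ}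
    {n n' : ℤ} (hl : Wj phi F l n) (hn : n < 0) (hl' : Wj phi F l' n') (hn' : 0 < n') :
    ¬ BIR H2 (IsToeplitz phi) := by
  have hcv := h.toPwC.cv
  have hb := memLp_cv hcv
  set K := Gam phi F u v with hKdef
  have hKd : Dense Kᶜ := gam_dense hcv
  have hoff : ∀ l ∉ K, ∃ n : ℤ, Ix phi l n := fun l hl => by
    obtain ⟨n, hn⟩ := exists_wj hcv hl
    exact ⟨n, wj_ix hcv hn⟩
  have o1 : IsOpen (Up phi) := by
    rw [isOpen_iff_mem_nhds]
    rintro w ⟨k, hk, hw⟩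
    filter_upwards [hw.nhds hb] with w' hw'
    exact ⟨k, hk, hw'⟩
  have o2 : IsOpen (Um phi) := by
    rw [isOpen_iff_mem_nhds]
    rintro w ⟨k, hk, hw⟩
    filter_upwards [hw.nhds hb] with w' hw'
    exact ⟨k, hk, hw'⟩
  have n1 : (Up phi).Nonempty := ⟨l', n', hn', wj_ix hcv hl'⟩
  have n2 : (Um phi).Nonempty := ⟨l, n, hn, wj_ix hcv hl⟩
  -- simple points
  have hsm : ∀ z ∈ sphere (0 : ℂ) 1, z ∉ F → z ∉ NN phi F → ∃ x : ℤ, Sides phi K (phi z) x := by
    intro z hz hzF hzN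
    have hpart : ∀ z1 : ℂ, z1 ∉ NN phi F → ‖z1‖ = 1 → z1 ∉ F →
        ∀ z' : ℂ, ‖z'‖ = 1 → z' ∉ F → phi z' = phi z1 → z' = z1 := by
      intro z1 hz1 hz1n hz1F z' hz' hzF' hq
      by_contra hne
      exact hz1 ⟨mem_sphere_zero_iff_norm.2 hz1n, hz1F, z', mem_sphere_zero_iff_norm.2 hz', hzF', hq, hne⟩
    refine sides_reg h.toPwC (mem_sphere_zero_iff_norm.1 hz) hzF (fun t ht => h.sep t ht z hz hzF)
      (hpart z hzN (mem_sphere_zero_iff_norm.1 hz) hzF) ?_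
    filter_upwards [(ngn_nn h.toBCross).isClosed.isOpen_compl.mem_nhds hzN] with z1 hz1
    exact hpart z1 hz1
  -- the curve is in the closure
  have hKcl : K ⊆ closure (Up phi ∪ Um phi) := by
    rintro q (⟨z, ⟨hz, hzF⟩, rfl⟩ | hq)
    · have hd := ngn_dense ((F.finite_toSet).union (ngn_nn h.toBCross)) hz
      have hc : ContinuousWithinAt phi (sphere (0 : ℂ) 1 \ (↑F ∪ NN phi F)) z :=
        (h.toPwC.cont z ⟨hz, hzF⟩).mono fun w hw => ⟨hw.1, fun h3 => hw.2 (Or.inl h3)⟩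
      have h1 := hc.mem_closure_image hd
      have h2 : phi '' (sphere (0 : ℂ) 1 \ (↑F ∪ NN phi F)) ⊆ closure (Up phi ∪ Um phi) := by
        rintro q ⟨w, ⟨hw, hwT⟩, rfl⟩
        obtain ⟨x, hx⟩ := hsm w hw (fun h3 => hwT (Or.inl h3)) (fun h3 => hwT (Or.inr h3))
        exact ngn_sides hx
      exact closure_minimal h2 isClosed_closure h1
    · rw [mem_iUnion₂] at hq
      obtain ⟨t, ht, hqt⟩ := hq
      obtain ⟨m, hm⟩ := bc_sides h.toBCross ht hqt
      exact ngn_sides hm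
  have hsub : Spec phi ⊆ closure (Up phi) ∪ closure (Um phi) := by
    intro q hq
    rw [← closure_union]
    by_cases hqK : q ∈ K
    · exact hKcl hqK
    · obtain ⟨k, hk⟩ := hoff q hqK
      rw [spec_ix hb] at hq
      refine subset_closure ?_
      rcases lt_trichotomy k 0 with h0 | h0 | h0
      · exact Or.inr ⟨k, h0, hk⟩
      · rw [h0] at hk
        exact (hq hk).elim
      · exact Or.inl ⟨k, h0, hk⟩
  have hS1 : Up phi ⊆ Spec phi := by
    rintro q ⟨k, hk, hq⟩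
    rw [spec_ix hb]
    intro h0
    have := hq.unique h0
    omega
  have hS2 : Um phi ⊆ Spec phi := by
    rintro q ⟨k, hk, hq⟩
    rw [spec_ix hb]
    intro h0
    have := hq.unique h0
    omega
  -- the common points
  have hQ : ∀ q ∈ closure (Up phi) ∩ closure (Um phi), q ∈ phi '' NN phi F ∧
      ∀ t ∈ F, q ∉ segment ℝ (u t) (v t) := by
    rintro q ⟨hq1, hq2⟩
    have hseg : ∀ t ∈ F, q ∉ segment ℝ (u t) (v t) := by
      intro t ht hqt
      obtain ⟨m, hm⟩ := bc_sides h.toBCross ht hqt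
      exact ngn_not hKd o1 o2 hm hq1 hq2
    refine ⟨?_, hseg⟩
    by_cases hqK : q ∈ K
    · rcases hqK with ⟨z, ⟨hz, hzF⟩, rfl⟩ | hq
      · by_cases hzN : z ∈ NN phi F
        · exact ⟨z, hzN, rfl⟩
        · obtain ⟨x, hx⟩ := hsm z hz hzF hzN
          exact (ngn_not hKd o1 o2 hx hq1 hq2).elim
      · rw [mem_iUnion₂] at hq
        obtain ⟨t, ht, hqt⟩ := hq
        exact (hseg t ht hqt).elim
    · obtain ⟨k, hk⟩ := hoff q hqK
      obtain ⟨V, hV, hVo, hqV⟩ := _root_.eventually_nhds_iff.1 (hk.nhds hb)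
      obtain ⟨w, hwV, ⟨i, hi, hw⟩⟩ := mem_closure_iff.1 hq1 V hVo hqV
      obtain ⟨w', hwV', ⟨j, hj, hw'⟩⟩ := mem_closure_iff.1 hq2 V hVo hqV
      have h1 := hw.unique (hV w hwV)
      have h2 := hw'.unique (hV w' hwV')
      omega
  have hfin : (closure (Up phi) ∩ closure (Um phi)).Finite :=
    ((ngn_nn h.toBCross).image phi).subset fun q hq => (hQ q hq).1
  have hne : ∀ U : Set ℂ, IsOpen U → U.Nonempty → U ⊆ Spec phi →
      ((Spec phi \ (closure (Up phi) ∩ closure (Um phi))) ∩ closure U).Nonempty := by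
    intro U o n hUO
    obtain ⟨w, hw, hwQ⟩ := ngn_nonempty o n hfin
    exact ⟨w, ⟨hUO hw, hwQ⟩, subset_closure hw⟩
  refine main_discN hb hfin (fun q hq => ?_) ?_
  · obtain ⟨hq1, hq2⟩ := hq
    obtain ⟨⟨z1, ⟨hz1, hz1F, z2, hz2, hz2F, h12, hne12⟩, hz1q⟩, hseg⟩ := hQ q ⟨hq1, hq2⟩
    subst hz1q
    -- both signs occur near the point, off the curve
    have hfr : ∀ U : Set ℂ, IsOpen U → phi z1 ∈ closure U → ∀ V : Set ℂ, IsOpen V → phi z1 ∈ V →
        ∃ l ∈ U, l ∈ V ∧ l ∉ K := by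
      intro U hU hcl V hV hV1
      have h3 : (V ∩ U).Nonempty := mem_closure_iff.1 hcl V hV hV1
      obtain ⟨l, ⟨hlV, hlU⟩, hlK⟩ := hKd.inter_open_nonempty _ (hV.inter hU) h3
      exact ⟨l, hlU, hlV, hlK⟩
    rcases h.mult z1 hz1 hz1F z2 hz2 hz2F (fun h3 => hne12 h3.symm) h12.symm with
      ⟨hDt, hDp⟩ | ⟨w, hw⟩ | ⟨k, x, hNj, -⟩
    · have hneg : ∃ᶠ l in 𝓝 (phi z1), ∃ n, n < 0 ∧ Wj phi F l n := by
        rw [Filter.frequently_iff]
        intro V hV
        obtain ⟨V', hV'V, hV'o, hV'1⟩ := _root_.mem_nhds_iff.1 hV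
        obtain ⟨l, ⟨k, hk, hl⟩, hlV, hlK⟩ := hfr _ o2 hq2 V' hV'o hV'1
        obtain ⟨m, hm⟩ := exists_wj hcv hlK
        have h3 := (wj_ix hcv hm).unique hl
        exact ⟨l, hV'V hlV, m, by omega, hm⟩
      have hpos : ∃ᶠ l in 𝓝 (phi z1), ∃ n, 0 < n ∧ Wj phi F l n := by
        rw [Filter.frequently_iff]
        intro V hV
        obtain ⟨V', hV'V, hV'o, hV'1⟩ := _root_.mem_nhds_iff.1 hV
        obtain ⟨l, ⟨k, hk, hl⟩, hlV, hlK⟩ := hfr _ o1 hq1 V' hV'o hV'1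
        obtain ⟨m, hm⟩ := exists_wj hcv hlK
        have h3 := (wj_ix hcv hm).unique hl
        exact ⟨l, hV'V hlV, m, by omega, hm⟩
      have hD := hDp hneg hpos
      obtain ⟨x, g1, g2, hDb⟩ := db_of h.toPwC hD.toDt hseg
      obtain ⟨V, hV, hVo, hqV⟩ := _root_.eventually_nhds_iff.1 (db_ix hb hDb)
      have hnum : ∀ l ∈ V, l ∉ K → ∀ m : ℤ, Ix phi l m → x ≤ m ∧ m ≤ x + 2 := by
        intro l hlV hlK m hm
        have h3 := (hV l hlV hlK).unique hm
        split_ifs at h3 <;> constructor <;> omega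
      obtain ⟨l1, ⟨k1, hk1, hl1⟩, hlV1, hlK1⟩ := hfr _ o2 hq2 V hVo hqV
      obtain ⟨l2, ⟨k2, hk2, hl2⟩, hlV2, hlK2⟩ := hfr _ o1 hq1 V hVo hqV
      have h3 := hnum l1 hlV1 hlK1 k1 hl1
      have h4 := hnum l2 hlV2 hlK2 k2 hl2
      have hx : x = -1 := by omega
      subst hx
      exact lq_dp h.toPwC hD hseg hDb
    · obtain ⟨x, hx⟩ := exists_iq hcv hseg fun z hz hzF hzq => by
        obtain ⟨h3, h4⟩ := hw z hz hzF hzq
        refine ⟨h3, fun h5 => ?_⟩
        rw [h5, mul_zero, mul_zero, mul_zero, Complex.zero_re] at h4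
        exact lt_irrefl _ h4
      exact lq_reg hb (reg1_of_iq hb hx)
    · exact lq_reg hb (reg1_of_iq hb (hNj.iq hcv))
  · intro hpre
    rw [isPreconnected_closed_iff] at hpre
    obtain ⟨y, hy, hy'⟩ := hpre (closure (Up phi)) (closure (Um phi)) isClosed_closure
      isClosed_closure (sdiff_subset.trans hsub) (hne _ o1 n1 hS1) (hne _ o2 n2 hS2)
    exact hy.2 hy'

end Pool.Agent.TBirN
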