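import Pool.Agent.TBirN.Def
import Pool.Agent.TBirP.CrsP

/-!
# Comparison with the continuous, piecewise analytic class

`wn_wj`: for continuous `phi` the jump `b - a` of `h` in `Wj` satisfies `exp (b - a) = 1` and `|im| < pi`, so `b = a`, and `h` extends continuously to `F`. `pwa_pwc`: a nonconstant analytic function on a side: `psi (t * E (s * x)) = q + a x ^ k (1 + O x)`, the derivative is bounded and its direction tends to that of `s ^ k a`. `nc_of_pc`: the multiple values are
not at the points of `F` (`simple`); second case of `loc`: `exists_inq` gives the factorisation of `phi - q`, the inner number is unique.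
-/

set_option autoImplicit false

open MeasureTheory Complex Set Filter Topology Metric AddCircle
open scoped ComplexConjugate InnerProductSpace ENNReal

namespace Pool.Agent.TBirN

open Pool.Agent.TBir Pool.Agent.TBirG Pool.Agent.TBirC Pool.Agent.TBirJ Pool.Agent.TBirK
open Pool.Agent.TBirP (E qT PwA PCross Wn)

variable {phi : ℂ → ℂ} {F : Finset ℂ}

private theorem cp_norm_E (x : ℝ) : ‖E x‖ = 1 := by
  unfold E
  exact Complex.norm_exp_ofReal_mul_I x

private theorem cp_E_cont : Continuous E := by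
  unfold E
  fun_prop

private theorem cp_E_zero : E 0 = 1 := by
  unfold E
  rw [ofReal_zero, zero_mul, exp_zero]

private theorem cp_E_der (x : ℝ) : HasDerivAt E (I * E x) x := by
  have h1 : HasDerivAt (fun y : ℝ => ((y : ℂ) * I)) (1 * I) x :=
    (Complex.ofRealCLM.hasDerivAt (x := x)).mul_const I
  have h2 := h1.cexp
  unfold E
  refine h2.congr_deriv ?_
  ring

private theorem cp_ne {z : ℂ} (hz : ‖z‖ = 1) : z ≠ 0 := fun h => by
  rw [h, norm_zero] at hz
  exact zero_ne_one hz

private theorem cp_arg {z0 w : ℂ} (hz : ‖z0‖ = 1) (hw : ‖w‖ = 1) : z0 * E (arg (w / z0)) = w := by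
  have h0 := cp_ne hz
  have h1 : ‖w / z0‖ = 1 := by rw [norm_div, hz, hw, div_one]
  have h2 := Complex.norm_mul_exp_arg_mul_I (w / z0)
  rw [h1, ofReal_one, one_mul] at h2
  unfold E
  rw [h2]
  field_simp

private theorem cp_mem {t : ℂ} (ht : ‖t‖ = 1) (x : ℝ) : t * E x ∈ sphere (0 : ℂ) 1 := by
  rw [mem_sphere_zero_iff_norm, norm_mul, ht, cp_norm_E, one_mul]

private theorem cp_lim {g : ℂ → ℂ} (hg : ContinuousOn g (sphere 0 1)) {t : ℂ} (ht : ‖t‖ = 1)
    {f : ℝ → ℝ} (hf : Continuous f) (hf0 : f 0 = 0) :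
    Tendsto (fun x : ℝ => g (t * E (f x))) (𝓝[>] 0) (𝓝 (g t)) := by
  have h1 : Continuous fun x : ℝ => g (t * E (f x)) :=
    hg.comp_continuous (continuous_const.mul (cp_E_cont.comp hf)) fun x => cp_mem ht _
  have h2 : g (t * E (f 0)) = g t := by rw [hf0, cp_E_zero, mul_one]
  have h3 := h1.tendsto' 0 _ h2
  exact h3.mono_left nhdsWithin_le_nhds

private theorem cp_notin {t : ℂ} (ht : ‖t‖ = 1) {f : ℝ → ℝ} (hf : Continuous f) (hf0 : f 0 = 0)
    (hfn : ∀ x, 0 < x → f x ≠ 0) : ∀ᶠ x : ℝ in 𝓝[>] 0, t * E (f x) ∉ F := by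
  have h0 : HasDerivAt (fun x : ℝ => t * E x) (t * (I * E 0)) 0 := (cp_E_der 0).const_mul t
  have hn : t * (I * E 0) ≠ 0 := by
    rw [cp_E_zero, mul_one]
    exact mul_ne_zero (cp_ne ht) I_ne_zero
  have h1 : ∀ c ∈ F, ∀ᶠ x : ℝ in 𝓝[≠] 0, t * E x ≠ c := fun c _ => h0.eventually_ne hn
  have h2 : ∀ᶠ x : ℝ in 𝓝[≠] 0, ∀ c ∈ F, t * E x ≠ c := (Filter.eventually_all_finset F).2 h1
  have h3 : Tendsto f (𝓝[>] 0) (𝓝[≠] 0) := by
    refine tendsto_nhdsWithin_iff.2 ⟨(hf.tendsto' 0 0 hf0).mono_left nhdsWithin_le_nhds, ?_⟩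
    filter_upwards [self_mem_nhdsWithin] with x hx
    exact hfn x hx
  filter_upwards [h3.eventually h2] with x hx hxF
  exact hx _ hxF rfl

private theorem cp_ext {h a : ℂ → ℂ} (hc : ContinuousOn h (sphere 0 1 \ F))
    (hl : ∀ t ∈ F, Tendsto (fun x : ℝ => h (t * E (-x))) (𝓝[>] 0) (𝓝 (a t)))
    (hr : ∀ t ∈ F, Tendsto (fun x : ℝ => h (t * E x)) (𝓝[>] 0) (𝓝 (a t))) :
    ContinuousOn (fun z => open Classical in if z ∈ F then a z else h z) (sphere 0 1) := by
  classical
  obtain ⟨H, hH⟩ : ∃ H : ℂ → ℂ, H = fun z => if z ∈ F then a z else h z := ⟨_, rfl⟩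
  have Hin : ∀ z ∈ F, H z = a z := fun z hz => by rw [hH]; exact if_pos hz
  have Hout : ∀ z, z ∉ F → H z = h z := fun z hz => by rw [hH]; exact if_neg hz
  have hcl : IsClosed (F : Set ℂ) := F.finite_toSet.isClosed
  have goal : ContinuousOn H (sphere 0 1) := by
    intro w hw
    have hw1 := mem_sphere_zero_iff_norm.1 hw
    by_cases hwF : w ∈ F
    · have hc0 : ContinuousAt (fun x : ℝ => H (w * E x)) 0 := by
        rw [continuousAt_iff_continuous_left'_right']
        constructor
        · have h1 : Tendsto (fun x : ℝ => -x) (𝓝[<] 0) (𝓝[>] 0) := by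
            refine tendsto_nhdsWithin_iff.2
              ⟨(continuous_neg.tendsto' 0 0 neg_zero).mono_left nhdsWithin_le_nhds, ?_⟩
            filter_upwards [self_mem_nhdsWithin] with x hx
            have hx' : x < 0 := hx
            exact neg_pos.2 hx'
          have h2 := (hl w hwF).comp h1
          have h3 : ∀ᶠ x : ℝ in 𝓝[<] 0, w * E x ∉ F := by
            have h4 := h1.eventually (cp_notin (F := F) hw1 continuous_neg neg_zero
              fun x hx => (neg_neg_of_pos hx).ne)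
            filter_upwards [h4] with x hx
            rwa [neg_neg] at hx
          show Tendsto (fun x : ℝ => H (w * E x)) (𝓝[<] 0) (𝓝 (H (w * E 0)))
          rw [cp_E_zero, mul_one, Hin w hwF]
          refine h2.congr' ?_
          filter_upwards [h3] with x hx
          rw [Hout _ hx]
          simp only [Function.comp_apply, neg_neg]
        · show Tendsto (fun x : ℝ => H (w * E x)) (𝓝[>] 0) (𝓝 (H (w * E 0)))
          rw [cp_E_zero, mul_one, Hin w hwF]
          refine (hr w hwF).congr' ?_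
          filter_upwards [cp_notin (F := F) hw1 (f := fun y => y) continuous_id rfl
            fun x hx => hx.ne'] with x hx
          rw [Hout _ hx]
      have h0 := cp_ne hw1
      have h4 : ContinuousAt (fun z : ℂ => arg (z / w)) w := by
        have h5 : ContinuousAt (fun z : ℂ => z / w) w := by fun_prop
        refine ContinuousAt.comp (g := arg) (f := fun z : ℂ => z / w) (Complex.continuousAt_arg ?_) h5
        rw [div_self h0]
        exact Or.inl (by simp)
      have h6 : arg (w / w) = 0 := by rw [div_self h0, arg_one]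
      have h7 : ContinuousAt ((fun x : ℝ => H (w * E x)) ∘ fun z : ℂ => arg (z / w)) w := by
        refine ContinuousAt.comp ?_ h4
        show ContinuousAt _ (arg (w / w))
        rw [h6]
        exact hc0
      refine h7.continuousWithinAt.congr (fun z hz => ?_) ?_
      · simp only [Function.comp_apply]
        rw [cp_arg hw1 (mem_sphere_zero_iff_norm.1 hz)]
      · simp only [Function.comp_apply]
        rw [cp_arg hw1 hw1]
    · have h1 : (F : Set ℂ)ᶜ ∈ 𝓝 w := hcl.isOpen_compl.mem_nhds hwF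
      have h2 : H =ᶠ[𝓝[sphere 0 1] w] h := by
        filter_upwards [mem_nhdsWithin_of_mem_nhds h1] with z hz
        exact Hout z hz
      have h3 : ContinuousWithinAt h (sphere 0 1) w :=
        (hc w ⟨hw, hwF⟩).mono_of_mem_nhdsWithin
          (inter_mem self_mem_nhdsWithin (mem_nhdsWithin_of_mem_nhds h1))
      exact h3.congr_of_eventuallyEq h2 (Hout w hwF)
  rw [hH] at goal
  exact goal

theorem wn_wj (hc : ContinuousOn phi (sphere 0 1)) (hF : ∀ t ∈ F, ‖t‖ = 1) {l : ℂ} {n : ℤ} :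
    Wn phi l n ↔ Wj phi F l n := by
  classical
  constructor
  · rintro ⟨g, hg, he⟩
    refine ⟨g, hg.mono sdiff_subset, fun t ht => ⟨g t, g t, ?_, ?_, ?_⟩, fun z hz _ => he z hz⟩
    · exact cp_lim hg (hF t ht) continuous_neg neg_zero
    · exact cp_lim hg (hF t ht) continuous_id rfl
    · rw [sub_self, zero_im, abs_zero]
      exact Real.pi_pos
  · rintro ⟨h, hh, hlim, he⟩
    choose! a b ha hb hab using hlim
    have hval : ∀ t ∈ F, phi t - l = t ^ n * exp (a t) ∧ b t = a t := by
      intro t ht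
      have ht1 := hF t ht
      have ht0 := cp_ne ht1
      have key : ∀ (f : ℝ → ℝ) (c : ℂ), Continuous f → f 0 = 0 → (∀ x, 0 < x → f x ≠ 0) →
          Tendsto (fun x : ℝ => h (t * E (f x))) (𝓝[>] 0) (𝓝 c) → phi t - l = t ^ n * exp c := by
        intro f c hf hf0 hfn hcl
        have l1 : Tendsto (fun x : ℝ => phi (t * E (f x)) - l) (𝓝[>] 0) (𝓝 (phi t - l)) :=
          (cp_lim hc ht1 hf hf0).sub_const l
        have l2 : Tendsto (fun x : ℝ => (t * E (f x)) ^ n * exp (h (t * E (f x)))) (𝓝[>] 0)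
            (𝓝 (t ^ n * exp c)) := by
          refine Tendsto.mul ?_ ((Complex.continuous_exp.tendsto _).comp hcl)
          exact (cp_lim (g := fun z => z) continuousOn_id ht1 hf hf0).zpow₀ n (Or.inl ht0)
        refine tendsto_nhds_unique_of_eventuallyEq l1 l2 ?_
        filter_upwards [cp_notin (F := F) ht1 hf hf0 hfn] with x hx
        exact he _ (cp_mem ht1 _) hx
      have e1 := key (fun x => -x) (a t) continuous_neg neg_zero (fun x hx => (neg_neg_of_pos hx).ne)
        (ha t ht)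
      have e2 := key (fun x => x) (b t) continuous_id rfl (fun x hx => hx.ne') (hb t ht)
      refine ⟨e1, ?_⟩
      have e3 : exp (b t) = exp (a t) :=
        mul_left_cancel₀ (zpow_ne_zero n ht0) (e2.symm.trans e1)
      obtain ⟨k, hk⟩ := Complex.exp_eq_exp_iff_exists_int.1 e3
      have h1 := hab t ht
      have h2 : (b t - a t).im = k * (2 * Real.pi) := by
        rw [hk, add_sub_cancel_left]
        simp
      rw [h2, abs_mul, abs_of_pos Real.two_pi_pos] at h1
      have h3 : |(k : ℝ)| < 1 := by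
        by_contra h4
        push Not at h4
        have h5 : 1 * (2 * Real.pi) ≤ |(k : ℝ)| * (2 * Real.pi) :=
          mul_le_mul_of_nonneg_right h4 Real.two_pi_pos.le
        linarith [Real.pi_pos]
      have h4 : k = 0 := by
        have h5 : |k| < 1 := by exact_mod_cast h3
        exact Int.abs_lt_one_iff.1 h5
      rw [hk, h4]
      simp
    refine ⟨_, cp_ext hh ha (fun t ht => ?_), fun z hz => ?_⟩
    · rw [← (hval t ht).2]
      exact hb t ht
    · by_cases hzF : z ∈ F
      · simp only [if_pos hzF]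
        exact (hval z hzF).1
      · simp only [if_neg hzF]
        exact he z hz hzF

private theorem cp_side {psi : ℂ → ℂ} {t : ℂ} {s : ℝ} (hs : s ≠ 0) (ht : ‖t‖ = 1)
    (hc : ContinuousOn phi (sphere 0 1)) (h : TBirP.Side phi psi t s) : SideC phi t s (phi t) := by
  obtain ⟨han, hnc, hev⟩ := h
  have ht0 := cp_ne ht
  have hsI : (s : ℂ) * I ≠ 0 := mul_ne_zero (ofReal_ne_zero.2 hs) I_ne_zero
  obtain ⟨f, hf⟩ : ∃ f : ℂ → ℂ, f = fun w => psi (t * exp (s * w * I)) := ⟨_, rfl⟩
  have hf0 : f 0 = psi t := by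
    rw [hf]
    simp
  have hfa : AnalyticAt ℂ f 0 := by
    have h1 : AnalyticAt ℂ (fun w : ℂ => t * exp (s * w * I)) 0 := by fun_prop
    have h2 : AnalyticAt ℂ psi (t * exp (s * 0 * I)) := by simpa using han
    rw [hf]
    exact AnalyticAt.comp (g := psi) (f := fun w : ℂ => t * exp (s * w * I)) h2 h1
  have hdn : ¬ ∀ᶠ w in 𝓝 (0 : ℂ), deriv f w = 0 := by
    intro h0
    apply hnc
    have h1 : ∀ᶠ w in 𝓝 (0 : ℂ), f w = f 0 := by
      obtain ⟨r, hr, hball⟩ := Metric.eventually_nhds_iff_ball.1 (h0.and hfa.eventually_analyticAt)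
      filter_upwards [ball_mem_nhds _ hr] with w hw
      exact isOpen_ball.is_const_of_deriv_eq_zero (convex_ball _ _).isPreconnected
        (fun z hz => (hball z hz).2.differentiableAt.differentiableWithinAt)
        (fun z hz => (hball z hz).1) hw (mem_ball_self hr)
    have h2 : Tendsto (fun z : ℂ => log (z / t) / (s * I)) (𝓝 t) (𝓝 0) := by
      have h3 : ContinuousAt (fun z : ℂ => log (z / t) / (s * I)) t := by
        refine ContinuousAt.div_const ?_ _
        refine ContinuousAt.clog (by fun_prop) ?_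
        rw [div_self ht0]
        exact one_mem_slitPlane
      have h4 := h3.tendsto
      rw [div_self ht0, log_one, zero_div] at h4
      exact h4
    filter_upwards [h2.eventually h1, isOpen_ne.mem_nhds ht0] with z hz hz0
    rw [hf0, hf] at hz
    have h5 : (s : ℂ) * (log (z / t) / (s * I)) * I = log (z / t) := by
      have h6 : (s : ℂ) ≠ 0 := ofReal_ne_zero.2 hs
      have h7 : (I : ℂ) ≠ 0 := I_ne_zero
      field_simp
    have h8 : t * exp (s * (log (z / t) / (s * I)) * I) = z := by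
      rw [h5, exp_log (div_ne_zero hz0 ht0)]
      field_simp
    simp only [h8] at hz
    exact hz
  obtain ⟨m, g, hg, hg0, hgev⟩ := hfa.deriv.exists_eventuallyEq_pow_smul_nonzero_iff.2 hdn
  have hof : Tendsto (fun x : ℝ => (x : ℂ)) (𝓝[>] 0) (𝓝 0) :=
    (continuous_ofReal.tendsto' 0 0 ofReal_zero).mono_left nhdsWithin_le_nhds
  have hder : ∀ᶠ x : ℝ in 𝓝[>] 0, deriv (fun y : ℝ => phi (t * E (s * y))) x = deriv f (x : ℂ) := by
    have h1 : ∀ᶠ x : ℝ in 𝓝[>] 0, phi (t * E (s * x)) = psi (t * E (s * x)) :=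
      hev.filter_mono (nhdsWithin_mono 0 Ioi_subset_Ici_self)
    have h2 := eventually_eventually_nhdsWithin.2 h1
    filter_upwards [h2, hof.eventually hfa.eventually_analyticAt, self_mem_nhdsWithin] with x k1 k2 k3
    rw [isOpen_Ioi.nhdsWithin_eq k3] at k1
    have h3 : HasDerivAt (fun y : ℝ => f (y : ℂ)) (deriv f (x : ℂ)) x :=
      k2.differentiableAt.hasDerivAt.comp_ofReal
    have h4 : (fun y : ℝ => phi (t * E (s * y))) =ᶠ[𝓝 x] fun y : ℝ => f (y : ℂ) := by
      filter_upwards [k1] with y hy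
      rw [hy, hf]
      unfold E
      push_cast
      rfl
    exact (h3.congr_of_eventuallyEq h4).deriv
  refine ⟨cp_lim hc ht (continuous_const.mul continuous_id) (mul_zero s), ⟨‖deriv f 0‖ + 1, ?_⟩,
    g 0 / (‖g 0‖ : ℂ), ?_, ?_⟩
  · have h1 : Tendsto (fun x : ℝ => ‖deriv f (x : ℂ)‖) (𝓝[>] 0) (𝓝 ‖deriv f 0‖) :=
      (hfa.deriv.continuousAt.tendsto.comp hof).norm
    filter_upwards [hder, h1.eventually_le_const (lt_add_one _)] with x k1 k2
    rw [k1]
    exact k2
  · rw [norm_div, norm_real, norm_norm, div_self (norm_ne_zero_iff.2 hg0)]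
  · have h1 : Tendsto (fun x : ℝ => g (x : ℂ) / (‖g (x : ℂ)‖ : ℂ)) (𝓝[>] 0)
        (𝓝 (g 0 / (‖g 0‖ : ℂ))) := by
      have h2 : Tendsto (fun x : ℝ => g (x : ℂ)) (𝓝[>] 0) (𝓝 (g 0)) :=
        hg.continuousAt.tendsto.comp hof
      exact h2.div ((continuous_ofReal.tendsto _).comp h2.norm)
        (ofReal_ne_zero.2 (norm_ne_zero_iff.2 hg0))
    refine h1.congr' ?_
    filter_upwards [hder, hof.eventually hgev, self_mem_nhdsWithin] with x k1 k2 k3
    have k4 : (0 : ℝ) < x := k3
    rw [k1, k2, sub_zero, smul_eq_mul, norm_mul, norm_pow, norm_real, Real.norm_eq_abs,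
      abs_of_pos k4]
    push_cast
    rw [mul_div_mul_left]
    exact pow_ne_zero _ (ofReal_ne_zero.2 k4.ne')

theorem pwa_pwc (h : PwA phi (F : Set ℂ)) (hF : ∀ t ∈ F, ‖t‖ = 1) : PwC phi F phi phi := by
  refine ⟨hF, fun x hx => ?_, fun t ht => ?_, fun t ht => ?_⟩
  · have hx' : E x ∉ (F : Set ℂ) := fun h1 => hx (Finset.mem_coe.1 h1)
    obtain ⟨han, hd⟩ := h.reg (E x) (TBirP.lg_E_mem x) hx'
    have key : ∀ᶠ y in 𝓝 x, HasDerivAt (fun y : ℝ => phi (E y)) (deriv phi (E y) * (I * E y)) y := by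
      filter_upwards [cp_E_cont.continuousAt.eventually han.eventually_analyticAt] with y hy
      exact HasDerivAt.comp (h₂ := phi) (h := E) y hy.differentiableAt.hasDerivAt (cp_E_der y)
    have k0 := key.self_of_nhds
    refine ⟨k0.differentiableAt, ?_, ?_⟩
    · rw [k0.deriv]
      exact mul_ne_zero hd (mul_ne_zero I_ne_zero (TBirP.lg_ne (TBirP.lg_E_mem x)))
    · have h1 : ContinuousAt (fun y : ℝ => deriv phi (E y) * (I * E y)) x := by
        refine ContinuousAt.mul ?_ (continuousAt_const.mul cp_E_cont.continuousAt)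
        exact ContinuousAt.comp (g := deriv phi) (f := E) han.deriv.continuousAt cp_E_cont.continuousAt
      refine h1.congr ?_
      filter_upwards [key] with y hy
      exact hy.deriv.symm
  · obtain ⟨-, psi, hpsi⟩ := h.side t (mem_sphere_zero_iff_norm.2 (hF t ht)) (Finset.mem_coe.2 ht)
    exact cp_side (by norm_num) (hF t ht) h.cont hpsi
  · obtain ⟨⟨psi, hpsi⟩, -⟩ := h.side t (mem_sphere_zero_iff_norm.2 (hF t ht)) (Finset.mem_coe.2 ht)
    exact cp_side one_ne_zero (hF t ht) h.cont hpsi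

private theorem cp_uniq {q : ℂ} {k k' : ℕ} {x x' : ℤ} {t : Fin k → ℂ} {t' : Fin k' → ℂ}
    (hi : Function.Injective t) (hi' : Function.Injective t')
    (ht : ∀ j, ‖t j‖ = 1 ∧ phi (t j) = q) (ht' : ∀ j, ‖t' j‖ = 1 ∧ phi (t' j) = q) {g g' : ℂ → ℂ}
    (hg : ContinuousOn g (sphere 0 1)) (hg' : ContinuousOn g' (sphere 0 1))
    (he : ∀ z ∈ sphere (0 : ℂ) 1, phi z - q = z ^ x * (∏ j, (z - t j)) * exp (g z))
    (he' : ∀ z ∈ sphere (0 : ℂ) 1, phi z - q = z ^ x' * (∏ j, (z - t' j)) * exp (g' z)) :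
    k = k' ∧ x = x' := by
  classical
  have zero : ∀ {k : ℕ} {x : ℤ} {t : Fin k → ℂ} {g : ℂ → ℂ}, (∀ z ∈ sphere (0 : ℂ) 1,
      phi z - q = z ^ x * (∏ j, (z - t j)) * exp (g z)) → ∀ z ∈ sphere (0 : ℂ) 1, phi z = q →
      z ∈ Finset.univ.image t := by
    intro k x t g he z hz hzq
    have h1 := he z hz
    rw [hzq, sub_self] at h1
    have h2 : ∏ j, (z - t j) = 0 := by
      by_contra h3
      exact mul_ne_zero (mul_ne_zero (zpow_ne_zero _ (TBirP.lg_ne hz)) h3) (Complex.exp_ne_zero _)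
        h1.symm
    rw [Finset.prod_eq_zero_iff] at h2
    obtain ⟨j, -, hj⟩ := h2
    rw [sub_eq_zero] at hj
    rw [hj]
    exact Finset.mem_image_of_mem t (Finset.mem_univ j)
  have hA : Finset.univ.image t = Finset.univ.image t' := by
    ext z
    constructor
    · intro hz
      obtain ⟨j, -, rfl⟩ := Finset.mem_image.1 hz
      exact zero he' _ (mem_sphere_zero_iff_norm.2 (ht j).1) (ht j).2
    · intro hz
      obtain ⟨j, -, rfl⟩ := Finset.mem_image.1 hz
      exact zero he _ (mem_sphere_zero_iff_norm.2 (ht' j).1) (ht' j).2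
  have hkk : k = k' := by
    have h1 := congrArg Finset.card hA
    rwa [Finset.card_image_of_injective _ hi, Finset.card_image_of_injective _ hi',
      Finset.card_univ, Finset.card_univ, Fintype.card_fin, Fintype.card_fin] at h1
  refine ⟨hkk, ?_⟩
  have hprod : ∀ z : ℂ, ∏ j, (z - t j) = ∏ j, (z - t' j) := by
    intro z
    rw [← Finset.prod_image (s := Finset.univ) (g := t) (f := fun a => z - a) hi.injOn, hA,
      Finset.prod_image hi'.injOn]
  have hpn : ∀ z, z ∉ Finset.univ.image t → ∏ j, (z - t j) ≠ 0 := by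
    intro z hz
    rw [Finset.prod_ne_zero_iff]
    intro j _ h1
    rw [sub_eq_zero] at h1
    exact hz (h1 ▸ Finset.mem_image_of_mem t (Finset.mem_univ j))
  refine TBirP.log_unique hg hg' fun z hz => ?_
  have hz1 := mem_sphere_zero_iff_norm.1 hz
  have hz0 := cp_ne hz1
  have lim : ∀ (n : ℤ) (G : ℂ → ℂ), ContinuousOn G (sphere 0 1) →
      Tendsto (fun y : ℝ => (z * E y) ^ n * exp (G (z * E y))) (𝓝[>] 0) (𝓝 (z ^ n * exp (G z))) := by
    intro n G hG
    refine Tendsto.mul ?_ ((Complex.continuous_exp.tendsto _).comp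
      (cp_lim hG hz1 (f := fun y => y) continuous_id rfl))
    exact (cp_lim (g := fun z => z) continuousOn_id hz1 (f := fun y => y) continuous_id rfl).zpow₀ n
      (Or.inl hz0)
  refine tendsto_nhds_unique_of_eventuallyEq (lim x g hg) (lim x' g' hg') ?_
  filter_upwards [cp_notin (F := Finset.univ.image t) hz1 (f := fun y => y) continuous_id rfl
    fun y hy => hy.ne'] with y hy
  have h1 := he _ (cp_mem hz1 y)
  have h2 := he' _ (cp_mem hz1 y)
  rw [← hprod] at h2
  have h3 := hpn _ hy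
  have h4 := h1.symm.trans h2
  apply mul_left_cancel₀ h3
  linear_combination h4

theorem nc_of_pc (h : PCross phi (F : Set ℂ)) (hF : ∀ t ∈ F, ‖t‖ = 1) : NCross phi F phi phi := by
  have hsm : ∀ t ∈ F, ∀ z : ℂ, ‖z‖ = 1 → phi z = phi t → z = t := fun t ht z hz hzt =>
    (h.simple t (mem_sphere_zero_iff_norm.2 (hF t ht)) (Finset.mem_coe.2 ht)).self_of_nhds
      (hF t ht) z hz hzt
  refine ⟨⟨pwa_pwc h.toPwA hF, ?_, ?_, ?_⟩, ?_⟩
  · intro t ht z hz hzF hseg
    rw [segment_same, mem_singleton_iff] at hseg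
    exact hzF ((hsm t ht z (mem_sphere_zero_iff_norm.1 hz) hseg) ▸ ht)
  · intro t ht t' ht' hne
    rw [segment_same, segment_same, Set.disjoint_singleton]
    intro heq
    exact hne (hsm t' ht' t (hF t ht) heq)
  · obtain ⟨D, hD, hi⟩ := h.inj
    refine ⟨D, hD, hi.mono fun z hz => ?_⟩
    exact And.intro hz.1 fun h1 => hz.2 (Or.inr h1)
  · intro z1 h1 h1F z2 h2 h2F hne he
    rcases h.loc z1 h1 z2 h2 hne he with ⟨w, hw⟩ | ⟨hA, hB⟩
    · exact Or.inr (Or.inl ⟨w, fun z hz hzF hzq =>
        ⟨(h.reg z hz fun h3 => hzF (Finset.mem_coe.1 h3)).1, hw z hz hzq⟩⟩)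
    · right
      right
      have hnF : ∀ z ∈ sphere (0 : ℂ) 1, phi z = phi z1 → z ∉ (F : Set ℂ) := by
        intro z hz hzq hzF
        have h3 := hsm z (Finset.mem_coe.1 hzF) z1 (mem_sphere_zero_iff_norm.1 h1) hzq.symm
        exact h1F (h3 ▸ Finset.mem_coe.1 hzF)
      obtain ⟨x, k, t, hinj, ht, g, hg, hge⟩ := TBirP.exists_inq h.toPwA hnF
      refine ⟨k, x, ⟨t, hinj, fun j => ⟨(ht j).1, fun h3 => hnF _
        (mem_sphere_zero_iff_norm.2 (ht j).1) (ht j).2.2.1 (Finset.mem_coe.2 h3), (ht j).2.1,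
        (ht j).2.2.1, (ht j).2.2.2⟩, g, hg.mono sdiff_subset, fun s hs => ⟨g s, g s, ?_, ?_, ?_⟩,
        fun z hz _ => hge z hz⟩, ?_, ?_⟩
      · exact cp_lim hg (hF s hs) continuous_neg neg_zero
      · exact cp_lim hg (hF s hs) continuous_id rfl
      · rw [sub_self, zero_im, abs_zero]
        exact Real.pi_pos
      · intro hev
        obtain ⟨x', hx', k', t', hinj', ht', g', hg', hge'⟩ :=
          hA (hev.mono fun l hl n hn => hl n ((wn_wj h.cont hF).1 hn))
        obtain ⟨-, h4⟩ := cp_uniq hinj hinj' (fun j => ⟨(ht j).1, (ht j).2.2.1⟩)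
          (fun j => ⟨(ht' j).1, (ht' j).2.2.1⟩) hg hg' hge hge'
        rw [h4]
        exact hx'
      · intro hev
        obtain ⟨y, hy, k', t', hinj', ht', g', hg', hge'⟩ :=
          hB (hev.mono fun l hl n hn => hl n ((wn_wj h.cont hF).1 hn))
        obtain ⟨h5, h4⟩ := cp_uniq hinj hinj' (fun j => ⟨(ht j).1, (ht j).2.2.1⟩)
          (fun j => ⟨(ht' j).1, (ht' j).2.2.1⟩) hg hg' hge hge'
        rw [h4, h5]
        linarith

end Pool.Agent.TBirN
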