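import Pool.Agent.TBirN.Kr

/-!
# Two constants

`small_disc`: `h` analytic on a disc `|z - a| < R`, `|h| ≤ M` there, `|h| ≤ eps` on `|z - a| < rho`, `rho < R`. The Taylor coefficients satisfy `|c_n| ≤ min (eps / rho^n) (M / R^n) ≤ eps^θ M^(1-θ) / (rho^θ R^(1-θ))^n`. So `|h| ≤ C eps^θ M^(1-θ)` on `|z - a| ≤ R / 2`, if `θ` is so small that `rho^θ R^(1-θ) > R / 2`.
`two_op`: for `f` in the unit ball `h = B f` is analytic in the disc, `|h w| sqrt (1 - |w|^2) ≤ ‖B‖`, and `≤ eps` for `w = t (1 - s z)`, `z` in `ball z0 rho`. The function `G z = sqrt s * h (t (1 - s z))` on the right half plane (locally, `s` small; `1 - |w|` is near `s * re z`) is bounded by `C / sqrt (re z)`, and by `C eps` on `ball z0 rho`. A chain of discs from `z0` to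
`z1` in the half plane (for example along the segment; the number of the discs and the radii do not depend on `s`, `f`): `|G z1|` tends to `0` with `eps`, uniformly in `f`. `‖(en w).comp B‖ = sup |en w (B f)|`.
-/

set_option autoImplicit false

open MeasureTheory Complex Set Filter Topology Metric AddCircle
open scoped ComplexConjugate InnerProductSpace ENNReal

namespace Pool.Agent.TBirN

open Pool.Agent.TBir Pool.Agent.TBirG Pool.Agent.TBirC Pool.Agent.TBirJ Pool.Agent.TBirK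
open Pool.Agent.TBirP (E qT)
open Pool.Agent.TBirS (DR)

theorem small_disc {R rho : ℝ} (hrho : 0 < rho) (hR : rho < R) {M : ℝ} (hM : 0 < M) {eps : ℝ}
    (heps : 0 < eps) : ∃ δ > 0, ∀ (a : ℂ) (h : ℂ → ℂ), DifferentiableOn ℂ h (ball a R) →
      (∀ z ∈ ball a R, ‖h z‖ ≤ M) → (∀ z ∈ ball a rho, ‖h z‖ ≤ δ) → ∀ z ∈ ball a (R / 2), ‖h z‖ ≤ eps := by
  have hR0 : 0 < R := hrho.trans hR
  -- the tail
  obtain ⟨N, hN⟩ : ∃ N : ℕ, 3 * M * (2 / 3 : ℝ) ^ N ≤ eps / 2 := by
    have h1 : Tendsto (fun N : ℕ => 3 * M * (2 / 3 : ℝ) ^ N) atTop (𝓝 (3 * M * 0)) :=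
      (tendsto_pow_atTop_nhds_zero_of_lt_one (by norm_num) (by norm_num)).const_mul _
    rw [mul_zero] at h1
    exact (h1.eventually_le_const (by positivity : (0 : ℝ) < eps / 2)).exists
  have hS0 : 0 ≤ ∑ n ∈ Finset.range N, (R / rho) ^ n :=
    Finset.sum_nonneg fun n _ => by positivity
  refine ⟨eps / (2 * (1 + ∑ n ∈ Finset.range N, (R / rho) ^ n)), by positivity, ?_⟩
  intro a h hd hM1 hδ z hz
  set δ : ℝ := eps / (2 * (1 + ∑ n ∈ Finset.range N, (R / rho) ^ n)) with hδdef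
  have hδ0 : 0 < δ := by positivity
  have hzR : z ∈ ball a R := ball_subset_ball (by linarith) hz
  have hz2 : ‖z - a‖ ≤ R / 2 := by
    have := mem_ball.1 hz
    rw [dist_eq_norm] at this
    exact this.le
  have hsum := Complex.hasSum_taylorSeries_on_ball hd hzR
  set c : ℕ → ℂ := fun n => ((Nat.factorial n : ℕ) : ℂ)⁻¹ • (z - a) ^ n • iteratedDeriv n h a with hc
  have hest : ∀ (r C : ℝ), 0 < r → r < R → (∀ w ∈ closedBall a r, ‖h w‖ ≤ C) → ∀ n,
      ‖c n‖ ≤ C * (R / 2 / r) ^ n := by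
    intro r C hr hrR hC n
    have hsub : closedBall a r ⊆ ball a R := closedBall_subset_ball hrR
    have h1 := Complex.norm_iteratedDeriv_le_of_forall_mem_sphere_norm_le n hr
      (hd.diffContOnCl_ball hsub) (fun w hw => hC w (sphere_subset_closedBall hw))
    have hC0 : 0 ≤ C := (norm_nonneg _).trans (hC a (mem_closedBall_self hr.le))
    have hf : (0 : ℝ) < ((Nat.factorial n : ℕ) : ℝ) := by exact_mod_cast Nat.factorial_pos n
    rw [hc]
    simp only [norm_smul, norm_inv, norm_pow, Complex.norm_natCast]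
    calc (((Nat.factorial n : ℕ) : ℝ))⁻¹ * (‖z - a‖ ^ n * ‖iteratedDeriv n h a‖)
        ≤ (((Nat.factorial n : ℕ) : ℝ))⁻¹ * ((R / 2) ^ n * (((Nat.factorial n : ℕ) : ℝ) * C / r ^ n)) := by
          gcongr
      _ = C * (R / 2 / r) ^ n := by
          rw [div_pow (R / 2) r n]
          field_simp
  have e1 : ∀ n, ‖c n‖ ≤ M * (2 / 3 : ℝ) ^ n := by
    intro n
    have h1 := hest (3 * R / 4) M (by positivity) (by linarith)
      (fun w hw => hM1 w (closedBall_subset_ball (by linarith) hw)) n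
    have h2 : R / 2 / (3 * R / 4) = 2 / 3 := by field_simp; norm_num
    rwa [h2] at h1
  have e2 : ∀ n, ‖c n‖ ≤ δ * (R / rho) ^ n := by
    intro n
    have h1 := hest (rho / 2) δ (by positivity) (by linarith)
      (fun w hw => hδ w (closedBall_subset_ball (by linarith) hw)) n
    have h2 : R / 2 / (rho / 2) = R / rho := by field_simp
    rwa [h2] at h1
  have hs := hsum.summable
  have h3 : h z = ∑ n ∈ Finset.range N, c n + ∑' n, c (n + N) := by
    rw [hs.sum_add_tsum_nat_add N, hsum.tsum_eq]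
  have h4 : ‖∑' n, c (n + N)‖ ≤ 3 * M * (2 / 3 : ℝ) ^ N := by
    refine tsum_of_norm_bounded (g := fun n : ℕ => M * (2 / 3 : ℝ) ^ N * (2 / 3 : ℝ) ^ n) ?_ ?_
    · have h5 := (hasSum_geometric_of_lt_one (r := (2 / 3 : ℝ)) (by norm_num) (by norm_num)).mul_left
        (M * (2 / 3 : ℝ) ^ N)
      have h6 : (1 - (2 / 3 : ℝ))⁻¹ = 3 := by norm_num
      have h7 : 3 * M * (2 / 3 : ℝ) ^ N = M * (2 / 3 : ℝ) ^ N * (1 - (2 / 3 : ℝ))⁻¹ := by
        rw [h6]; ring
      rw [h7]
      exact h5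
    · intro n
      refine (e1 (n + N)).trans (le_of_eq ?_)
      rw [pow_add]
      ring
  have h5 : ‖∑ n ∈ Finset.range N, c n‖ ≤ eps / 2 := by
    refine (norm_sum_le _ _).trans ?_
    refine (Finset.sum_le_sum fun n _ => e2 n).trans ?_
    rw [← Finset.mul_sum, hδdef, div_mul_eq_mul_div, div_le_iff₀ (by positivity)]
    nlinarith
  rw [h3]
  refine (norm_add_le _ _).trans ?_
  linarith

/-- Uniform smallness near a point of the half plane. -/
private def Un (B : Op) (t z : ℂ) (r : ℝ) : Prop :=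
  ∀ eps > 0, ∀ᶠ s : ℝ in 𝓝[>] 0, ∀ z' ∈ ball z r, ‖(en (t * (1 - s * z'))).comp B‖ ≤ eps

private theorem nsq (s : ℝ) (z : ℂ) :
    ‖(1 - s * z : ℂ)‖ ^ 2 = 1 - s * (2 * z.re - s * ‖z‖ ^ 2) := by
  rw [Complex.sq_norm, Complex.sq_norm, Complex.normSq_apply, Complex.normSq_apply]
  simp
  ring

private theorem Un.prop {B : Op} {t : ℂ} (ht : ‖t‖ = 1) {z : ℂ} (hz : 0 < z.re) {r : ℝ}
    (hr : 0 < r) (h : Un B t z r) : Un B t z (z.re / 4) := by
  obtain ⟨R, hRd⟩ : ∃ R : ℝ, R = z.re / 2 := ⟨_, rfl⟩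
  have hR : 0 < R := by rw [hRd]; positivity
  obtain ⟨L, hLd⟩ : ∃ L : ℝ, L = ‖z‖ + R := ⟨_, rfl⟩
  have hL : 0 < L := by rw [hLd]; positivity
  have hre : ∀ y ∈ ball z R, R < y.re ∧ y.re ≤ L ∧ ‖y‖ ≤ L := by
    intro y hy
    rw [mem_ball, dist_eq_norm] at hy
    have h1 := Complex.abs_re_le_norm (y - z)
    rw [Complex.sub_re] at h1
    have h2 := neg_abs_le (y.re - z.re)
    have h3 : ‖y‖ ≤ ‖z‖ + ‖y - z‖ := by
      have := norm_add_le z (y - z)
      rwa [add_sub_cancel] at this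
    have h4 := Complex.re_le_norm y
    exact ⟨by linarith, by linarith, by linarith⟩
  intro eps heps
  obtain ⟨δ, hδ, hsd⟩ := small_disc (R := R) (rho := min r (R / 2)) (lt_min hr (by positivity))
    ((min_le_right _ _).trans_lt (by linarith)) (M := (‖B‖ + 1) / Real.sqrt R) (by positivity)
    (eps := eps / Real.sqrt (2 * L)) (by positivity)
  have h2 : ∀ᶠ s : ℝ in 𝓝[>] 0, s ∈ Ioc 0 (R / L ^ 2) := Ioc_mem_nhdsGT (by positivity)
  filter_upwards [h (δ * Real.sqrt R) (by positivity), h2] with s hs hs2 z' hz'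
  have hs0 : 0 < s := hs2.1
  have hsL : s * L ^ 2 ≤ R := by
    have := hs2.2
    rwa [le_div_iff₀ (by positivity)] at this
  have hwn : ∀ y ∈ ball z R, s * R ≤ 1 - ‖t * (1 - s * y)‖ ^ 2 ∧
      1 - ‖t * (1 - s * y)‖ ^ 2 ≤ s * (2 * L) := by
    intro y hy
    obtain ⟨h3, h4, h5⟩ := hre y hy
    rw [norm_mul, ht, one_mul, nsq]
    have h6 : ‖y‖ ^ 2 ≤ L ^ 2 := pow_le_pow_left₀ (norm_nonneg _) h5 2
    have h7 : s * ‖y‖ ^ 2 ≤ R := (mul_le_mul_of_nonneg_left h6 hs0.le).trans hsL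
    constructor
    · have : s * R ≤ s * (2 * y.re - s * ‖y‖ ^ 2) := mul_le_mul_of_nonneg_left (by linarith) hs0.le
      linarith
    · have : s * (2 * y.re - s * ‖y‖ ^ 2) ≤ s * (2 * L) :=
        mul_le_mul_of_nonneg_left (by
          have : 0 ≤ s * ‖y‖ ^ 2 := by positivity
          linarith) hs0.le
      linarith
  have hw1 : ∀ y ∈ ball z R, ‖t * (1 - s * y)‖ < 1 := by
    intro y hy
    have h3 := (hwn y hy).1
    have h4 : 0 < s * R := by positivity
    have h5 : ‖t * (1 - s * y)‖ ^ 2 < 1 := by linarith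
    exact (sq_lt_one_iff₀ (norm_nonneg _)).1 h5
  refine ContinuousLinearMap.opNorm_le_of_unit_norm heps.le fun f hf => ?_
  have hen : ∀ w : ℂ, ‖((en w).comp B) f‖ = Real.sqrt (1 - ‖w‖ ^ 2) * ‖ev w (B f)‖ := by
    intro w
    have e : ((en w).comp B) f = (Real.sqrt (1 - ‖w‖ ^ 2) : ℂ) * ev w (B f) := rfl
    rw [e, norm_mul, Complex.norm_real, Real.norm_of_nonneg (Real.sqrt_nonneg _)]
  have hG : ∀ y ∈ ball z R, Real.sqrt s * ‖ev (t * (1 - s * y)) (B f)‖ ≤
      ‖(en (t * (1 - s * y))).comp B‖ / Real.sqrt R := by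
    intro y hy
    rw [le_div_iff₀ (by positivity)]
    have h3 : Real.sqrt s * Real.sqrt R ≤ Real.sqrt (1 - ‖t * (1 - s * y)‖ ^ 2) := by
      rw [← Real.sqrt_mul hs0.le]
      exact Real.sqrt_le_sqrt (hwn y hy).1
    have h4 := ((en (t * (1 - s * y))).comp B).le_opNorm f
    rw [hf, mul_one, hen] at h4
    refine le_trans ?_ h4
    have h5 := mul_le_mul_of_nonneg_right h3 (norm_nonneg (ev (t * (1 - s * y)) (B f)))
    linarith
  have hGn : ∀ y, ‖(Real.sqrt s : ℂ) * ev (t * (1 - s * y)) (B f)‖ =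
      Real.sqrt s * ‖ev (t * (1 - s * y)) (B f)‖ := by
    intro y
    rw [norm_mul, Complex.norm_real, Real.norm_of_nonneg (Real.sqrt_nonneg _)]
  have key := hsd z (fun y => (Real.sqrt s : ℂ) * ev (t * (1 - s * y)) (B f)) (by
      refine DifferentiableOn.const_mul ?_ _
      refine DifferentiableOn.clm_apply ?_ (differentiableOn_const _)
      refine ev_diffOn.comp (by fun_prop) ?_
      intro y hy
      rw [mem_ball_zero_iff]
      exact hw1 y hy) (by
      intro y hy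
      rw [hGn]
      refine (hG y hy).trans ?_
      refine div_le_div_of_nonneg_right ?_ (Real.sqrt_nonneg _)
      have h3 := (en (t * (1 - s * y))).opNorm_comp_le B
      rw [norm_en (hw1 y hy), one_mul] at h3
      linarith) (by
      intro y hy
      rw [hGn]
      have hy1 : y ∈ ball z R := ball_subset_ball ((min_le_right _ _).trans (by linarith)) hy
      refine (hG y hy1).trans ?_
      rw [div_le_iff₀ (by positivity)]
      exact hs y (ball_subset_ball (min_le_left _ _) hy)) z' (by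
      have e : R / 2 = z.re / 4 := by rw [hRd]; ring
      rw [e]
      exact hz')
  rw [hGn] at key
  have hz1 : z' ∈ ball z R := ball_subset_ball (by rw [hRd]; linarith) hz'
  rw [hen]
  have h3 : Real.sqrt (1 - ‖t * (1 - s * z')‖ ^ 2) ≤ Real.sqrt s * Real.sqrt (2 * L) := by
    rw [← Real.sqrt_mul hs0.le]
    exact Real.sqrt_le_sqrt (hwn z' hz1).2
  rw [le_div_iff₀ (by positivity)] at key
  have h5 := mul_le_mul_of_nonneg_right h3 (norm_nonneg (ev (t * (1 - s * z')) (B f)))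
  linarith

theorem two_op {B : Op} {t : ℂ} (ht : ‖t‖ = 1) {z0 : ℂ} {rho : ℝ} (hrho : 0 < rho)
    (h0 : ∀ z ∈ ball z0 rho, 0 < z.re)
    (h : ∀ eps > 0, ∀ᶠ s : ℝ in 𝓝[>] 0, ∀ z ∈ ball z0 rho, ‖(en (t * (1 - s * z))).comp B‖ ≤ eps)
    {z1 : ℂ} (h1 : 0 < z1.re) :
    Tendsto (fun s : ℝ => ‖(en (t * (1 - s * z1))).comp B‖) (𝓝[>] 0) (𝓝 0) := by
  have hz0 : 0 < z0.re := h0 z0 (mem_ball_self hrho)
  obtain ⟨m, hm, hm0, hm1⟩ : ∃ m : ℝ, 0 < m ∧ m ≤ z0.re ∧ m ≤ z1.re :=
    ⟨min z0.re z1.re, lt_min hz0 h1, min_le_left _ _, min_le_right _ _⟩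
  obtain ⟨N, hN⟩ := exists_nat_gt (8 * ‖z1 - z0‖ / m)
  have hN0 : (0 : ℝ) < N := lt_of_le_of_lt (by positivity) hN
  obtain ⟨p, hp⟩ : ∃ p : ℕ → ℂ, ∀ n, p n = z0 + ((n / N : ℝ) : ℂ) * (z1 - z0) :=
    ⟨_, fun _ => rfl⟩
  have hpre : ∀ n ≤ N, m ≤ (p n).re := by
    intro n hn
    have h2 : (n : ℝ) / N ≤ 1 := by
      rw [div_le_one hN0]
      exact_mod_cast hn
    have h3 : (0 : ℝ) ≤ (n : ℝ) / N := by positivity
    rw [hp]
    simp only [Complex.add_re, Complex.re_ofReal_mul, Complex.sub_re]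
    nlinarith
  have hstep : ∀ n, dist (p (n + 1)) (p n) ≤ m / 8 := by
    intro n
    rw [dist_eq_norm, hp, hp]
    have e : z0 + (((n + 1 : ℕ) / N : ℝ) : ℂ) * (z1 - z0) - (z0 + ((n / N : ℝ) : ℂ) * (z1 - z0)) =
        ((1 / N : ℝ) : ℂ) * (z1 - z0) := by
      push_cast
      ring
    rw [e, norm_mul, Complex.norm_real, Real.norm_of_nonneg (by positivity)]
    rw [div_lt_iff₀ hm] at hN
    rw [one_div_mul_eq_div, div_le_iff₀ hN0]
    linarith
  have hall : ∀ n ≤ N, ∃ r > 0, Un B t (p n) r := by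
    intro n
    induction n with
    | zero =>
      intro _
      have e : p 0 = z0 := by rw [hp]; simp
      rw [e]
      exact ⟨rho, hrho, h⟩
    | succ n ih =>
      intro hn
      obtain ⟨r, hr, h2⟩ := ih (by omega)
      have h3 := hpre n (by omega)
      have h4 := h2.prop ht (hm.trans_le h3) hr
      refine ⟨m / 8, by positivity, fun eps heps => ?_⟩
      filter_upwards [h4 eps heps] with s hs z hz
      refine hs z ?_
      rw [mem_ball] at hz ⊢
      have h5 := dist_triangle z (p (n + 1)) (p n)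
      have h6 := hstep n
      linarith
  obtain ⟨r, hr, h2⟩ := hall N le_rfl
  have e : p N = z1 := by
    rw [hp, div_self hN0.ne']
    simp
  rw [e] at h2
  rw [Metric.tendsto_nhds]
  intro eps heps
  filter_upwards [h2 (eps / 2) (by positivity)] with s hs
  have h3 := hs z1 (mem_ball_self hr)
  rw [dist_zero_right, norm_norm]
  linarith

end Pool.Agent.TBirN
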