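import Pool.Agent.TBirN.Dx
import Pool.Agent.TBirN.Tc
import Pool.Agent.TBirN.Tl
import Pool.Agent.TBirJ.Trj

/-!
# The rectangle rule

Setting of `db_fac`; `x = m`, `B = V0 P U0`, `q = phi t1`. In the cone with the signs `s1`, `s2` (a convex set, so preconnected, off `K`) near `q` the number is `n = x + ii s1 + ii s2` (`db_ix`, `db_sx`) and the trace is constant, `τ s1 s2` (`tr_preconnectedJ`). Apply `tr_lim` with the filter `𝓝[Sx ..] q`, the functionals `co 0, .., co (m - 1)` (norm at most `1`), `en (g1 l)` if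
`s1 = -1`, `en (g2 l)` if `s2 = -1` and the vectors `mono i`, `kn (g1 l)`, `kn (g2 l)`: the matrix tends to the unit matrix by `en_weak`, `en_cross`, `db_lim`. Let `Θ = sum co i (B (mono i))`.
Signs `1 1`: `τ 1 1 = Θ`. Signs `-1 1`: `Θ + en (g1 l) (B (kn (g1 l)))` tends to `τ (-1) 1`, so `en (g1 l) (B (kn (g1 l)))` tends to `c1 = τ (-1) 1 - τ 1 1`; `diag_lim` (`i0` = the last index, `h0` by `en_weak` for the vectors `B (mono i)`): `‖(en (g1 l)).comp (B - c1)‖` tends to `0` in this cone. The points `w = t1 (1 - s z)`, `z` in a small ball around `z0 = -a1 η`, `q + s η` in the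
cone: `g1 (q + s η')`, `η' = -z / a1`, is near `w` (`lim1`, `en_near`), so `two_op` applies to `B - c1` at `t1`: `‖(en (t1 (1 - s z1))).comp (B - c1)‖` tends to `0` for all `z1` with `0 < re z1`, so `‖(en (g1 l)).comp (B - c1)‖` tends to `0` along the ray `l = q + s η1`, `η1` in the cone with the signs `-1 -1`. The same for `g2`, `c2 = τ 1 (-1) - τ 1 1`. `tr_lim` along the ray (the filter
is the image of `𝓝[>] 0`): `τ (-1) (-1) = Θ + c1 + c2`.
-/

set_option autoImplicit false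

open MeasureTheory Complex Set Filter Topology Metric AddCircle
open scoped ComplexConjugate InnerProductSpace ENNReal

namespace Pool.Agent.TBirN

open Pool.Agent.TBir Pool.Agent.TBirG Pool.Agent.TBirC Pool.Agent.TBirJ Pool.Agent.TBirK
open Pool.Agent.TBirP (E qT)
open Pool.Agent.TBirS (DR)

variable {phi : ℂ → ℂ} {K : Set ℂ} {t1 t2 a1 a2 : ℂ} {x : ℤ} {g1 g2 : ℂ → ℂ}

/-! ### Traces and the normalised kernels -/

/-- The data along a filter: `k` inner points `gam j l` which tend to different points `tt j` of the circle. -/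
private structure RD (phi : ℂ → ℂ) (f : Filter ℂ) (m k : ℕ) (U V : ℂ → Op) (U0 V0 : Op)
    (tt : Fin k → ℂ) (gam : Fin k → ℂ → ℂ) : Prop where
  hU : Tendsto U f (𝓝 U0)
  hV : Tendsto V f (𝓝 V0)
  hUV : ∀ᶠ l in f, U l * V l = 1 ∧ V l * U l = 1
  hT : ∀ j, ‖tt j‖ = 1
  inj : Function.Injective tt
  hg : ∀ j, Tendsto (gam j) f (𝓝 (tt j))
  hin : ∀ᶠ l in f, ∀ j, ‖gam j l‖ < 1
  hr : ∀ᶠ l in f, ∀ g, RgJ phi g l ↔ (∀ i : ℕ, i < m → co (V l g) i = 0) ∧
    ∀ j, ev (gam j l) (V l g) = 0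

private noncomputable def rL (m k : ℕ) (gam : Fin k → ℂ → ℂ) (l : ℂ) :
    Fin (m + k) → (Hardy →L[ℂ] ℂ) :=
  Fin.addCases (fun i => coL (i : ℕ)) (fun j => en (gam j l))

private noncomputable def rE (m k : ℕ) (gam : Fin k → ℂ → ℂ) (l : ℂ) : Fin (m + k) → Hardy :=
  Fin.addCases (fun i => mono (i : ℕ)) (fun j => kn (gam j l))

private theorem en_zero {w : ℂ} (hw : ‖w‖ < 1) (f : Hardy) : en w f = 0 ↔ ev w f = 0 := by
  have h1 : (Real.sqrt (1 - ‖w‖ ^ 2) : ℂ) ≠ 0 := by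
    rw [Complex.ofReal_ne_zero]
    exact (Real.sqrt_pos.2 (by nlinarith [norm_nonneg w])).ne'
  change (Real.sqrt (1 - ‖w‖ ^ 2) : ℂ) • ev w f = 0 ↔ _
  rw [smul_eq_zero]
  constructor
  · rintro (h | h)
    · exact absurd h h1
    · exact h
  · exact fun h => Or.inr h

private theorem coL_kn (i : ℕ) (w : ℂ) : coL i (kn w) = conj (en w (mono i)) := by
  rw [← inner_kn, inner_conj_symm]
  rfl

section

variable {P : Op} {f : Filter ℂ} {m k : ℕ} {U V : ℂ → Op} {U0 V0 : Op}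
  {tt : Fin k → ℂ} {gam : Fin k → ℂ → ℂ}

private theorem RD.weak (h : RD phi f m k U V U0 V0 tt gam) (j : Fin k) (u : Hardy) :
    Tendsto (fun l => en (gam j l) u) f (𝓝 0) := by
  have h1 : Tendsto (gam j) f (𝓝[ball 0 1] (tt j)) := by
    refine tendsto_nhdsWithin_iff.2 ⟨h.hg j, ?_⟩
    filter_upwards [h.hin] with l hl
    exact mem_ball_zero_iff.2 (hl j)
  exact (en_weak (h.hT j) u).comp h1

private theorem RD.cross (h : RD phi f m k U V U0 V0 tt gam) {i j : Fin k} (hij : i ≠ j) :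
    Tendsto (fun l => en (gam i l) (kn (gam j l))) f (𝓝 0) := by
  rw [Metric.tendsto_nhds]
  intro eps heps
  obtain ⟨δ, hδ, h1⟩ := en_cross (h.hT i) (h.hT j) (fun hh => hij (h.inj hh)) (half_pos heps)
  filter_upwards [h.hin, Metric.tendsto_nhds.1 (h.hg i) δ hδ, Metric.tendsto_nhds.1 (h.hg j) δ hδ]
    with l h2 h3 h4
  rw [dist_zero_right]
  rw [dist_eq_norm] at h3 h4
  have h5 := h1 _ _ (h2 i) (h2 j) h3 h4
  linarith

private theorem RD.nL (h : RD phi f m k U V U0 V0 tt gam) : ∀ᶠ l in f, ∀ i, ‖rL m k gam l i‖ ≤ 1 := by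
  filter_upwards [h.hin] with l hl i
  induction i using Fin.addCases with
  | left i =>
    simp only [rL, Fin.addCases_left]
    exact norm_coL_le _
  | right j =>
    simp only [rL, Fin.addCases_right]
    exact (norm_en (hl j)).le

private theorem RD.nE (h : RD phi f m k U V U0 V0 tt gam) : ∀ᶠ l in f, ∀ i, ‖rE m k gam l i‖ ≤ 1 := by
  filter_upwards [h.hin] with l hl i
  induction i using Fin.addCases with
  | left i =>
    simp only [rE, Fin.addCases_left]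
    exact (norm_mono _).le
  | right j =>
    simp only [rE, Fin.addCases_right]
    exact (norm_kn (hl j)).le

private theorem RD.G (h : RD phi f m k U V U0 V0 tt gam) (i j : Fin (m + k)) :
    Tendsto (fun l => rL m k gam l i (rE m k gam l j)) f (𝓝 (if i = j then 1 else 0)) := by
  induction i using Fin.addCases with
  | left i =>
    induction j using Fin.addCases with
    | left j =>
      simp only [rL, rE, Fin.addCases_left, coL_apply, co_mono]
      have h1 : (Fin.castAdd k i = Fin.castAdd k j) ↔ (i : ℕ) = j := by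
        rw [Fin.ext_iff]
        rfl
      simp only [h1]
      exact tendsto_const_nhds
    | right j =>
      simp only [rL, rE, Fin.addCases_left, Fin.addCases_right, coL_kn]
      have h1 : ¬ (Fin.castAdd k i = Fin.natAdd m j) := by
        rw [Fin.ext_iff]
        have := i.2
        simp only [Fin.val_castAdd, Fin.val_natAdd]
        omega
      rw [if_neg h1]
      have h2 := (Complex.continuous_conj.tendsto 0).comp (h.weak j (mono i))
      rw [map_zero] at h2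
      exact h2
  | right i =>
    induction j using Fin.addCases with
    | left j =>
      simp only [rL, rE, Fin.addCases_left, Fin.addCases_right]
      have h1 : ¬ (Fin.natAdd m i = Fin.castAdd k j) := by
        rw [Fin.ext_iff]
        have := j.2
        simp only [Fin.val_castAdd, Fin.val_natAdd]
        omega
      rw [if_neg h1]
      exact h.weak i (mono j)
    | right j =>
      simp only [rL, rE, Fin.addCases_right]
      by_cases hij : i = j
      · subst hij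
        rw [if_pos rfl]
        refine (tendsto_const_nhds (x := (1 : ℂ))).congr' ?_
        filter_upwards [h.hin] with l hl
        exact (en_kn (hl i)).symm
      · have h1 : ¬ (Fin.natAdd m i = Fin.natAdd m j) := by
          intro hh
          apply hij
          rw [Fin.ext_iff] at hh ⊢
          simp only [Fin.val_natAdd] at hh
          omega
        rw [if_neg h1]
        exact h.cross hij

private theorem RD.r (h : RD phi f m k U V U0 V0 tt gam) :
    ∀ᶠ l in f, ∀ g, RgJ phi g l ↔ ∀ i, rL m k gam l i (V l g) = 0 := by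
  filter_upwards [h.hr, h.hin] with l h1 h2 g
  rw [h1 g]
  constructor
  · rintro ⟨h3, h4⟩ i
    induction i using Fin.addCases with
    | left i =>
      simp only [rL, Fin.addCases_left, coL_apply]
      exact h3 i i.2
    | right j =>
      simp only [rL, Fin.addCases_right]
      exact (en_zero (h2 j) _).2 (h4 j)
  · intro h3
    refine ⟨fun i hi => ?_, fun j => ?_⟩
    · have h4 := h3 (Fin.castAdd k ⟨i, hi⟩)
      simp only [rL, Fin.addCases_left, coL_apply] at h4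
      exact h4
    · have h4 := h3 (Fin.natAdd m j)
      simp only [rL, Fin.addCases_right] at h4
      exact (en_zero (h2 j) _).1 h4

private theorem RD.tr (h : RD phi f m k U V U0 V0 tt gam) (hP : P * Tp phi = Tp phi * P) {tau : ℂ}
    (ht : ∀ᶠ l in f, TrJ phi P l (m + k) tau) :
    Tendsto (fun l => ∑ i : Fin m, co ((V0 * P * U0) (mono i)) i +
      ∑ j, en (gam j l) ((V0 * P * U0) (kn (gam j l)))) f (𝓝 tau) := by
  have h1 := tr_lim (L := rL m k gam) (e0 := rE m k gam) (l := fun l => l) hP h.hU h.hV h.hUV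
    h.nL h.nE h.G h.r ht
  refine h1.congr fun l => ?_
  rw [Fin.sum_univ_add]
  simp only [rL, rE, Fin.addCases_left, Fin.addCases_right, coL_apply]

end

private theorem RD.diag {P : Op} {f : Filter ℂ} {m : ℕ} {U V : ℂ → Op} {U0 V0 : Op}
    {tt : Fin 1 → ℂ} {gam : Fin 1 → ℂ → ℂ} (h : RD phi f m 1 U V U0 V0 tt gam)
    (hP : P * Tp phi = Tp phi * P) :
    Tendsto (fun l => ‖(en (gam 0 l)).comp (V0 * P * U0) -
      (en (gam 0 l) ((V0 * P * U0) (kn (gam 0 l)))) • en (gam 0 l)‖) f (𝓝 0) := by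
  have h0 : ∀ j, j ≠ Fin.natAdd m (0 : Fin 1) →
      Tendsto (fun l => rL m 1 gam l (Fin.natAdd m 0) ((V0 * P * U0) (rE m 1 gam l j))) f (𝓝 0) := by
    intro j hj
    induction j using Fin.addCases with
    | left j =>
      simp only [rL, rE, Fin.addCases_left, Fin.addCases_right]
      exact h.weak 0 _
    | right j => exact absurd (by rw [Subsingleton.elim j 0]) hj
  have h1 := diag_lim (L := rL m 1 gam) (e0 := rE m 1 gam) (l := fun l => l) hP h.hU h.hV h.hUV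
    h.nL h.nE h.G h.r (Fin.natAdd m 0) h0
  refine h1.congr fun l => ?_
  simp only [rL, rE, Fin.addCases_right]

private theorem RD.one {P : Op} {f : Filter ℂ} {m : ℕ} {U V : ℂ → Op} {U0 V0 : Op}
    {tt : Fin 1 → ℂ} {gam : Fin 1 → ℂ → ℂ} (h : RD phi f m 1 U V U0 V0 tt gam)
    (hP : P * Tp phi = Tp phi * P) {tau : ℂ} (ht : ∀ᶠ l in f, TrJ phi P l (m + 1) tau) :
    Tendsto (fun l => ‖(en (gam 0 l)).comp (V0 * P * U0 -
      (tau - ∑ i : Fin m, co ((V0 * P * U0) (mono i)) i) • (1 : Op))‖) f (𝓝 0) := by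
  obtain ⟨B, hB⟩ : ∃ B, B = V0 * P * U0 := ⟨_, rfl⟩
  obtain ⟨c, hc⟩ : ∃ c, c = tau - ∑ i : Fin m, co (B (mono i)) i := ⟨_, rfl⟩
  have h1 := h.tr hP ht
  have h2 := h.diag hP
  rw [← hB] at h1 h2 ⊢
  rw [← hc]
  have h3 : Tendsto (fun l => en (gam 0 l) (B (kn (gam 0 l))) - c) f (𝓝 0) := by
    have h4 := h1.sub_const tau
    rw [sub_self] at h4
    refine h4.congr fun l => ?_
    rw [hc]
    simp only [Finset.univ_unique, Fin.default_eq_zero, Fin.isValue, Finset.sum_singleton]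
    ring
  have h4 : Tendsto (fun l => ‖(en (gam 0 l)).comp B -
      (en (gam 0 l) (B (kn (gam 0 l)))) • en (gam 0 l)‖ +
      ‖en (gam 0 l) (B (kn (gam 0 l))) - c‖) f (𝓝 0) := by
    have h5 := h2.add h3.norm
    rw [norm_zero, add_zero] at h5
    exact h5
  refine squeeze_zero' (Eventually.of_forall fun l => norm_nonneg _) ?_ h4
  filter_upwards [h.hin] with l hl
  have h5 : (en (gam 0 l)).comp (B - c • (1 : Op)) = ((en (gam 0 l)).comp B -
      (en (gam 0 l) (B (kn (gam 0 l)))) • en (gam 0 l)) +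
      (en (gam 0 l) (B (kn (gam 0 l))) - c) • en (gam 0 l) := by
    ext u
    have h6 : (B - c • (1 : Op)) u = B u - c • u := rfl
    simp only [ContinuousLinearMap.comp_apply, add_apply, sub_apply,
      smul_apply, h6, map_sub, map_smul, smul_eq_mul]
    ring
  rw [h5]
  refine (norm_add_le _ _).trans ?_
  rw [norm_smul, norm_en (hl 0), mul_one]

/-! ### Rays -/

private theorem near {g : ℂ → ℂ} {t a q : ℂ} (ht : ‖t‖ = 1)
    (hlim : ∀ eps > 0, ∀ᶠ l in 𝓝 q, l ∉ K → ‖g l - t * (1 + a * (l - q))‖ ≤ eps * ‖l - q‖)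
    {c C : ℝ} (hc : 0 < c) (hC : 0 < C) {eps : ℝ} (heps : 0 < eps) :
    ∀ᶠ s : ℝ in 𝓝[>] 0, ∀ η : ℂ, ‖η‖ ≤ C → (a * η).re ≤ -c → q + s * η ∉ K →
      ‖g (q + s * η)‖ < 1 ∧ ‖en (g (q + s * η)) - en (t * (1 + s * (a * η)))‖ ≤ eps := by
  obtain ⟨δ, hδ, h1⟩ := en_near heps
  have h2 := hlim (δ * c / (2 * C)) (by positivity)
  obtain ⟨ρ, hρ, h3⟩ := Metric.eventually_nhds_iff_ball.1 h2
  have hsm : ∀ (b d : ℝ), 0 < d → ∀ᶠ s : ℝ in 𝓝[>] 0, s * b < d := by
    intro b d hd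
    have h4 : Tendsto (fun s : ℝ => s * b) (𝓝[>] 0) (𝓝 (0 * b)) :=
      (tendsto_id.mono_left nhdsWithin_le_nhds).mul_const b
    rw [zero_mul] at h4
    exact h4.eventually_lt_const hd
  filter_upwards [hsm C ρ hρ, hsm ((‖a‖ * C) ^ 2) c hc, hsm c 1 one_pos, self_mem_nhdsWithin]
    with s h4 h5 h6 hs η hη hre hK
  have hs0 : 0 < s := hs
  have h10 : ‖(s : ℂ) * η‖ ≤ s * C := by
    rw [norm_mul, Complex.norm_real, Real.norm_of_nonneg hs0.le]
    exact mul_le_mul_of_nonneg_left hη hs0.le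
  have h7 : q + s * η ∈ ball q ρ := by
    rw [mem_ball, dist_eq_norm, add_sub_cancel_left]
    exact h10.trans_lt h4
  have h8 := h3 _ h7 hK
  rw [add_sub_cancel_left] at h8
  have h9 : t * (1 + a * (s * η)) = t * (1 + s * (a * η)) := by ring
  rw [h9] at h8
  have hz : ‖a * η‖ ≤ ‖a‖ * C := by
    rw [norm_mul]
    exact mul_le_mul_of_nonneg_left hη (norm_nonneg a)
  have h11 : ‖t * (1 + s * (a * η))‖ ≤ 1 - s * c / 2 := by
    rw [norm_mul, ht, one_mul]
    have h12 : ‖1 + (s : ℂ) * (a * η)‖ ^ 2 = 1 + 2 * (s * (a * η).re) + s ^ 2 * ‖a * η‖ ^ 2 := by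
      rw [← Complex.normSq_eq_norm_sq, ← Complex.normSq_eq_norm_sq, Complex.normSq_apply,
        Complex.normSq_apply]
      simp only [Complex.add_re, Complex.one_re, Complex.add_im, Complex.one_im,
        Complex.re_ofReal_mul, Complex.im_ofReal_mul]
      ring
    have h13 : s ^ 2 * ‖a * η‖ ^ 2 ≤ s * c := by
      have h14 : ‖a * η‖ ^ 2 ≤ (‖a‖ * C) ^ 2 := pow_le_pow_left₀ (norm_nonneg _) hz 2
      nlinarith [mul_pos hs0 hs0]
    have h15 : s * (a * η).re ≤ s * (-c) := mul_le_mul_of_nonneg_left hre hs0.le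
    have h16 : ‖1 + (s : ℂ) * (a * η)‖ ^ 2 ≤ (1 - s * c / 2) ^ 2 := by
      rw [h12]
      nlinarith [mul_pos hs0 hc]
    exact (sq_le_sq₀ (norm_nonneg _) (by linarith)).1 h16
  have h12 : ‖t * (1 + s * (a * η))‖ < 1 := by
    have := mul_pos hs0 hc
    linarith
  refine h1 _ _ h12 ?_
  refine h8.trans ?_
  have h13 : δ * c / (2 * C) * ‖(s : ℂ) * η‖ ≤ δ * c / (2 * C) * (s * C) :=
    mul_le_mul_of_nonneg_left h10 (by positivity)
  have h14 : δ * c / (2 * C) * (s * C) = δ * (s * c / 2) := by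
    field_simp
  rw [h14] at h13
  refine h13.trans (mul_le_mul_of_nonneg_left ?_ hδ.le)
  linarith

private theorem ray {A : Set ℂ} {g : ℂ → ℂ} {t a q : ℂ} {B : Op} (ht : ‖t‖ = 1) (ha : a ≠ 0)
    (hlim : ∀ eps > 0, ∀ᶠ l in 𝓝 q, l ∉ K → ‖g l - t * (1 + a * (l - q))‖ ≤ eps * ‖l - q‖)
    (hA : A ⊆ Kᶜ) {η0 : ℂ} {ρ : ℝ} (hρ : 0 < ρ) (hre : (a * η0).re < 0)
    (hin : ∀ᶠ s : ℝ in 𝓝[>] 0, ∀ η ∈ ball η0 ρ, q + s * η ∈ A)
    (hB : Tendsto (fun l => ‖(en (g l)).comp B‖) (𝓝[A] q) (𝓝 0)) {η1 : ℂ} (h1 : (a * η1).re < 0)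
    (hK : ∀ᶠ s : ℝ in 𝓝[>] 0, q + s * η1 ∉ K) :
    Tendsto (fun s : ℝ => ‖(en (g (q + s * η1))).comp B‖) (𝓝[>] 0) (𝓝 0) := by
  have hap : 0 < ‖a‖ := norm_pos_iff.2 ha
  obtain ⟨c, hc⟩ : ∃ c : ℝ, c = -(a * η0).re / 2 := ⟨_, rfl⟩
  have hc0 : 0 < c := by rw [hc]; linarith
  obtain ⟨ρ1, hρ1⟩ : ∃ r : ℝ, r = min ρ (c / ‖a‖) := ⟨_, rfl⟩
  have hρ10 : 0 < ρ1 := by rw [hρ1]; exact lt_min hρ (div_pos hc0 hap)
  have hsm : ∀ (b d : ℝ), 0 < d → ∀ᶠ s : ℝ in 𝓝[>] 0, s * b < d := by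
    intro b d hd
    have h4 : Tendsto (fun s : ℝ => s * b) (𝓝[>] 0) (𝓝 (0 * b)) :=
      (tendsto_id.mono_left nhdsWithin_le_nhds).mul_const b
    rw [zero_mul] at h4
    exact h4.eventually_lt_const hd
  -- from `z` to `η`
  have hz : ∀ z ∈ ball (-(a * η0)) (ρ1 * ‖a‖), -z / a ∈ ball η0 ρ ∧ a * (-z / a) = -z ∧
      c ≤ z.re ∧ ‖-z / a‖ ≤ ‖η0‖ + ρ1 := by
    intro z hz
    rw [mem_ball, dist_eq_norm, sub_neg_eq_add] at hz
    have h2 : a * (-z / a) = -z := mul_div_cancel₀ _ ha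
    have h3 : -z / a - η0 = -(z + a * η0) / a := by
      field_simp
      ring
    have h4 : ‖-z / a - η0‖ < ρ1 := by
      rw [h3, norm_div, norm_neg, div_lt_iff₀ hap]
      exact hz
    refine ⟨?_, h2, ?_, ?_⟩
    · rw [mem_ball, dist_eq_norm]
      exact h4.trans_le (by rw [hρ1]; exact min_le_left _ _)
    · have h5 : (z + a * η0).re ≥ -(ρ1 * ‖a‖) := by
        have := Complex.abs_re_le_norm (z + a * η0)
        have h6 := neg_abs_le (z + a * η0).re
        linarith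
      have h6 : ρ1 * ‖a‖ ≤ c := by
        have : ρ1 ≤ c / ‖a‖ := by rw [hρ1]; exact min_le_right _ _
        rwa [le_div_iff₀ hap] at this
      rw [Complex.add_re] at h5
      have h7 : (a * η0).re = -2 * c := by rw [hc]; ring
      linarith
    · have h5 : -z / a = η0 + (-z / a - η0) := by ring
      rw [h5]
      exact (norm_add_le _ _).trans (by linarith)
  have hC : 0 < ‖η0‖ + ρ1 := by
    have := norm_nonneg η0
    linarith
  have hcomp : ∀ w w' : ℂ, ‖(en w').comp B‖ ≤ ‖(en w).comp B‖ + ‖en w - en w'‖ * ‖B‖ := by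
    intro w w'
    have h2 : (en w').comp B = (en w).comp B - (en w - en w').comp B := by
      ext u
      simp only [ContinuousLinearMap.comp_apply, sub_apply]
      ring
    rw [h2]
    exact (norm_sub_le _ _).trans (add_le_add le_rfl (ContinuousLinearMap.opNorm_comp_le _ _))
  have hBB : 0 < ‖B‖ + 1 := by
    have := norm_nonneg B
    linarith
  have two := two_op (B := B) ht (z0 := -(a * η0)) (rho := ρ1 * ‖a‖) (mul_pos hρ10 hap)
    (fun z hz' => hc0.trans_le (hz z hz').2.2.1) (by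
      intro eps heps
      have e1 := near (K := K) ht hlim hc0 hC (eps := eps / 2 / (‖B‖ + 1)) (by positivity)
      have e2 : ∀ᶠ l in 𝓝[A] q, ‖(en (g l)).comp B‖ < eps / 2 :=
        hB.eventually_lt_const (half_pos heps)
      rw [eventually_nhdsWithin_iff] at e2
      obtain ⟨ρ2, hρ2, e3⟩ := Metric.eventually_nhds_iff_ball.1 e2
      filter_upwards [e1, hin, hsm (‖η0‖ + ρ1) ρ2 hρ2, self_mem_nhdsWithin] with s h2 h3 h4 hs z hz'
      have hs0 : 0 < s := hs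
      obtain ⟨h5, h6, h7, h8⟩ := hz z hz'
      have h9 := h3 _ h5
      have h10 := h2 (-z / a) h8 (by rw [h6, Complex.neg_re]; linarith) (hA h9)
      have h11 : q + s * (-z / a) ∈ ball q ρ2 := by
        rw [mem_ball, dist_eq_norm, add_sub_cancel_left, norm_mul, Complex.norm_real,
          Real.norm_of_nonneg hs0.le]
        exact (mul_le_mul_of_nonneg_left h8 hs0.le).trans_lt h4
      have h12 := e3 _ h11 h9
      have h13 : t * (1 - s * z) = t * (1 + s * (a * (-z / a))) := by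
        rw [h6]
        ring
      rw [h13]
      refine (hcomp (g (q + s * (-z / a))) _).trans ?_
      have h14 : ‖en (g (q + s * (-z / a))) - en (t * (1 + s * (a * (-z / a))))‖ * ‖B‖ ≤
          eps / 2 / (‖B‖ + 1) * (‖B‖ + 1) :=
        mul_le_mul h10.2 (by linarith) (norm_nonneg _) (by positivity)
      rw [div_mul_cancel₀ _ hBB.ne'] at h14
      linarith)
    (z1 := -(a * η1)) (by rw [Complex.neg_re]; linarith)
  rw [Metric.tendsto_nhds]
  intro eps heps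
  have e1 := near (K := K) ht hlim (c := -(a * η1).re) (by linarith) (C := ‖η1‖ + 1)
    (by have := norm_nonneg η1; linarith) (eps := eps / 2 / (‖B‖ + 1)) (by positivity)
  have e2 : ∀ᶠ s : ℝ in 𝓝[>] 0, ‖(en (t * (1 - s * (-(a * η1))))).comp B‖ < eps / 2 :=
    two.eventually_lt_const (half_pos heps)
  filter_upwards [e1, e2, hK] with s h2 h3 h4
  have h5 := (h2 η1 (by linarith) (by linarith) h4).2
  rw [dist_zero_right, norm_norm]
  have h13 : t * (1 - s * (-(a * η1))) = t * (1 + s * (a * η1)) := by ring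
  rw [h13] at h3
  refine (hcomp (t * (1 + s * (a * η1))) _).trans_lt ?_
  rw [norm_sub_rev]
  have h14 : ‖en (g (q + s * η1)) - en (t * (1 + s * (a * η1)))‖ * ‖B‖ ≤
      eps / 2 / (‖B‖ + 1) * (‖B‖ + 1) :=
    mul_le_mul h5 (by linarith) (norm_nonneg _) (by positivity)
  rw [div_mul_cancel₀ _ hBB.ne'] at h14
  linarith

/-- From the norm to the diagonal value. -/
private theorem diag_val {ι : Type} {f : Filter ι} {w : ι → ℂ} {B : Op} {c : ℂ}
    (hw : ∀ᶠ s in f, ‖w s‖ < 1) (h : Tendsto (fun s => ‖(en (w s)).comp (B - c • (1 : Op))‖) f (𝓝 0)) :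
    Tendsto (fun s => en (w s) (B (kn (w s)))) f (𝓝 c) := by
  rw [← tendsto_sub_nhds_zero_iff, tendsto_zero_iff_norm_tendsto_zero]
  refine squeeze_zero' (Eventually.of_forall fun l => norm_nonneg _) ?_ h
  filter_upwards [hw] with s hs
  have h1 : en (w s) (B (kn (w s))) - c = (en (w s)).comp (B - c • (1 : Op)) (kn (w s)) := by
    have h6 : (B - c • (1 : Op)) (kn (w s)) = B (kn (w s)) - c • kn (w s) := rfl
    rw [ContinuousLinearMap.comp_apply, h6, map_sub, map_smul, en_kn hs, smul_eq_mul, mul_one]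
  rw [h1]
  refine (ContinuousLinearMap.le_opNorm _ _).trans ?_
  rw [norm_kn hs, mul_one]

/-! ### Cones -/

private theorem sx_conv (a1 a2 q : ℂ) {kap : ℝ} (hk : 0 < kap) (r s1 s2 : ℝ) :
    Convex ℝ (Sx a1 a2 q kap r s1 s2) := by
  intro l hl l' hl' u v hu hv huv
  obtain ⟨h1, h2, h3⟩ := hl
  obtain ⟨h1', h2', h3'⟩ := hl'
  have e0 : u • l + v • l' - q = (u : ℂ) * (l - q) + (v : ℂ) * (l' - q) := by
    have : q = ((u : ℂ) + (v : ℂ)) * q := by
      rw [← Complex.ofReal_add, huv, Complex.ofReal_one, one_mul]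
    rw [Complex.real_smul, Complex.real_smul]
    nth_rewrite 1 [this]
    ring
  have e1 : ‖u • l + v • l' - q‖ ≤ u * ‖l - q‖ + v * ‖l' - q‖ := by
    rw [e0]
    refine (norm_add_le _ _).trans ?_
    rw [norm_mul, norm_mul, Complex.norm_real, Complex.norm_real, Real.norm_of_nonneg hu,
      Real.norm_of_nonneg hv]
  have e2 : ∀ a : ℂ, (a * (u • l + v • l' - q)).re = u * (a * (l - q)).re + v * (a * (l' - q)).re := by
    intro a
    rw [e0, mul_add, Complex.add_re, mul_left_comm, mul_left_comm a (v : ℂ), Complex.re_ofReal_mul,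
      Complex.re_ofReal_mul]
  have hpos : 0 < u ∨ 0 < v := by
    by_contra hcon
    push Not at hcon
    linarith [hcon.1, hcon.2]
  have key : ∀ x y x' y' : ℝ, x < y → x' < y' → u * x + v * x' < u * y + v * y' := by
    intro x y x' y' hx hx'
    rcases hpos with h | h
    · have h4 := mul_lt_mul_of_pos_left hx h
      have h5 := mul_le_mul_of_nonneg_left hx'.le hv
      linarith
    · have h4 := mul_le_mul_of_nonneg_left hx.le hu
      have h5 := mul_lt_mul_of_pos_left hx' h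
      linarith
  rw [mem_ball, dist_eq_norm] at h1 h1'
  refine ⟨?_, ?_, ?_⟩
  · rw [mem_ball, dist_eq_norm]
    have h4 := key _ _ _ _ h1 h1'
    have h5 : u * r + v * r = r := by rw [← add_mul, huv, one_mul]
    linarith
  · rw [e2]
    have h4 := key _ _ _ _ h2 h2'
    have h5 := mul_le_mul_of_nonneg_left e1 hk.le
    nlinarith
  · rw [e2]
    have h4 := key _ _ _ _ h3 h3'
    have h5 := mul_le_mul_of_nonneg_left e1 hk.le
    nlinarith

private theorem sx_mono (a1 a2 q : ℂ) (kap : ℝ) {r r' : ℝ} (h : r ≤ r') (s1 s2 : ℝ) :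
    Sx a1 a2 q kap r s1 s2 ⊆ Sx a1 a2 q kap r' s1 s2 :=
  fun _ hl => ⟨ball_subset_ball h hl.1, hl.2⟩

/-- Rays in a cone. -/
private theorem sx_ray {a1 a2 q : ℂ} {kap r0 s1 s2 : ℝ} (hk : 0 < kap)
    (hne : (Sx a1 a2 q kap r0 s1 s2).Nonempty) {r : ℝ} (hr : 0 < r) : ∃ (η : ℂ) (ρ : ℝ), 0 < ρ ∧
      0 < s1 * (a1 * η).re ∧ 0 < s2 * (a2 * η).re ∧
      ∀ᶠ s : ℝ in 𝓝[>] 0, ∀ η' ∈ ball η ρ, q + s * η' ∈ Sx a1 a2 q kap r s1 s2 := by
  obtain ⟨l, -, h1, h2⟩ := hne
  have hO : IsOpen {η : ℂ | kap * ‖η‖ < s1 * (a1 * η).re ∧ kap * ‖η‖ < s2 * (a2 * η).re} := by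
    have c1 : Continuous fun η : ℂ => kap * ‖η‖ := continuous_const.mul continuous_norm
    have c2 : ∀ (s : ℝ) (a : ℂ), Continuous fun η : ℂ => s * (a * η).re := fun s a =>
      continuous_const.mul (Complex.continuous_re.comp (continuous_const.mul continuous_id))
    exact (isOpen_lt c1 (c2 s1 a1)).inter (isOpen_lt c1 (c2 s2 a2))
  obtain ⟨ρ, hρ, h3⟩ := Metric.isOpen_iff.1 hO (l - q) ⟨h1, h2⟩
  have h0 : 0 ≤ kap * ‖l - q‖ := by positivity
  refine ⟨l - q, ρ, hρ, h0.trans_lt h1, h0.trans_lt h2, ?_⟩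
  have h4 : ∀ᶠ s : ℝ in 𝓝[>] 0, s * (‖l - q‖ + ρ) < r := by
    have h5 : Tendsto (fun s : ℝ => s * (‖l - q‖ + ρ)) (𝓝[>] 0) (𝓝 (0 * (‖l - q‖ + ρ))) :=
      (tendsto_id.mono_left nhdsWithin_le_nhds).mul_const _
    rw [zero_mul] at h5
    exact h5.eventually_lt_const hr
  filter_upwards [h4, self_mem_nhdsWithin] with s h5 hs η' hη'
  have hs0 : 0 < s := hs
  obtain ⟨h6, h7⟩ := h3 hη'
  have h8 : ‖(s : ℂ) * η'‖ = s * ‖η'‖ := by
    rw [norm_mul, Complex.norm_real, Real.norm_of_nonneg hs0.le]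
  have h9 : ‖η'‖ ≤ ‖l - q‖ + ρ := by
    rw [mem_ball, dist_eq_norm] at hη'
    have h10 : η' = (l - q) + (η' - (l - q)) := by ring
    rw [h10]
    exact (norm_add_le _ _).trans (by linarith)
  have h10 : ∀ a : ℂ, (a * ((s : ℂ) * η')).re = s * (a * η').re := by
    intro a
    rw [mul_left_comm, Complex.re_ofReal_mul]
  refine ⟨?_, ?_, ?_⟩
  · rw [mem_ball, dist_eq_norm, add_sub_cancel_left, h8]
    exact (mul_le_mul_of_nonneg_left h9 hs0.le).trans_lt h5
  · rw [add_sub_cancel_left, h8, h10]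
    have := mul_lt_mul_of_pos_left h6 hs0
    nlinarith
  · rw [add_sub_cancel_left, h8, h10]
    have := mul_lt_mul_of_pos_left h7 hs0
    nlinarith

theorem rect (D : Dk phi K) {P : Op} (hP2 : P * P = P) (hP : P * Tp phi = Tp phi * P)
    (h : Db phi K t1 t2 a1 a2 x g1 g2) (hx : 0 ≤ x) {kap r0 : ℝ} (hk : 0 < kap) (hr0 : 0 < r0)
    (hS : ∀ s1 s2 : ℝ, (s1 = 1 ∨ s1 = -1) → (s2 = 1 ∨ s2 = -1) →
      Sx a1 a2 (phi t1) kap r0 s1 s2 ⊆ Kᶜ ∧ (Sx a1 a2 (phi t1) kap r0 s1 s2).Nonempty) :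
    ∃ (r : ℝ) (tau : ℝ → ℝ → ℂ), 0 < r ∧ r ≤ r0 ∧
      (∀ s1 s2 : ℝ, (s1 = 1 ∨ s1 = -1) → (s2 = 1 ∨ s2 = -1) →
        ∀ l ∈ Sx a1 a2 (phi t1) kap r s1 s2, ∃ n : ℕ, (n : ℤ) = x + ii s1 + ii s2 ∧ Ix phi l n ∧
          TrJ phi P l n (tau s1 s2)) ∧
      tau (-1) (-1) - tau 1 (-1) - tau (-1) 1 + tau 1 1 = 0 := by
  classical
  obtain ⟨m, hm⟩ : ∃ m : ℕ, (m : ℤ) = x := ⟨x.toNat, Int.toNat_of_nonneg hx⟩
  have e1 := db_ix D.hb h
  have e2 := db_sx h (r := r0) hk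
  obtain ⟨hg1, hg2⟩ := db_lim h
  obtain ⟨U, V, U0, V0, hU, hV, hfac⟩ := db_fac D.hb h hx
  obtain ⟨ρ, hρ, hev⟩ := Metric.eventually_nhds_iff_ball.1 (e1.and (e2.and hfac))
  obtain ⟨q, hq⟩ : ∃ q, q = phi t1 := ⟨_, rfl⟩
  have hlim1 := h.lim1
  have hlim2 := h.lim2
  rw [← hq] at hS hg1 hg2 hU hV hev hlim1 hlim2 ⊢
  obtain ⟨r, hrdef⟩ : ∃ r, r = min r0 ρ := ⟨_, rfl⟩
  have hr : 0 < r := by rw [hrdef]; exact lt_min hr0 hρ
  have hrr : r ≤ r0 := by rw [hrdef]; exact min_le_left _ _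
  have hrρ : r ≤ ρ := by rw [hrdef]; exact min_le_right _ _
  have hSK : ∀ s1 s2 : ℝ, (s1 = 1 ∨ s1 = -1) → (s2 = 1 ∨ s2 = -1) →
      Sx a1 a2 q kap r s1 s2 ⊆ Kᶜ := fun s1 s2 h1 h2 =>
    (sx_mono a1 a2 q kap hrr s1 s2).trans (hS s1 s2 h1 h2).1
  have hfacts : ∀ s1 s2 : ℝ, (s1 = 1 ∨ s1 = -1) → (s2 = 1 ∨ s2 = -1) →
      ∀ l ∈ Sx a1 a2 q kap r s1 s2,
        Ix phi l (x + (if ‖g1 l‖ < 1 then 1 else 0) + if ‖g2 l‖ < 1 then 1 else 0) ∧
        ((‖g1 l‖ < 1 ↔ s1 = -1) ∧ (‖g2 l‖ < 1 ↔ s2 = -1)) ∧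
        U l * V l = 1 ∧ V l * U l = 1 ∧ ∀ f : Hardy,
        (RgJ phi f l ↔ (∀ i : ℕ, (i : ℤ) < x → co (V l f) i = 0) ∧
          (‖g1 l‖ < 1 → ev (g1 l) (V l f) = 0) ∧ (‖g2 l‖ < 1 → ev (g2 l) (V l f) = 0)) := by
    intro s1 s2 h1 h2 l hl
    have h3 : l ∈ ball q ρ := ball_subset_ball hrρ hl.1
    have h4 : l ∉ K := hSK s1 s2 h1 h2 hl
    obtain ⟨h5, h6, h7⟩ := hev l h3
    exact ⟨h5 h4, h6 h4 s1 s2 h1 h2 (sx_mono a1 a2 q kap hrr s1 s2 hl), h7 h4⟩
  have hcell : ∀ s1 s2 : ℝ, ∃ t : ℂ, (s1 = 1 ∨ s1 = -1) → (s2 = 1 ∨ s2 = -1) →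
      ∀ l ∈ Sx a1 a2 q kap r s1 s2,
        Ix phi l ((m + (if s1 = -1 then 1 else 0) + (if s2 = -1 then 1 else 0) : ℕ) : ℤ) ∧
        TrJ phi P l (m + (if s1 = -1 then 1 else 0) + (if s2 = -1 then 1 else 0)) t := by
    intro s1 s2
    by_cases h12 : (s1 = 1 ∨ s1 = -1) ∧ (s2 = 1 ∨ s2 = -1)
    · have h3 : ∀ l ∈ Sx a1 a2 q kap r s1 s2,
          Ix phi l ((m + (if s1 = -1 then 1 else 0) + (if s2 = -1 then 1 else 0) : ℕ) : ℤ) := by
        intro l hl
        obtain ⟨h4, ⟨h5, h6⟩, -⟩ := hfacts s1 s2 h12.1 h12.2 l hl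
        simp only [h5, h6] at h4
        rw [← hm] at h4
        push_cast
        exact h4
      obtain ⟨t, ht⟩ := tr_preconnectedJ D.hb hP2 hP (sx_conv a1 a2 q hk r s1 s2).isPreconnected h3
      exact ⟨t, fun _ _ l hl => ⟨h3 l hl, ht l hl⟩⟩
    · exact ⟨0, fun h1 h2 => absurd ⟨h1, h2⟩ h12⟩
  choose tau htau using hcell
  refine ⟨r, tau, hr, hrr, ?_, ?_⟩
  · intro s1 s2 h1 h2 l hl
    refine ⟨_, ?_, htau s1 s2 h1 h2 l hl⟩
    push_cast
    rw [hm]
    have hii : ∀ s : ℝ, (s = 1 ∨ s = -1) → (if s = -1 then (1 : ℤ) else 0) = ii s := by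
      rintro s (rfl | rfl)
      · unfold ii
        norm_num
      · unfold ii
        norm_num
    rw [hii s1 h1, hii s2 h2]
  obtain ⟨B, hB⟩ : ∃ B, B = V0 * P * U0 := ⟨_, rfl⟩
  obtain ⟨Th, hTh⟩ : ∃ Th : ℂ, Th = ∑ i : Fin m, co (B (mono i)) i := ⟨_, rfl⟩
  have ha1 : a1 ≠ 0 := by
    rintro rfl
    apply h.tr
    simp
  have ha2 : a2 ≠ 0 := by
    rintro rfl
    apply h.tr
    simp
  have ht2 : ‖t2‖ = 1 := h.n2
  have hpp : ((1 : ℝ) = 1 ∨ (1 : ℝ) = -1) := Or.inl rfl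
  have hmm : ((-1 : ℝ) = 1 ∨ (-1 : ℝ) = -1) := Or.inr rfl
  have h11 : ¬ ((1 : ℝ) = -1) := by norm_num
  -- the filters
  have hmonoF : ∀ s1 s2 : ℝ, (s1 = 1 ∨ s1 = -1) → (s2 = 1 ∨ s2 = -1) →
      𝓝[Sx a1 a2 q kap r s1 s2] q ≤ 𝓝[Kᶜ] q := fun s1 s2 h1 h2 =>
    nhdsWithin_mono _ (hSK s1 s2 h1 h2)
  have hUV : ∀ s1 s2 : ℝ, (s1 = 1 ∨ s1 = -1) → (s2 = 1 ∨ s2 = -1) →
      ∀ᶠ l in 𝓝[Sx a1 a2 q kap r s1 s2] q, U l * V l = 1 ∧ V l * U l = 1 := by
    intro s1 s2 h1 h2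
    filter_upwards [self_mem_nhdsWithin] with l hl
    obtain ⟨-, -, h3, h4, -⟩ := hfacts s1 s2 h1 h2 l hl
    exact ⟨h3, h4⟩
  have hi : ∀ i : ℕ, (i : ℤ) < x ↔ i < m := by
    intro i
    rw [← hm]
    exact Nat.cast_lt
  have R11 : RD phi (𝓝[Sx a1 a2 q kap r 1 1] q) m 0 U V U0 V0 (fun j => j.elim0)
      (fun j => j.elim0) :=
    { hU := hU.mono_left (hmonoF 1 1 hpp hpp)
      hV := hV.mono_left (hmonoF 1 1 hpp hpp)
      hUV := hUV 1 1 hpp hpp
      hT := fun j => j.elim0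
      inj := fun j => j.elim0
      hg := fun j => j.elim0
      hin := Eventually.of_forall fun l j => j.elim0
      hr := by
        filter_upwards [self_mem_nhdsWithin] with l hl g
        obtain ⟨-, ⟨h3, h4⟩, -, -, h5⟩ := hfacts 1 1 hpp hpp l hl
        rw [h5 g]
        simp only [h3, h4, h11, false_imp_iff, and_true, hi]
        exact ⟨fun h6 => ⟨h6, fun j => j.elim0⟩, fun h6 => h6.1⟩ }
  have R21 : RD phi (𝓝[Sx a1 a2 q kap r (-1) 1] q) m 1 U V U0 V0 (fun _ => t1) (fun _ => g1) :=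
    { hU := hU.mono_left (hmonoF (-1) 1 hmm hpp)
      hV := hV.mono_left (hmonoF (-1) 1 hmm hpp)
      hUV := hUV (-1) 1 hmm hpp
      hT := fun _ => h.n1
      inj := fun i j _ => Subsingleton.elim i j
      hg := fun _ => hg1.mono_left (hmonoF (-1) 1 hmm hpp)
      hin := by
        filter_upwards [self_mem_nhdsWithin] with l hl j
        exact (hfacts (-1) 1 hmm hpp l hl).2.1.1.2 rfl
      hr := by
        filter_upwards [self_mem_nhdsWithin] with l hl g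
        obtain ⟨-, ⟨h3, h4⟩, -, -, h5⟩ := hfacts (-1) 1 hmm hpp l hl
        rw [h5 g]
        simp only [h3, h4, h11, false_imp_iff, and_true, hi, forall_const] }
  have R12 : RD phi (𝓝[Sx a1 a2 q kap r 1 (-1)] q) m 1 U V U0 V0 (fun _ => t2) (fun _ => g2) :=
    { hU := hU.mono_left (hmonoF 1 (-1) hpp hmm)
      hV := hV.mono_left (hmonoF 1 (-1) hpp hmm)
      hUV := hUV 1 (-1) hpp hmm
      hT := fun _ => h.n2
      inj := fun i j _ => Subsingleton.elim i j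
      hg := fun _ => hg2.mono_left (hmonoF 1 (-1) hpp hmm)
      hin := by
        filter_upwards [self_mem_nhdsWithin] with l hl j
        exact (hfacts 1 (-1) hpp hmm l hl).2.1.2.2 rfl
      hr := by
        filter_upwards [self_mem_nhdsWithin] with l hl g
        obtain ⟨-, ⟨h3, h4⟩, -, -, h5⟩ := hfacts 1 (-1) hpp hmm l hl
        rw [h5 g]
        simp only [h3, h4, h11, false_imp_iff, true_and, hi, forall_const] }
  have R22 : RD phi (𝓝[Sx a1 a2 q kap r (-1) (-1)] q) m 2 U V U0 V0 ![t1, t2] ![g1, g2] :=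
    { hU := hU.mono_left (hmonoF (-1) (-1) hmm hmm)
      hV := hV.mono_left (hmonoF (-1) (-1) hmm hmm)
      hUV := hUV (-1) (-1) hmm hmm
      hT := by
        intro j
        fin_cases j
        · exact h.n1
        · exact h.n2
      inj := by
        intro i j hij
        fin_cases i <;> fin_cases j
        · rfl
        · exact absurd hij h.ne
        · exact absurd hij.symm h.ne
        · rfl
      hg := by
        intro j
        fin_cases j
        · exact hg1.mono_left (hmonoF (-1) (-1) hmm hmm)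
        · exact hg2.mono_left (hmonoF (-1) (-1) hmm hmm)
      hin := by
        filter_upwards [self_mem_nhdsWithin] with l hl j
        obtain ⟨-, ⟨h3, h4⟩, -, -, h5⟩ := hfacts (-1) (-1) hmm hmm l hl
        fin_cases j
        · exact h3.2 rfl
        · exact h4.2 rfl
      hr := by
        filter_upwards [self_mem_nhdsWithin] with l hl g
        obtain ⟨-, ⟨h3, h4⟩, -, -, h5⟩ := hfacts (-1) (-1) hmm hmm l hl
        rw [h5 g]
        simp only [h3, h4, hi, true_imp_iff, Fin.forall_fin_two]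
        rfl }
  -- rays
  obtain ⟨η11, ρ11, hρ11, -, -, y11⟩ := sx_ray hk (hS 1 1 hpp hpp).2 hr
  obtain ⟨η21, ρ21, hρ21, p21, -, y21⟩ := sx_ray hk (hS (-1) 1 hmm hpp).2 hr
  obtain ⟨η12, ρ12, hρ12, -, p12, y12⟩ := sx_ray hk (hS 1 (-1) hpp hmm).2 hr
  obtain ⟨η, ρ22, hρ22, p1, p2, y22⟩ := sx_ray hk (hS (-1) (-1) hmm hmm).2 hr
  have hray : ∀ (s1 s2 : ℝ) (η : ℂ) (ρ : ℝ), 0 < ρ →
      (∀ᶠ s : ℝ in 𝓝[>] 0, ∀ η' ∈ ball η ρ, q + s * η' ∈ Sx a1 a2 q kap r s1 s2) →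
      Tendsto (fun s : ℝ => q + (s : ℂ) * η) (𝓝[>] 0) (𝓝[Sx a1 a2 q kap r s1 s2] q) := by
    intro s1 s2 η ρ hρ hy
    refine tendsto_nhdsWithin_iff.2 ⟨?_, ?_⟩
    · have h1 : Tendsto (fun s : ℝ => q + (s : ℂ) * η) (𝓝[>] 0) (𝓝 (q + ((0 : ℝ) : ℂ) * η)) := by
        refine Tendsto.mono_left ?_ nhdsWithin_le_nhds
        exact Continuous.tendsto (by fun_prop) 0
      rw [Complex.ofReal_zero, zero_mul, add_zero] at h1
      exact h1
    · filter_upwards [hy] with s hs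
      exact hs η (mem_ball_self hρ)
  have hTr : ∀ s1 s2 : ℝ, (s1 = 1 ∨ s1 = -1) → (s2 = 1 ∨ s2 = -1) →
      ∀ᶠ l in 𝓝[Sx a1 a2 q kap r s1 s2] q,
        TrJ phi P l (m + (if s1 = -1 then 1 else 0) + (if s2 = -1 then 1 else 0)) (tau s1 s2) := by
    intro s1 s2 h1 h2
    filter_upwards [self_mem_nhdsWithin] with l hl
    exact (htau s1 s2 h1 h2 l hl).2
  have T11 := hTr 1 1 hpp hpp
  have T21 := hTr (-1) 1 hmm hpp
  have T12 := hTr 1 (-1) hpp hmm
  have T22 := hTr (-1) (-1) hmm hmm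
  simp only [h11, if_false, if_true, add_zero] at T11 T21 T12 T22
  have E11 : tau 1 1 = Th := by
    have h1 := (R11.tr hP T11).comp (hray 1 1 η11 ρ11 hρ11 y11)
    rw [← hB] at h1
    have h2 : Tendsto (fun _ : ℝ => Th) (𝓝[>] 0) (𝓝 (tau 1 1)) := by
      refine h1.congr fun s => ?_
      simp only [Function.comp_apply, Finset.univ_eq_empty, Finset.sum_empty, add_zero]
      exact hTh.symm
    exact (tendsto_nhds_unique h2 tendsto_const_nhds)
  have O1 := R21.one hP T21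
  have O2 := R12.one hP T12
  rw [← hB, ← hTh] at O1 O2
  have hKη : ∀ᶠ s : ℝ in 𝓝[>] 0, q + s * η ∉ K := by
    filter_upwards [y22] with s hs
    exact hSK (-1) (-1) hmm hmm (hs η (mem_ball_self hρ22))
  have L1 := ray (K := K) h.n1 ha1 hlim1 (hSK (-1) 1 hmm hpp) hρ21 (by linarith) y21 O1
    (η1 := η) (by linarith) hKη
  have L2 := ray (K := K) h.n2 ha2 hlim2 (hSK 1 (-1) hpp hmm) hρ12 (by linarith) y12 O2
    (η1 := η) (by linarith) hKη
  have hin1 : ∀ᶠ s : ℝ in 𝓝[>] 0, ‖g1 (q + s * η)‖ < 1 := by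
    filter_upwards [y22] with s hs
    exact (hfacts (-1) (-1) hmm hmm _ (hs η (mem_ball_self hρ22))).2.1.1.2 rfl
  have hin2 : ∀ᶠ s : ℝ in 𝓝[>] 0, ‖g2 (q + s * η)‖ < 1 := by
    filter_upwards [y22] with s hs
    exact (hfacts (-1) (-1) hmm hmm _ (hs η (mem_ball_self hρ22))).2.1.2.2 rfl
  have V1 := diag_val hin1 L1
  have V2 := diag_val hin2 L2
  have V3 := (R22.tr hP T22).comp (hray (-1) (-1) η ρ22 hρ22 y22)
  rw [← hB] at V3
  have V4 : Tendsto (fun s : ℝ => Th + (en (g1 (q + s * η)) (B (kn (g1 (q + s * η)))) +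
      en (g2 (q + s * η)) (B (kn (g2 (q + s * η)))))) (𝓝[>] 0) (𝓝 (tau (-1) (-1))) := by
    refine V3.congr fun s => ?_
    simp only [Function.comp_apply, Fin.sum_univ_two, Matrix.cons_val_zero, Matrix.cons_val_one]
    rw [hTh]
  have E22 := tendsto_nhds_unique V4 ((V1.add V2).const_add Th)
  rw [E22, E11]
  ring

end Pool.Agent.TBirN
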