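import Pool.Agent.TBirN.Def
import Pool.Agent.TBirK.RgD

/-!
# Winding numbers 0, 1, -1: the condition for the converse

`NearN` is `NearC` (TBirK/RgD.lean) without the transversal double points of class `C^2`.
-/

set_option autoImplicit false

open MeasureTheory Complex Set Filter Topology Metric AddCircle
open scoped ComplexConjugate InnerProductSpace ENNReal

namespace Pool.Agent.TBirN

open Pool.Agent.TBir Pool.Agent.TBirG Pool.Agent.TBirC Pool.Agent.TBirJ Pool.Agent.TBirK
open Pool.Agent.TBirP (E qT)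

/-- Near the points of the segments and near the multiple values which are taken at a point where `phi` is not analytic
with nonzero derivative, except transversal double points of class `C^2`, the points of `OmJ` are in one connected subset
of `OmJ`. -/
def NearN (phi : ℂ → ℂ) (F : Finset ℂ) (u v : ℂ → ℂ) : Prop :=
  ∀ q : ℂ, ((∃ t ∈ F, q ∈ segment ℝ (u t) (v t)) ∨
      ∃ z1 ∈ sphere (0 : ℂ) 1, z1 ∉ F ∧ phi z1 = q ∧ ¬ (AnalyticAt ℂ phi z1 ∧ deriv phi z1 ≠ 0) ∧
        ∃ z2 ∈ sphere (0 : ℂ) 1, z2 ∉ F ∧ z2 ≠ z1 ∧ phi z2 = q ∧ ¬ Dp phi F z1 z2) →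
    ∃ A : Set ℂ, IsPreconnected A ∧ A ⊆ OmJ phi F ∧ ∀ᶠ l in 𝓝 q, l ∈ OmJ phi F → l ∈ A

end Pool.Agent.TBirN
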