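import Pool.Agent.TBirN.Def
import Pool.Agent.TBirK.Cvk
import Pool.Agent.TBirK.Vlk

/-!
# The multiple points

There are finitely many points with a partner, so the curve is simple near the points of `F`.
-/

set_option autoImplicit false

open MeasureTheory Complex Set Filter Topology Metric AddCircle
open scoped ComplexConjugate InnerProductSpace ENNReal

namespace Pool.Agent.TBirN

open Pool.Agent.TBir Pool.Agent.TBirG Pool.Agent.TBirC Pool.Agent.TBirJ Pool.Agent.TBirK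
open Pool.Agent.TBirP (E qT)

variable {phi : ℂ → ℂ} {F : Finset ℂ} {u v : ℂ → ℂ}

theorem BCross.fin_mult (h : BCross phi F u v) : {z : ℂ | ‖z‖ = 1 ∧ z ∉ F ∧
    ∃ z' : ℂ, ‖z'‖ = 1 ∧ z' ∉ F ∧ phi z' = phi z ∧ z' ≠ z}.Finite := by
  obtain ⟨D, hD, hinj⟩ := h.inj
  have hfin : (D ∪ ⋃ b ∈ phi '' D, {z : ℂ | z ∈ sphere (0 : ℂ) 1 ∧ z ∉ F ∧ phi z = b}).Finite :=
    hD.union ((hD.image phi).biUnion fun b _ => cv_level h.toPwC.cv b)
  refine hfin.subset ?_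
  rintro z ⟨hz, hzF, z', hz', hz'F, he, hne⟩
  by_contra hcon
  rw [mem_union, not_or] at hcon
  obtain ⟨hzD, hzU⟩ := hcon
  have hzsph : z ∈ sphere (0 : ℂ) 1 := mem_sphere_zero_iff_norm.2 hz
  have hz'D : z' ∉ D := by
    intro hD'
    apply hzU
    exact mem_iUnion₂.2 ⟨phi z', ⟨z', hD', rfl⟩, hzsph, hzF, he.symm⟩
  apply hne
  refine hinj ⟨mem_sphere_zero_iff_norm.2 hz', ?_⟩ ⟨hzsph, ?_⟩ he
  · rintro (h1 | h1)
    · exact hz'F h1
    · exact hz'D h1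
  · rintro (h1 | h1)
    · exact hzF h1
    · exact hzD h1

theorem BCross.simple (h : BCross phi F u v) : ∀ t ∈ F, ∀ᶠ z in 𝓝 t, ‖z‖ = 1 → z ∉ F →
    ∀ z' : ℂ, ‖z'‖ = 1 → z' ∉ F → phi z' = phi z → z' = z := by
  intro t ht
  have h1 : ({z : ℂ | ‖z‖ = 1 ∧ z ∉ F ∧
      ∃ z' : ℂ, ‖z'‖ = 1 ∧ z' ∉ F ∧ phi z' = phi z ∧ z' ≠ z} \ {t}).Finite :=
    h.fin_mult.subset sdiff_subset
  filter_upwards [h1.isClosed.isOpen_compl.mem_nhds fun h2 => h2.2 rfl] with z hz hz1 hzF z' hz1' hzF' he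
  by_contra hne
  refine hz ⟨⟨hz1, hzF, z', hz1', hzF', he, hne⟩, ?_⟩
  rintro rfl
  exact hzF ht

end Pool.Agent.TBirN
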