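import Pool.Agent.TBirN.Def
import Pool.Agent.TBirN.Sim
import Pool.Agent.TBirK.Sdk

/-!
# The sides of the points of the segments

Ports of TBirK/Sdl.lean and TBirK/Sec.lean with `BCross` in place of `CCross` (`half` is not used).
-/

set_option autoImplicit false

open MeasureTheory Complex Set Filter Topology Metric AddCircle
open scoped ComplexConjugate InnerProductSpace ENNReal

namespace Pool.Agent.TBirN

open Pool.Agent.TBir Pool.Agent.TBirG Pool.Agent.TBirC Pool.Agent.TBirJ Pool.Agent.TBirK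
open Pool.Agent.TBirP (E qT)
open Pool.Agent.TBirS (DR)

open SdcAux SdaAux SdlAux
open Pool.Agent.TBirP (nb_E_mem nb_E_zero nb_E_cont nb_ne nb_arg nb_arg_eq)

section Sb

variable {phi : ℂ → ℂ} {F : Finset ℂ} {u v : ℂ → ℂ} {q t : ℂ}

private theorem sb_loc (h : BCross phi F u v) (ht : t ∈ F) (hq : q ∈ segment ℝ (u t) (v t))
    (h1 : q ≠ u t) (h2 : q ≠ v t) : ∃ (m : ℤ) (s : ℝ), 0 < s ∧ ∀ l ∈ ball q s,
      (0 < ((l - u t) * conj (v t - u t)).im → Ix phi l (m + 1)) ∧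
      (((l - u t) * conj (v t - u t)).im < 0 → Ix phi l m) := by
  refine TBirK.seg_local h.toPwC.cv ht hq h1 h2 ?_ ?_
  · rintro z hz hzF rfl
    exact h.sep t ht z hz hzF hq
  · intro t' ht' hne h0
    exact Set.disjoint_left.1 (h.seg t ht t' ht' hne.symm) hq h0


/-- points off the curve on both sides of a point of the open segment -/
private theorem sb_key (h : BCross phi F u v) (ht : t ∈ F) (hne : u t ≠ v t) {τ : ℝ} (h0 : 0 < τ)
    (h1 : τ < 1) {N : Set ℂ} (hN : N ∈ 𝓝 (u t + τ * (v t - u t))) :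
    ∃ (m : ℤ) (l1 l2 : ℂ), l1 ∈ N ∧ l2 ∈ N ∧ l1 ∉ Gam phi F u v ∧
      l2 ∉ Gam phi F u v ∧ Ix phi l1 (m + 1) ∧ Ix phi l2 m := by
  have hP := h.toPwC.cv
  have hseg : u t + τ * (v t - u t) ∈ segment ℝ (u t) (v t) := mem_seg.2 ⟨τ, h0.le, h1.le, rfl⟩
  obtain ⟨e1, e2⟩ := ne_seg hne h0 h1
  obtain ⟨m, s, hs, hl⟩ := sb_loc h ht hseg e1 e2
  have g2 : ∀ᶠ l in 𝓝 (u t + τ * (v t - u t)), ∀ t' ∈ F, t' ≠ t →
      l ∉ segment ℝ (u t') (v t') := by
    rw [Finset.eventually_all]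
    intro t' ht'
    by_cases hne' : t' = t
    · exact Filter.Eventually.of_forall fun _ h0 => absurd hne' h0
    · have h3 := h.seg t ht t' ht' (Ne.symm hne')
      filter_upwards [(closed_seg (u t') (v t')).isOpen_compl.mem_nhds
        (Set.disjoint_left.1 h3 hseg)] with l hl _
      exact hl
  obtain ⟨l1, hl1, l2, hl2, f1, f2⟩ := near_line (u t) (v t - u t) (sub_ne_zero.2 hne.symm) τ
    (inter_mem hN (inter_mem (Metric.ball_mem_nhds _ hs) g2))
  have i1 := (hl l1 hl1.2.1).1 f1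
  have i2 := (hl l2 hl2.2.1).2 f2
  have hK : ∀ l n, Ix phi l n → ((l - u t) * conj (v t - u t)).im ≠ 0 →
      (∀ t' ∈ F, t' ≠ t → l ∉ segment ℝ (u t') (v t')) → l ∉ Gam phi F u v := by
    rintro l n hl1 hl0 hl2 (⟨z, ⟨hz, hzF⟩, hzl⟩ | hl)
    · exact ne_valK hP hl1 (mem_sphere_zero_iff_norm.1 hz)
        (fun h0 => hzF (Finset.mem_coe.2 h0)) hzl
    · obtain ⟨t', ht', hl'⟩ := mem_iUnion₂.1 hl
      by_cases hne' : t' = t
      · subst hne'
        obtain ⟨σ, -, -, rfl⟩ := mem_seg.1 hl'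
        rw [lf_eq, Complex.ofReal_im, zero_mul] at hl0
        exact hl0 rfl
      · exact hl2 t' ht' hne' hl'
  exact ⟨m, l1, l2, hl1.1, hl2.1, hK l1 _ i1 f1.ne' hl1.2.2, hK l2 _ i2 f2.ne hl2.2.2, i1, i2⟩


private theorem sb_open (h : BCross phi F u v) (ht : t ∈ F) (hq : q ∈ segment ℝ (u t) (v t))
    (h1 : q ≠ u t) (h2 : q ≠ v t) : ∃ m : ℤ, Sides phi (Gam phi F u v) q m := by
  obtain ⟨m, s, hs, hl⟩ := sb_loc h ht hq h1 h2
  obtain ⟨τ, h3, h4, rfl⟩ := mem_seg.1 hq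
  have hne : u t ≠ v t := by
    intro h0
    apply h1
    rw [h0, sub_self, mul_zero, add_zero]
  have hD : v t - u t ≠ 0 := sub_ne_zero.2 hne.symm
  have hns : 0 < normSq (v t - u t) := Complex.normSq_pos.2 hD
  have h3' : 0 < τ := by
    rcases h3.eq_or_lt with h0 | h0
    · exfalso
      apply h1
      rw [← h0, ofReal_zero, zero_mul, add_zero]
    · exact h0
  have h4' : τ < 1 := by
    rcases h4.eq_or_lt with h0 | h0
    · exfalso
      apply h2
      rw [h0, ofReal_one, one_mul]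
      ring
    · exact h0
  refine ⟨m, ball (u t + τ * (v t - u t)) s ∩ {l | 0 < ((l - u t) * conj (v t - u t)).im},
    ball (u t + τ * (v t - u t)) s ∩ {l | ((l - u t) * conj (v t - u t)).im < 0},
    ((convex_ball _ _).inter (conv_pos _ _)).isPreconnected,
    ((convex_ball _ _).inter (conv_neg _ _)).isPreconnected,
    fun l hl' => (hl l hl'.1).1 hl'.2, fun l hl' => (hl l hl'.1).2 hl'.2, ?_, ?_, ?_⟩
  · rw [mem_closure_iff_nhds]
    intro N hN
    obtain ⟨l1, hl1, l2, hl2, f1, f2⟩ := near_line (u t) (v t - u t) hD τ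
      (inter_mem hN (Metric.ball_mem_nhds _ hs))
    exact ⟨l1, hl1.1, hl1.2, f1⟩
  · rw [mem_closure_iff_nhds]
    intro N hN
    obtain ⟨l1, hl1, l2, hl2, f1, f2⟩ := near_line (u t) (v t - u t) hD τ
      (inter_mem hN (Metric.ball_mem_nhds _ hs))
    exact ⟨l2, hl2.1, hl2.2, f2⟩
  · have g1 : Tendsto (fun l : ℂ => ((l - u t) / (v t - u t)).re)
        (𝓝 (u t + τ * (v t - u t))) (𝓝 τ) := by
      have g2 : Continuous fun l : ℂ => ((l - u t) / (v t - u t)).re := by fun_prop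
      have g3 := g2.tendsto (u t + τ * (v t - u t))
      rwa [add_sub_cancel_left, mul_div_cancel_right₀ _ hD, ofReal_re] at g3
    filter_upwards [g1.eventually_const_lt h3', g1.eventually_lt_const h4',
      Metric.ball_mem_nhds _ hs] with l a1 a2 a3 hlK
    rcases lt_trichotomy ((l - u t) * conj (v t - u t)).im 0 with a4 | a4 | a4
    · exact Or.inr ⟨a3, a4⟩
    · exfalso
      apply hlK
      refine Or.inr (mem_biUnion (Finset.mem_coe.2 ht) ?_)
      have a5 : l = u t + ((l - u t) / (v t - u t)) * (v t - u t) := by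
        rw [div_mul_cancel₀ _ hD]
        ring
      have a6 := a4
      rw [a5, lf_eq] at a6
      have a7 : ((l - u t) / (v t - u t)).im = 0 := by
        rcases mul_eq_zero.1 a6 with a8 | a8
        · exact a8
        · exact absurd a8 hns.ne'
      have a8 : ((((l - u t) / (v t - u t)).re : ℝ) : ℂ) = (l - u t) / (v t - u t) := by
        apply Complex.ext
        · rw [ofReal_re]
        · rw [ofReal_im, a7]
      refine mem_seg.2 ⟨_, a1.le, a2.le, ?_⟩
      rw [a8]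
      exact a5
    · exact Or.inl ⟨a3, a4⟩


/-- one end of a segment; `s = 1` or `s = -1` is the side -/
private theorem sb_end (h : BCross phi F u v) (ht : t ∈ F) {q w : ℂ} {s : ℝ}
    (hs' : s = 1 ∨ s = -1)
    (hq : Tendsto (fun x : ℝ => phi (t * E (s * x))) (𝓝[>] 0) (𝓝 q)) (hqw : q ≠ w)
    (hcase : (q = u t ∧ w = v t) ∨ (q = v t ∧ w = u t))
    (hoth : Tendsto (fun x : ℝ => phi (t * E (-s * x))) (𝓝[>] 0) (𝓝 w)) :
    ∃ m : ℤ, Sides phi (Gam phi F u v) q m := by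
  classical
  have hpi := Real.pi_gt_three
  have hP : Cv phi F u v := h.toPwC.cv
  have hs : s * s = 1 := by
    rcases hs' with rfl | rfl
    · norm_num
    · norm_num
  have hn : ‖t‖ = 1 := hP.circ t ht
  have ht0 : t ≠ 0 := nb_ne hn
  have hs0 : s ≠ 0 := by
    rintro rfl
    rw [mul_zero] at hs
    exact zero_ne_one hs
  have hsabs : |s| = 1 := by
    have h1 : |s| * |s| = 1 := by rw [← abs_mul, hs, abs_one]
    nlinarith [abs_nonneg s]
  have hsegeq : segment ℝ (u t) (v t) = segment ℝ q w := by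
    rcases hcase with ⟨rfl, rfl⟩ | ⟨rfl, rfl⟩
    · rfl
    · exact segment_symm ℝ _ _
  have huv : u t ≠ v t := by
    rcases hcase with ⟨rfl, rfl⟩ | ⟨rfl, rfl⟩
    · exact hqw
    · exact hqw.symm
  have hqseg : q ∈ segment ℝ (u t) (v t) := by rw [hsegeq]; exact left_mem_segment ℝ _ _
  have hD : w - q ≠ 0 := sub_ne_zero.2 hqw.symm
  have hDn : 0 < ‖w - q‖ := norm_pos_iff.2 hD
  obtain ⟨k1, d1, hd1, c1, z1, m1, a1⟩ := arcK hP hn hs' hq
  obtain ⟨k2, hk2⟩ : ∃ k2 : ℝ → ℂ, ∀ y, k2 y = q + y * (w - q) := ⟨_, fun _ => rfl⟩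
  have c2 : Continuous k2 := by
    have h1 : Continuous fun y : ℝ => q + (y : ℂ) * (w - q) := by fun_prop
    exact h1.congr fun y => (hk2 y).symm
  have z2 : k2 0 = q := by rw [hk2, ofReal_zero, zero_mul, add_zero]
  have n2 : ∀ y : ℝ, 0 ≤ y → ‖k2 y - q‖ = y * ‖w - q‖ := by
    intro y hy
    rw [hk2, add_sub_cancel_left, norm_mul, Complex.norm_real, Real.norm_of_nonneg hy]
  have m2 : StrictMonoOn (fun x => ‖k2 x - q‖) (Icc 0 1) := by
    intro x hx y hy hxy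
    simp only
    rw [n2 x hx.1, n2 y hy.1]
    exact mul_lt_mul_of_pos_right hxy hDn
  have htend : Tendsto (fun x : ℝ => t * E x) (𝓝 0) (𝓝 t) := by
    have h1 : Continuous fun x : ℝ => t * E x := continuous_const.mul nb_E_cont
    have := h1.tendsto 0
    rwa [nb_E_zero, mul_one] at this
  obtain ⟨r, hr, hr1, hrF⟩ : ∃ r : ℝ, 0 < r ∧ r ≤ 1 ∧ ∀ x : ℝ, |x| ≤ r → x ≠ 0 →
      t * E x ∉ F := by
    have g1 : ∀ᶠ z in 𝓝 t, z ∉ (F : Set ℂ) \ {t} := by
      have : ((F : Set ℂ) \ {t})ᶜ ∈ 𝓝 t :=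
        (F.finite_toSet.subset sdiff_subset).isClosed.isOpen_compl.mem_nhds fun h3 => h3.2 rfl
      exact this
    have g2 := htend.eventually g1
    rw [Metric.eventually_nhds_iff] at g2
    obtain ⟨ε, hε, g3⟩ := g2
    refine ⟨min (ε / 2) 1, by positivity, min_le_right _ _, fun x hx hx0 h0 => ?_⟩
    have hx1 : |x| ≤ ε / 2 := hx.trans (min_le_left _ _)
    have hx2 : |x| ≤ 1 := hx.trans (min_le_right _ _)
    exact g3 (y := x) (by rw [Real.dist_eq, sub_zero]; linarith)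
      ⟨Finset.mem_coe.2 h0, tE_ne hn hx0 (by linarith)⟩
  obtain ⟨d, hd, hdd1, hdr⟩ : ∃ d : ℝ, 0 < d ∧ d ≤ d1 ∧ d ≤ r :=
    ⟨min d1 r, by positivity, min_le_left _ _, min_le_right _ _⟩
  have hdone : d ≤ 1 := hdr.trans hr1
  have i1 : Icc 0 d ⊆ Icc 0 d1 := Icc_subset_Icc_right hdd1
  have i2 : Icc 0 d ⊆ Icc 0 1 := Icc_subset_Icc_right hdone
  have habs : ∀ x : ℝ, 0 < x → |s * x| = x := by
    intro x hx
    rw [abs_mul, hsabs, one_mul, abs_of_pos hx]
  have hsx : ∀ x : ℝ, 0 < x → s * x ≠ 0 := fun x hx => mul_ne_zero hs0 hx.ne'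
  have a1' : ∀ x ∈ Ioc 0 d, k1 x = phi (t * E (s * x)) := fun x hx =>
    a1 x ⟨hx.1, hx.2.trans hdd1⟩
  have hF1 : ∀ x ∈ Ioc 0 d, t * E (s * x) ∉ F := fun x hx =>
    hrF _ (by rw [habs x hx.1]; exact hx.2.trans hdr) (hsx x hx.1)
  have hk2seg : ∀ y ∈ Icc 0 d, k2 y ∈ segment ℝ (u t) (v t) := by
    intro y hy
    rw [hsegeq, hk2]
    exact mem_seg.2 ⟨y, hy.1, hy.2.trans hdone, rfl⟩
  have hsegK : segment ℝ (u t) (v t) ⊆ Gam phi F u v := fun l hl =>
    Or.inr (mem_biUnion (Finset.mem_coe.2 ht) hl)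
  have hdis : ∀ x ∈ Icc 0 d, ∀ y ∈ Icc 0 d, k1 x = k2 y → x = 0 ∧ y = 0 := by
    intro x hx y hy hxy
    rcases hx.1.eq_or_lt with hx0 | hx0
    · refine ⟨hx0.symm, ?_⟩
      apply m2.injOn (i2 hy) ⟨le_rfl, zero_le_one⟩
      simp only
      rw [← hxy, ← hx0, z1, z2]
    · exfalso
      have h1 := h.sep t ht _ (nb_E_mem hn (s * x)) (hF1 x ⟨hx0, hx.2⟩)
      rw [← a1' x ⟨hx0, hx.2⟩, hxy] at h1
      exact h1 (hk2seg y hy)
  -- the curve near `q`
  have hK : ∀ᶠ l in 𝓝 q, l ∈ Gam phi F u v ↔ l ∈ k1 '' Icc 0 d ∪ k2 '' Icc 0 d := by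
    have g1 : ∀ᶠ l in 𝓝 q, ∀ z ∈ sphere (0 : ℂ) 1, ‖z‖ = 1 → z ∉ F → phi z = l →
        l ∈ k1 '' Icc 0 d ∪ k2 '' Icc 0 d := by
      refine (isCompact_sphere (0 : ℂ) 1).eventually_forall_of_forall_eventually
        (P := fun l z => ‖z‖ = 1 → z ∉ F → phi z = l → l ∈ k1 '' Icc 0 d ∪ k2 '' Icc 0 d)
        fun z0 hz0 => ?_
      have hz0' : ‖z0‖ = 1 := mem_sphere_zero_iff_norm.1 hz0
      by_cases hF : z0 ∈ F
      · by_cases htz : z0 = t
        · rw [htz]
          have g2 : ∀ᶠ z in 𝓝 t, |arg (z / t)| < d := by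
            have := (nb_arg hn).abs
            rw [abs_zero] at this
            exact this.eventually_lt_const hd
          have hwq : 0 < ‖w - q‖ / 2 := half_pos hDn
          have g3 := (hoth.sub_const q).norm.eventually_const_lt (half_lt_self hDn)
          rw [eventually_nhdsWithin_iff] at g3
          have g4 : Tendsto (fun z : ℂ => -s * arg (z / t)) (𝓝 t) (𝓝 0) := by
            have := (nb_arg hn).const_mul (-s)
            rwa [mul_zero] at this
          have g5 : ∀ᶠ l in 𝓝 q, l ∈ ball q (‖w - q‖ / 2) := Metric.ball_mem_nhds q hwq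
          rw [nhds_prod_eq]
          filter_upwards [g2.prod_inr (𝓝 q), (g4.eventually g3).prod_inr (𝓝 q),
            g5.prod_inl (𝓝 t)] with p hp hp' hpb h1 h2 h3
          have h4 := nb_arg_eq hn (mem_sphere_zero_iff_norm.2 h1)
          have h5 : arg (p.2 / t) ≠ 0 := by
            intro h0
            rw [h0, nb_E_zero, mul_one] at h4
            rw [← h4] at h2
            exact h2 ht
          have h6 : s * arg (p.2 / t) ≠ 0 := mul_ne_zero hs0 h5
          rcases lt_or_gt_of_ne h6 with h7 | h7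
          · exfalso
            have h8 := hp' (mem_Ioi.2 (by linarith))
            have h9 : -s * (-s * arg (p.2 / t)) = arg (p.2 / t) := by
              linear_combination (arg (p.2 / t)) * hs
            rw [h9, h4, h3] at h8
            have h10 : ‖p.1 - q‖ < ‖w - q‖ / 2 := by
              rw [← dist_eq_norm]
              exact hpb
            linarith
          · have h8 : s * arg (p.2 / t) ≤ d := by
              have h9 : |s * arg (p.2 / t)| = |arg (p.2 / t)| := by rw [abs_mul, hsabs, one_mul]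
              rw [abs_of_pos h7] at h9
              rw [h9]
              exact hp.le
            refine Or.inl ⟨s * arg (p.2 / t), ⟨h7.le, h8⟩, ?_⟩
            have h9 : s * (s * arg (p.2 / t)) = arg (p.2 / t) := by
              linear_combination (arg (p.2 / t)) * hs
            rw [a1' _ ⟨h7, h8⟩, h9, h4, h3]
        · have h1 := h.seg t ht z0 hF (Ne.symm htz)
          have h2 : q ≠ u z0 := fun h0 =>
            Set.disjoint_left.1 h1 hqseg (by rw [h0]; exact left_mem_segment ℝ _ _)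
          have h3 : q ≠ v z0 := fun h0 =>
            Set.disjoint_left.1 h1 hqseg (by rw [h0]; exact right_mem_segment ℝ _ _)
          obtain ⟨ρ, hρ, h4⟩ := near_FK hP hF h2 h3
          exact far hρ h4
      · have h1 : phi z0 ≠ q := fun h0 => h.sep t ht z0 hz0 hF (by rw [h0]; exact hqseg)
        obtain ⟨ρ, hρ, h4⟩ := near_regK hP hz0' hF h1
        exact far hρ h4
    have g2 : ∀ᶠ l in 𝓝 q, ∀ t' ∈ F, t' ≠ t → l ∉ segment ℝ (u t') (v t') := by
      rw [Finset.eventually_all]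
      intro t' ht'
      by_cases hne : t' = t
      · exact Filter.Eventually.of_forall fun _ h0 => absurd hne h0
      · have h1 := h.seg t ht t' ht' (Ne.symm hne)
        filter_upwards [(closed_seg (u t') (v t')).isOpen_compl.mem_nhds
          (Set.disjoint_left.1 h1 hqseg)] with l hl _
        exact hl
    have g3 : ∀ᶠ l in 𝓝 q, l ∈ ball q (d * ‖w - q‖) :=
      Metric.ball_mem_nhds q (mul_pos hd hDn)
    filter_upwards [g1, g2, g3] with l hl1 hl2 hl3
    constructor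
    · rintro (⟨z, ⟨hz, hzF⟩, hzl⟩ | hl)
      · exact hl1 z hz (mem_sphere_zero_iff_norm.1 hz) (fun h0 => hzF (Finset.mem_coe.2 h0)) hzl
      · obtain ⟨t', ht', hl'⟩ := mem_iUnion₂.1 hl
        by_cases hne : t' = t
        · rw [hne, hsegeq] at hl'
          obtain ⟨y, hy0, hy1, hy⟩ := mem_seg.1 hl'
          have h1 : l = k2 y := by rw [hy, hk2]
          have h2 : y * ‖w - q‖ < d * ‖w - q‖ := by
            rw [← n2 y hy0, ← h1, ← dist_eq_norm]
            exact hl3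
          have h3 : y < d := lt_of_mul_lt_mul_right h2 hDn.le
          exact Or.inr ⟨y, ⟨hy0, h3.le⟩, h1.symm⟩
        · exact absurd hl' (hl2 t' ht' hne)
    · rintro (⟨x, hx, rfl⟩ | ⟨x, hx, rfl⟩)
      · rcases hx.1.eq_or_lt with hx0 | hx0
        · rw [← hx0, z1]
          exact hsegK hqseg
        · rw [a1' x ⟨hx0, hx.2⟩]
          exact Or.inl ⟨_, ⟨nb_E_mem hn _, fun h0 => hF1 x ⟨hx0, hx.2⟩ (Finset.mem_coe.1 h0)⟩, rfl⟩
      · exact hsegK (hk2seg x hx)
  obtain ⟨A, B, hA, hB, hAK, hBK, hcov⟩ := two_radial hd (c1.mono i1) c2.continuousOn z1 z2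
    (m1.mono i1) (m2.mono i2) hdis hK
  have hb := memLp_cv hP
  have hix : ∀ l ∉ Gam phi F u v, ∃ n : ℤ, Ix phi l n := fun l hl => by
    obtain ⟨n, hn'⟩ := TBirK.exists_wj hP hl
    exact ⟨n, TBirK.wj_ix hP hn'⟩
  refine sides_of_key hb hix hA hB hAK hBK hcov fun N hN => ?_
  obtain ⟨N', hN', hN'o, hqN'⟩ := _root_.mem_nhds_iff.1 hN
  have h1 : Tendsto k2 (𝓝[>] 0) (𝓝 q) := by
    have h2 := c2.tendsto 0
    rw [z2] at h2
    exact h2.mono_left nhdsWithin_le_nhds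
  have h4 : ∀ᶠ x : ℝ in 𝓝[>] 0, k2 x ∈ N' := h1.eventually (hN'o.mem_nhds hqN')
  have h5 : ∀ᶠ x : ℝ in 𝓝[>] 0, x ∈ Ioo 0 1 := Ioo_mem_nhdsGT one_pos
  obtain ⟨y, hy1, hy2⟩ := (h4.and h5).exists
  obtain ⟨τ, hτ0, hτ1, hτ⟩ : ∃ τ : ℝ, 0 < τ ∧ τ < 1 ∧ k2 y = u t + τ * (v t - u t) := by
    rcases hcase with ⟨rfl, rfl⟩ | ⟨rfl, rfl⟩
    · exact ⟨y, hy2.1, hy2.2, hk2 y⟩
    · refine ⟨1 - y, by linarith [hy2.2], by linarith [hy2.1], ?_⟩
      rw [hk2]
      push_cast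
      ring
  have h6 : N ∈ 𝓝 (u t + τ * (v t - u t)) := by
    rw [← hτ]
    exact Filter.mem_of_superset (hN'o.mem_nhds hy1) hN'
  exact sb_key h ht huv hτ0 hτ1 h6


private theorem sb_left (h : BCross phi F u v) (ht : t ∈ F) (hne : u t ≠ v t) :
    ∃ m : ℤ, Sides phi (Gam phi F u v) (u t) m := by
  refine sb_end h ht (s := -1) (Or.inr rfl) ?_ hne (Or.inl ⟨rfl, rfl⟩) ?_
  · simpa only [neg_one_mul] using h.toPwC.cv.lim_left t ht
  · simpa only [neg_neg, one_mul] using h.toPwC.cv.lim_right t ht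

private theorem sb_right (h : BCross phi F u v) (ht : t ∈ F) (hne : u t ≠ v t) :
    ∃ m : ℤ, Sides phi (Gam phi F u v) (v t) m := by
  refine sb_end h ht (s := 1) (Or.inl rfl) ?_ hne.symm (Or.inr ⟨rfl, rfl⟩) ?_
  · simpa only [one_mul] using h.toPwC.cv.lim_right t ht
  · simpa only [neg_one_mul] using h.toPwC.cv.lim_left t ht


private theorem sb_corner (h : BCross phi F u v)
    (ht : t ∈ F) (he : u t = v t) : ∃ m : ℤ, Sides phi (Gam phi F u v) (u t) m := by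
  classical
  have hpi := Real.pi_gt_three
  have hP : Cv phi F u v := h.toPwC.cv
  have hn : ‖t‖ = 1 := hP.circ t ht
  have ht0 : t ≠ 0 := nb_ne hn
  have hqseg : u t ∈ segment ℝ (u t) (v t) := left_mem_segment ℝ _ _
  obtain ⟨k1, d1, hd1, c1, z1, m1, a1⟩ := arcK hP hn (Or.inr rfl) (h.left t ht).1
  obtain ⟨k2, d2, hd2, c2, z2, m2, a2⟩ := arcK hP hn (Or.inl rfl) (h.right t ht).1
  rw [← he] at z2 m2
  have htend : Tendsto (fun x : ℝ => t * E x) (𝓝 0) (𝓝 t) := by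
    have h1 : Continuous fun x : ℝ => t * E x := continuous_const.mul nb_E_cont
    have := h1.tendsto 0
    rwa [nb_E_zero, mul_one] at this
  -- small arguments
  obtain ⟨r, hr, hr1, hrF'⟩ : ∃ r : ℝ, 0 < r ∧ r ≤ 1 ∧ ∀ x : ℝ, |x| ≤ r → x ≠ 0 →
      (t * E x ∉ F ∧ ∀ z' : ℂ, ‖z'‖ = 1 → z' ∉ F → phi z' = phi (t * E x) → z' = t * E x) ∧
      ∀ᶠ z in 𝓝 (t * E x), ‖z‖ = 1 → z ∉ F →
        ∀ z' : ℂ, ‖z'‖ = 1 → z' ∉ F → phi z' = phi z → z' = z := by
    have g1 : ∀ᶠ z in 𝓝 t, z ∉ (F : Set ℂ) \ {t} := by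
      have : ((F : Set ℂ) \ {t})ᶜ ∈ 𝓝 t :=
        (F.finite_toSet.subset sdiff_subset).isClosed.isOpen_compl.mem_nhds fun h3 => h3.2 rfl
      exact this
    have g2 := htend.eventually (g1.and (h.simple t ht).eventually_nhds)
    rw [Metric.eventually_nhds_iff] at g2
    obtain ⟨ε, hε, g3⟩ := g2
    refine ⟨min (ε / 2) 1, by positivity, min_le_right _ _, fun x hx hx0 => ?_⟩
    have hx1 : |x| ≤ ε / 2 := hx.trans (min_le_left _ _)
    have hx2 : |x| ≤ 1 := hx.trans (min_le_right _ _)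
    obtain ⟨g4, g5⟩ := g3 (y := x) (by rw [Real.dist_eq, sub_zero]; linarith)
    have g6 : t * E x ≠ t := tE_ne hn hx0 (by linarith)
    have g7 : t * E x ∉ F := fun h0 => g4 ⟨Finset.mem_coe.2 h0, g6⟩
    exact ⟨⟨g7, g5.self_of_nhds (mem_sphere_zero_iff_norm.1 (nb_E_mem hn x)) g7⟩, g5⟩
  have hrF : ∀ x : ℝ, |x| ≤ r → x ≠ 0 → t * E x ∉ F ∧
      ∀ z' : ℂ, ‖z'‖ = 1 → z' ∉ F → phi z' = phi (t * E x) → z' = t * E x :=
    fun x hx hx0 => (hrF' x hx hx0).1
  obtain ⟨d, hd, hdd1, hdd2, hdr⟩ : ∃ d : ℝ, 0 < d ∧ d ≤ d1 ∧ d ≤ d2 ∧ d ≤ r := by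
    refine ⟨min d1 (min d2 r), by positivity, min_le_left _ _, ?_, ?_⟩
    · exact (min_le_right _ _).trans (min_le_left _ _)
    · exact (min_le_right _ _).trans (min_le_right _ _)
  have i1 : Icc 0 d ⊆ Icc 0 d1 := Icc_subset_Icc_right hdd1
  have i2 : Icc 0 d ⊆ Icc 0 d2 := Icc_subset_Icc_right hdd2
  have a1' : ∀ x ∈ Ioc 0 d, k1 x = phi (t * E (-x)) := by
    intro x hx
    rw [a1 x ⟨hx.1, hx.2.trans hdd1⟩, neg_one_mul]
  have a2' : ∀ x ∈ Ioc 0 d, k2 x = phi (t * E x) := by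
    intro x hx
    rw [a2 x ⟨hx.1, hx.2.trans hdd2⟩, one_mul]
  have hmem : ∀ x : ℝ, |x| ≤ r → x ≠ 0 → phi (t * E x) ∈ Gam phi F u v := fun x hx hx0 =>
    Or.inl ⟨_, ⟨nb_E_mem hn x, (hrF x hx hx0).1⟩, rfl⟩
  have hqK : u t ∈ Gam phi F u v := Or.inr (mem_biUnion (Finset.mem_coe.2 ht) hqseg)
  have hdis : ∀ x ∈ Icc 0 d, ∀ y ∈ Icc 0 d, k1 x = k2 y → x = 0 ∧ y = 0 := by
    intro x hx y hy hxy
    have h01 : (0 : ℝ) ∈ Icc 0 d1 := ⟨le_rfl, hd1.le⟩
    have h02 : (0 : ℝ) ∈ Icc 0 d2 := ⟨le_rfl, hd2.le⟩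
    rcases hx.1.eq_or_lt with hx0 | hx0
    · refine ⟨hx0.symm, ?_⟩
      apply m2.injOn (i2 hy) h02
      simp only
      rw [← hxy, ← hx0, z1, z2]
    · rcases hy.1.eq_or_lt with hy0 | hy0
      · exfalso
        have h1 : x = 0 := by
          apply m1.injOn (i1 hx) h01
          simp only
          rw [hxy, ← hy0, z1, z2]
        exact hx0.ne' h1
      · exfalso
        rw [a1' x ⟨hx0, hx.2⟩, a2' y ⟨hy0, hy.2⟩] at hxy
        have h1 := hrF (-x) (by rw [abs_neg, abs_of_pos hx0]; exact hx.2.trans hdr) (by linarith)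
        have h2 := hrF y (by rw [abs_of_pos hy0]; exact hy.2.trans hdr) hy0.ne'
        have h3 := h1.2 _ (mem_sphere_zero_iff_norm.1 (nb_E_mem hn y)) h2.1 hxy.symm
        exact E_inj hn (by linarith) (by linarith [hx.2, hy.2]) h3
  -- the curve near `q`
  have hK : ∀ᶠ l in 𝓝 (u t), l ∈ Gam phi F u v ↔ l ∈ k1 '' Icc 0 d ∪ k2 '' Icc 0 d := by
    have g1 : ∀ᶠ l in 𝓝 (u t), ∀ z ∈ sphere (0 : ℂ) 1, ‖z‖ = 1 → z ∉ F → phi z = l →
        l ∈ k1 '' Icc 0 d ∪ k2 '' Icc 0 d := by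
      refine (isCompact_sphere (0 : ℂ) 1).eventually_forall_of_forall_eventually
        (P := fun l z => ‖z‖ = 1 → z ∉ F → phi z = l → l ∈ k1 '' Icc 0 d ∪ k2 '' Icc 0 d)
        fun z0 hz0 => ?_
      have hz0' : ‖z0‖ = 1 := mem_sphere_zero_iff_norm.1 hz0
      by_cases hF : z0 ∈ F
      · by_cases htz : z0 = t
        · subst htz
          have g2 : ∀ᶠ z in 𝓝 z0, |arg (z / z0)| < d := by
            have := (nb_arg hn).abs
            rw [abs_zero] at this
            exact this.eventually_lt_const hd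
          rw [nhds_prod_eq]
          filter_upwards [g2.prod_inr (𝓝 (u z0))] with p hp h1 h2 h3
          have h4 := nb_arg_eq hn (mem_sphere_zero_iff_norm.2 h1)
          have h5 : arg (p.2 / z0) ≠ 0 := by
            intro h0
            rw [h0, nb_E_zero, mul_one] at h4
            rw [← h4] at h2
            exact h2 hF
          rcases lt_or_gt_of_ne h5 with h6 | h6
          · rw [abs_of_neg h6] at hp
            refine Or.inl ⟨-arg (p.2 / z0), ⟨by linarith, hp.le⟩, ?_⟩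
            rw [a1' _ ⟨by linarith, hp.le⟩, neg_neg, h4, h3]
          · rw [abs_of_pos h6] at hp
            refine Or.inr ⟨arg (p.2 / z0), ⟨h6.le, hp.le⟩, ?_⟩
            rw [a2' _ ⟨h6, hp.le⟩, h4, h3]
        · have h1 := h.seg t ht z0 hF (Ne.symm htz)
          have h2 : u t ≠ u z0 := fun h0 =>
            Set.disjoint_left.1 h1 hqseg (by rw [h0]; exact left_mem_segment ℝ _ _)
          have h3 : u t ≠ v z0 := fun h0 =>
            Set.disjoint_left.1 h1 hqseg (by rw [h0]; exact right_mem_segment ℝ _ _)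
          obtain ⟨ρ, hρ, h4⟩ := near_FK hP hF h2 h3
          exact far hρ h4
      · have h1 : phi z0 ≠ u t := fun h0 => h.sep t ht z0 hz0 hF (by rw [h0]; exact hqseg)
        obtain ⟨ρ, hρ, h4⟩ := near_regK hP hz0' hF h1
        exact far hρ h4
    have g2 : ∀ᶠ l in 𝓝 (u t), ∀ t' ∈ F, t' ≠ t → l ∉ segment ℝ (u t') (v t') := by
      rw [Finset.eventually_all]
      intro t' ht'
      by_cases hne : t' = t
      · exact Filter.Eventually.of_forall fun _ h0 => absurd hne h0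
      · have h1 := h.seg t ht t' ht' (Ne.symm hne)
        have h2 : IsClosed (segment ℝ (u t') (v t')) := by
          rw [← convexHull_pair]
          exact ((Set.toFinite {u t', v t'}).isCompact_convexHull ℝ).isClosed
        filter_upwards [h2.isOpen_compl.mem_nhds (Set.disjoint_left.1 h1 hqseg)] with l hl _
        exact hl
    filter_upwards [g1, g2] with l hl1 hl2
    constructor
    · rintro (⟨z, ⟨hz, hzF⟩, hzl⟩ | hl)
      · exact hl1 z hz (mem_sphere_zero_iff_norm.1 hz) (fun h0 => hzF (Finset.mem_coe.2 h0)) hzl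
      · obtain ⟨t', ht', hl'⟩ := mem_iUnion₂.1 hl
        by_cases hne : t' = t
        · subst hne
          rw [← he, segment_same, mem_singleton_iff] at hl'
          rw [hl']
          exact Or.inl ⟨0, ⟨le_rfl, hd.le⟩, z1⟩
        · exact absurd hl' (hl2 t' ht' hne)
    · rintro (⟨x, hx, rfl⟩ | ⟨x, hx, rfl⟩)
      · rcases hx.1.eq_or_lt with hx0 | hx0
        · rw [← hx0, z1]
          exact hqK
        · rw [a1' x ⟨hx0, hx.2⟩]
          exact hmem _ (by rw [abs_neg, abs_of_pos hx0]; exact hx.2.trans hdr) (by linarith)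
      · rcases hx.1.eq_or_lt with hx0 | hx0
        · rw [← hx0, z2]
          exact hqK
        · rw [a2' x ⟨hx0, hx.2⟩]
          exact hmem _ (by rw [abs_of_pos hx0]; exact hx.2.trans hdr) hx0.ne'
  -- the indices
  have hb := memLp_cv hP
  have hix : ∀ l ∉ Gam phi F u v, ∃ n : ℤ, Ix phi l n := fun l hl => by
    obtain ⟨n, hn'⟩ := TBirK.exists_wj hP hl
    exact ⟨n, TBirK.wj_ix hP hn'⟩
  have hkey : ∀ N ∈ 𝓝 (u t), ∃ (m : ℤ) (l1 l2 : ℂ), l1 ∈ N ∧ l2 ∈ N ∧ l1 ∉ Gam phi F u v ∧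
      l2 ∉ Gam phi F u v ∧ Ix phi l1 (m + 1) ∧ Ix phi l2 m := by
    intro N hN
    have h1 : Tendsto k2 (𝓝[>] 0) (𝓝 (u t)) := by
      have h2 := (c2.mono i2) 0 ⟨le_rfl, hd.le⟩
      have h3 : Tendsto k2 (𝓝[Icc 0 d] 0) (𝓝 (k2 0)) := h2
      rw [z2] at h3
      refine h3.mono_left ?_
      rw [← nhdsWithin_Ioc_eq_nhdsGT hd]
      exact nhdsWithin_mono _ Ioc_subset_Icc_self
    obtain ⟨N', hN', hN'o, hqN'⟩ := _root_.mem_nhds_iff.1 hN
    have h4 : ∀ᶠ x : ℝ in 𝓝[>] 0, k2 x ∈ N' := h1.eventually (hN'o.mem_nhds hqN')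
    have h5 : ∀ᶠ x : ℝ in 𝓝[>] 0, x ∈ Ioc 0 d := by
      exact Ioc_mem_nhdsGT hd
    obtain ⟨x, hx1, hx2⟩ := (h4.and h5).exists
    have hxr : |x| ≤ r := by rw [abs_of_pos hx2.1]; exact hx2.2.trans hdr
    obtain ⟨w, hw⟩ : ∃ w, w = t * E x := ⟨_, rfl⟩
    have hwm : w ∈ sphere (0 : ℂ) 1 := by rw [hw]; exact nb_E_mem hn x
    obtain ⟨hwF, hwu⟩ := hrF x hxr hx2.1.ne'
    rw [← hw] at hwF hwu
    rw [a2' x hx2, ← hw] at hx1
    have hws : ∀ t' ∈ F, phi w ∉ segment ℝ (u t') (v t') := fun t' ht' => h.sep t' ht' w hwm hwF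
    have hwn := (hrF' x hxr hx2.1.ne').2
    rw [← hw] at hwn
    obtain ⟨m, A', B', -, -, hA', hB', hcA, hcB, -⟩ :=
      sides_reg h.toPwC (mem_sphere_zero_iff_norm.1 hwm) hwF hws hwu hwn
    have h6 : ∀ᶠ l in 𝓝 (phi w), ∀ t' ∈ F, l ∉ segment ℝ (u t') (v t') := by
      rw [Finset.eventually_all]
      intro t' ht'
      have h2 : IsClosed (segment ℝ (u t') (v t')) := by
        rw [← convexHull_pair]
        exact ((Set.toFinite {u t', v t'}).isCompact_convexHull ℝ).isClosed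
      exact h2.isOpen_compl.mem_nhds (hws t' ht')
    have h7 : N' ∩ {l | ∀ t' ∈ F, l ∉ segment ℝ (u t') (v t')} ∈ 𝓝 (phi w) :=
      inter_mem (hN'o.mem_nhds hx1) h6
    have h8 : ∀ l n, Ix phi l n → (∀ t' ∈ F, l ∉ segment ℝ (u t') (v t')) →
        l ∉ Gam phi F u v := by
      rintro l n hl1 hl2 (⟨z, ⟨hz, hzF⟩, hzl⟩ | hl)
      · exact ne_valK hP hl1 (mem_sphere_zero_iff_norm.1 hz)
          (fun h0 => hzF (Finset.mem_coe.2 h0)) hzl
      · obtain ⟨t', ht', hl'⟩ := mem_iUnion₂.1 hl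
        exact hl2 t' ht' hl'
    obtain ⟨l1, ⟨hl1, hl1s⟩, hl1'⟩ := mem_closure_iff_nhds.1 hcA _ h7
    obtain ⟨l2, ⟨hl2, hl2s⟩, hl2'⟩ := mem_closure_iff_nhds.1 hcB _ h7
    exact ⟨m, l1, l2, hN' hl1, hN' hl2, h8 l1 _ (hA' l1 hl1') hl1s, h8 l2 _ (hB' l2 hl2') hl2s,
      hA' l1 hl1', hB' l2 hl2'⟩
  exact sides_two hb hix hd (c1.mono i1) (c2.mono i2) z1 z2 (m1.mono i1) (m2.mono i2) hdis hK hkey

end Sb

theorem bc_sides {phi : ℂ → ℂ} {F : Finset ℂ} {u v : ℂ → ℂ} {q t : ℂ} (h : BCross phi F u v)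
    (ht : t ∈ F) (hq : q ∈ segment ℝ (u t) (v t)) : ∃ m : ℤ, Sides phi (Gam phi F u v) q m := by
  by_cases he : u t = v t
  · rw [he, segment_same] at hq
    rw [mem_singleton_iff.1 hq, ← he]
    exact sb_corner h ht he
  · by_cases h1 : q = u t
    · rw [h1]
      exact sb_left h ht he
    · by_cases h2 : q = v t
      · rw [h2]
        exact sb_right h ht he
      · exact sb_open h ht hq h1 h2

end Pool.Agent.TBirN
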